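import Mathlib

namespace Pool.Agent.W_MP_b723a0_ag

/-- `κ` is a model of the union of the finite fields `F_{p^s}` with `s` prime to `ℓ`. -/
structure IsKap (p ℓ : ℕ) (κ : Type*) [Field κ] : Prop where
  exists_pow : ∀ x : κ, ∃ s : ℕ, ¬ ℓ ∣ s ∧ x ^ p ^ s = x
  splits : ∀ s : ℕ, ¬ ℓ ∣ s → (Polynomial.X ^ p ^ s - Polynomial.X : Polynomial κ).Splits

/-- The map `ℤ_p = W(F_p) → W(A)` for a ring `A` of characteristic `p`. -/
noncomputable def zpToWitt (p : ℕ) [Fact p.Prime] (A : Type*) [CommRing A] [CharP A p] :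
    ℤ_[p] →+* WittVector p A :=
  (WittVector.map (ZMod.castHom (dvd_refl p) A)).comp (WittVector.equiv p).symm.toRingHom

/-- Newton–Hensel lifting with respect to `p`. -/
def NewtonHensel (p : ℕ) (R : Type*) [CommRing R] : Prop :=
  ∀ (g : Polynomial R) (a : R) (k m : ℕ), g.derivative.eval a ∣ (p : R) ^ k →
    (p : R) ^ (2 * k + 1 + m) ∣ g.eval a →
    ∃ b : R, g.eval b = 0 ∧ (p : R) ^ (k + 1 + m) ∣ b - a

/-- `R` is a discrete valuation ring with uniformizer `p` and Newton–Hensel lifting. -/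
structure PVal (p : ℕ) (R : Type*) [CommRing R] : Prop where
  prime : Prime (p : R)
  unit : ∀ u : R, ¬ (p : R) ∣ u → IsUnit u
  hensel : NewtonHensel p R

/-- The point of `W(A)^σ` with Teichmüller digits `y`. -/
noncomputable def digitPoint (p : ℕ) [Fact p.Prime] {A : Type*} [CommRing A] (m : ℕ)
    {σ : Type*} (y : Fin m × σ → A) : σ → WittVector p A :=
  fun i => ∑ j : Fin m, (p : WittVector p A) ^ (j : ℕ) * WittVector.teichmuller p (y (j, i))

/-- Degree `m` part of an ideal of polynomials. -/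
noncomputable def idealDeg {κ : Type*} [Field κ] {σ : Type*} (I : Ideal (MvPolynomial σ κ))
    (m : ℕ) : Submodule κ (MvPolynomial σ κ) :=
  MvPolynomial.homogeneousSubmodule σ κ m ⊓ I.restrictScalars κ

/-- Homogeneous ideals of a polynomial ring. -/
def IsHomIdeal {κ : Type*} [Field κ] {σ : Type*} (I : Ideal (MvPolynomial σ κ)) : Prop :=
  ∀ g ∈ I, ∀ m : ℕ, MvPolynomial.homogeneousComponent m g ∈ I

/-- `O` has a basis `b` over the polynomial ring `k[T]`. -/
structure PolyBasis (k : Type*) (O : Type*) [Field k] [CommRing O] [Algebra k O] (e : ℕ) where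
  T : O
  b : Fin e → O
  bij : Function.Bijective (fun c : Fin e → Polynomial k =>
    ∑ i, Polynomial.aeval T (c i) * b i)

end Pool.Agent.W_MP_b723a0_ag
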