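import Mathlib
import Pool.Agent.W_MP_b723a0_ag.Defs

open scoped TensorProduct

namespace Pool.Agent.W_MP_b723a0_ag

/-- If `M/F` is finite Galois and `L` is generated by the images of `K` and `M`, then the degree
of `L/K` divides the degree of `M/F`. -/
theorem finrank_dvd_of_sup_eq_top (F K M L : Type) [Field F] [Field K] [Field M] [Field L]
    [Algebra F K] [Algebra F M] [Algebra F L] [Algebra K L] [Algebra M L]
    [IsScalarTower F K L] [IsScalarTower F M L] [FiniteDimensional F M] [IsGalois F M]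
    (h : (IsScalarTower.toAlgHom F M L).fieldRange ⊔ (IsScalarTower.toAlgHom F K L).fieldRange
      = ⊤) :
    Module.finrank K L ∣ Module.finrank F M := by
  set M₁ : IntermediateField F L := (IsScalarTower.toAlgHom F M L).fieldRange with hM₁
  set K₁ : IntermediateField F L := (IsScalarTower.toAlgHom F K L).fieldRange with hK₁
  let eM : M ≃ₐ[F] M₁ := AlgEquiv.ofInjectiveField (IsScalarTower.toAlgHom F M L)
  let eK : K ≃ₐ[F] K₁ := AlgEquiv.ofInjectiveField (IsScalarTower.toAlgHom F K L)
  have : IsGalois F M₁ := IsGalois.of_algEquiv eM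
  have : FiniteDimensional F M₁ := Module.Finite.equiv eM.toLinearEquiv
  have hG : IsGalois K₁ L := IsGalois.sup_right M₁ K₁ h
  have hinj := IntermediateField.restrictRestrictAlgEquivMapHom_injective M₁ K₁ h
  have hdvd : Nat.card (L ≃ₐ[K₁] L) ∣ Nat.card (M₁ ≃ₐ[F] M₁) :=
    Subgroup.card_dvd_of_injective _ hinj
  have hfinG : Finite (L ≃ₐ[K₁] L) := Finite.of_injective _ hinj
  have h1 : Module.finrank F M = Module.finrank F M₁ := LinearEquiv.finrank_eq eM.toLinearEquiv
  have h2 : Module.finrank K L = Module.finrank K₁ L := by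
    refine Algebra.finrank_eq_of_equiv_equiv eK.toRingEquiv (RingEquiv.refl L) ?_
    ext x
    rfl
  have hfd : FiniteDimensional K₁ L := by
    have := IsGalois.finiteDimensional_of_finite K₁ L
    exact this
  rw [h1, h2, ← IsGalois.card_aut_eq_finrank F M₁, ← IsGalois.card_aut_eq_finrank K₁ L]
  exact hdvd

theorem exists_compositum (F K M : Type) [Field F] [Field K] [Field M] [Algebra F K]
    [Algebra F M] [FiniteDimensional F M] [IsGalois F M] (y : K ⊗[F] M) (hy : y ≠ 0) :
    ∃ (L : Type) (_ : Field L) (_ : Algebra K L) (φ : K ⊗[F] M →ₐ[K] L),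
      FiniteDimensional K L ∧ Module.finrank K L ∣ Module.finrank F M ∧ φ y ≠ 0 := by
  have : Algebra.FormallyUnramified F M := Algebra.FormallyUnramified.of_isSeparable F M
  have : IsReduced (K ⊗[F] M) := Algebra.FormallyUnramified.isReduced_of_field K (K ⊗[F] M)
  have : IsArtinianRing (K ⊗[F] M) := IsArtinianRing.of_finite K _
  have hnil : ¬ IsNilpotent y := fun h => hy h.eq_zero
  rw [nilpotent_iff_mem_prime] at hnil
  push Not at hnil
  obtain ⟨P, hP, hyP⟩ := hnil
  have hmax : P.IsMaximal := IsArtinianRing.isMaximal_of_isPrime P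
  letI : Field ((K ⊗[F] M) ⧸ P) := Ideal.Quotient.field P
  letI : Algebra M ((K ⊗[F] M) ⧸ P) :=
    (((Ideal.Quotient.mkₐ F P).comp
      (Algebra.TensorProduct.includeRight (R := F) (A := K) (B := M))).toRingHom).toAlgebra
  haveI : IsScalarTower F M ((K ⊗[F] M) ⧸ P) := IsScalarTower.of_algebraMap_eq (fun x => by
    change _ = ((Ideal.Quotient.mkₐ F P).comp
      (Algebra.TensorProduct.includeRight (R := F) (A := K) (B := M))) (algebraMap F M x)
    rw [AlgHom.commutes])
  refine ⟨(K ⊗[F] M) ⧸ P, inferInstance, inferInstance, Ideal.Quotient.mkₐ K P, ?_, ?_, ?_⟩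
  · infer_instance
  · refine finrank_dvd_of_sup_eq_top F K M _ ?_
    rw [eq_top_iff]
    intro x _
    obtain ⟨z, rfl⟩ := Ideal.Quotient.mk_surjective x
    induction z using TensorProduct.induction_on with
    | zero => rw [map_zero]; exact zero_mem _
    | add a b ha hb => rw [map_add]; exact add_mem (ha trivial) (hb trivial)
    | tmul a b =>
      have : Ideal.Quotient.mk P (a ⊗ₜ[F] b) =
          Ideal.Quotient.mk P (1 ⊗ₜ[F] b) * Ideal.Quotient.mk P (a ⊗ₜ[F] 1) := by
        rw [← map_mul, Algebra.TensorProduct.tmul_mul_tmul, one_mul, mul_one]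
      rw [this]
      refine mul_mem ?_ ?_
      · refine (le_sup_left : _ ≤ _ ⊔ (IsScalarTower.toAlgHom F K ((K ⊗[F] M) ⧸ P)).fieldRange) ?_
        exact ⟨b, rfl⟩
      · refine (le_sup_right : (IsScalarTower.toAlgHom F K ((K ⊗[F] M) ⧸ P)).fieldRange ≤ _) ?_
        exact ⟨a, rfl⟩
  · intro h
    exact hyP (Ideal.Quotient.eq_zero_iff_mem.mp h)

end Pool.Agent.W_MP_b723a0_ag
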