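import Mathlib
import Pool.Agent.W_MP_b723a0_ag.Defs

open scoped TensorProduct

namespace Pool.Agent.W_MP_b723a0_ag

/-- A Witt vector is its Teichmüller part plus the Verschiebung of its shift. -/
theorem witt_eq_teichmuller_add_verschiebung (p : ℕ) [Fact p.Prime] {A : Type*} [CommRing A]
    (w : WittVector p A) :
    w = WittVector.teichmuller p (w.coeff 0) +
      WittVector.verschiebung (WittVector.mk p fun n => w.coeff (n + 1)) := by
  ext n
  rw [WittVector.coeff_add_of_disjoint]
  · cases n with
    | zero =>
      simp [WittVector.teichmuller_coeff_zero, WittVector.verschiebung_coeff_zero]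
    | succ n =>
      rw [WittVector.teichmuller_coeff_pos p _ _ (Nat.succ_pos n),
        WittVector.verschiebung_coeff_add_one]
      simp
  · intro k
    cases k with
    | zero => right; exact WittVector.verschiebung_coeff_zero _
    | succ k => left; exact WittVector.teichmuller_coeff_pos p _ _ (Nat.succ_pos k)

theorem frobenius_teichmuller (p : ℕ) [Fact p.Prime] {A : Type*} [CommRing A] [CharP A p]
    (c : A) :
    WittVector.frobenius (WittVector.teichmuller p c) = WittVector.teichmuller p (c ^ p) := by
  ext n
  rw [WittVector.coeff_frobenius_charP]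
  cases n with
  | zero => rw [WittVector.teichmuller_coeff_zero, WittVector.teichmuller_coeff_zero]
  | succ n =>
    rw [WittVector.teichmuller_coeff_pos p _ _ (Nat.succ_pos n),
      WittVector.teichmuller_coeff_pos p _ _ (Nat.succ_pos n),
      zero_pow (Nat.Prime.ne_zero Fact.out)]

/-- Multiplication by a Teichmüller representative on coefficients. -/
theorem coeff_teichmuller_mul (p : ℕ) [Fact p.Prime] {A : Type*} [CommRing A] [CharP A p]
    (i : ℕ) : ∀ (c : A) (w : WittVector p A),
    (WittVector.teichmuller p c * w).coeff i = c ^ p ^ i * w.coeff i := by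
  induction i with
  | zero =>
    intro c w
    rw [WittVector.mul_coeff_zero, WittVector.teichmuller_coeff_zero, pow_zero, pow_one]
  | succ i ih =>
    intro c w
    set w' : WittVector p A := WittVector.mk p fun n => w.coeff (n + 1) with hw'
    have h1 : WittVector.teichmuller p c * w =
        WittVector.teichmuller p (c * w.coeff 0) +
          WittVector.verschiebung (WittVector.teichmuller p (c ^ p) * w') := by
      conv_lhs => rw [witt_eq_teichmuller_add_verschiebung p w]
      rw [mul_add, ← map_mul, ← frobenius_teichmuller, mul_comm (WittVector.frobenius _) w',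
        WittVector.verschiebung_mul_frobenius, mul_comm (WittVector.verschiebung w')]
    rw [h1, WittVector.coeff_add_of_disjoint]
    · rw [WittVector.teichmuller_coeff_pos p _ _ (Nat.succ_pos i),
        WittVector.verschiebung_coeff_add_one, ih, hw']
      simp only [WittVector.coeff_mk, zero_add]
      rw [← pow_mul, pow_succ']
    · intro k
      cases k with
      | zero => right; exact WittVector.verschiebung_coeff_zero _
      | succ k => left; exact WittVector.teichmuller_coeff_pos p _ _ (Nat.succ_pos k)

theorem map_comp_zpToWitt (p : ℕ) [Fact p.Prime] {A B : Type*} [CommRing A] [CharP A p]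
    [CommRing B] [CharP B p] (φ : A →+* B) :
    (WittVector.map φ).comp (zpToWitt p A) = zpToWitt p B := by
  ext x n
  simp only [zpToWitt, RingHom.comp_apply, WittVector.map_coeff]
  rw [← RingHom.comp_apply]
  congr 1
  exact Subsingleton.elim _ _

theorem map_digitPoint (p : ℕ) [Fact p.Prime] {A B : Type*} [CommRing A]
    [CommRing B] (φ : A →+* B) (m : ℕ) {σ : Type*} (y : Fin m × σ → A) (j : σ) :
    WittVector.map φ (digitPoint p m y j) = digitPoint p m (fun q => φ (y q)) j := by
  simp only [digitPoint, map_sum, map_mul, map_pow, map_natCast, WittVector.map_teichmuller]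

theorem map_eval_digitPoint (p : ℕ) [Fact p.Prime] {A B : Type*} [CommRing A] [CharP A p]
    [CommRing B] [CharP B p] (φ : A →+* B) (m : ℕ) {σ : Type*} (y : Fin m × σ → A)
    (f : MvPolynomial σ ℤ_[p]) :
    WittVector.map φ (MvPolynomial.eval₂ (zpToWitt p A) (digitPoint p m y) f) =
      MvPolynomial.eval₂ (zpToWitt p B) (digitPoint p m (fun q => φ (y q))) f := by
  rw [MvPolynomial.eval₂_comp_left, map_comp_zpToWitt]
  congr 1
  funext j
  exact map_digitPoint p φ m y j

theorem digitPoint_mul (p : ℕ) [Fact p.Prime] {A : Type*} [CommRing A] (m : ℕ) {σ : Type*}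
    (c : A) (y : Fin m × σ → A) (j : σ) :
    digitPoint p m (fun q => c * y q) j =
      WittVector.teichmuller p c * digitPoint p m y j := by
  simp only [digitPoint, map_mul, Finset.mul_sum]
  refine Finset.sum_congr rfl fun k _ => ?_
  ring

theorem eval₂_smul_of_isHomogeneous {R S : Type*} [CommRing R] [CommRing S] {σ : Type*}
    (g : R →+* S) (x : σ → S) (c : S) (f : MvPolynomial σ R) (d : ℕ)
    (hf : f.IsHomogeneous d) :
    MvPolynomial.eval₂ g (fun j => c * x j) f = c ^ d * MvPolynomial.eval₂ g x f := by
  rw [MvPolynomial.eval₂_eq, MvPolynomial.eval₂_eq, Finset.mul_sum]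
  refine Finset.sum_congr rfl fun α hα => ?_
  have h1 : ∑ j ∈ α.support, α j = d := by
    have := hf (MvPolynomial.mem_support_iff.mp hα)
    rw [← this, Finsupp.weight_apply, Finsupp.sum]
    simp
  have h2 : ∏ j ∈ α.support, (c * x j) ^ α j = c ^ d * ∏ j ∈ α.support, x j ^ α j := by
    rw [← h1, ← Finset.prod_pow_eq_pow_sum, ← Finset.prod_mul_distrib]
    exact Finset.prod_congr rfl fun j _ => mul_pow _ _ _
  rw [h2]
  ring

/-- A polynomial that scales like a form is a form. -/
theorem isHomogeneous_of_scaling {κ : Type*} [Field κ] {τ : Type*} (F : MvPolynomial τ κ)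
    (N : ℕ)
    (h : MvPolynomial.eval₂Hom (Polynomial.C.comp MvPolynomial.C)
        (fun q => (Polynomial.X : Polynomial (MvPolynomial τ κ)) *
          Polynomial.C (MvPolynomial.X q)) F = Polynomial.X ^ N * Polynomial.C F) :
    F.IsHomogeneous N := by
  classical
  have key : ∀ (G : MvPolynomial τ κ) (α : τ →₀ ℕ),
      ((MvPolynomial.eval₂Hom (Polynomial.C.comp MvPolynomial.C)
        (fun q => (Polynomial.X : Polynomial (MvPolynomial τ κ)) *
          Polynomial.C (MvPolynomial.X q)) G).coeff (Finsupp.weight 1 α)).coeff α =
        G.coeff α := by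
    intro G α
    induction G using MvPolynomial.induction_on' with
    | monomial β a =>
      have hm : MvPolynomial.eval₂Hom (Polynomial.C.comp MvPolynomial.C)
        (fun q => (Polynomial.X : Polynomial (MvPolynomial τ κ)) *
          Polynomial.C (MvPolynomial.X q)) (MvPolynomial.monomial β a) =
          Polynomial.X ^ (Finsupp.weight 1 β) * Polynomial.C (MvPolynomial.monomial β a) := by
        rw [MvPolynomial.coe_eval₂Hom, MvPolynomial.eval₂_monomial,
          MvPolynomial.monomial_eq (a := a)]
        simp only [mul_pow, Finsupp.prod_mul, RingHom.comp_apply, map_mul]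
        have h3 : (β.prod fun q e => (Polynomial.X : Polynomial (MvPolynomial τ κ)) ^ e) =
            Polynomial.X ^ (Finsupp.weight 1 β) := by
          rw [Finsupp.prod, Finset.prod_pow_eq_pow_sum, Finsupp.weight_apply, Finsupp.sum]
          simp
        have h4 : (β.prod fun q e => (Polynomial.C (MvPolynomial.X q) :
            Polynomial (MvPolynomial τ κ)) ^ e) =
            Polynomial.C (β.prod fun q e => MvPolynomial.X q ^ e) := by
          rw [Finsupp.prod, Finsupp.prod, map_prod]
          simp
        rw [h3, h4]
        ring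
      rw [hm, Polynomial.coeff_X_pow_mul', MvPolynomial.coeff_monomial]
      by_cases hβ : β = α
      · subst hβ
        simp
      · rw [if_neg hβ]
        split_ifs with h5
        · rw [Polynomial.coeff_C]
          split_ifs with h6
          · rw [MvPolynomial.coeff_monomial, if_neg hβ]
          · simp
        · simp
    | add G₁ G₂ h₁ h₂ =>
      rw [map_add, Polynomial.coeff_add, MvPolynomial.coeff_add, h₁, h₂,
        MvPolynomial.coeff_add]
  intro α hα
  by_contra hne
  apply hα
  rw [← key F α, h, Polynomial.coeff_X_pow_mul']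
  split_ifs with h5
  · rw [Polynomial.coeff_C, if_neg]
    · simp
    · intro h6
      exact hne (le_antisymm (Nat.sub_eq_zero_iff_le.mp h6) h5)
  · simp

theorem exists_digit_forms (p : ℕ) [Fact p.Prime] (κ : Type) [Field κ] [CharP κ p]
    (σ : Type) [Fintype σ] (f : MvPolynomial σ ℤ_[p]) (d : ℕ)
    (hf : f.IsHomogeneous d) (m i : ℕ) :
    ∃ F : MvPolynomial (Fin m × σ) κ, F.IsHomogeneous (d * p ^ i) ∧
      ∀ y : Fin m × σ → κ,
        (MvPolynomial.eval₂ (zpToWitt p κ) (digitPoint p m y) f).coeff i =
          MvPolynomial.eval y F := by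
  have hA : CharP (MvPolynomial (Fin m × σ) κ) p := inferInstance
  have hB : CharP (Polynomial (MvPolynomial (Fin m × σ) κ)) p := inferInstance
  refine ⟨(MvPolynomial.eval₂ (zpToWitt p (MvPolynomial (Fin m × σ) κ))
    (digitPoint p m MvPolynomial.X) f).coeff i, ?_, ?_⟩
  · apply isHomogeneous_of_scaling
    have h0 := congrArg (fun w => WittVector.coeff w i) (map_eval_digitPoint p
      (MvPolynomial.eval₂Hom (Polynomial.C.comp MvPolynomial.C)
        (fun q => (Polynomial.X : Polynomial (MvPolynomial (Fin m × σ) κ)) *
          Polynomial.C (MvPolynomial.X q))) m MvPolynomial.X f)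
    simp only [WittVector.map_coeff] at h0
    rw [h0]
    have h1 : (fun q : Fin m × σ => MvPolynomial.eval₂Hom (Polynomial.C.comp MvPolynomial.C)
        (fun q => (Polynomial.X : Polynomial (MvPolynomial (Fin m × σ) κ)) *
          Polynomial.C (MvPolynomial.X q)) (MvPolynomial.X q)) =
        fun q => (Polynomial.X : Polynomial (MvPolynomial (Fin m × σ) κ)) *
          Polynomial.C (MvPolynomial.X q) := by
      funext q
      simp
    have h2 : digitPoint p m (fun q : Fin m × σ =>
        (Polynomial.X : Polynomial (MvPolynomial (Fin m × σ) κ)) *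
          Polynomial.C (MvPolynomial.X q : MvPolynomial (Fin m × σ) κ)) =
        fun j => WittVector.teichmuller p (Polynomial.X : Polynomial (MvPolynomial (Fin m × σ) κ)) *
          digitPoint p m (fun q : Fin m × σ =>
            Polynomial.C (MvPolynomial.X q : MvPolynomial (Fin m × σ) κ)) j := by
      funext j
      exact digitPoint_mul p m _ _ j
    have h3 := map_eval_digitPoint p (Polynomial.C : MvPolynomial (Fin m × σ) κ →+*
      Polynomial (MvPolynomial (Fin m × σ) κ)) m MvPolynomial.X f
    rw [h1, h2, eval₂_smul_of_isHomogeneous _ _ _ f d hf, ← map_pow, coeff_teichmuller_mul,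
      ← h3, WittVector.map_coeff, ← pow_mul]
  · intro y
    rw [← WittVector.map_coeff, map_eval_digitPoint]
    simp

end Pool.Agent.W_MP_b723a0_ag
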