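import Mathlib
import Pool.Agent.W_MP_b723a0_ag.Defs

open scoped TensorProduct

namespace Pool.Agent.W_MP_b723a0_ag

section aux

open Polynomial

/-- The set of solutions of `x ^ p ^ s = x` in `κ`. -/
theorem IsKap.ncard_fix {p ℓ : ℕ} [Fact p.Prime] (hℓ : ℓ.Prime) {κ : Type} [Field κ] [CharP κ p]
    (hκ : IsKap p ℓ κ) {s : ℕ} (hs : ¬ ℓ ∣ s) : {x : κ | x ^ p ^ s = x}.Finite ∧
      {x : κ | x ^ p ^ s = x}.ncard = p ^ s := by
  classical
  have hp : p.Prime := Fact.out
  have hs0 : s ≠ 0 := fun h => hs (h ▸ dvd_zero ℓ)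
  set P : κ[X] := X ^ p ^ s - X with hP
  have hP0 : P ≠ 0 := FiniteField.X_pow_card_pow_sub_X_ne_zero κ hs0 hp.one_lt
  have hdeg : P.natDegree = p ^ s := FiniteField.X_pow_card_pow_sub_X_natDegree_eq κ hs0 hp.one_lt
  have hsep : P.Separable := galois_poly_separable p (p ^ s) (dvd_pow_self p hs0)
  have hspl : P.Splits := hκ.splits s hs
  have hset : {x : κ | x ^ p ^ s = x} = (P.roots.toFinset : Set κ) := by
    ext x
    simp only [Set.mem_ofPred_eq, Finset.mem_coe, Multiset.mem_toFinset, mem_roots hP0, IsRoot.def]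
    simp [hP, sub_eq_zero]
  rw [hset]
  refine ⟨Finset.finite_toSet _, ?_⟩
  rw [Set.ncard_coe_finset, Multiset.toFinset_card_of_nodup (nodup_roots hsep), ← hdeg]
  exact (splits_iff_card_roots.1 hspl)

end aux

theorem IsKap.infinite {p ℓ : ℕ} [Fact p.Prime] (hℓ : ℓ.Prime) {κ : Type} [Field κ] [CharP κ p]
    (hκ : IsKap p ℓ κ) : Infinite κ := by
  have hp : p.Prime := Fact.out
  by_contra hfin
  rw [not_infinite_iff_finite] at hfin
  have hs : ¬ ℓ ∣ (ℓ * Nat.card κ + 1) := by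
    intro h
    have h1 : ℓ ∣ 1 := (Nat.dvd_add_right (dvd_mul_right ℓ (Nat.card κ))).1 h
    exact hℓ.one_lt.ne' (Nat.dvd_one.1 h1)
  have h1 := (hκ.ncard_fix hℓ hs).2
  have h2 : {x : κ | x ^ p ^ (ℓ * Nat.card κ + 1) = x}.ncard ≤ Nat.card κ := Set.ncard_le_card _
  rw [h1] at h2
  have h3 : ℓ * Nat.card κ + 1 < p ^ (ℓ * Nat.card κ + 1) := Nat.lt_pow_self hp.one_lt
  have h4 : Nat.card κ ≤ ℓ * Nat.card κ := Nat.le_mul_of_pos_left _ hℓ.pos
  omega

theorem IsKap.perfectField {p ℓ : ℕ} [Fact p.Prime] (hℓ : ℓ.Prime) {κ : Type} [Field κ]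
    [CharP κ p] (hκ : IsKap p ℓ κ) : PerfectField κ := by
  have hp : p.Prime := Fact.out
  have : ExpChar κ p := ExpChar.prime hp
  have : PerfectRing κ p := by
    apply PerfectRing.ofSurjective
    intro x
    obtain ⟨s, hs, hx⟩ := hκ.exists_pow x
    have hs0 : s ≠ 0 := fun h => hs (h ▸ dvd_zero ℓ)
    obtain ⟨t, rfl⟩ := Nat.exists_eq_succ_of_ne_zero hs0
    refine ⟨x ^ p ^ t, ?_⟩
    rw [frobenius_def, ← pow_mul, ← pow_succ, hx]
  exact PerfectRing.toPerfectField κ p

theorem IsKap.exists_subfield {p ℓ : ℕ} [Fact p.Prime] (hℓ : ℓ.Prime) {κ : Type} [Field κ]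
    [CharP κ p] (hκ : IsKap p ℓ κ) (S : Set κ) (hS : S.Finite) :
    ∃ (s : ℕ) (E : Subfield κ), ¬ ℓ ∣ s ∧ S ⊆ E ∧ Nat.card E = p ^ s := by
  classical
  have hp : p.Prime := Fact.out
  have : ExpChar κ p := ExpChar.prime hp
  choose e he hex using hκ.exists_pow
  refine ⟨∏ x ∈ hS.toFinset, e x,
    (iterateFrobenius κ p (∏ x ∈ hS.toFinset, e x)).eqLocusField (RingHom.id κ), ?_, ?_, ?_⟩
  · intro h
    obtain ⟨x, -, hx⟩ := (Prime.dvd_finsetProd_iff hℓ.prime _).1 h
    exact he x hx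
  · intro x hx
    show x ^ p ^ (∏ x ∈ hS.toFinset, e x) = x
    obtain ⟨m, hm⟩ : e x ∣ ∏ x ∈ hS.toFinset, e x :=
      Finset.dvd_prod_of_mem e (hS.mem_toFinset.2 hx)
    rw [hm]
    clear hm
    induction m with
    | zero => simp
    | succ m ih => rw [Nat.mul_succ, pow_add, pow_mul, ih, hex]
  · have hs : ¬ ℓ ∣ ∏ x ∈ hS.toFinset, e x := by
      intro h
      obtain ⟨x, -, hx⟩ := (Prime.dvd_finsetProd_iff hℓ.prime _).1 h
      exact he x hx
    have := (hκ.ncard_fix hℓ hs).2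
    rw [← this]
    rfl

/-- Every finite field of order `p ^ s` with `s` prime to `ℓ` embeds in `κ`, over any common
subfield `k`. -/
theorem IsKap.exists_embedding {p ℓ : ℕ} [Fact p.Prime] (hℓ : ℓ.Prime) {κ : Type} [Field κ]
    [CharP κ p] (hκ : IsKap p ℓ κ) (k : Type) [Field k] [Algebra k κ] (E : Type) [Field E]
    [Algebra k E] (s : ℕ) (hs : ¬ ℓ ∣ s) (hE : Nat.card E = p ^ s) :
    Nonempty (E →ₐ[k] κ) := by
  have hp : p.Prime := Fact.out
  have hs0 : s ≠ 0 := fun h => hs (h ▸ dvd_zero ℓ)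
  have : Finite E := Nat.finite_of_card_ne_zero (hE ▸ pow_ne_zero _ hp.ne_zero)
  have hspl := hκ.splits s hs
  refine IntermediateField.nonempty_algHom_of_splits fun x => ?_
  have hx : Polynomial.aeval x (Polynomial.X ^ p ^ s - Polynomial.X : Polynomial k) = 0 := by
    have : x ^ Nat.card E = x := by
      haveI := Fintype.ofFinite E
      rw [← Fintype.card_eq_nat_card]
      exact FiniteField.pow_card x
    rw [hE] at this
    simp [this]
  have hne : (Polynomial.X ^ p ^ s - Polynomial.X : Polynomial k) ≠ 0 :=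
    FiniteField.X_pow_card_pow_sub_X_ne_zero k hs0 hp.one_lt
  refine ⟨?_, ?_⟩
  · have : IsAlgebraic k x := ⟨_, hne, hx⟩
    exact this.isIntegral
  · refine Polynomial.Splits.of_dvd (g := (Polynomial.X ^ p ^ s - Polynomial.X : Polynomial k).map
      (algebraMap k κ)) ?_ ?_ ?_
    · simpa using hspl
    · exact (Polynomial.map_ne_zero_iff (algebraMap k κ).injective).2 hne
    · exact Polynomial.map_dvd _ (minpoly.dvd k x hx)

/-- A root of an irreducible polynomial over a finite field is fixed by a power of Frobenius. -/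
theorem pow_card_pow_natDegree_minpoly (E F : Type) [Field E] [Finite E] [Field F] [Algebra E F]
    (x : F) (hx : IsIntegral E x) : x ^ (Nat.card E) ^ (minpoly E x).natDegree = x := by
  have h := (minpoly.irreducible hx).natDegree_dvd_iff_dvd_X_pow_card_pow_sub_X.1 (dvd_refl _)
  have h2 := Polynomial.aeval_eq_zero_of_dvd_aeval_eq_zero h (minpoly.aeval E x)
  simpa [sub_eq_zero] using h2

theorem IsKap.irreducible_map {p ℓ : ℕ} [Fact p.Prime] (hℓ : ℓ.Prime) {κ : Type} [Field κ]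
    [CharP κ p] (hκ : IsKap p ℓ κ) (b : ℕ) (μ : Polynomial (ZMod p)) (hμ : Irreducible μ)
    (hdeg : μ.natDegree = ℓ ^ b) :
    Irreducible (μ.map (ZMod.castHom (dvd_refl p) κ)) := by
  classical
  have hp : p.Prime := Fact.out
  set μ' := μ.map (ZMod.castHom (dvd_refl p) κ) with hμ'
  have hμ'0 : μ' ≠ 0 :=
    (Polynomial.map_ne_zero_iff (ZMod.castHom (dvd_refl p) κ).injective).2 hμ.ne_zero
  have hdeg' : μ'.natDegree = ℓ ^ b := by
    rw [hμ', Polynomial.natDegree_map_eq_of_injective (ZMod.castHom (dvd_refl p) κ).injective, hdeg]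
  have hdpos : μ'.degree ≠ 0 := by
    intro h
    have := Polynomial.natDegree_eq_of_degree_eq_some h
    rw [hdeg'] at this
    exact (pow_ne_zero b hℓ.ne_zero) this
  obtain ⟨γ, hγ⟩ := IsAlgClosed.exists_aeval_eq_zero (AlgebraicClosure κ) μ' hdpos
  have hγint : IsIntegral κ γ := Algebra.IsIntegral.isIntegral γ
  set g := minpoly κ γ with hg
  have hgdvd : g ∣ μ' := minpoly.dvd κ γ hγ
  obtain ⟨s, E, hs, hSE, hE⟩ := hκ.exists_subfield hℓ (g.coeffs : Set κ) (Finset.finite_toSet _)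
  have : Finite E := Nat.finite_of_card_ne_zero (hE ▸ pow_ne_zero _ hp.ne_zero)
  obtain ⟨g₀, hg₀⟩ : ∃ g₀ : Polynomial E, g₀.map (algebraMap E κ) = g := by
    have : g ∈ Polynomial.lifts (algebraMap E κ) := by
      rw [Polynomial.lifts_iff_coeff_lifts]
      intro n
      by_cases h0 : g.coeff n = 0
      · exact ⟨0, by rw [h0, map_zero]⟩
      · have : g.coeff n ∈ E := hSE (by
          rw [Finset.mem_coe, Polynomial.mem_coeffs_iff]
          exact ⟨n, Polynomial.mem_support_iff.2 h0, rfl⟩)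
        exact ⟨⟨_, this⟩, rfl⟩
    exact (Polynomial.mem_lifts g).1 this
  have hg₀0 : g₀ ≠ 0 := by
    rintro rfl
    rw [Polynomial.map_zero] at hg₀
    exact minpoly.ne_zero hγint hg₀.symm
  have hg₀γ : Polynomial.aeval γ g₀ = 0 := by
    rw [← Polynomial.aeval_map_algebraMap κ, hg₀]
    exact minpoly.aeval κ γ
  have hγE : IsIntegral E γ := IsAlgebraic.isIntegral ⟨g₀, hg₀0, hg₀γ⟩
  have hle : (minpoly E γ).natDegree ≤ g.natDegree := by
    rw [← hg₀, Polynomial.natDegree_map]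
    exact Polynomial.natDegree_le_of_dvd (minpoly.dvd E γ hg₀γ) hg₀0
  have hpow := pow_card_pow_natDegree_minpoly E (AlgebraicClosure κ) γ hγE
  rw [hE, ← pow_mul] at hpow
  letI : Algebra (ZMod p) (AlgebraicClosure κ) :=
    ((algebraMap κ (AlgebraicClosure κ)).comp (ZMod.castHom (dvd_refl p) κ)).toAlgebra
  have hγμ : Polynomial.aeval γ μ = 0 := by
    rw [hμ', Polynomial.aeval_def, Polynomial.eval₂_map] at hγ
    exact hγ
  have hdvd : μ ∣ Polynomial.X ^ p ^ (s * (minpoly E γ).natDegree) - Polynomial.X := by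
    rw [← hμ.dvd_iff_aeval_eq_zero hγμ]
    simp [hpow]
  have hdvd2 : ℓ ^ b ∣ s * (minpoly E γ).natDegree := by
    rw [← hdeg]
    apply hμ.natDegree_dvd_of_dvd_X_pow_card_pow_sub_X
    rwa [Nat.card_zmod]
  have hcop : Nat.Coprime (ℓ ^ b) s :=
    Nat.Coprime.pow_left _ ((Nat.Prime.coprime_iff_not_dvd hℓ).2 hs)
  have hdvd3 : ℓ ^ b ∣ (minpoly E γ).natDegree := hcop.dvd_of_dvd_mul_left hdvd2
  have hle2 : ℓ ^ b ≤ (minpoly E γ).natDegree :=
    Nat.le_of_dvd (minpoly.natDegree_pos hγE) hdvd3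
  exact (Polynomial.associated_of_dvd_of_natDegree_le hgdvd hμ'0
    (by rw [hdeg']; exact hle2.trans hle)).irreducible (minpoly.irreducible hγint)

theorem exists_irreducible_natDegree (p n : ℕ) [Fact p.Prime] (hn : n ≠ 0) :
    ∃ μ : Polynomial (ZMod p), Irreducible μ ∧ μ.Monic ∧ μ.natDegree = n := by
  obtain ⟨α, hα⟩ := Field.exists_primitive_element (ZMod p) (GaloisField p n)
  have hint : IsIntegral (ZMod p) α := Algebra.IsIntegral.isIntegral α
  refine ⟨minpoly (ZMod p) α, minpoly.irreducible hint, minpoly.monic hint, ?_⟩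
  rw [← IntermediateField.adjoin.finrank hint, hα, IntermediateField.finrank_top',
    GaloisField.finrank p hn]

theorem IsKap.mem_of_algebraic {p ℓ : ℕ} [Fact p.Prime] (hℓ : ℓ.Prime) {κ : Type} [Field κ]
    [CharP κ p] (hκ : IsKap p ℓ κ) (μ : Polynomial (ZMod p)) (hμ : Irreducible μ)
    (hdeg : μ.natDegree = ℓ) (F : Type) [Field F] [Algebra κ F]
    (hroot : ∀ α : F, μ.eval₂ ((algebraMap κ F).comp (ZMod.castHom (dvd_refl p) κ)) α ≠ 0)
    (x : F) (hx : IsAlgebraic κ x) : ∃ c : κ, algebraMap κ F c = x := by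
  classical
  have hp : p.Prime := Fact.out
  letI : Algebra (ZMod p) κ := ZMod.algebra κ p
  have : CharP F p := charP_of_injective_algebraMap' κ p
  letI : Algebra (ZMod p) F := ((algebraMap κ F).comp (ZMod.castHom (dvd_refl p) κ)).toAlgebra
  have : IsScalarTower (ZMod p) κ F := IsScalarTower.of_algebraMap_eq' (Subsingleton.elim _ _)
  have : Algebra.IsAlgebraic (ZMod p) κ := by
    refine ⟨fun y => ?_⟩
    obtain ⟨s, hs, hy⟩ := hκ.exists_pow y
    have hs0 : s ≠ 0 := fun h => hs (h ▸ dvd_zero ℓ)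
    exact ⟨Polynomial.X ^ p ^ s - Polynomial.X,
      FiniteField.X_pow_card_pow_sub_X_ne_zero (ZMod p) hs0 hp.one_lt, by simp [hy]⟩
  have hxint : IsIntegral (ZMod p) x := (hx.restrictScalars (ZMod p)).isIntegral
  have hpow := pow_card_pow_natDegree_minpoly (ZMod p) F x hxint
  rw [Nat.card_zmod] at hpow
  by_cases hu : ℓ ∣ (minpoly (ZMod p) x).natDegree
  · exfalso
    have : Fact (Irreducible μ) := ⟨hμ⟩
    have : FiniteDimensional (ZMod p) (IntermediateField.adjoin (ZMod p) {x}) :=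
      IntermediateField.adjoin.finiteDimensional hxint
    have : Finite (IntermediateField.adjoin (ZMod p) {x}) :=
      Module.finite_of_finite (ZMod p)
    have h1 : Module.finrank (ZMod p) (AdjoinRoot μ) = ℓ := by
      rw [(AdjoinRoot.powerBasis hμ.ne_zero).finrank, AdjoinRoot.powerBasis_dim hμ.ne_zero, hdeg]
    have h2 : Module.finrank (ZMod p) (IntermediateField.adjoin (ZMod p) {x}) =
      (minpoly (ZMod p) x).natDegree := IntermediateField.adjoin.finrank hxint
    obtain ⟨φ⟩ := FiniteField.nonempty_algHom_of_finrank_dvd (F := ZMod p) (K := AdjoinRoot μ)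
      (L := IntermediateField.adjoin (ZMod p) {x}) (by rw [h1, h2]; exact hu)
    refine hroot ((φ (AdjoinRoot.root μ) : IntermediateField.adjoin (ZMod p) {x}) : F) ?_
    have h3 : Polynomial.aeval ((φ (AdjoinRoot.root μ) :
        IntermediateField.adjoin (ZMod p) {x}) : F) μ = 0 := by
      have h4 : Polynomial.aeval ((IntermediateField.val _).comp φ (AdjoinRoot.root μ)) μ
          = (0 : F) := by
        rw [Polynomial.aeval_algHom_apply, AdjoinRoot.aeval_eq, AdjoinRoot.mk_self, map_zero]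
      exact h4
    exact h3
  · have hspl := hκ.splits _ hu
    have hu0 : (minpoly (ZMod p) x).natDegree ≠ 0 := fun h => hu (h ▸ dvd_zero ℓ)
    have := hspl.mem_range_of_isRoot
      (FiniteField.X_pow_card_pow_sub_X_ne_zero κ hu0 hp.one_lt) (i := algebraMap κ F) (x := x)
      (by simp [Polynomial.IsRoot.def, hpow])
    exact this

end Pool.Agent.W_MP_b723a0_ag
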