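import Mathlib
import Pool.Agent.W_MP_b723a0_ag.Defs

open scoped TensorProduct

namespace Pool.Agent.W_MP_b723a0_ag

/-- `m ↦ C(m, n)` has period `ℓ ^ t` modulo `ℓ` when `n < ℓ ^ t`. -/
theorem choose_add_pow_modEq (ℓ n t : ℕ) (hℓ : ℓ.Prime) (ht : n < ℓ ^ t) (m : ℕ) :
    (m + ℓ ^ t).choose n ≡ m.choose n [MOD ℓ] := by
  rw [Nat.add_choose_eq, Finset.Nat.sum_antidiagonal_eq_sum_range_succ_mk,
    Finset.sum_range_succ]
  have h1 : (∑ k ∈ Finset.range n, m.choose k * (ℓ ^ t).choose (n - k)) ≡ 0 [MOD ℓ] := by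
    refine (Nat.modEq_zero_iff_dvd).2 (Finset.dvd_sum ?_)
    intro k hk
    rw [Finset.mem_range] at hk
    refine Dvd.dvd.mul_left ?_ _
    exact hℓ.dvd_choose_pow (by omega) (by omega)
  have h2 := h1.add_right (m.choose n * (ℓ ^ t).choose (n - n))
  simpa using h2

theorem choose_add_mul_pow_modEq (ℓ n t : ℕ) (hℓ : ℓ.Prime) (ht : n < ℓ ^ t) (m k : ℕ) :
    (m + k * ℓ ^ t).choose n ≡ m.choose n [MOD ℓ] := by
  induction k with
  | zero => simpa using Nat.ModEq.refl _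
  | succ k ih =>
    have h := choose_add_pow_modEq ℓ n t hℓ ht (m + k * ℓ ^ t)
    have e : m + (k + 1) * ℓ ^ t = m + k * ℓ ^ t + ℓ ^ t := by ring
    rw [e]
    exact h.trans ih

theorem choose_period (ℓ n E : ℕ) (hℓ : ℓ.Prime) (hE : 0 < E) (hn : ℓ ^ padicValNat ℓ E ≤ n)
    (m₀ : ℕ) (h : ∀ m, m₀ ≤ m → (m + E + n).choose n ≡ (m + n).choose n [MOD ℓ]) :
    False := by
  have : Fact ℓ.Prime := ⟨hℓ⟩
  obtain ⟨t, ht⟩ : ∃ t, n < ℓ ^ t := ⟨n, Nat.lt_pow_self hℓ.one_lt⟩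
  have hpos : 0 < ℓ ^ t := pow_pos hℓ.pos t
  -- period E for all M
  have hper : ∀ M, (M + E).choose n ≡ M.choose n [MOD ℓ] := by
    intro M
    have hk : m₀ + n ≤ (m₀ + n) * ℓ ^ t := Nat.le_mul_of_pos_right _ hpos
    obtain ⟨m, hm⟩ : ∃ m, M + (m₀ + n) * ℓ ^ t = m + n := ⟨M + (m₀ + n) * ℓ ^ t - n, by omega⟩
    have h1 := choose_add_mul_pow_modEq ℓ n t hℓ ht (M + E) (m₀ + n)
    have h2 := choose_add_mul_pow_modEq ℓ n t hℓ ht M (m₀ + n)
    have h3 := h m (by omega)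
    have e1 : M + E + (m₀ + n) * ℓ ^ t = m + E + n := by omega
    rw [e1] at h1
    rw [hm] at h2
    exact h1.symm.trans (h3.trans h2)
  have hperk : ∀ u M, (M + u * E).choose n ≡ M.choose n [MOD ℓ] := by
    intro u
    induction u with
    | zero => intro M; simpa using Nat.ModEq.refl _
    | succ u ih =>
      intro M
      have e : M + (u + 1) * E = M + u * E + E := by ring
      rw [e]
      exact (hper _).trans (ih M)
  obtain ⟨E', hE'⟩ : ℓ ^ padicValNat ℓ E ∣ E := pow_padicValNat_dvd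
  set v := padicValNat ℓ E with hv
  have hcop : Nat.Coprime E' (ℓ ^ t) := by
    refine Nat.Coprime.pow_right t ?_
    rw [Nat.coprime_comm, Nat.Prime.coprime_iff_not_dvd hℓ]
    intro hd
    have : ℓ ^ (v + 1) ∣ E := by
      rw [hE', pow_succ]
      exact Nat.mul_dvd_mul_left _ hd
    exact pow_succ_padicValNat_not_dvd hE.ne' this
  obtain ⟨u, hu⟩ : ∃ u, E' * u ≡ 1 [MOD ℓ ^ t] := by
    obtain ⟨u, hu⟩ := Nat.exists_mul_mod_eq_one_of_coprime hcop (by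
      have : 1 ≤ ℓ ^ v := Nat.one_le_pow _ _ hℓ.pos
      omega)
    refine ⟨u, ?_⟩
    unfold Nat.ModEq
    rw [hu.2]
    have : 1 ≤ ℓ ^ v := Nat.one_le_pow _ _ hℓ.pos
    rw [Nat.mod_eq_of_lt (by omega)]
  have hv1 : 1 ≤ ℓ ^ v := Nat.one_le_pow _ _ hℓ.pos
  have hu1 : 1 ≤ E' * u := by
    rcases Nat.eq_zero_or_pos (E' * u) with h0 | h0
    · exfalso
      rw [h0] at hu
      have := hu.symm
      rw [Nat.modEq_zero_iff_dvd] at this
      have := Nat.le_of_dvd one_pos this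
      omega
    · exact h0
  obtain ⟨k, hk⟩ : ∃ k, E' * u = 1 + k * ℓ ^ t := by
    have hd : ℓ ^ t ∣ E' * u - 1 := (Nat.modEq_iff_dvd' hu1).1 hu.symm
    obtain ⟨k, hk⟩ := hd
    exact ⟨k, by rw [mul_comm k]; omega⟩
  have huE : u * E = ℓ ^ v + (k * ℓ ^ v) * ℓ ^ t := by
    calc u * E = ℓ ^ v * (E' * u) := by rw [hE']; ring
      _ = ℓ ^ v * (1 + k * ℓ ^ t) := by rw [hk]
      _ = _ := by ring
  have h1 := hperk u (n - ℓ ^ v)
  rw [huE] at h1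
  have e2 : n - ℓ ^ v + (ℓ ^ v + (k * ℓ ^ v) * ℓ ^ t) = n + (k * ℓ ^ v) * ℓ ^ t := by omega
  rw [e2] at h1
  have h2 := choose_add_mul_pow_modEq ℓ n t hℓ ht n (k * ℓ ^ v)
  have h3 := h2.symm.trans h1
  rw [Nat.choose_self, Nat.choose_eq_zero_of_lt (by omega : n - ℓ ^ v < n)] at h3
  have h4 := (Nat.modEq_zero_iff_dvd).1 h3
  exact hℓ.one_lt.ne' (Nat.dvd_one.1 h4)

end Pool.Agent.W_MP_b723a0_ag
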