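import Mathlib
import Pool.Agent.W_MP_b723a0_ag.Defs

open scoped TensorProduct

namespace Pool.Agent.W_MP_b723a0_ag

theorem finrank_homogeneousSubmodule (κ : Type) [Field κ] (n m : ℕ) :
    Module.finrank κ (MvPolynomial.homogeneousSubmodule (Fin (n + 1)) κ m) =
      (m + n).choose n := by
  have h1 : MvPolynomial.homogeneousSubmodule (Fin (n + 1)) κ m =
      MvPolynomial.restrictSupport κ {d : Fin (n + 1) →₀ ℕ | d.degree = m} :=
    MvPolynomial.homogeneousSubmodule_eq_finsupp_supported _ _ _
  rw [h1, Module.finrank_eq_nat_card_basis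
    (MvPolynomial.basisRestrictSupport κ {d : Fin (n + 1) →₀ ℕ | d.degree = m})]
  have h2 : {d : Fin (n + 1) →₀ ℕ | d.degree = m} =
      ((Finset.univ : Finset (Fin (n + 1))).finsuppAntidiag m : Set (Fin (n + 1) →₀ ℕ)) := by
    ext d
    simp [Finset.mem_finsuppAntidiag, Finsupp.degree_eq_sum]
  rw [h2, Nat.card_coe_set_eq, Set.ncard_coe_finset, Finset.card_finsuppAntidiag_nat_eq_choose,
    Finset.card_univ, Fintype.card_fin]
  rw [show n + 1 + m - 1 = m + n by omega]
  exact Nat.choose_symm_add

theorem finrank_idealDeg_span (κ : Type) [Field κ] (n E : ℕ)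
    (Φ : MvPolynomial (Fin (n + 1)) κ) (h0 : Φ ≠ 0) (hΦ : Φ.IsHomogeneous E) (m : ℕ) :
    Module.finrank κ (idealDeg (Ideal.span {Φ}) (m + E)) = (m + n).choose n := by
  rw [← finrank_homogeneousSubmodule κ n m]
  have h1 : idealDeg (Ideal.span {Φ}) (m + E) =
      (MvPolynomial.homogeneousSubmodule (Fin (n + 1)) κ m).map (LinearMap.mulLeft κ Φ) := by
    ext f
    rw [Submodule.mem_map]
    constructor
    · intro hf
      have hf1 : f.IsHomogeneous (m + E) := hf.1
      have hf2 : f ∈ Ideal.span {Φ} := hf.2
      obtain ⟨g, rfl⟩ := Ideal.mem_span_singleton'.1 hf2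
      refine ⟨MvPolynomial.homogeneousComponent m g,
        MvPolynomial.homogeneousComponent_isHomogeneous m g, ?_⟩
      rw [LinearMap.mulLeft_apply]
      have h2 : ∀ k, (MvPolynomial.homogeneousComponent k g * Φ).IsHomogeneous (k + E) :=
        fun k => (MvPolynomial.homogeneousComponent_isHomogeneous k g).mul hΦ
      have h3 : MvPolynomial.homogeneousComponent (m + E) (g * Φ) =
          MvPolynomial.homogeneousComponent m g * Φ := by
        conv_lhs => rw [← MvPolynomial.sum_homogeneousComponent g, Finset.sum_mul, map_sum]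
        have h4 : ∀ k ∈ Finset.range (g.totalDegree + 1),
            MvPolynomial.homogeneousComponent (m + E)
              (MvPolynomial.homogeneousComponent k g * Φ) =
            if k = m then MvPolynomial.homogeneousComponent m g * Φ else 0 := by
          intro k _
          rw [MvPolynomial.homogeneousComponent_of_mem (h2 k)]
          by_cases hk : k = m
          · subst hk
            simp
          · rw [if_neg hk, if_neg]
            omega
        rw [Finset.sum_congr rfl h4, Finset.sum_ite_eq']
        split_ifs with h5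
        · rfl
        · rw [MvPolynomial.homogeneousComponent_eq_zero, zero_mul]
          simpa using h5
      rw [mul_comm, ← h3]
      exact MvPolynomial.homogeneousComponent_eq_self hf1
    · rintro ⟨g, hg, rfl⟩
      refine ⟨?_, ?_⟩
      · have : (Φ * g).IsHomogeneous (E + m) := hΦ.mul hg
        rw [add_comm E m] at this
        exact this
      · exact Ideal.mul_mem_right _ _ (Ideal.mem_span_singleton_self Φ)
  rw [h1]
  have h2 : Function.Injective (LinearMap.mulLeft κ Φ) := fun a b hab =>
    mul_left_cancel₀ h0 hab
  exact (Submodule.equivMapOfInjective _ h2 _).finrank_eq.symm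

end Pool.Agent.W_MP_b723a0_ag
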