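import Mathlib
import Pool.Agent.W_MP_b723a0_ag.Defs

open scoped TensorProduct

namespace Pool.Agent.W_MP_b723a0_ag

section HStableAux

attribute [local instance] MvPolynomial.gradedAlgebra

theorem hstable_isHom_iff {κ : Type*} [Field κ] {σ : Type*} (I : Ideal (MvPolynomial σ κ)) :
    IsHomIdeal I ↔ I.IsHomogeneous (MvPolynomial.homogeneousSubmodule σ κ) := by
  constructor
  · intro h m g hg
    have := h g hg m
    rw [← MvPolynomial.decomposition.decompose'_apply] at this
    exact this
  · intro h g hg m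
    exact MvPolynomial.homogeneousComponent_mem_of_mem h hg m

theorem hstable_comp_mul {κ : Type*} [Field κ] {σ : Type*} {h b : MvPolynomial σ κ} {e m : ℕ}
    (hh : h.IsHomogeneous e) :
    MvPolynomial.homogeneousComponent (e + m) (h * b) =
      h * MvPolynomial.homogeneousComponent m b := by
  have h1 := DirectSum.coe_decompose_mul_add_of_left_mem
    (MvPolynomial.homogeneousSubmodule σ κ) (i := e) (j := m) (a := h) (b := b) hh
  have h2 : ∀ (φ : MvPolynomial σ κ) (i : ℕ),
      (DirectSum.decompose (MvPolynomial.homogeneousSubmodule σ κ) φ i : MvPolynomial σ κ) =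
        MvPolynomial.homogeneousComponent i φ :=
    fun φ i => MvPolynomial.decomposition.decompose'_apply φ i
  rw [h2, h2] at h1
  exact h1

theorem hstable_sup_hom {κ : Type*} [Field κ] {σ : Type*} {P : Ideal (MvPolynomial σ κ)}
    (hPh : IsHomIdeal P) {ι : Type*} (v : ι → MvPolynomial σ κ) (d : ι → ℕ)
    (hv : ∀ i, (v i).IsHomogeneous (d i)) : IsHomIdeal (P ⊔ Ideal.span (Set.range v)) := by
  rw [hstable_isHom_iff]
  refine Ideal.IsHomogeneous.sup ((hstable_isHom_iff P).mp hPh) ?_
  refine Ideal.homogeneous_span _ _ ?_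
  rintro _ ⟨i, rfl⟩
  exact ⟨d i, hv i⟩

end HStableAux

theorem hstable_dvd {κ E K : Type*} [Field κ] [Field E] [Field K] [Algebra κ E] [Algebra E K]
    [Algebra κ K] [IsScalarTower κ E K] (W : Submodule κ K)
    (hW : ∀ c : E, ∀ w ∈ W, c • w ∈ W) : Module.finrank κ E ∣ Module.finrank κ W := by
  let W' : Submodule E K :=
    { carrier := W
      add_mem' := fun ha hb => W.add_mem ha hb
      zero_mem' := W.zero_mem
      smul_mem' := fun c w hw => hW c w hw }
  have hWW' : Module.finrank κ W = Module.finrank κ W' := by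
    refine LinearEquiv.finrank_eq ?_
    exact
      { toFun := fun w => ⟨w.1, w.2⟩
        invFun := fun w => ⟨w.1, w.2⟩
        left_inv := fun _ => rfl
        right_inv := fun _ => rfl
        map_add' := fun _ _ => rfl
        map_smul' := fun _ _ => rfl }
  rw [hWW', ← Module.finrank_mul_finrank κ E W']
  exact Dvd.intro _ rfl

/-- The ideal `(h^{ℓ-1}, h^{ℓ-2} g, …, g^{ℓ-1})` of `S/P` is stable under multiplication by
`g / h`, a root of the irreducible polynomial `μ` of degree `ℓ`; so its graded pieces have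
dimension divisible by `ℓ`. -/
theorem stable_congr (ℓ : ℕ) (hℓ : ℓ.Prime) (κ : Type) [Field κ] (σ : Type) [Fintype σ]
    (P : Ideal (MvPolynomial σ κ)) (hP : P.IsPrime) (hPh : IsHomIdeal P)
    (μ : Polynomial κ) (hμ : Irreducible μ) (hdeg : μ.natDegree = ℓ)
    (e : ℕ) (g h : MvPolynomial σ κ) (hg : g.IsHomogeneous e) (hh : h.IsHomogeneous e)
    (hhP : h ∉ P)
    (hroot : ∑ j ∈ Finset.range (ℓ + 1),
        MvPolynomial.C (μ.coeff j) * g ^ j * h ^ (ℓ - j) ∈ P) (m : ℕ) :
    Module.finrank κ (idealDeg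
      (P ⊔ Ideal.span (Set.range fun i : Fin ℓ => h ^ (ℓ - 1 - (i : ℕ)) * g ^ (i : ℕ))) m) ≡
      Module.finrank κ (idealDeg P m) [MOD ℓ] := by
  classical
  set J : Ideal (MvPolynomial σ κ) :=
    P ⊔ Ideal.span (Set.range fun i : Fin ℓ => h ^ (ℓ - 1 - (i : ℕ)) * g ^ (i : ℕ)) with hJ
  have hPJ : P ≤ J := le_sup_left
  have hgenJ : ∀ i : ℕ, i < ℓ → h ^ (ℓ - 1 - i) * g ^ i ∈ J := fun i hi =>
    (le_sup_right : _ ≤ J) (Ideal.subset_span ⟨⟨i, hi⟩, rfl⟩)
  have hlpos : 0 < ℓ := hℓ.pos
  have hlead : μ.coeff ℓ ≠ 0 := by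
    rw [← hdeg]; exact Polynomial.leadingCoeff_ne_zero.mpr hμ.ne_zero
  -- J is homogeneous
  have hJh : IsHomIdeal J :=
    hstable_sup_hom hPh _ (fun i : Fin ℓ => e * (ℓ - 1 - (i : ℕ)) + e * (i : ℕ))
      fun i => (hh.pow _).mul (hg.pow _)
  -- division by h
  have hdiv : ∀ a ∈ J, ∃ b ∈ J, h * b - g * a ∈ P := by
    let D : Ideal (MvPolynomial σ κ) :=
      { carrier := {a | ∃ b ∈ J, h * b - g * a ∈ P}
        add_mem' := by
          rintro a a' ⟨b, hb, h1⟩ ⟨b', hb', h2⟩
          refine ⟨b + b', J.add_mem hb hb', ?_⟩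
          have : h * (b + b') - g * (a + a') = (h * b - g * a) + (h * b' - g * a') := by ring
          rw [this]; exact P.add_mem h1 h2
        zero_mem' := ⟨0, J.zero_mem, by simp⟩
        smul_mem' := by
          rintro c a ⟨b, hb, h1⟩
          refine ⟨c * b, J.mul_mem_left c hb, ?_⟩
          have : h * (c * b) - g * (c • a) = c * (h * b - g * a) := by
            rw [smul_eq_mul]; ring
          rw [this]; exact P.mul_mem_left c h1 }
    have hJD : J ≤ D := by
      refine sup_le ?_ (Ideal.span_le.mpr ?_)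
      · intro a ha
        refine ⟨0, J.zero_mem, ?_⟩
        have : h * 0 - g * a = (-g) * a := by ring
        rw [this]; exact P.mul_mem_left _ ha
      · rintro _ ⟨i, rfl⟩
        obtain ⟨i, hi⟩ := i
        rcases Nat.lt_or_ge (i + 1) ℓ with hlt | hge
        · refine ⟨h ^ (ℓ - 1 - (i + 1)) * g ^ (i + 1), hgenJ _ hlt, ?_⟩
          have h3 : ℓ - 1 - i = (ℓ - 1 - (i + 1)) + 1 := by omega
          have : h * (h ^ (ℓ - 1 - (i + 1)) * g ^ (i + 1)) - g * (h ^ (ℓ - 1 - i) * g ^ i) = 0 := by
            rw [h3]; ring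
          simp only
          rw [this]; exact P.zero_mem
        · have hi' : i = ℓ - 1 := by omega
          subst hi'
          refine ⟨-(∑ j ∈ Finset.range ℓ, MvPolynomial.C ((μ.coeff ℓ)⁻¹ * μ.coeff j) *
            (h ^ (ℓ - 1 - j) * g ^ j)), ?_, ?_⟩
          · refine J.neg_mem (J.sum_mem fun j hj => J.mul_mem_left _ (hgenJ j ?_))
            exact Finset.mem_range.mp hj
          · have h4 : MvPolynomial.C ((μ.coeff ℓ)⁻¹) * (∑ j ∈ Finset.range (ℓ + 1),
                MvPolynomial.C (μ.coeff j) * g ^ j * h ^ (ℓ - j)) ∈ P := P.mul_mem_left _ hroot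
            rw [Finset.sum_range_succ, mul_add, Finset.mul_sum] at h4
            have h5 : MvPolynomial.C (μ.coeff ℓ)⁻¹ *
                (MvPolynomial.C (μ.coeff ℓ) * g ^ ℓ * h ^ (ℓ - ℓ)) = g ^ ℓ := by
              rw [Nat.sub_self, pow_zero, mul_one, ← mul_assoc, ← MvPolynomial.C_mul,
                inv_mul_cancel₀ hlead, MvPolynomial.C_1, one_mul]
            rw [h5] at h4
            have h6 : h * -(∑ j ∈ Finset.range ℓ, MvPolynomial.C ((μ.coeff ℓ)⁻¹ * μ.coeff j) *
                (h ^ (ℓ - 1 - j) * g ^ j)) - g * (h ^ (ℓ - 1 - (ℓ - 1)) * g ^ (ℓ - 1)) =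
                -(∑ j ∈ Finset.range ℓ, MvPolynomial.C (μ.coeff ℓ)⁻¹ *
                  (MvPolynomial.C (μ.coeff j) * g ^ j * h ^ (ℓ - j)) + g ^ ℓ) := by
              have h7 : g * (h ^ (ℓ - 1 - (ℓ - 1)) * g ^ (ℓ - 1)) = g ^ ℓ := by
                rw [Nat.sub_self, pow_zero, one_mul, ← pow_succ']
                congr 1; omega
              rw [h7, mul_neg, Finset.mul_sum, neg_add, sub_eq_add_neg]
              congr 1
              congr 1
              refine Finset.sum_congr rfl fun j hj => ?_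
              have h8 : ℓ - j = (ℓ - 1 - j) + 1 := by
                have := Finset.mem_range.mp hj; omega
              rw [h8, MvPolynomial.C_mul]; ring
            simp only
            rw [h6]; exact P.neg_mem h4
    exact fun a ha => hJD ha
  -- the fraction field
  let A := MvPolynomial σ κ ⧸ P
  have : IsDomain A := Ideal.Quotient.isDomain P
  let K := FractionRing A
  let φ : MvPolynomial σ κ →ₐ[κ] K := (Algebra.algHom κ A K).comp (Ideal.Quotient.mkₐ κ P)
  have hφ0 : ∀ a, φ a = 0 ↔ a ∈ P := by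
    intro a
    have : φ a = algebraMap A K (Ideal.Quotient.mk P a) := rfl
    rw [this, map_eq_zero_iff _ (IsFractionRing.injective A K), Ideal.Quotient.eq_zero_iff_mem]
  have hφh : φ h ≠ 0 := fun h0 => hhP ((hφ0 h).mp h0)
  set α : K := φ g / φ h with hα
  let W : Submodule κ K := (idealDeg J m).map φ.toLinearMap
  have hWα : ∀ w ∈ W, α * w ∈ W := by
    rintro _ ⟨a, ha, rfl⟩
    obtain ⟨ham, haJ⟩ := ha
    have haJ' : a ∈ J := haJ
    have ham' : a.IsHomogeneous m := ham
    obtain ⟨b, hb, hbP⟩ := hdiv a haJ'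
    refine ⟨MvPolynomial.homogeneousComponent m b, ⟨?_, ?_⟩, ?_⟩
    · exact MvPolynomial.homogeneousComponent_isHomogeneous m b
    · exact hJh b hb m
    · have h9 := hPh _ hbP (e + m)
      rw [map_sub, hstable_comp_mul hh, hstable_comp_mul hg,
        MvPolynomial.homogeneousComponent_eq_self ham'] at h9
      have h10 := (hφ0 _).mpr h9
      rw [map_sub, map_mul, map_mul, sub_eq_zero] at h10
      change φ _ = α * φ a
      rw [hα, div_mul_eq_mul_div, eq_div_iff hφh, mul_comm, h10]
  -- α is a root of μ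
  have hαroot : Polynomial.aeval α μ = 0 := by
    have h11 := (hφ0 _).mpr hroot
    rw [map_sum] at h11
    rw [Polynomial.aeval_eq_sum_range, hdeg]
    have h12 : ∀ j ∈ Finset.range (ℓ + 1),
        φ (MvPolynomial.C (μ.coeff j) * g ^ j * h ^ (ℓ - j)) =
          (μ.coeff j • α ^ j) * φ h ^ ℓ := by
      intro j hj
      have hj' : j ≤ ℓ := by have := Finset.mem_range.mp hj; omega
      have h13 : φ (MvPolynomial.C (μ.coeff j)) = algebraMap κ K (μ.coeff j) := by
        rw [← MvPolynomial.algebraMap_eq]; exact φ.commutes _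
      rw [map_mul, map_mul, map_pow, map_pow, h13, Algebra.smul_def, hα, div_pow]
      have h14 : φ h ^ ℓ = φ h ^ j * φ h ^ (ℓ - j) := by rw [← pow_add]; congr 1; omega
      have h19 : φ h ^ j ≠ 0 := pow_ne_zero j hφh
      rw [h14, mul_assoc (algebraMap κ K (μ.coeff j)) (φ g ^ j / φ h ^ j),
        ← mul_assoc (φ g ^ j / φ h ^ j), div_mul_cancel₀ _ h19, mul_assoc]
    rw [Finset.sum_congr rfl h12, ← Finset.sum_mul] at h11
    rcases mul_eq_zero.mp h11 with h15 | h15
    · exact h15
    · exact absurd h15 (pow_ne_zero _ hφh)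
  have hαint : IsIntegral κ α := by
    refine IsAlgebraic.isIntegral ⟨μ, hμ.ne_zero, hαroot⟩
  have hmin : (minpoly κ α).natDegree = ℓ := by
    have h16 := minpoly.eq_of_irreducible hμ hαroot
    have h17 := congrArg Polynomial.natDegree h16
    rw [Polynomial.natDegree_mul_C (inv_ne_zero (Polynomial.leadingCoeff_ne_zero.mpr hμ.ne_zero)),
      hdeg] at h17
    exact h17.symm
  let E := IntermediateField.adjoin κ {α}
  have hE : Module.finrank κ E = ℓ := by
    rw [IntermediateField.adjoin.finrank hαint, hmin]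
  have hEW : ∀ c ∈ E, ∀ w ∈ W, c * w ∈ W := by
    intro c hc
    have hc' : c ∈ Algebra.adjoin κ {α} := by
      rw [← IntermediateField.adjoin_simple_toSubalgebra_of_isAlgebraic hαint.isAlgebraic]
      exact hc
    refine Algebra.adjoin_induction (p := fun c _ => ∀ w ∈ W, c * w ∈ W) ?_ ?_ ?_ ?_ hc'
    · intro x hx w hw
      rw [Set.mem_singleton_iff.mp hx]; exact hWα w hw
    · intro r w hw
      rw [← Algebra.smul_def]; exact W.smul_mem r hw
    · intro x y _ _ hx hy w hw
      rw [add_mul]; exact W.add_mem (hx w hw) (hy w hw)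
    · intro x y _ _ hx hy w hw
      rw [mul_assoc]; exact hx _ (hy w hw)
  have hdvd : ℓ ∣ Module.finrank κ W := by
    rw [← hE]
    refine hstable_dvd W fun c w hw => ?_
    rw [Algebra.smul_def]
    exact hEW c.1 c.2 w hw
  -- rank-nullity
  have hfin : FiniteDimensional κ (idealDeg J m) := by
    have : FiniteDimensional κ (MvPolynomial.homogeneousSubmodule σ κ m) := by
      exact Module.Finite.iff_fg.mpr (MvPolynomial.homogeneousSubmodule_fg σ κ m)
    exact Submodule.finiteDimensional_inf_left _ _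
  have hrn := LinearMap.finrank_range_add_finrank_ker (φ.toLinearMap.domRestrict (idealDeg J m))
  have hrange : LinearMap.range (φ.toLinearMap.domRestrict (idealDeg J m)) = W :=
    LinearMap.range_domRestrict _ _
  have hker : Module.finrank κ (LinearMap.ker (φ.toLinearMap.domRestrict (idealDeg J m))) =
      Module.finrank κ (idealDeg P m) := by
    refine LinearEquiv.finrank_eq ?_
    exact
      { toFun := fun w => ⟨w.1.1, ⟨w.1.2.1, (hφ0 _).mp w.2⟩⟩
        invFun := fun w => ⟨⟨w.1, ⟨w.2.1, hPJ w.2.2⟩⟩, (hφ0 _).mpr w.2.2⟩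
        left_inv := fun _ => rfl
        right_inv := fun _ => rfl
        map_add' := fun _ _ => rfl
        map_smul' := fun _ _ => rfl }
  rw [hrange, hker] at hrn
  rw [← hrn]
  have h18 : Module.finrank κ W ≡ 0 [MOD ℓ] := (Nat.modEq_zero_iff_dvd).mpr hdvd
  simpa using h18.add_right (Module.finrank κ (idealDeg P m))

end Pool.Agent.W_MP_b723a0_ag
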