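import Mathlib
import Pool.Agent.W_MP_b723a0_ag.Defs

open scoped TensorProduct

namespace Pool.Agent.W_MP_b723a0_ag

open MvPolynomial in
/-- The homogeneous polynomials of degree `m` in finitely many variables form a finite
dimensional space. -/
theorem finite_homogeneousSubmodule (κ : Type) [Field κ] (σ : Type) [Fintype σ] (m : ℕ) :
    Module.Finite κ (MvPolynomial.homogeneousSubmodule σ κ m) := by
  have hle : homogeneousSubmodule σ κ m ≤ restrictTotalDegree σ κ m := by
    intro p hp
    rw [mem_restrictTotalDegree]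
    exact (mem_homogeneousSubmodule _ _ |>.1 hp).totalDegree_le
  have : Module.Finite κ (restrictTotalDegree σ κ m) := inferInstance
  exact Submodule.finiteDimensional_of_le hle

/-- Rank–nullity for the restriction of a linear map to a submodule. -/
theorem finrank_map_add_finrank_inf_ker {K V W : Type*} [Field K] [AddCommGroup V] [Module K V]
    [AddCommGroup W] [Module K W] (f : V →ₗ[K] W) (p : Submodule K V) [FiniteDimensional K p] :
    Module.finrank K (p.map f) + Module.finrank K (p ⊓ LinearMap.ker f : Submodule K V) =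
      Module.finrank K p := by
  have h := LinearMap.finrank_range_add_finrank_ker (f.domRestrict p)
  rw [LinearMap.range_domRestrict] at h
  have h2 : Module.finrank K (LinearMap.ker (f.domRestrict p)) =
      Module.finrank K (p ⊓ LinearMap.ker f : Submodule K V) := by
    have h3 : (LinearMap.ker (f.domRestrict p)).map p.subtype = p ⊓ LinearMap.ker f := by
      ext x
      simp [LinearMap.mem_ker]
      constructor
      · rintro ⟨h1, h2⟩
        exact ⟨h2, h1⟩
      · rintro ⟨h1, h2⟩
        exact ⟨h2, h1⟩
    rw [← h3, Submodule.finrank_map_subtype_eq]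
  rw [← h2]
  exact h

/-- Hilbert function step: `(I + (a))_{m+e} / I_{m+e} ≅ S_m / (I : a)_m`. -/
theorem finrank_idealDeg_step (κ : Type) [Field κ] (σ : Type) [Fintype σ]
    (I J : Ideal (MvPolynomial σ κ)) (hI : IsHomIdeal I) (e : ℕ) (a : MvPolynomial σ κ)
    (ha : a.IsHomogeneous e) (hJ : ∀ x, x ∈ J ↔ a * x ∈ I) (m : ℕ) :
    Module.finrank κ (idealDeg (I ⊔ Ideal.span {a}) (m + e)) +
        Module.finrank κ (idealDeg J m) =
      Module.finrank κ (idealDeg I (m + e)) +
        Module.finrank κ (MvPolynomial.homogeneousSubmodule σ κ m) := by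
  have hfin := finite_homogeneousSubmodule κ σ
  have hfinS : Module.Finite κ (MvPolynomial.homogeneousSubmodule σ κ m) := hfin m
  have hfinI : ∀ (I' : Ideal (MvPolynomial σ κ)) (m' : ℕ), Module.Finite κ (idealDeg I' m') := by
    intro I' m'
    have := hfin m'
    exact Submodule.finiteDimensional_of_le (inf_le_left : idealDeg I' m' ≤ _)
  have hfinJ := hfinI J m
  have hfinN := hfinI I (m + e)
  let f : MvPolynomial σ κ →ₗ[κ] MvPolynomial σ κ := LinearMap.mulLeft κ a
  have hf : ∀ x, f x = a * x := fun x => rfl
  set S := MvPolynomial.homogeneousSubmodule σ κ m with hS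
  set N := idealDeg I (m + e) with hN
  -- homogeneous components of multiples of `a`
  have hcomp : ∀ y : MvPolynomial σ κ, MvPolynomial.homogeneousComponent (m + e) (a * y) =
      a * MvPolynomial.homogeneousComponent m y := by
    intro y
    conv_lhs => rw [← MvPolynomial.sum_homogeneousComponent y]
    rw [Finset.mul_sum, map_sum]
    have h1 : ∀ i ∈ Finset.range (y.totalDegree + 1),
        MvPolynomial.homogeneousComponent (m + e)
          (a * MvPolynomial.homogeneousComponent i y) =
        if i = m then a * MvPolynomial.homogeneousComponent m y else 0 := by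
      intro i _
      have h2 : (a * MvPolynomial.homogeneousComponent i y).IsHomogeneous (e + i) :=
        ha.mul (MvPolynomial.homogeneousComponent_isHomogeneous i y)
      rw [MvPolynomial.homogeneousComponent_of_mem h2]
      by_cases him : i = m
      · subst him
        rw [if_pos (by ring), if_pos rfl]
      · rw [if_neg (by omega), if_neg him]
    rw [Finset.sum_congr rfl h1, Finset.sum_ite_eq']
    split_ifs with h2
    · rfl
    · rw [MvPolynomial.homogeneousComponent_eq_zero, mul_zero]
      rw [Finset.mem_range] at h2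
      omega
  have hsup : idealDeg (I ⊔ Ideal.span {a}) (m + e) = N ⊔ S.map f := by
    apply le_antisymm
    · rintro g ⟨hg1, hg2⟩
      have hg2' : g ∈ I ⊔ Ideal.span {a} := hg2
      rw [Submodule.mem_sup] at hg2'
      obtain ⟨i, hi, z, hz, hiz⟩ := hg2'
      obtain ⟨y, rfl⟩ := Ideal.mem_span_singleton'.1 hz
      have h1 : g = MvPolynomial.homogeneousComponent (m + e) i +
          a * MvPolynomial.homogeneousComponent m y := by
        rw [← hcomp, ← map_add, mul_comm a y, hiz,
          MvPolynomial.homogeneousComponent_of_mem hg1, if_pos rfl]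
      rw [h1]
      refine Submodule.add_mem_sup ?_ ?_
      · exact ⟨MvPolynomial.homogeneousComponent_mem _ _, hI i hi (m + e)⟩
      · exact ⟨_, MvPolynomial.homogeneousComponent_mem _ _, rfl⟩
    · refine sup_le ?_ ?_
      · rintro g ⟨hg1, hg2⟩
        exact ⟨hg1, Ideal.mem_sup_left (show g ∈ I from hg2)⟩
      · rintro _ ⟨y, hy, rfl⟩
        refine ⟨?_, ?_⟩
        · rw [hf, add_comm]
          exact ha.mul hy
        · exact Ideal.mem_sup_right (Ideal.mul_mem_right _ _ (Ideal.mem_span_singleton_self a))
  have hinf : N ⊓ S.map f = (idealDeg J m).map f := by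
    apply le_antisymm
    · rintro _ ⟨⟨_, hg2⟩, ⟨y, hy, rfl⟩⟩
      exact ⟨y, ⟨hy, (hJ y).2 hg2⟩, rfl⟩
    · rintro _ ⟨y, ⟨hy1, hy2⟩, rfl⟩
      refine ⟨⟨?_, (hJ y).1 hy2⟩, ⟨y, hy1, rfl⟩⟩
      rw [hf, add_comm]
      exact ha.mul hy1
  have hker : S ⊓ LinearMap.ker f = idealDeg J m ⊓ LinearMap.ker f := by
    apply le_antisymm
    · rintro y ⟨hy1, hy2⟩
      refine ⟨⟨hy1, (hJ y).2 ?_⟩, hy2⟩
      have : a * y = 0 := hy2
      rw [this]
      exact I.zero_mem
    · rintro y ⟨⟨hy1, _⟩, hy2⟩
      exact ⟨hy1, hy2⟩
  have h1 := Submodule.finrank_sup_add_finrank_inf_eq N (S.map f)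
  have h2 := finrank_map_add_finrank_inf_ker f S
  have h3 := finrank_map_add_finrank_inf_ker f (idealDeg J m)
  rw [hinf] at h1
  rw [hker] at h2
  rw [hsup]
  omega

end Pool.Agent.W_MP_b723a0_ag
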