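import Mathlib
import Pool.Agent.W_MP_b723a0_ag.Defs

open scoped TensorProduct

namespace Pool.Agent.W_MP_b723a0_ag

/-- Hensel's lemma over a power series ring: a monic polynomial whose reduction modulo `T` is
(the image of) a separable polynomial over an algebraically closed field splits. -/
theorem exists_powerSeries_roots (Ω R : Type) [Field Ω] [IsAlgClosed Ω] [CommRing R] [IsDomain R]
    [Algebra Ω R] (P : Polynomial (PowerSeries R)) (hP : P.Monic) (g : Polynomial Ω)
    (hg : g.Separable)
    (h0 : P.map (PowerSeries.constantCoeff (R := R)) = g.map (algebraMap Ω R)) :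
    ∃ ξ : Fin P.natDegree → PowerSeries R,
      P = ∏ i, (Polynomial.X - Polynomial.C (ξ i)) := by
  classical
  have hinj : Function.Injective (algebraMap Ω R) := (algebraMap Ω R).injective
  have hgm : (g.map (algebraMap Ω R)).Monic := h0 ▸ hP.map _
  have hgmonic : g.Monic := Polynomial.monic_of_injective hinj hgm
  have hdeg : g.natDegree = P.natDegree := by
    rw [← Polynomial.natDegree_map_eq_of_injective hinj g, ← h0, hP.natDegree_map]
  have hcard : Multiset.card g.roots = P.natDegree := by
    rw [← hdeg]
    exact (IsAlgClosed.splits g).natDegree_eq_card_roots.symm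
  have hnodup : g.roots.Nodup := Polynomial.nodup_roots hg
  have key : ∀ α : Ω, α ∈ g.roots → ∃ ξ : PowerSeries R, P.IsRoot ξ ∧
      PowerSeries.constantCoeff (R := R) ξ = algebraMap Ω R α := by
    intro α hα
    have hα0 : g.eval α = 0 := (Polynomial.mem_roots'.mp hα).2
    have hconst : ∀ Q : Polynomial (PowerSeries R),
        PowerSeries.constantCoeff (R := R) (Q.eval (PowerSeries.C (algebraMap Ω R α))) =
          (Q.map (PowerSeries.constantCoeff (R := R))).eval (algebraMap Ω R α) := by
      intro Q
      rw [← Polynomial.eval₂_at_apply, Polynomial.eval_map]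
      simp
    have h1 : P.eval (PowerSeries.C (algebraMap Ω R α)) ∈
        (Ideal.span {PowerSeries.X} : Ideal (PowerSeries R)) := by
      rw [Ideal.mem_span_singleton, PowerSeries.X_dvd_iff, hconst, h0,
        Polynomial.eval_map, Polynomial.eval₂_at_apply, hα0, map_zero]
    have h2 : IsUnit (Ideal.Quotient.mk (Ideal.span {PowerSeries.X} : Ideal (PowerSeries R))
        (P.derivative.eval (PowerSeries.C (algebraMap Ω R α)))) := by
      apply IsUnit.map
      rw [PowerSeries.isUnit_iff_constantCoeff, hconst, ← Polynomial.derivative_map, h0,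
        Polynomial.derivative_map, Polynomial.eval_map, Polynomial.eval₂_at_apply]
      apply IsUnit.map
      rw [isUnit_iff_ne_zero]
      intro h
      obtain ⟨u, v, huv⟩ := hg
      have := congrArg (Polynomial.eval α) huv
      simp [hα0, h] at this
    obtain ⟨ξ, hξ, hξ'⟩ := HenselianRing.is_henselian P hP _ h1 h2
    refine ⟨ξ, hξ, ?_⟩
    rw [Ideal.mem_span_singleton, PowerSeries.X_dvd_iff, map_sub, sub_eq_zero] at hξ'
    simpa using hξ'
  choose! f hf hfc using key
  have hinjf : ∀ a ∈ g.roots, ∀ b ∈ g.roots, f a = f b → a = b := by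
    intro a ha b hb hab
    apply hinj
    rw [← hfc a ha, ← hfc b hb, hab]
  -- the product over the multiset of roots
  have hcardP : Multiset.card (g.roots.map f) = P.natDegree := by
    rw [Multiset.card_map, hcard]
  have hnd : (g.roots.map f).Nodup := Multiset.Nodup.map_on hinjf hnodup
  have hle : g.roots.map f ≤ P.roots := by
    rw [Multiset.le_iff_subset hnd]
    intro x hx
    obtain ⟨a, ha, rfl⟩ := Multiset.mem_map.mp hx
    exact (Polynomial.mem_roots hP.ne_zero).mpr (hf a ha)
  have heq : g.roots.map f = P.roots :=
    Multiset.eq_of_le_of_card_le hle (hcardP ▸ Polynomial.card_roots' P)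
  have hprod : (P.roots.map fun a => Polynomial.X - Polynomial.C a).prod = P :=
    Polynomial.prod_multiset_X_sub_C_of_monic_of_roots_card_eq hP (heq ▸ hcardP)
  obtain ⟨l, hl⟩ : ∃ l : List (PowerSeries R), (l : Multiset (PowerSeries R)) = P.roots :=
    ⟨P.roots.toList, Multiset.coe_toList _⟩
  have hlen : l.length = P.natDegree := by
    rw [← Multiset.coe_card, hl, ← heq, hcardP]
  rw [← hl, Multiset.map_coe, Multiset.prod_coe] at hprod
  refine ⟨fun i => l.get (i.cast hlen.symm), ?_⟩
  refine hprod.symm.trans ?_
  rw [← List.prod_ofFn]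
  congr 1
  apply List.ext_get
  · simp [hlen]
  · intro n h1 h2
    simp

end Pool.Agent.W_MP_b723a0_ag
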