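import Mathlib
import Pool.Agent.W_MP_b723a0_ag.Defs
import Pool.Agent.W_MP_b723a0_ag.SeriesRoots

open scoped TensorProduct

namespace Pool.Agent.W_MP_b723a0_ag

open Polynomial in
theorem coeff_coeff_swap {R : Type*} [CommRing R] (p : Polynomial (Polynomial R)) (i j : ℕ) :
    ((Polynomial.Bivariate.swap p).coeff i).coeff j = (p.coeff j).coeff i := by
  induction p using Polynomial.induction_on' with
  | add p q hp hq => simp only [map_add, Polynomial.coeff_add, hp, hq]
  | monomial n a =>
    induction a using Polynomial.induction_on' with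
    | add p q hp hq =>
      simp only [map_add, Polynomial.coeff_add, hp, hq]
    | monomial m r =>
      rw [Polynomial.Bivariate.swap_monomial_monomial]
      simp only [Polynomial.coeff_monomial]
      split_ifs <;> simp_all [Polynomial.coeff_monomial]

theorem natDegree_coeff_le_of_mul_eq {R : Type*} [CommRing R] [IsDomain R]
    (f g q : Polynomial (Polynomial R)) (hfg : f * g = q) (hq : q ≠ 0) (D : ℕ)
    (hD : ∀ j, (q.coeff j).natDegree ≤ D) (j : ℕ) : (f.coeff j).natDegree ≤ D := by
  have hf : f ≠ 0 := by rintro rfl; exact hq (by rw [← hfg, zero_mul])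
  have hg : g ≠ 0 := by rintro rfl; exact hq (by rw [← hfg, mul_zero])
  have hinj := (Polynomial.Bivariate.swap (R := R)).injective
  have hsf : Polynomial.Bivariate.swap f ≠ 0 := (map_ne_zero_iff _ hinj).2 hf
  have hsg : Polynomial.Bivariate.swap g ≠ 0 := (map_ne_zero_iff _ hinj).2 hg
  have hmul : (Polynomial.Bivariate.swap f).natDegree + (Polynomial.Bivariate.swap g).natDegree =
      (Polynomial.Bivariate.swap q).natDegree := by
    rw [← Polynomial.natDegree_mul hsf hsg, ← map_mul, hfg]
  have hqD : (Polynomial.Bivariate.swap q).natDegree ≤ D := by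
    rw [Polynomial.natDegree_le_iff_coeff_eq_zero]
    intro k hk
    ext j
    rw [coeff_coeff_swap, Polynomial.coeff_eq_zero_of_natDegree_lt (lt_of_le_of_lt (hD j) hk),
      Polynomial.coeff_zero]
  have hfD : (Polynomial.Bivariate.swap f).natDegree ≤ D := by omega
  rw [Polynomial.natDegree_le_iff_coeff_eq_zero]
  intro k hk
  rw [← coeff_coeff_swap, Polynomial.coeff_eq_zero_of_natDegree_lt (lt_of_le_of_lt hfD hk),
    Polynomial.coeff_zero]


theorem exists_bezout_certificate {R : Type*} [CommRing R] [IsDomain R] (G : Polynomial R)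
    (hsep : (G.map (algebraMap R (FractionRing R))).Separable) :
    ∃ (A B : Polynomial R) (c : R), c ≠ 0 ∧
      A * G + B * Polynomial.derivative G = Polynomial.C c := by
  obtain ⟨a, b, hab⟩ := hsep
  obtain ⟨sa, hsa, ha⟩ := IsLocalization.integerNormalization_spec (nonZeroDivisors R) a
  obtain ⟨sb, hsb, hb⟩ := IsLocalization.integerNormalization_spec (nonZeroDivisors R) b
  refine ⟨Polynomial.C sb * IsLocalization.integerNormalization (nonZeroDivisors R) a,
    Polynomial.C sa * IsLocalization.integerNormalization (nonZeroDivisors R) b, sa * sb,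
    mul_ne_zero (nonZeroDivisors.ne_zero hsa) (nonZeroDivisors.ne_zero hsb), ?_⟩
  apply Polynomial.map_injective _ (IsFractionRing.injective R (FractionRing R))
  rw [Polynomial.derivative_map] at hab
  simp only [Polynomial.map_add, Polynomial.map_mul, Polynomial.map_C, ha, hb, map_mul,
    Algebra.smul_def, Polynomial.algebraMap_apply]
  linear_combination (Polynomial.C ((algebraMap R (FractionRing R)) sa) *
    Polynomial.C ((algebraMap R (FractionRing R)) sb)) * hab

/-- Specialisation of a separable family at a good point is separable. -/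
theorem separable_of_certificate {R K : Type*} [CommRing R] [Field K] (G A B : Polynomial R)
    (c : R) (h : A * G + B * Polynomial.derivative G = Polynomial.C c) (ψ : R →+* K)
    (hc : ψ c ≠ 0) : (G.map ψ).Separable := by
  refine ⟨Polynomial.C (ψ c)⁻¹ * A.map ψ, Polynomial.C (ψ c)⁻¹ * B.map ψ, ?_⟩
  have h1 := congrArg (Polynomial.map ψ) h
  simp only [Polynomial.map_add, Polynomial.map_mul, Polynomial.map_C] at h1
  rw [Polynomial.derivative_map]
  have h2 : Polynomial.C (ψ c)⁻¹ * Polynomial.C (ψ c) = 1 := by
    rw [← Polynomial.C_mul, inv_mul_cancel₀ hc, Polynomial.C_1]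
  linear_combination Polynomial.C (ψ c)⁻¹ * h1 + h2

/-- A nonzero polynomial over a field does not vanish on the points of an infinite subfield. -/
theorem exists_eval_ne_zero_subfield {κ Ω : Type*} [Field κ] [Infinite κ] [Field Ω]
    [Algebra κ Ω] (t : ℕ) (E : MvPolynomial (Fin t) Ω) (hE : E ≠ 0) :
    ∃ u : Fin t → κ, MvPolynomial.eval (fun i => algebraMap κ Ω (u i)) E ≠ 0 := by
  by_contra hcon
  push Not at hcon
  apply hE
  refine MvPolynomial.funext_set (fun _ => Set.range (algebraMap κ Ω))
    (fun _ => Set.infinite_range_of_injective (algebraMap κ Ω).injective) ?_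
  intro x hx
  have hx' : ∀ i, ∃ y, algebraMap κ Ω y = x i := fun i => hx i (Set.mem_univ i)
  choose u hu using hx'
  have := hcon u
  rw [map_zero]
  convert this using 2
  congr 1
  funext i
  exact (hu i).symm

theorem exists_polynomial_of_coeff_eq_zero {R : Type*} [CommRing R] (f : PowerSeries R) (D : ℕ)
    (h : ∀ k, D < k → PowerSeries.coeff k f = 0) : ∃ g : Polynomial R, (g : PowerSeries R) = f := by
  refine ⟨PowerSeries.trunc (D + 1) f, ?_⟩
  ext k
  rw [Polynomial.coeff_coe, PowerSeries.coeff_trunc]
  split_ifs with hk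
  · rfl
  · exact (h k (by omega)).symm

section Line

variable {κ Ω : Type} [Field κ] [Field Ω] [Algebra κ Ω] {t : ℕ}

/-- The generic line through the point `a`. -/
noncomputable def genLine (κ Ω : Type) [Field κ] [Field Ω] [Algebra κ Ω] {t : ℕ}
    (a : Fin t → κ) :
    MvPolynomial (Fin t) κ →+* Polynomial (MvPolynomial (Fin t) Ω) :=
  MvPolynomial.eval₂Hom
    (((Polynomial.C).comp (MvPolynomial.C (R := Ω) (σ := Fin t))).comp (algebraMap κ Ω))
    (fun i => Polynomial.C (MvPolynomial.C (algebraMap κ Ω (a i))) +
      Polynomial.C (MvPolynomial.X i) * Polynomial.X)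

/-- The line through the point `a` with direction `u`. -/
noncomputable def specLine (a u : Fin t → κ) :
    MvPolynomial (Fin t) κ →ₐ[κ] Polynomial κ :=
  MvPolynomial.aeval (fun i => Polynomial.C (a i) + Polynomial.C (u i) * Polynomial.X)

/-- Evaluation of the direction. -/
noncomputable def evDir (Ω : Type) [Field Ω] [Algebra κ Ω] (u : Fin t → κ) :
    MvPolynomial (Fin t) Ω →+* Ω :=
  MvPolynomial.eval (fun i => algebraMap κ Ω (u i))

/-- Set `T = 1` and translate back. -/
noncomputable def backHom (Ω : Type) [Field Ω] [Algebra κ Ω] (a : Fin t → κ) :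
    Polynomial (MvPolynomial (Fin t) Ω) →+* MvPolynomial (Fin t) Ω :=
  Polynomial.eval₂RingHom (MvPolynomial.eval₂Hom (MvPolynomial.C)
    (fun i => MvPolynomial.X i - MvPolynomial.C (algebraMap κ Ω (a i)))) 1

theorem backHom_comp (a : Fin t → κ) :
    (backHom Ω a).comp (genLine κ Ω a) = MvPolynomial.map (algebraMap κ Ω) := by
  apply MvPolynomial.ringHom_ext
  · intro r
    simp [backHom, genLine]
  · intro i
    simp [backHom, genLine]

theorem evDir_comp (a u : Fin t → κ) :
    (Polynomial.mapRingHom (evDir Ω u)).comp (genLine κ Ω a) =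
      (Polynomial.mapRingHom (algebraMap κ Ω)).comp (specLine a u).toRingHom := by
  apply MvPolynomial.ringHom_ext
  · intro r
    simp [evDir, genLine, specLine]
  · intro i
    simp [evDir, genLine, specLine]

theorem const_comp (a : Fin t → κ) :
    ((PowerSeries.constantCoeff (R := MvPolynomial (Fin t) Ω)).comp
      (Polynomial.coeToPowerSeries.ringHom)).comp (genLine κ Ω a) =
      ((algebraMap Ω (MvPolynomial (Fin t) Ω)).comp (algebraMap κ Ω)).comp
        (MvPolynomial.eval a) := by
  apply MvPolynomial.ringHom_ext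
  · intro r
    simp [genLine, MvPolynomial.algebraMap_eq]
  · intro i
    simp [genLine, MvPolynomial.algebraMap_eq]

theorem specLine_eval_zero (a u : Fin t → κ) :
    (Polynomial.evalRingHom 0).comp (specLine a u).toRingHom = MvPolynomial.eval a := by
  apply MvPolynomial.ringHom_ext
  · intro r
    simp [specLine]
  · intro i
    simp [specLine]

end Line

theorem bertini (κ Ω : Type) [Field κ] [Infinite κ] [Field Ω] [Algebra κ Ω] [IsAlgClosed Ω]
    (t : ℕ) (G : Polynomial (MvPolynomial (Fin t) κ)) (hG : G.Monic)
    (hirr : Irreducible (G.map (MvPolynomial.map (algebraMap κ Ω))))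
    (hsep : (G.map (algebraMap _ (FractionRing (MvPolynomial (Fin t) κ)))).Separable)
    (h : MvPolynomial (Fin t) κ) (hh : h ≠ 0) :
    ∃ φ : MvPolynomial (Fin t) κ →ₐ[κ] Polynomial κ, φ h ≠ 0 ∧
      ((G.map φ.toRingHom).map (Polynomial.evalRingHom 0)).Separable ∧
      Irreducible ((G.map φ.toRingHom).map (Polynomial.mapRingHom (algebraMap κ Ω))) := by
  classical
  obtain ⟨A, B, c, hc, hAB⟩ := exists_bezout_certificate G hsep
  -- the base point
  obtain ⟨a, ha⟩ : ∃ a : Fin t → κ, MvPolynomial.eval a (c * h) ≠ 0 := by
    by_contra hcon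
    push Not at hcon
    exact mul_ne_zero hc hh (MvPolynomial.funext (fun x => by rw [hcon x, map_zero]))
  rw [map_mul] at ha
  have hca : MvPolynomial.eval a c ≠ 0 := left_ne_zero_of_mul ha
  have hha : MvPolynomial.eval a h ≠ 0 := right_ne_zero_of_mul ha
  have hsepa : (G.map (MvPolynomial.eval a)).Separable :=
    separable_of_certificate G A B c hAB (MvPolynomial.eval a) hca
  -- the generic polynomial
  set Q : Polynomial (Polynomial (MvPolynomial (Fin t) Ω)) := G.map (genLine κ Ω a) with hQ
  have hQmon : Q.Monic := hG.map _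
  have hQdeg : Q.natDegree = G.natDegree := hG.natDegree_map _
  set P : Polynomial (PowerSeries (MvPolynomial (Fin t) Ω)) :=
    Q.map Polynomial.coeToPowerSeries.ringHom with hP
  have hPmon : P.Monic := hQmon.map _
  have hPdeg : P.natDegree = G.natDegree := by rw [hP, hQmon.natDegree_map, hQdeg]
  set g : Polynomial Ω := (G.map (MvPolynomial.eval a)).map (algebraMap κ Ω) with hg
  have hgsep : g.Separable := hsepa.map
  have h0 : P.map (PowerSeries.constantCoeff (R := MvPolynomial (Fin t) Ω)) =
      g.map (algebraMap Ω (MvPolynomial (Fin t) Ω)) := by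
    rw [hP, hQ, hg, Polynomial.map_map, Polynomial.map_map, Polynomial.map_map, const_comp,
      Polynomial.map_map]
  obtain ⟨ξ, hξ⟩ := exists_powerSeries_roots Ω (MvPolynomial (Fin t) Ω) P hPmon g hgsep h0
  -- the degree bound
  set D : ℕ := Q.support.sup (fun j => (Q.coeff j).natDegree) with hD
  have hDle : ∀ j, (Q.coeff j).natDegree ≤ D := by
    intro j
    by_cases hj : j ∈ Q.support
    · exact Finset.le_sup (f := fun j => (Q.coeff j).natDegree) hj
    · rw [Polynomial.notMem_support_iff.1 hj]; simp
  -- partial products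
  have hclaim : ∀ S : Finset (Fin P.natDegree), 0 < S.card → S.card < G.natDegree →
      ∃ (j k : ℕ), D < k ∧
        PowerSeries.coeff k ((∏ i ∈ S, (Polynomial.X - Polynomial.C (ξ i))).coeff j) ≠ 0 := by
    intro S hS0 hS1
    by_contra hcon
    push Not at hcon
    set QS : Polynomial (PowerSeries (MvPolynomial (Fin t) Ω)) :=
      ∏ i ∈ S, (Polynomial.X - Polynomial.C (ξ i)) with hQS
    have hQSmon : QS.Monic := Polynomial.monic_prod_X_sub_C ξ S
    have hQSdeg : QS.natDegree = S.card := Polynomial.natDegree_finsetProd_X_sub_C_eq_card S ξ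
    have hlift : QS ∈ Polynomial.lifts
        (Polynomial.coeToPowerSeries.ringHom (R := MvPolynomial (Fin t) Ω)) := by
      rw [Polynomial.lifts_iff_coeff_lifts]
      intro n
      obtain ⟨f, hf⟩ := exists_polynomial_of_coeff_eq_zero (QS.coeff n) D (hcon n)
      exact ⟨f, hf⟩
    obtain ⟨H1, hH1, hH1deg, hH1mon⟩ :=
      Polynomial.lifts_and_natDegree_eq_and_monic hlift hQSmon
    have hdvdP : QS ∣ P := by
      rw [hξ]
      exact Finset.prod_dvd_prod_of_subset _ _ _ (Finset.subset_univ S)
    have hdvdQ : H1 ∣ Q := by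
      rw [← Polynomial.map_dvd_map Polynomial.coeToPowerSeries.ringHom
        (Polynomial.coe_injective _) hH1mon, hH1]
      exact hdvdP
    obtain ⟨H2, hH2⟩ := hdvdQ
    have hfac : G.map (MvPolynomial.map (algebraMap κ Ω)) =
        H1.map (backHom Ω a) * H2.map (backHom Ω a) := by
      rw [← Polynomial.map_mul, ← hH2, hQ, Polynomial.map_map, backHom_comp]
    have hH2mon : H2.Monic := hH1mon.of_mul_monic_left (hH2 ▸ hQmon)
    rcases hirr.isUnit_or_isUnit hfac with hu | hu
    · have := ((hH1mon.map (backHom Ω a)).isUnit_iff).1 hu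
      have h2 := congrArg Polynomial.natDegree this
      rw [hH1mon.natDegree_map, Polynomial.natDegree_one, hH1deg, hQSdeg] at h2
      omega
    · have := ((hH2mon.map (backHom Ω a)).isUnit_iff).1 hu
      have h2 := congrArg Polynomial.natDegree this
      rw [hH2mon.natDegree_map, Polynomial.natDegree_one] at h2
      have h3 := congrArg Polynomial.natDegree hH2
      rw [hH1mon.natDegree_mul hH2mon, hQdeg, hH1deg, hQSdeg, h2] at h3
      omega
  choose! jS kS hkD hES using hclaim
  -- the exceptional polynomials
  let E : Finset (Fin P.natDegree) → MvPolynomial (Fin t) Ω := fun S =>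
    if 0 < S.card ∧ S.card < G.natDegree then
      PowerSeries.coeff (kS S)
        ((∏ i ∈ S, (Polynomial.X - Polynomial.C (ξ i))).coeff (jS S)) else 1
  have hE : ∀ S, E S ≠ 0 := by
    intro S
    by_cases hS : 0 < S.card ∧ S.card < G.natDegree
    · simp only [E, if_pos hS]
      exact hES S hS.1 hS.2
    · simp only [E, if_neg hS]
      exact one_ne_zero
  obtain ⟨u, hu⟩ := exists_eval_ne_zero_subfield (κ := κ) t (∏ S, E S)
    (Finset.prod_ne_zero_iff.2 (fun S _ => hE S))
  rw [map_prod] at hu
  have hu' : ∀ S, evDir Ω u (E S) ≠ 0 := fun S =>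
    Finset.prod_ne_zero_iff.1 hu S (Finset.mem_univ S)
  refine ⟨specLine a u, ?_, ?_, ?_⟩
  · intro h1
    apply hha
    have := congrArg (fun r : MvPolynomial (Fin t) κ →+* κ => r h) (specLine_eval_zero a u)
    simp only [RingHom.comp_apply] at this
    rw [← this]
    have h2 : (specLine a u).toRingHom h = 0 := h1
    rw [h2, map_zero]
  · rw [Polynomial.map_map, specLine_eval_zero]
    exact hsepa
  · set q : Polynomial (Polynomial Ω) :=
      (G.map (specLine a u).toRingHom).map (Polynomial.mapRingHom (algebraMap κ Ω)) with hq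
    have hqQ : q = Q.map (Polynomial.mapRingHom (evDir Ω u)) := by
      rw [hq, hQ, Polynomial.map_map, Polynomial.map_map, evDir_comp]
    have hqmon : q.Monic := (hG.map _).map _
    have hqdeg : q.natDegree = G.natDegree := by
      rw [hqQ, hQmon.natDegree_map, hQdeg]
    have hGdeg : G.natDegree ≠ 0 := by
      intro h1
      have : G = 1 := (hG.natDegree_eq_zero).1 h1
      apply hirr.not_isUnit
      rw [this, Polynomial.map_one]
      exact isUnit_one
    have hqD : ∀ j, (q.coeff j).natDegree ≤ D := by
      intro j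
      rw [hqQ, Polynomial.coeff_map]
      exact (Polynomial.natDegree_map_le).trans (hDle j)
    rw [hqmon.irreducible_iff_natDegree]
    refine ⟨?_, ?_⟩
    · intro h1
      apply hGdeg
      rw [← hqdeg, h1, Polynomial.natDegree_one]
    · intro f1 f2 hf1 hf2 hf12
      by_contra hcon
      push Not at hcon
      obtain ⟨hn1, hn2⟩ := hcon
      have hdeg12 : f1.natDegree + f2.natDegree = G.natDegree := by
        rw [← hf1.natDegree_mul hf2, hf12, hqdeg]
      -- pass to power series
      have hprod : f1.map Polynomial.coeToPowerSeries.ringHom *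
          f2.map Polynomial.coeToPowerSeries.ringHom =
          1 * ∏ i ∈ (Finset.univ : Finset (Fin P.natDegree)),
            (Polynomial.X - Polynomial.C (PowerSeries.map (evDir Ω u) (ξ i))) := by
        rw [← Polynomial.map_mul, hf12, hqQ, Polynomial.map_map, one_mul]
        have hcomp : (Polynomial.coeToPowerSeries.ringHom (R := Ω)).comp
            (Polynomial.mapRingHom (evDir Ω u)) =
            (PowerSeries.map (evDir Ω u)).comp
              (Polynomial.coeToPowerSeries.ringHom (R := MvPolynomial (Fin t) Ω)) := by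
          ext x n <;> simp [Polynomial.coeff_X]
        rw [hcomp, ← Polynomial.map_map, ← hP]
        conv_lhs => rw [hξ]
        rw [Polynomial.map_prod]
        simp
      obtain ⟨S, S', b, b', -, -, hb, hfS, -⟩ := mul_eq_mul_prime_prod
        (fun i _ => Polynomial.prime_X_sub_C _) hprod
      have hb1 : b = 1 := by
        have hm : (∏ i ∈ S, (Polynomial.X -
            Polynomial.C (PowerSeries.map (evDir Ω u) (ξ i)))).Monic :=
          Polynomial.monic_prod_X_sub_C _ S
        have hbm : b.Monic := by
          have h1 : (f1.map (Polynomial.coeToPowerSeries.ringHom (R := Ω))).Monic := hf1.map _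
          rw [hfS] at h1
          exact hm.of_mul_monic_right h1
        exact hbm.isUnit_iff.1 (IsUnit.of_mul_eq_one b' hb.symm)
      rw [hb1, one_mul] at hfS
      have hScard : S.card = f1.natDegree := by
        rw [← hf1.natDegree_map (Polynomial.coeToPowerSeries.ringHom (R := Ω)), hfS]
        exact (Polynomial.natDegree_finsetProd_X_sub_C_eq_card S _).symm
      have hS0 : 0 < S.card := by omega
      have hS1 : S.card < G.natDegree := by omega
      have hES' := hu' S
      simp only [E, if_pos (And.intro hS0 hS1)] at hES'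
      apply hES'
      have hmapS : (∏ i ∈ S, (Polynomial.X - Polynomial.C (ξ i))).map
          (PowerSeries.map (evDir Ω u)) =
          f1.map (Polynomial.coeToPowerSeries.ringHom (R := Ω)) := by
        rw [hfS, Polynomial.map_prod]
        simp
      have h5 : PowerSeries.coeff (kS S) ((f1.map
          (Polynomial.coeToPowerSeries.ringHom (R := Ω))).coeff (jS S)) = 0 := by
        rw [Polynomial.coeff_map, Polynomial.coeToPowerSeries.ringHom_apply,
          Polynomial.coeff_coe]
        apply Polynomial.coeff_eq_zero_of_natDegree_lt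
        refine lt_of_le_of_lt ?_ (hkD S hS0 hS1)
        exact natDegree_coeff_le_of_mul_eq f1 f2 q hf12 hqmon.ne_zero D hqD _
      rw [← hmapS, Polynomial.coeff_map, PowerSeries.coeff_map] at h5
      exact h5

end Pool.Agent.W_MP_b723a0_ag
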