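import Mathlib
import Pool.Agent.W_MP_b723a0_ag.Defs

open scoped TensorProduct

namespace Pool.Agent.W_MP_b723a0_ag

/-- A finite separable extension generated by a root of an irreducible polynomial. -/
theorem ddm_field_root (F : Type) [Field F] (f : Polynomial F) (hf : Irreducible f)
    (hfs : f.Separable) :
    ∃ (K : Type) (_ : Field K) (_ : Algebra F K) (_ : FiniteDimensional F K)
      (_ : Algebra.IsSeparable F K) (x : K), Polynomial.aeval x f = 0 ∧
      (∀ z : K, ∃ q : Polynomial F, Polynomial.aeval x q = z ∧ q.degree < f.degree) ∧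
      (∀ q : Polynomial F, Polynomial.aeval x q = 0 → f ∣ q) ∧
      (∀ (L : Type) (_ : Field L) (i : F →+* L) (y : L), f.eval₂ i y = 0 →
        ∃ Φ : K →+* L, Φ.comp (algebraMap F K) = i ∧ Φ x = y) := by
  have : Fact (Irreducible f) := ⟨hf⟩
  have h0 : f ≠ 0 := hf.ne_zero
  have hroot : Polynomial.aeval (AdjoinRoot.root f) f = 0 := by
    rw [AdjoinRoot.aeval_eq, AdjoinRoot.mk_self]
  refine ⟨AdjoinRoot f, inferInstance, inferInstance, ?_, ?_, AdjoinRoot.root f, hroot, ?_, ?_, ?_⟩
  · exact (AdjoinRoot.powerBasis h0).finite
  · have hx : IsSeparable F (AdjoinRoot.root f) := by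
      have : minpoly F (AdjoinRoot.root f) ∣ f := minpoly.dvd F _ hroot
      exact hfs.of_dvd this
    have h1 := (IntermediateField.isSeparable_adjoin_simple_iff_isSeparable (F := F)
      (E := AdjoinRoot f)).2 hx
    rw [IntermediateField.adjoin_root_eq_top f] at h1
    exact (AlgEquiv.Algebra.isSeparable_iff (IntermediateField.topEquiv)).1 h1
  · intro z
    obtain ⟨q, rfl⟩ := AdjoinRoot.mk_surjective z
    refine ⟨q % f, ?_, Polynomial.degree_mod_lt _ h0⟩
    rw [AdjoinRoot.aeval_eq, AdjoinRoot.mk_eq_mk]
    rw [← dvd_neg]
    exact ⟨q / f, by rw [neg_sub, sub_eq_iff_eq_add, add_comm]; exact (EuclideanDomain.mod_add_div q f).symm⟩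
  · intro q hq
    rwa [AdjoinRoot.aeval_eq, AdjoinRoot.mk_eq_zero] at hq
  · intro L _ i y hy
    refine ⟨AdjoinRoot.lift i y hy, ?_, AdjoinRoot.lift_root hy⟩
    ext a
    simp [AdjoinRoot.algebraMap_eq]

theorem ddm_isDomain {k k' O L ι : Type} [Finite ι] [Field k] [Field k'] [Algebra k k']
    [CommRing O] [Algebra k O] [Field L] (i : k' →+* L) (j : O →+* L)
    (hij : ∀ a : k, i (algebraMap k k' a) = j (algebraMap k O a)) (β : Module.Basis ι k k')
    (hinj : ∀ z : ι → O, (∑ᶠ m, i (β m) * j (z m)) = 0 → z = 0) : IsDomain (k' ⊗[k] O) := by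
  cases nonempty_fintype ι
  let _ : Algebra k L := (i.comp (algebraMap k k')).toAlgebra
  let i' : k' →ₐ[k] L := { i with commutes' := fun a => rfl }
  let j' : O →ₐ[k] L := { j with commutes' := fun a => (hij a).symm }
  let φ : k' ⊗[k] O →ₐ[k] L := Algebra.TensorProduct.productMap i' j'
  have hφ : Function.Injective φ := by
    rw [injective_iff_map_eq_zero]
    intro t ht
    obtain ⟨c, rfl⟩ := TensorProduct.eq_repr_basis_left β t
    have h1 : (∑ᶠ m, i (β m) * j (c m)) = 0 := by
      rw [finsum_eq_sum_of_fintype, ← ht, map_finsuppSum,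
        Finsupp.sum_fintype _ _ (by simp)]
      refine Finset.sum_congr rfl fun m _ => ?_
      rw [Algebra.TensorProduct.productMap_apply_tmul]
      rfl
    have h2 : c = 0 := by
      ext m
      exact congrFun (hinj (fun m => c m) h1) m
    rw [h2, Finsupp.sum_zero_index]
  exact hφ.isDomain φ.toRingHom

theorem ddm_irr {k : Type} [Field k] (P : Polynomial (Polynomial k)) (hP : P.Monic)
    (hirr : Irreducible P) :
    Irreducible (P.map (algebraMap (Polynomial k) (FractionRing (Polynomial k)))) :=
  (hP.irreducible_iff_irreducible_map_fraction_map).1 hirr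

theorem ddm_sep {k : Type} [Field k] (P : Polynomial (Polynomial k)) (hP : P.Monic)
    (hirr : Irreducible P) (hsep : (P.map (Polynomial.evalRingHom 0)).Separable) :
    (P.map (algebraMap (Polynomial k) (FractionRing (Polynomial k)))).Separable := by
  rw [Polynomial.separable_iff_derivative_ne_zero (ddm_irr P hP hirr)]
  intro h
  rw [Polynomial.derivative_map] at h
  have h1 : Polynomial.derivative P = 0 :=
    Polynomial.map_injective _ (IsFractionRing.injective (Polynomial k) _)
      (by rw [h, Polynomial.map_zero])
  have h2 : Polynomial.derivative (P.map (Polynomial.evalRingHom 0)) = 0 := by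
    rw [Polynomial.derivative_map, h1, Polynomial.map_zero]
  rw [Polynomial.Separable, h2, isCoprime_zero_right] at hsep
  have h3 : (P.map (Polynomial.evalRingHom 0)).natDegree = 0 :=
    Polynomial.natDegree_eq_zero_of_isUnit hsep
  rw [hP.natDegree_map] at h3
  have h4 : P = 1 := hP.natDegree_eq_zero.1 h3
  exact hirr.not_isUnit (h4 ▸ isUnit_one)

/-- Linear independence over the fraction field. -/
theorem ddm_linInd {k k' ι : Type} [Fintype ι] [Field k] [Field k'] [Algebra k k']
    (β : Module.Basis ι k k')
    (ψ : FractionRing (Polynomial k) →+* FractionRing (Polynomial k'))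
    (hψ : ∀ a : Polynomial k, ψ (algebraMap _ _ a) =
      algebraMap _ _ (a.map (algebraMap k k')))
    (a : ι → FractionRing (Polynomial k))
    (ha : ∑ m, algebraMap (Polynomial k') (FractionRing (Polynomial k')) (Polynomial.C (β m)) *
      ψ (a m) = 0) : a = 0 := by
  obtain ⟨b, hb⟩ := IsLocalization.exist_integer_multiples_of_finite
    (nonZeroDivisors (Polynomial k)) a
  choose f hf using hb
  have h1 : ∑ m, Polynomial.C (β m) * (f m).map (algebraMap k k') = 0 := by
    apply IsFractionRing.injective (Polynomial k') (FractionRing (Polynomial k'))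
    rw [map_sum, map_zero]
    have : ∀ m, algebraMap (Polynomial k') (FractionRing (Polynomial k'))
        (Polynomial.C (β m) * (f m).map (algebraMap k k')) =
        ψ (algebraMap _ _ (b : Polynomial k)) *
        (algebraMap (Polynomial k') (FractionRing (Polynomial k')) (Polynomial.C (β m)) *
      ψ (a m)) := by
      intro m
      rw [map_mul, ← hψ, hf m, Algebra.smul_def, map_mul]
      ring
    rw [Finset.sum_congr rfl fun m _ => this m, ← Finset.mul_sum, ha, mul_zero]
  have h2 : ∀ m, f m = 0 := by
    intro m
    ext n
    have h3 := congrArg (fun q => Polynomial.coeff q n) h1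
    simp only [Polynomial.finsetSum_coeff, Polynomial.coeff_C_mul, Polynomial.coeff_map,
      Polynomial.coeff_zero] at h3
    have h5 : ∑ m, (f m).coeff n • β m = 0 := by
      rw [← h3]
      refine Finset.sum_congr rfl fun m _ => ?_
      rw [Algebra.smul_def, mul_comm]
    have h4 := Fintype.linearIndependent_iff.1 β.linearIndependent
      (fun m => (f m).coeff n) h5 m
    simpa using h4
  ext m
  have h5 := hf m
  rw [h2 m, map_zero, Algebra.smul_def] at h5
  rcases mul_eq_zero.1 h5.symm with h | h
  · exact absurd ((IsFractionRing.injective (Polynomial k) (FractionRing (Polynomial k)))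
      (by rw [h, map_zero])) (nonZeroDivisors.coe_ne_zero b)
  · exact h

/-- The Dedekind model of a curve. -/
theorem exists_dedekind_model (k k' : Type) [Field k] [Field k'] [Algebra k k']
    [FiniteDimensional k k'] (P : Polynomial (Polynomial k)) (hP : P.Monic)
    (hsep : (P.map (Polynomial.evalRingHom 0)).Separable)
    (hirr : Irreducible (P.map (Polynomial.mapRingHom (algebraMap k k')))) :
    ∃ (O : Type) (_ : CommRing O) (_ : IsDedekindDomain O) (_ : Algebra k O) (e : ℕ)
      (pb : PolyBasis k O e) (x : O), 0 < e ∧ IsDomain (k' ⊗[k] O) ∧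
      (P.map (Polynomial.aeval (R := k) pb.T).toRingHom).eval x = 0 := by
  classical
  have hirrP : Irreducible P := hP.irreducible_of_irreducible_map _ _ hirr
  have hP' : (P.map (Polynomial.mapRingHom (algebraMap k k'))).Monic := hP.map _
  -- the map of function fields
  have hinjA : Function.Injective ((algebraMap (Polynomial k') (FractionRing (Polynomial k'))).comp
      (Polynomial.mapRingHom (algebraMap k k'))) :=
    (IsFractionRing.injective _ _).comp
      (Polynomial.map_injective _ (algebraMap k k').injective)
  let ψ : FractionRing (Polynomial k) →+* FractionRing (Polynomial k') :=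
    IsFractionRing.lift (A := Polynomial k) hinjA
  have hψ : ∀ a : Polynomial k, ψ (algebraMap _ _ a) =
      algebraMap _ _ (a.map (algebraMap k k')) := fun a =>
    IsFractionRing.lift_algebraMap hinjA a
  have hψP : (P.map (Polynomial.mapRingHom (algebraMap k k'))).map
      (algebraMap (Polynomial k') (FractionRing (Polynomial k'))) =
      (P.map (algebraMap (Polynomial k) (FractionRing (Polynomial k)))).map ψ := by
    rw [Polynomial.map_map, Polynomial.map_map]
    congr 1
    ext a
    · simp [hψ]
    · simp [hψ]
  obtain ⟨K, _, _, _, _, x, hx0, hrep, hdvd, hlift⟩ :=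
    ddm_field_root (FractionRing (Polynomial k))
      (P.map (algebraMap (Polynomial k) (FractionRing (Polynomial k))))
      (ddm_irr P hP hirrP) (ddm_sep P hP hirrP hsep)
  obtain ⟨L, _, _, _, _, x', hx0', hrep', hdvd', hlift'⟩ :=
    ddm_field_root (FractionRing (Polynomial k'))
      ((P.map (Polynomial.mapRingHom (algebraMap k k'))).map
        (algebraMap (Polynomial k') (FractionRing (Polynomial k'))))
      (ddm_irr _ hP' hirr) (by rw [hψP]; exact (ddm_sep P hP hirrP hsep).map)
  obtain ⟨Φ, hΦ1, hΦ2⟩ := hlift L inferInstance
    ((algebraMap (FractionRing (Polynomial k')) L).comp ψ) x' (by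
      rw [← Polynomial.eval₂_map, ← hψP]; exact hx0')
  let _ : Algebra (Polynomial k) K := ((algebraMap (FractionRing (Polynomial k)) K).comp
    (algebraMap (Polynomial k) (FractionRing (Polynomial k)))).toAlgebra
  have _ : IsScalarTower (Polynomial k) (FractionRing (Polynomial k)) K :=
    IsScalarTower.of_algebraMap_eq fun _ => rfl
  have hTF : Module.IsTorsionFree (Polynomial k) K := by
    exact Module.IsTorsionFree.trans_faithfulSMul (Polynomial k) (FractionRing (Polynomial k)) K
  let O := integralClosure (Polynomial k) K
  let _ : Algebra k O := ((algebraMap (Polynomial k) O).comp (Polynomial.C)).toAlgebra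
  have _ : Module.Free (Polynomial k) O :=
    IsIntegralClosure.module_free (Polynomial k) (FractionRing (Polynomial k)) K O
  have _ : Module.Finite (Polynomial k) O :=
    IsIntegralClosure.finite (Polynomial k) (FractionRing (Polynomial k)) K O
  have hT : (Polynomial.aeval (R := k) (algebraMap (Polynomial k) O Polynomial.X)).toRingHom =
      algebraMap (Polynomial k) O :=
    Polynomial.ringHom_ext (fun a => by simp; rfl) (by simp)
  have hDed : IsDedekindDomain O :=
    integralClosure.isDedekindDomain (Polynomial k) (FractionRing (Polynomial k)) (L := K)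
  have haev : ∀ c : Polynomial k,
      Polynomial.aeval (R := k) (algebraMap (Polynomial k) O Polynomial.X) c =
        algebraMap (Polynomial k) O c := fun c => RingHom.congr_fun hT c
  let bs := Module.finBasis (Polynomial k) O
  have hx1 : Polynomial.aeval x P = 0 := by
    rw [Polynomial.aeval_def, IsScalarTower.algebraMap_eq (Polynomial k)
      (FractionRing (Polynomial k)) K, ← Polynomial.eval₂_map]
    exact hx0
  have hxint : IsIntegral (Polynomial k) x := ⟨P, hP, hx1⟩
  refine ⟨O, inferInstance, hDed, inferInstance, Module.finrank (Polynomial k) O,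
    ⟨algebraMap (Polynomial k) O Polynomial.X, bs, ?_⟩, ⟨x, hxint⟩, Module.finrank_pos, ?_, ?_⟩
  · have h1 : (fun c : Fin (Module.finrank (Polynomial k) O) → Polynomial k =>
        ∑ i, Polynomial.aeval (algebraMap (Polynomial k) O Polynomial.X) (c i) * bs i) =
        bs.equivFun.symm := by
      funext c
      rw [Module.Basis.equivFun_symm_apply]
      refine Finset.sum_congr rfl fun i _ => ?_
      rw [haev, Algebra.smul_def]
    rw [h1]
    exact bs.equivFun.symm.bijective
  · let i : k' →+* L := (algebraMap (FractionRing (Polynomial k')) L).comp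
      ((algebraMap (Polynomial k') (FractionRing (Polynomial k'))).comp Polynomial.C)
    let j : O →+* L := Φ.comp (algebraMap O K)
    have hij : ∀ a : k, i (algebraMap k k' a) = j (algebraMap k O a) := by
      intro a
      have h1 : algebraMap O K (algebraMap k O a) = algebraMap (FractionRing (Polynomial k)) K
          (algebraMap (Polynomial k) (FractionRing (Polynomial k)) (Polynomial.C a)) := rfl
      have h2 : j (algebraMap k O a) = Φ (algebraMap O K (algebraMap k O a)) := rfl
      have h3 := RingHom.congr_fun hΦ1 (algebraMap (Polynomial k) (FractionRing (Polynomial k))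
        (Polynomial.C a))
      rw [h2, h1]
      simp only [RingHom.comp_apply] at h3
      rw [h3, hψ, Polynomial.map_C]
      rfl
    refine ddm_isDomain i j hij (Module.finBasis k k') ?_
    intro z hz
    rw [finsum_eq_sum_of_fintype] at hz
    choose q hq hdeg using fun m => hrep (z m : K)
    let Q : Polynomial (FractionRing (Polynomial k')) := ∑ m,
      Polynomial.C (algebraMap (Polynomial k') (FractionRing (Polynomial k'))
        (Polynomial.C (Module.finBasis k k' m))) * (q m).map ψ
    have hQ0 : Polynomial.aeval x' Q = 0 := by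
      rw [map_sum, ← hz]
      refine Finset.sum_congr rfl fun m _ => ?_
      rw [map_mul, Polynomial.aeval_C]
      congr 1
      rw [Polynomial.aeval_def, Polynomial.eval₂_map, ← hΦ1, ← hΦ2, ← Polynomial.hom_eval₂]
      have : j (z m) = Φ (z m : K) := rfl
      rw [this, ← hq m]
      rfl
    have hQ1 : Q = 0 := by
      by_contra hne
      have h1 := Polynomial.degree_le_of_dvd (hdvd' Q hQ0) hne
      have h2 : Q.degree < (P.map (algebraMap (Polynomial k)
          (FractionRing (Polynomial k)))).degree := by
        refine lt_of_le_of_lt (Polynomial.degree_sum_le _ _) ?_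
        rw [Finset.sup_lt_iff]
        · intro m _
          refine lt_of_le_of_lt (Polynomial.degree_mul_le _ _) ?_
          have h8 := add_le_add (Polynomial.degree_C_le (a := algebraMap (Polynomial k')
            (FractionRing (Polynomial k')) (Polynomial.C (Module.finBasis k k' m))))
            (Polynomial.degree_map_le (f := ψ) (p := q m))
          rw [zero_add] at h8
          exact lt_of_le_of_lt h8 (hdeg m)
        · rw [bot_lt_iff_ne_bot, Ne, Polynomial.degree_eq_bot]
          exact (hP.map _).ne_zero
      rw [hψP, Polynomial.degree_map] at h1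
      exact absurd h1 (not_le.2 h2)
    have hq0 : ∀ m, q m = 0 := by
      intro m
      ext n
      have h3 := congrArg (fun r => Polynomial.coeff r n) hQ1
      simp only [Q, Polynomial.finsetSum_coeff, Polynomial.coeff_C_mul, Polynomial.coeff_map,
        Polynomial.coeff_zero] at h3
      have h4 := congrFun (ddm_linInd (Module.finBasis k k') ψ hψ (fun m => (q m).coeff n) h3) m
      simpa using h4
    funext m
    apply Subtype.ext
    have h6 := hq m
    rw [hq0 m, map_zero] at h6
    exact h6.symm
  · change (P.map ((Polynomial.aeval (R := k)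
      (algebraMap (Polynomial k) O Polynomial.X)).toRingHom)).eval (⟨x, hxint⟩ : O) = 0
    rw [hT, Polynomial.eval_map_algebraMap]
    apply Subtype.ext
    have h7 : ((Polynomial.aeval (⟨x, hxint⟩ : O) P : O) : K) = Polynomial.aeval x P := by
      have := Polynomial.aeval_algebraMap_apply K (⟨x, hxint⟩ : O) P
      exact this.symm
    rw [h7, hx1]
    rfl

end Pool.Agent.W_MP_b723a0_ag
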