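import Mathlib
import Pool.Agent.W_MP_b723a0_ag.Defs

open scoped TensorProduct

namespace Pool.Agent.W_MP_b723a0_ag

/-- The map of a `PolyBasis` as a linear map. -/
noncomputable def polyLin (k : Type*) (O : Type*) [Field k] [CommRing O] [Algebra k O] (e : ℕ)
    (T : O) (b : Fin e → O) : (Fin e → Polynomial k) →ₗ[k] O where
  toFun c := ∑ i, Polynomial.aeval T (c i) * b i
  map_add' c d := by
    simp [add_mul, Finset.sum_add_distrib]
  map_smul' r c := by
    simp [Finset.smul_sum, Algebra.smul_mul_assoc]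

/-- Quotients of `O` by nonzero ideals are finite dimensional. -/
theorem finite_quotient_of_polyBasis (k : Type) [Field k] (O : Type) [CommRing O] [IsDomain O]
    [Algebra k O] (e : ℕ) (pb : PolyBasis k O e) (I : Ideal O) (hI : I ≠ ⊥) :
    Module.Finite k (O ⧸ I) := by
  classical
  let _ : Algebra (Polynomial k) O := (Polynomial.aeval pb.T).toRingHom.toAlgebra
  have hmap : ∀ f : Polynomial k, algebraMap (Polynomial k) O f = Polynomial.aeval pb.T f :=
    fun f => rfl
  have hfin : Module.Finite (Polynomial k) O := by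
    let ψ : (Fin e → Polynomial k) →ₗ[Polynomial k] O :=
      { toFun := fun c : Fin e → Polynomial k => ∑ i, Polynomial.aeval pb.T (c i) * pb.b i
        map_add' := fun c d => by simp [add_mul, Finset.sum_add_distrib]
        map_smul' := fun r c => by
          simp [Finset.mul_sum, Algebra.smul_def, hmap, mul_assoc] }
    exact Module.Finite.of_surjective ψ pb.bij.2
  have hint : Algebra.IsIntegral (Polynomial k) O := Algebra.IsIntegral.of_finite _ _
  obtain ⟨g, hgI, hg0⟩ := Submodule.exists_mem_ne_zero_of_ne_bot hI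
  have hc := Ideal.comap_ne_bot_of_integral_mem (R := Polynomial k) hg0 hgI
    (Algebra.IsIntegral.isIntegral g)
  obtain ⟨f, hfI, hf0⟩ := Submodule.exists_mem_ne_zero_of_ne_bot hc
  have hfI' : Polynomial.aeval pb.T f ∈ I := hfI
  have hlt : ∀ c : Polynomial k, c % f ∈ Polynomial.degreeLT k f.natDegree := by
    intro c
    rw [Polynomial.mem_degreeLT]
    have := Polynomial.degree_mod_lt c hf0
    rwa [Polynomial.degree_eq_natDegree hf0] at this
  have hfd : Module.Finite k (Polynomial.degreeLT k f.natDegree) :=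
    Module.Finite.equiv (Polynomial.degreeLTEquiv k f.natDegree).symm
  let φ : (Fin e → Polynomial.degreeLT k f.natDegree) →ₗ[k] O ⧸ I :=
    (Ideal.Quotient.mkₐ k I).toLinearMap.comp ((polyLin k O e pb.T pb.b).comp
      (LinearMap.pi fun i => (Polynomial.degreeLT k f.natDegree).subtype.comp (LinearMap.proj i)))
  refine Module.Finite.of_surjective φ ?_
  intro x
  obtain ⟨x, rfl⟩ := Ideal.Quotient.mk_surjective x
  obtain ⟨c, rfl⟩ := pb.bij.2 x
  refine ⟨fun i => ⟨c i % f, hlt _⟩, ?_⟩
  change Ideal.Quotient.mk I (∑ i, Polynomial.aeval pb.T (c i % f) * pb.b i) = _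
  rw [Ideal.Quotient.eq, ← Finset.sum_sub_distrib]
  refine Ideal.sum_mem _ fun i _ => ?_
  have h1 : Polynomial.aeval pb.T (c i % f) * pb.b i - Polynomial.aeval pb.T (c i) * pb.b i
      = (- (Polynomial.aeval pb.T (c i / f) * pb.b i)) * Polynomial.aeval pb.T f := by
    have h2 : Polynomial.aeval pb.T (c i) = Polynomial.aeval pb.T f *
        Polynomial.aeval pb.T (c i / f) + Polynomial.aeval pb.T (c i % f) := by
      rw [← map_mul, ← map_add, EuclideanDomain.div_add_mod]
    rw [h2]
    ring
  rw [h1]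
  exact I.mul_mem_left _ hfI'

theorem polyBasis_tensor (k k' : Type) [Field k] [Field k'] [Algebra k k']
    (O : Type) [CommRing O] [Algebra k O] (e : ℕ)
    (pb : PolyBasis k O e) : Nonempty (PolyBasis k' (k' ⊗[k] O) e) := by
  classical
  have hL : Function.Bijective (polyLin k O e pb.T pb.b) := pb.bij
  let E : (Fin e → Polynomial k) ≃ₗ[k] O := LinearEquiv.ofBijective _ hL
  let B : Module.Basis (Σ _ : Fin e, ℕ) k O :=
    (Pi.basis fun _ : Fin e => Polynomial.basisMonomials k).map E
  have hB : ∀ i j, B ⟨i, j⟩ = pb.T ^ j * pb.b i := by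
    intro i j
    change E ((Pi.basis fun _ : Fin e => Polynomial.basisMonomials k) ⟨i, j⟩) = _
    rw [Pi.basis_apply]
    change ∑ i', Polynomial.aeval pb.T _ * pb.b i' = _
    rw [Finset.sum_eq_single i]
    · simp
    · intro i' _ hi'
      simp [Pi.single_eq_of_ne hi']
    · simp
  let B' : Module.Basis (Σ _ : Fin e, ℕ) k' (k' ⊗[k] O) := Algebra.TensorProduct.basis k' B
  let T' : k' ⊗[k] O := 1 ⊗ₜ pb.T
  let b' : Fin e → k' ⊗[k] O := fun i => 1 ⊗ₜ pb.b i
  refine ⟨⟨T', b', ?_⟩⟩
  let C : Module.Basis (Σ _ : Fin e, ℕ) k' (Fin e → Polynomial k') :=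
    Pi.basis fun _ : Fin e => Polynomial.basisMonomials k'
  have key : polyLin k' (k' ⊗[k] O) e T' b' = (C.equiv B' (Equiv.refl _)).toLinearMap := by
    refine C.ext fun ⟨i, j⟩ => ?_
    simp only [LinearEquiv.coe_coe, Module.Basis.equiv_apply, Equiv.refl_apply]
    change ∑ i', Polynomial.aeval T' (C ⟨i, j⟩ i') * b' i' = _
    have hC : C ⟨i, j⟩ = Pi.single i (Polynomial.basisMonomials k' j) := Pi.basis_apply _ _
    rw [hC, Finset.sum_eq_single i]
    · simp [B', hB, T', b']
    · intro i' _ hi'
      simp [Pi.single_eq_of_ne hi']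
    · simp
  have h2 : Function.Bijective (polyLin k' (k' ⊗[k] O) e T' b') := by
    rw [key]
    exact (C.equiv B' (Equiv.refl _)).bijective
  exact h2

end Pool.Agent.W_MP_b723a0_ag
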