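import Mathlib
import Pool.Agent.W_MP_b723a0_ag.Defs

open scoped TensorProduct

namespace Pool.Agent.W_MP_b723a0_ag

/-- Additivity of the dimension of quotients in a Dedekind domain. -/
theorem finrank_quotient_mul (k : Type) [Field k] (O : Type) [CommRing O] [IsDedekindDomain O]
    [Algebra k O] (hfin : ∀ I : Ideal O, I ≠ ⊥ → Module.Finite k (O ⧸ I))
    (I J : Ideal O) (hI : I ≠ ⊥) (hJ : J ≠ ⊥) :
    Module.finrank k (O ⧸ (I * J)) = Module.finrank k (O ⧸ I) + Module.finrank k (O ⧸ J) := by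
  have hIJ : I * J ≠ ⊥ := by
    rw [Ne, ← Ideal.zero_eq_bot, mul_eq_zero, not_or, Ideal.zero_eq_bot]
    exact ⟨hI, hJ⟩
  obtain ⟨a, ha⟩ := IsDedekindDomain.exists_sup_span_eq (I := I * J) (J := I)
    Ideal.mul_le_left hIJ
  have haI : a ∈ I := by
    rw [← ha]
    exact Ideal.mem_sup_right (Ideal.mem_span_singleton_self a)
  -- kernel of `x ↦ a x mod IJ` is `J`
  have hker : ∀ x : O, a * x ∈ I * J ↔ x ∈ J := by
    intro x
    constructor
    · intro hx
      have h1 : Ideal.span {x} * I ≤ I * J := by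
        rw [← ha, Ideal.mul_sup, Ideal.span_singleton_mul_span_singleton, ha]
        refine sup_le (Ideal.mul_le_right) ?_
        rw [Ideal.span_singleton_le_iff_mem, mul_comm x a]
        exact hx
      have h2 : I * Ideal.span {x} ≤ I * J := by rwa [mul_comm]
      have h3 : Ideal.span {x} ≤ J := by
        rw [← Ideal.dvd_iff_le] at h2 ⊢
        exact (mul_dvd_mul_iff_left (by rwa [Ne, Ideal.zero_eq_bot])).1 h2
      exact (Ideal.span_singleton_le_iff_mem _).1 h3
    · intro hx
      exact Ideal.mul_mem_mul haI hx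
  have hfIJ := hfin (I * J) hIJ
  let π : (O ⧸ (I * J)) →ₗ[k] (O ⧸ I) :=
    (Ideal.Quotient.factorₐ k (Ideal.mul_le_left : I * J ≤ I)).toLinearMap
  let ψ : (O ⧸ J) →ₗ[k] (O ⧸ (I * J)) :=
    (Submodule.mapQ J (I * J) (LinearMap.mulLeft O a)
      (fun x hx => (hker x).2 hx)).restrictScalars k
  have hψ : Function.Injective ψ := by
    rw [injective_iff_map_eq_zero]
    intro y hy
    obtain ⟨x, rfl⟩ := Ideal.Quotient.mk_surjective y
    have h1 : (Ideal.Quotient.mk (I * J)) (a * x) = 0 := hy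
    rw [Ideal.Quotient.eq_zero_iff_mem] at h1
    exact Ideal.Quotient.eq_zero_iff_mem.2 ((hker x).1 h1)
  have hπ : Function.Surjective π := by
    intro y
    obtain ⟨x, rfl⟩ := Ideal.Quotient.mk_surjective y
    exact ⟨Ideal.Quotient.mk (I * J) x, rfl⟩
  have hex : LinearMap.ker π = LinearMap.range ψ := by
    ext y
    obtain ⟨x, rfl⟩ := Ideal.Quotient.mk_surjective y
    rw [LinearMap.mem_ker, LinearMap.mem_range]
    constructor
    · intro hx
      have h1 : (Ideal.Quotient.mk I) x = 0 := hx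
      rw [Ideal.Quotient.eq_zero_iff_mem, ← ha, Submodule.mem_sup] at h1
      obtain ⟨u, hu, v, hv, huv⟩ := h1
      obtain ⟨w, rfl⟩ := Ideal.mem_span_singleton'.1 hv
      refine ⟨Ideal.Quotient.mk J w, ?_⟩
      change (Ideal.Quotient.mk (I * J)) (a * w) = (Ideal.Quotient.mk (I * J)) x
      rw [Ideal.Quotient.eq, ← huv]
      have : a * w - (u + w * a) = -u := by ring
      rw [this]
      exact neg_mem hu
    · rintro ⟨z, hz⟩
      obtain ⟨w, rfl⟩ := Ideal.Quotient.mk_surjective z
      have h1 : (Ideal.Quotient.mk (I * J)) (a * w) = (Ideal.Quotient.mk (I * J)) x := hz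
      rw [Ideal.Quotient.eq] at h1
      change (Ideal.Quotient.mk I) x = 0
      rw [Ideal.Quotient.eq_zero_iff_mem]
      have h2 : x = a * w - (a * w - x) := by ring
      rw [h2]
      exact sub_mem (Ideal.mul_mem_right _ _ haI) (Ideal.mul_le_left h1)
  have h1 := LinearMap.finrank_range_add_finrank_ker π
  rw [LinearMap.range_eq_top.2 hπ, finrank_top, hex, LinearMap.finrank_range_of_inj hψ] at h1
  exact h1.symm

end Pool.Agent.W_MP_b723a0_ag
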