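import Mathlib
import Pool.Agent.W_MP_b723a0_ag.Defs
import Pool.Agent.W_MP_b723a0_ag.QuotFinite
import Pool.Agent.W_MP_b723a0_ag.QuotMul

open scoped TensorProduct

namespace Pool.Agent.W_MP_b723a0_ag

open Polynomial in
theorem natDegree_det_le_of_entries {k : Type} [Field k] {n : ℕ}
    (A : Matrix (Fin n) (Fin n) k[X]) (D : ℕ) (h : ∀ i j, (A i j).natDegree ≤ D) :
    A.det.natDegree ≤ n * D := by
  rw [Matrix.det_apply]
  refine natDegree_sum_le_of_forall_le _ _ fun σ _ => ?_
  refine (natDegree_smul_le _ _).trans ?_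
  refine (natDegree_prod_le _ _).trans ?_
  refine (Finset.sum_le_sum fun i _ => h (σ i) i).trans ?_
  simp

open Polynomial in
/-- Dimension of the quotient by a nonzero element with coordinates of degree at most `M`. -/
theorem finrank_quotient_span_le (k : Type) [Field k] (O : Type) [CommRing O] [IsDomain O]
    [Algebra k O] (e : ℕ) (pb : PolyBasis k O e) :
    ∃ C₁ : ℕ, ∀ (M : ℕ) (c : Fin e → k[X]), (∀ i, (c i).natDegree ≤ M) →
      (∑ i, aeval pb.T (c i) * pb.b i) ≠ 0 →
      Module.finrank k (O ⧸ Ideal.span {∑ i, aeval pb.T (c i) * pb.b i}) ≤ e * (M + C₁) := by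
  classical
  let _ : Algebra k[X] O := (aeval pb.T : k[X] →ₐ[k] O).toRingHom.toAlgebra
  have hsm : ∀ (f : k[X]) (x : O), f • x = aeval pb.T f * x := fun f x => rfl
  have : IsScalarTower k k[X] O := by
    refine IsScalarTower.of_algebraMap_eq' ?_
    ext r
    show algebraMap k O r = aeval pb.T (algebraMap k k[X] r)
    simp
  let L : (Fin e → k[X]) →ₗ[k[X]] O := Fintype.linearCombination k[X] pb.b
  have hL : ∀ c, L c = ∑ i, aeval pb.T (c i) * pb.b i := fun c => by
    simp [L, Fintype.linearCombination_apply, hsm]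
  have hbij : Function.Bijective L := by
    have : (L : (Fin e → k[X]) → O) = fun c => ∑ i, aeval pb.T (c i) * pb.b i := funext hL
    rw [this]
    exact pb.bij
  let bb : Module.Basis (Fin e) k[X] O :=
    Module.Basis.ofEquivFun (LinearEquiv.ofBijective L hbij).symm
  have hbb : ∀ c : Fin e → k[X], ∑ i, c i • bb i = L c := by
    intro c
    have := bb.equivFun.symm_apply_apply
    rw [← bb.equivFun_symm_apply]
    simp [bb]
  let A : Fin e → Matrix (Fin e) (Fin e) k[X] := fun i => Algebra.leftMulMatrix bb (bb i)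
  let C₁ : ℕ := Finset.univ.sup fun i : Fin e => Finset.univ.sup fun r : Fin e =>
    Finset.univ.sup fun s : Fin e => (A i r s).natDegree
  have hC₁ : ∀ i r s, (A i r s).natDegree ≤ C₁ := by
    intro i r s
    refine le_trans ?_ (Finset.le_sup (f := fun i : Fin e => Finset.univ.sup fun r : Fin e =>
      Finset.univ.sup fun s : Fin e => (A i r s).natDegree) (Finset.mem_univ i))
    refine le_trans ?_ (Finset.le_sup (f := fun r : Fin e =>
      Finset.univ.sup fun s : Fin e => (A i r s).natDegree) (Finset.mem_univ r))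
    exact Finset.le_sup (f := fun s : Fin e => (A i r s).natDegree) (Finset.mem_univ s)
  refine ⟨C₁, fun M c hc h0 => ?_⟩
  rw [finrank_quotient_span_eq_natDegree_norm bb h0, Algebra.norm_eq_matrix_det bb]
  refine natDegree_det_le_of_entries _ _ fun r s => ?_
  have e1 : (∑ i, aeval pb.T (c i) * pb.b i) = ∑ i, c i • bb i := by rw [hbb, hL]
  rw [e1, map_sum, Matrix.sum_apply]
  refine natDegree_sum_le_of_forall_le _ _ fun i _ => ?_
  rw [map_smul, Matrix.smul_apply, smul_eq_mul]
  exact natDegree_mul_le.trans (add_le_add (hc i) (hC₁ i r s))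

open Polynomial in
/-- A nonzero ideal of small codimension contains a nonzero element with coordinates of small
degree. -/
theorem exists_small_mem (k : Type) [Field k] (O : Type) [CommRing O] [IsDomain O]
    [Algebra k O] (e : ℕ) (pb : PolyBasis k O e) (I : Ideal O) (hI : I ≠ ⊥) (M : ℕ)
    (hM : Module.finrank k (O ⧸ I) < e * (M + 1)) :
    ∃ c : Fin e → degreeLT k (M + 1), c ≠ 0 ∧
      (∑ i, aeval pb.T (c i : k[X]) * pb.b i) ≠ 0 ∧
      (∑ i, aeval pb.T (c i : k[X]) * pb.b i) ∈ I := by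
  have := finite_quotient_of_polyBasis k O e pb I hI
  let L : (Fin e → degreeLT k (M + 1)) →ₗ[k] O :=
    { toFun := fun c => ∑ i, aeval pb.T (c i : k[X]) * pb.b i
      map_add' := fun c d => by
        simp [add_mul, Finset.sum_add_distrib]
      map_smul' := fun a c => by
        simp [Finset.smul_sum] }
  let Q : (Fin e → degreeLT k (M + 1)) →ₗ[k] O ⧸ I :=
    ((Ideal.Quotient.mkₐ k I).toLinearMap).comp L
  have hfr : Module.finrank k (Fin e → degreeLT k (M + 1)) = e * (M + 1) := by
    rw [Module.finrank_pi_fintype]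
    simp [LinearEquiv.finrank_eq (degreeLTEquiv k (M + 1))]
  have : Module.Finite k (degreeLT k (M + 1)) :=
    Module.Finite.equiv (degreeLTEquiv k (M + 1)).symm
  have hker : LinearMap.ker Q ≠ ⊥ := by
    apply LinearMap.ker_ne_bot_of_finrank_lt
    rw [hfr]; exact hM
  obtain ⟨c, hc, hc0⟩ := Submodule.exists_mem_ne_zero_of_ne_bot hker
  refine ⟨c, hc0, ?_, ?_⟩
  · intro h
    apply hc0
    have h2 : (fun i => (c i : k[X])) = 0 := by
      apply pb.bij.1
      simp [h]
    funext i
    exact Subtype.ext (congrFun h2 i)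
  · have : Ideal.Quotient.mk I (L c) = 0 := hc
    exact Ideal.Quotient.eq_zero_iff_mem.1 this

open Polynomial in
/-- Finitely many ideals of bounded codimension. -/
theorem finite_small_ideals (k : Type) [Field k] [Finite k] (O : Type) [CommRing O]
    [IsDedekindDomain O] [Algebra k O] (e : ℕ) (pb : PolyBasis k O e) (N : ℕ) :
    {J : Ideal O | J ≠ ⊥ ∧ Module.finrank k (O ⧸ J) ≤ N}.Finite := by
  classical
  have hfinT : Finite (degreeLT k (N + 1)) :=
    Finite.of_equiv _ (degreeLTEquiv k (N + 1)).symm.toEquiv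
  have he : 0 < e := by
    rcases Nat.eq_zero_or_pos e with h | h
    · exfalso
      subst h
      obtain ⟨c, hc⟩ := pb.bij.2 1
      simp at hc
    · exact h
  have hinj : ∀ f : k[X], aeval pb.T f = 0 → f = 0 := by
    intro f hf
    have h2 : (fun _ : Fin e => f) = 0 := by
      apply pb.bij.1
      simp [hf]
    exact congrFun h2 ⟨0, he⟩
  have hsub : {J : Ideal O | J ≠ ⊥ ∧ Module.finrank k (O ⧸ J) ≤ N} ⊆
      ⋃ f : {f : degreeLT k (N + 1) // f ≠ 0},
        {J : Ideal O | J ∣ Ideal.span {aeval pb.T (f.1 : k[X])}} := by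
    rintro J ⟨hJ, hN⟩
    have := finite_quotient_of_polyBasis k O e pb J hJ
    let Q : degreeLT k (N + 1) →ₗ[k] O ⧸ J :=
      (((Ideal.Quotient.mkₐ k J).toLinearMap).comp (aeval pb.T).toLinearMap).comp
        (degreeLT k (N + 1)).subtype
    have : Module.Finite k (degreeLT k (N + 1)) :=
      Module.Finite.equiv (degreeLTEquiv k (N + 1)).symm
    have hker : LinearMap.ker Q ≠ ⊥ := by
      apply LinearMap.ker_ne_bot_of_finrank_lt
      rw [LinearEquiv.finrank_eq (degreeLTEquiv k (N + 1))]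
      simp
      omega
    obtain ⟨f, hf, hf0⟩ := Submodule.exists_mem_ne_zero_of_ne_bot hker
    rw [Set.mem_iUnion]
    refine ⟨⟨f, hf0⟩, ?_⟩
    rw [Set.mem_ofPred_eq, Ideal.dvd_span_singleton]
    exact Ideal.Quotient.eq_zero_iff_mem.1 hf
  refine Set.Finite.subset (Set.finite_iUnion fun f => ?_) hsub
  have hne : Ideal.span {aeval pb.T (f.1 : k[X])} ≠ 0 := by
    rw [Ideal.zero_eq_bot, Ne, Ideal.span_singleton_eq_bot]
    intro h
    exact f.2 (Subtype.ext (hinj _ h))
  have := UniqueFactorizationMonoid.fintypeSubtypeDvd _ hne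
  exact Set.finite_coe_iff.1 (Finite.of_injective
    (fun x : {J : Ideal O | J ∣ Ideal.span {aeval pb.T (f.1 : k[X])}} =>
      (⟨x.1, x.2⟩ : {J : Ideal O // J ∣ Ideal.span {aeval pb.T (f.1 : k[X])}}))
    fun x y h => Subtype.ext (congrArg Subtype.val h))

open Polynomial in
theorem ideal_count_upper (k : Type) [Field k] [Finite k] (O : Type) [CommRing O]
    [IsDedekindDomain O] [Algebra k O] (e : ℕ) (pb : PolyBasis k O e) :
    ∃ C : ℕ, ∀ N : ℕ,
      {I : Ideal O | I ≠ ⊥ ∧ Module.finrank k (O ⧸ I) = N}.Finite ∧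
      {I : Ideal O | I ≠ ⊥ ∧ Module.finrank k (O ⧸ I) = N}.ncard ≤ C * Nat.card k ^ N := by
  classical
  obtain ⟨C₁, hC₁⟩ := finrank_quotient_span_le k O e pb
  have he : 0 < e := by
    rcases Nat.eq_zero_or_pos e with h | h
    · exfalso
      subst h
      obtain ⟨c, hc⟩ := pb.bij.2 1
      simp at hc
    · exact h
  set S : Set (Ideal O) := {J : Ideal O | J ≠ ⊥ ∧ Module.finrank k (O ⧸ J) ≤ e * C₁} with hS
  have hSfin : S.Finite := finite_small_ideals k O e pb (e * C₁)
  refine ⟨Nat.card k ^ e * S.ncard, fun N => ?_⟩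
  have hNfin : {I : Ideal O | I ≠ ⊥ ∧ Module.finrank k (O ⧸ I) = N}.Finite := by
    refine (finite_small_ideals k O e pb N).subset ?_
    rintro I ⟨h1, h2⟩
    exact ⟨h1, h2.le⟩
  refine ⟨hNfin, ?_⟩
  set M : ℕ := N / e with hM
  have hM1 : e * M ≤ N := Nat.mul_div_le N e
  have hM2 : N < e * (M + 1) := by
    have := Nat.lt_mul_div_succ N he
    simpa [hM] using this
  set R : Set (Ideal O) := {I : Ideal O | I ≠ ⊥ ∧ Module.finrank k (O ⧸ I) = N} with hR
  have key : ∀ I : R, ∃ x : (Fin e → degreeLT k (M + 1)) × S,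
      Ideal.span {∑ i, aeval pb.T (x.1 i : k[X]) * pb.b i} = I.1 * x.2.1 := by
    rintro ⟨I, hI0, hIN⟩
    obtain ⟨c, hc0, hg0, hgI⟩ := exists_small_mem k O e pb I hI0 M (by rw [hIN]; exact hM2)
    obtain ⟨J, hJ⟩ := Ideal.dvd_span_singleton.2 hgI
    have hJ0 : J ≠ ⊥ := by
      rintro rfl
      rw [Ideal.mul_bot, Ideal.span_singleton_eq_bot] at hJ
      exact hg0 hJ
    have hle := hC₁ M (fun i => (c i : k[X])) (fun i => by
      have := mem_degreeLT.1 (c i).2
      refine natDegree_le_iff_coeff_eq_zero.2 fun r hr => ?_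
      refine coeff_eq_zero_of_degree_lt (this.trans_le ?_)
      exact_mod_cast hr) hg0
    rw [hJ, finrank_quotient_mul k O (fun I hI => finite_quotient_of_polyBasis k O e pb I hI)
      I J hI0 hJ0, hIN, mul_add] at hle
    refine ⟨⟨c, ⟨J, hJ0, ?_⟩⟩, hJ⟩
    omega
  choose F hF using key
  have hFinj : Function.Injective F := by
    intro I I' h
    have h1 := hF I
    have h2 := hF I'
    rw [← h, h1] at h2
    have h3 : (F I).2.1 ≠ 0 := (F I).2.2.1
    exact Subtype.ext (mul_right_cancel₀ h3 h2)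
  have : Finite (degreeLT k (M + 1)) :=
    Finite.of_equiv _ (degreeLTEquiv k (M + 1)).symm.toEquiv
  have : Finite S := hSfin
  have hcard := Nat.card_le_card_of_injective F hFinj
  rw [Nat.card_prod, Nat.card_fun, Nat.card_congr (degreeLTEquiv k (M + 1)).toEquiv,
    Nat.card_fun] at hcard
  rw [Nat.card_fin, Nat.card_fin, ← pow_mul, Nat.card_coe_set_eq,
    Nat.card_coe_set_eq] at hcard
  refine hcard.trans ?_
  have hq : 1 ≤ Nat.card k := Nat.card_pos
  have hpow : Nat.card k ^ ((M + 1) * e) ≤ Nat.card k ^ (N + e) := by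
    apply Nat.pow_le_pow_right hq
    have : (M + 1) * e = e * M + e := by ring
    omega
  calc Nat.card k ^ ((M + 1) * e) * S.ncard ≤ Nat.card k ^ (N + e) * S.ncard :=
        Nat.mul_le_mul_right _ hpow
    _ = Nat.card k ^ e * S.ncard * Nat.card k ^ N := by rw [pow_add]; ring

end Pool.Agent.W_MP_b723a0_ag
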