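import Mathlib
import Pool.Agent.W_MP_b723a0_ag.Defs
import Pool.Agent.W_MP_b723a0_ag.QuotFinite
import Pool.Agent.W_MP_b723a0_ag.Upper

open scoped TensorProduct

namespace Pool.Agent.W_MP_b723a0_ag

section Filtration

open Polynomial

variable {k : Type} [Field k] {O : Type} [CommRing O] [Algebra k O] {e : ℕ}

/-- The linear equivalence given by a basis over `k[T]`. -/
noncomputable def PolyBasis.lowEquiv (pb : PolyBasis k O e) : (Fin e → k[X]) ≃ₗ[k] O :=
  LinearEquiv.ofBijective
    { toFun := fun c => ∑ i, aeval pb.T (c i) * pb.b i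
      map_add' := by intro c d; simp [add_mul, Finset.sum_add_distrib]
      map_smul' := by intro r c; simp [Finset.smul_sum] }
    pb.bij

theorem PolyBasis.lowEquiv_apply (pb : PolyBasis k O e) (c : Fin e → k[X]) :
    pb.lowEquiv c = ∑ i, aeval pb.T (c i) * pb.b i := rfl

/-- Elements whose coordinates have degree less than `n`. -/
noncomputable def PolyBasis.fil (pb : PolyBasis k O e) (n : ℕ) : Submodule k O :=
  (Submodule.pi Set.univ fun _ => degreeLT k n).comap pb.lowEquiv.symm.toLinearMap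

theorem PolyBasis.mem_fil (pb : PolyBasis k O e) (n : ℕ) (x : O) :
    x ∈ pb.fil n ↔ ∀ i, (pb.lowEquiv.symm x i).degree < n := by
  simp [PolyBasis.fil, Submodule.mem_pi, mem_degreeLT]

theorem PolyBasis.lowEquiv_mem_fil (pb : PolyBasis k O e) (n : ℕ) (c : Fin e → k[X]) :
    pb.lowEquiv c ∈ pb.fil n ↔ ∀ i, (c i).degree < n := by
  rw [PolyBasis.mem_fil, LinearEquiv.symm_apply_apply]

/-- The filtration pieces in coordinates. -/
noncomputable def PolyBasis.filEquiv (pb : PolyBasis k O e) (n : ℕ) :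
    pb.fil n ≃ₗ[k] (Fin e → degreeLT k n) where
  toFun x := fun i => ⟨pb.lowEquiv.symm x i, mem_degreeLT.2 ((pb.mem_fil n x).1 x.2 i)⟩
  invFun c := ⟨pb.lowEquiv fun i => (c i : k[X]),
    (pb.lowEquiv_mem_fil n _).2 fun i => mem_degreeLT.1 (c i).2⟩
  map_add' x y := by ext; simp
  map_smul' r x := by ext; simp
  left_inv x := by ext; simp
  right_inv c := by ext; simp

instance PolyBasis.fil_finite (pb : PolyBasis k O e) (n : ℕ) : Module.Finite k (pb.fil n) :=
  have : Module.Finite k (degreeLT k n) := Module.Finite.equiv (degreeLTEquiv k n).symm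
  Module.Finite.equiv (pb.filEquiv n).symm

theorem PolyBasis.finrank_fil (pb : PolyBasis k O e) (n : ℕ) :
    Module.finrank k (pb.fil n) = e * n := by
  have : Module.Finite k (degreeLT k n) := Module.Finite.equiv (degreeLTEquiv k n).symm
  rw [(pb.filEquiv n).finrank_eq, Module.finrank_pi_fintype, (degreeLTEquiv k n).finrank_eq]
  simp

theorem PolyBasis.aeval_mul (pb : PolyBasis k O e) (f : k[X]) (c : Fin e → k[X]) :
    aeval pb.T f * pb.lowEquiv c = pb.lowEquiv fun i => f * c i := by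
  simp [PolyBasis.lowEquiv_apply, Finset.mul_sum, mul_assoc]

theorem PolyBasis.fil_mono (pb : PolyBasis k O e) {m n : ℕ} (h : m ≤ n) :
    pb.fil m ≤ pb.fil n := by
  intro x hx
  rw [PolyBasis.mem_fil] at hx ⊢
  exact fun i => (hx i).trans_le (by exact_mod_cast h)

theorem PolyBasis.exists_mem_fil (pb : PolyBasis k O e) (x : O) : ∃ n, x ∈ pb.fil n := by
  refine ⟨Finset.univ.sup (fun i => (pb.lowEquiv.symm x i).natDegree) + 1, ?_⟩
  rw [PolyBasis.mem_fil]
  intro i
  refine (degree_le_natDegree).trans_lt ?_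
  have : (pb.lowEquiv.symm x i).natDegree ≤
      Finset.univ.sup (fun i => (pb.lowEquiv.symm x i).natDegree) :=
    Finset.le_sup (f := fun i => (pb.lowEquiv.symm x i).natDegree) (Finset.mem_univ i)
  exact_mod_cast Nat.lt_succ_of_le this

theorem PolyBasis.exists_forall_mem_fil (pb : PolyBasis k O e) {ι : Type*} [Finite ι]
    (x : ι → O) : ∃ n, ∀ i, x i ∈ pb.fil n := by
  choose n hn using fun i => pb.exists_mem_fil (x i)
  have := Fintype.ofFinite ι
  exact ⟨Finset.univ.sup n, fun i => pb.fil_mono (Finset.le_sup (Finset.mem_univ i)) (hn i)⟩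

theorem degree_mul_lt_add {f g : k[X]} {a b : ℕ} (hf : f.degree < a) (hg : g.degree < b) :
    (f * g).degree < ((a + b : ℕ) : WithBot ℕ) := by
  by_cases hf0 : f = 0
  · simp only [hf0, zero_mul, degree_zero]; exact WithBot.bot_lt_coe _
  by_cases hg0 : g = 0
  · simp only [hg0, mul_zero, degree_zero]; exact WithBot.bot_lt_coe _
  rw [degree_mul]
  rw [degree_eq_natDegree hf0] at hf ⊢
  rw [degree_eq_natDegree hg0] at hg ⊢
  have h1 : f.natDegree < a := by exact_mod_cast hf
  have h2 : g.natDegree < b := by exact_mod_cast hg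
  exact_mod_cast (by omega : f.natDegree + g.natDegree < a + b)

theorem PolyBasis.aeval_mul_mem_fil (pb : PolyBasis k O e) {f : k[X]} {a n : ℕ} {x : O}
    (hf : f.degree < a) (hx : x ∈ pb.fil n) : aeval pb.T f * x ∈ pb.fil (a + n) := by
  obtain ⟨c, rfl⟩ := pb.lowEquiv.surjective x
  rw [pb.aeval_mul, pb.lowEquiv_mem_fil]
  exact fun i => degree_mul_lt_add hf ((pb.lowEquiv_mem_fil n c).1 hx i)

theorem PolyBasis.exists_mul_mem_fil (pb : PolyBasis k O e) :
    ∃ C, ∀ a b x y, x ∈ pb.fil a → y ∈ pb.fil b → x * y ∈ pb.fil (a + b + C) := by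
  obtain ⟨C, hC⟩ := pb.exists_forall_mem_fil fun p : Fin e × Fin e => pb.b p.1 * pb.b p.2
  refine ⟨C, fun a b x y hx hy => ?_⟩
  obtain ⟨c, rfl⟩ := pb.lowEquiv.surjective x
  obtain ⟨d, rfl⟩ := pb.lowEquiv.surjective y
  rw [pb.lowEquiv_apply c, pb.lowEquiv_apply d, Finset.sum_mul_sum]
  refine Submodule.sum_mem _ fun i _ => Submodule.sum_mem _ fun j _ => ?_
  have h : aeval pb.T (c i) * pb.b i * (aeval pb.T (d j) * pb.b j) =
      aeval pb.T (c i * d j) * (pb.b i * pb.b j) := by
    rw [map_mul]; ring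
  rw [h]
  exact pb.aeval_mul_mem_fil (degree_mul_lt_add ((pb.lowEquiv_mem_fil a c).1 hx i)
    ((pb.lowEquiv_mem_fil b d).1 hy j)) (hC (i, j))

theorem PolyBasis.pow_mul_mem_fil (pb : PolyBasis k O e) {n : ℕ} (M : ℕ) {x : O}
    (hx : x ∈ pb.fil n) : pb.T ^ M * x ∈ pb.fil (M + n) := by
  obtain ⟨c, rfl⟩ := pb.lowEquiv.surjective x
  have h : pb.T ^ M * pb.lowEquiv c = pb.lowEquiv fun i => X ^ M * c i := by
    rw [← pb.aeval_mul]; simp
  rw [h, pb.lowEquiv_mem_fil]
  intro i
  have h1 := (pb.lowEquiv_mem_fil n c).1 hx i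
  by_cases h0 : c i = 0
  · rw [h0, mul_zero, degree_zero]; exact WithBot.bot_lt_coe _
  rw [degree_mul, degree_X_pow]
  rw [degree_eq_natDegree h0] at h1 ⊢
  have h2 : (c i).natDegree < n := by exact_mod_cast h1
  exact_mod_cast (by omega : M + (c i).natDegree < M + n)

theorem PolyBasis.of_pow_mul_mem_fil (pb : PolyBasis k O e) {n : ℕ} (M : ℕ) {x : O}
    (hx : pb.T ^ M * x ∈ pb.fil (M + n)) : x ∈ pb.fil n := by
  obtain ⟨c, rfl⟩ := pb.lowEquiv.surjective x
  have h : pb.T ^ M * pb.lowEquiv c = pb.lowEquiv fun i => X ^ M * c i := by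
    rw [← pb.aeval_mul]; simp
  rw [h, pb.lowEquiv_mem_fil] at hx
  rw [pb.lowEquiv_mem_fil]
  intro i
  have h1 := hx i
  by_cases h0 : c i = 0
  · rw [h0, degree_zero]; exact WithBot.bot_lt_coe _
  rw [degree_mul, degree_X_pow] at h1
  rw [degree_eq_natDegree h0] at h1 ⊢
  have h2 : M + (c i).natDegree < M + n := by exact_mod_cast h1
  exact_mod_cast (by omega : (c i).natDegree < n)

theorem PolyBasis.fil_zero (pb : PolyBasis k O e) : pb.fil 0 = ⊥ := by
  rw [eq_bot_iff]
  intro x hx
  rw [PolyBasis.mem_fil] at hx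
  have h : pb.lowEquiv.symm x = 0 := by
    funext i
    have := hx i
    simpa using this
  simpa using h

theorem PolyBasis.exists_exact (pb : PolyBasis k O e) {x : O} (hx : x ≠ 0) :
    ∃ D, x ∈ pb.fil (D + 1) ∧ x ∉ pb.fil D := by
  classical
  have h := pb.exists_mem_fil x
  have h1 : Nat.find h ≠ 0 := by
    intro h0
    have h2 := Nat.find_spec h
    rw [h0, pb.fil_zero] at h2
    exact hx (by simpa using h2)
  refine ⟨Nat.find h - 1, ?_, ?_⟩
  · have h2 := Nat.find_spec h
    rwa [Nat.sub_add_cancel (Nat.one_le_iff_ne_zero.2 h1)]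
  · exact Nat.find_min h (by omega)

/-- The top coefficients of an element. -/
theorem PolyBasis.exists_top (pb : PolyBasis k O e) {x : O} {n M : ℕ} (hn : M ≤ n)
    (hx : x ∈ pb.fil (n + 1)) : ∃ w ∈ pb.fil (n - M + 1), x - pb.T ^ M * w ∈ pb.fil n := by
  obtain ⟨c, rfl⟩ := pb.lowEquiv.surjective x
  rw [pb.lowEquiv_mem_fil] at hx
  refine ⟨pb.lowEquiv fun i => C ((c i).coeff n) * X ^ (n - M), ?_, ?_⟩
  · rw [pb.lowEquiv_mem_fil]
    intro i
    refine (degree_C_mul_X_pow_le _ _).trans_lt ?_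
    exact_mod_cast Nat.lt_succ_self _
  · have h : pb.T ^ M * pb.lowEquiv (fun i => C ((c i).coeff n) * X ^ (n - M)) =
        pb.lowEquiv fun i => C ((c i).coeff n) * X ^ n := by
      rw [show pb.T ^ M = aeval pb.T (X ^ M : k[X]) by simp, pb.aeval_mul]
      congr 1
      funext i
      rw [mul_left_comm, ← pow_add, Nat.add_sub_cancel' hn]
    rw [h, ← map_sub, pb.lowEquiv_mem_fil]
    intro i
    rw [degree_lt_iff_coeff_zero]
    intro m hm
    rw [Pi.sub_apply, coeff_sub, coeff_C_mul, coeff_X_pow]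
    rcases hm.eq_or_lt with rfl | hlt
    · simp
    · have h1 : (c i).coeff m = 0 :=
        (degree_lt_iff_coeff_zero _ _).1 (hx i) m hlt
      simp [h1, hlt.ne']

end Filtration

theorem ideal_count_lower (k : Type) [Field k] [Finite k] (O : Type) [CommRing O]
    [IsDedekindDomain O] [Algebra k O] (e : ℕ) (pb : PolyBasis k O e)
    (B : Ideal O) (hB : B ≠ ⊥) :
    ∃ C M₀ : ℕ, ∀ M ≥ M₀,
      Nat.card k ^ (e * M) ≤
        C * {I : Ideal O | I ≠ ⊥ ∧ I ⊔ B = ⊤ ∧ Module.finrank k (O ⧸ I) = e * M}.ncard := by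
  classical
  obtain ⟨C1, hC1⟩ := pb.exists_mul_mem_fil
  have hfinB : Module.Finite k (O ⧸ B) := finite_quotient_of_polyBasis k O e pb B hB
  have hB' : Finite (O ⧸ B) := Module.finite_of_finite k
  obtain ⟨ρ, hρ⟩ : ∃ ρ : O ⧸ B → O, ∀ c, Ideal.Quotient.mk B (ρ c) = c :=
    ⟨fun c => (Ideal.Quotient.mk_surjective c).choose,
      fun c => (Ideal.Quotient.mk_surjective c).choose_spec⟩
  obtain ⟨n0, hn0⟩ := pb.exists_forall_mem_fil ρ
  obtain ⟨s, hs⟩ := pb.exists_mem_fil (1 : O)
  -- facts on the elements `T ^ M + g'`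
  have hexact : ∀ M g', C1 + 2 ≤ M → g' ∈ pb.fil (M - (C1 + 2) + 1) → ∀ w D,
      w ∈ pb.fil (D + 1) → w ∉ pb.fil D → (pb.T ^ M + g') * w ∉ pb.fil (M + D) := by
    intro M g' hM hg w D hw hw' h
    have h1 : g' * w ∈ pb.fil (M + D) := by
      have h2 := hC1 _ _ _ _ hg hw
      rwa [show M - (C1 + 2) + 1 + (D + 1) + C1 = M + D by omega] at h2
    have h3 : pb.T ^ M * w ∈ pb.fil (M + D) := by
      have h4 := Submodule.sub_mem _ h h1
      rwa [show (pb.T ^ M + g') * w - g' * w = pb.T ^ M * w by ring] at h4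
    exact hw' (pb.of_pow_mul_mem_fil M h3)
  have hrank : ∀ M g', C1 + 2 ≤ M → g' ∈ pb.fil (M - (C1 + 2) + 1) →
      Module.finrank k (O ⧸ Ideal.span {pb.T ^ M + g'}) = e * M := by
    intro M g' hM hg
    set g := pb.T ^ M + g' with hgdef
    have hcompl : IsCompl ((Ideal.span {g}).restrictScalars k) (pb.fil M) := by
      constructor
      · rw [Submodule.disjoint_def]
        intro x hx hx'
        rw [Submodule.restrictScalars_mem, Ideal.mem_span_singleton'] at hx
        obtain ⟨w, rfl⟩ := hx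
        by_cases hw : w = 0
        · rw [hw, zero_mul]
        obtain ⟨D, h1, h2⟩ := pb.exists_exact hw
        refine absurd (pb.fil_mono (Nat.le_add_right M D) hx') ?_
        rw [mul_comm]
        exact hexact M g' hM hg w D h1 h2
      · rw [codisjoint_iff, eq_top_iff]
        have key : ∀ n, ∀ x ∈ pb.fil n,
            x ∈ (Ideal.span {g}).restrictScalars k ⊔ pb.fil M := by
          intro n
          induction n with
          | zero =>
            intro x hx
            exact Submodule.mem_sup_right (pb.fil_mono (Nat.zero_le _) hx)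
          | succ n ih =>
            intro x hx
            by_cases hn : n + 1 ≤ M
            · exact Submodule.mem_sup_right (pb.fil_mono hn hx)
            obtain ⟨w, hw, hw'⟩ := pb.exists_top (M := M) (by omega) hx
            have h1 : g' * w ∈ pb.fil n := by
              have h2 := hC1 _ _ _ _ hg hw
              exact pb.fil_mono (by omega) h2
            have h2 : x - g * w ∈ pb.fil n := by
              have h3 := Submodule.sub_mem _ hw' h1
              rwa [show x - pb.T ^ M * w - g' * w = x - g * w by rw [hgdef]; ring] at h3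
            have h3 : g * w ∈ (Ideal.span {g}).restrictScalars k := by
              rw [Submodule.restrictScalars_mem, Ideal.mem_span_singleton]
              exact dvd_mul_right _ _
            have h4 := Submodule.add_mem _ (ih _ h2) (Submodule.mem_sup_left h3)
            rwa [sub_add_cancel] at h4
        intro x _
        obtain ⟨n, hn⟩ := pb.exists_mem_fil x
        exact key n x hn
    rw [← pb.finrank_fil M, ← (Submodule.quotientEquivOfIsCompl _ _ hcompl).finrank_eq]
    exact (Submodule.Quotient.restrictScalarsEquiv k (Ideal.span {g})).finrank_eq.symm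
  have hne : ∀ M g', C1 + 2 ≤ M → g' ∈ pb.fil (M - (C1 + 2) + 1) → pb.T ^ M + g' ≠ 0 := by
    intro M g' hM hg h0
    obtain ⟨D, h1, h2⟩ := pb.exists_exact (one_ne_zero (α := O))
    refine hexact M g' hM hg 1 D h1 h2 ?_
    rw [h0, zero_mul]
    exact Submodule.zero_mem _
  refine ⟨Nat.card k ^ (e * (C1 + 1)) * (Nat.card (O ⧸ B) * Nat.card k ^ (e * s)),
    n0 + C1 + 2, fun M hM => ?_⟩
  have hM' : C1 + 2 ≤ M := by omega
  set S : Set (Ideal O) := {I : Ideal O | I ≠ ⊥ ∧ I ⊔ B = ⊤ ∧ Module.finrank k (O ⧸ I) = e * M}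
    with hS
  have hSfin : S.Finite := by
    obtain ⟨C, hC⟩ := ideal_count_upper k O e pb
    exact (hC (e * M)).1.subset fun I hI => ⟨hI.1, hI.2.2⟩
  have hSf : Finite S := hSfin
  let rep : Ideal O → O := fun I =>
    if h : ∃ g' ∈ pb.fil (M - (C1 + 2) + 1), Ideal.span {pb.T ^ M + g'} = I then
      pb.T ^ M + h.choose else 0
  have hmap : ∀ x : pb.fil (M - (C1 + 2) + 1), ∃ p : S × (O ⧸ B) × pb.fil s,
      (x : O) = rep p.1 * p.2.2 - pb.T ^ M + ρ p.2.1 := by
    intro x
    set c := Ideal.Quotient.mk B (pb.T ^ M + x - 1) with hc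
    have hg2 : (x : O) - ρ c ∈ pb.fil (M - (C1 + 2) + 1) :=
      Submodule.sub_mem _ x.2 (pb.fil_mono (by omega) (hn0 c))
    set g := pb.T ^ M + ((x : O) - ρ c) with hg
    have hgB : g - 1 ∈ B := by
      rw [← Ideal.Quotient.eq_zero_iff_mem]
      have h1 : g - 1 = (pb.T ^ M + x - 1) - ρ c := by rw [hg]; ring
      rw [h1, map_sub, hρ, ← hc, sub_self]
    have hI : Ideal.span {g} ∈ S := by
      refine ⟨?_, ?_, hrank M _ hM' hg2⟩
      · rw [Ne, Ideal.span_singleton_eq_bot]
        exact hne M _ hM' hg2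
      · rw [Ideal.eq_top_iff_one]
        have h1 : (1 : O) = g + -(g - 1) := by ring
        rw [h1]
        exact Submodule.add_mem _ (Submodule.mem_sup_left (Ideal.mem_span_singleton_self g))
          (Submodule.mem_sup_right (Submodule.neg_mem _ hgB))
    have hex : ∃ g' ∈ pb.fil (M - (C1 + 2) + 1),
        Ideal.span {pb.T ^ M + g'} = Ideal.span {g} := ⟨_, hg2, rfl⟩
    have hrep : rep (Ideal.span {g}) = pb.T ^ M + hex.choose := dif_pos hex
    have hspan : Ideal.span {rep (Ideal.span {g})} = Ideal.span {g} := by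
      rw [hrep]; exact hex.choose_spec.2
    rw [Ideal.span_singleton_eq_span_singleton] at hspan
    obtain ⟨u, hu⟩ := hspan
    have hu0 : (u : O) ≠ 0 := u.ne_zero
    obtain ⟨D, h1, h2⟩ := pb.exists_exact hu0
    have h3 : g ∉ pb.fil (M + D) := by
      rw [← hu, hrep]
      exact hexact M _ hM' hex.choose_spec.1 u D h1 h2
    have h4 : g ∈ pb.fil (M + s) := by
      refine Submodule.add_mem _ ?_ (pb.fil_mono (by omega) hg2)
      have := pb.pow_mul_mem_fil M hs
      rwa [mul_one] at this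
    have h5 : D + 1 ≤ s := by
      by_contra hno
      exact h3 (pb.fil_mono (by omega) h4)
    refine ⟨(⟨Ideal.span {g}, hI⟩, c, ⟨u, pb.fil_mono h5 h1⟩), ?_⟩
    simp only
    rw [hu, hg]
    ring
  choose Ψ hΨ using hmap
  have hinj : Function.Injective Ψ := by
    intro x y hxy
    apply Subtype.ext
    rw [hΨ x, hΨ y, hxy]
  have hfils : Finite (pb.fil s) := Module.finite_of_finite k
  have hcard := Nat.card_le_card_of_injective Ψ hinj
  rw [Nat.card_prod, Nat.card_prod, Module.natCard_eq_pow_finrank (K := k),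
    Module.natCard_eq_pow_finrank (K := k) (V := pb.fil s), pb.finrank_fil, pb.finrank_fil,
    Nat.card_coe_set_eq] at hcard
  calc Nat.card k ^ (e * M)
      = Nat.card k ^ (e * (C1 + 1)) * Nat.card k ^ (e * (M - (C1 + 2) + 1)) := by
        rw [← pow_add, ← mul_add]
        congr 2
        omega
    _ ≤ Nat.card k ^ (e * (C1 + 1)) *
          (S.ncard * (Nat.card (O ⧸ B) * Nat.card k ^ (e * s))) :=
        Nat.mul_le_mul_left _ hcard
    _ = Nat.card k ^ (e * (C1 + 1)) * (Nat.card (O ⧸ B) * Nat.card k ^ (e * s)) *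
          S.ncard := by ring

end Pool.Agent.W_MP_b723a0_ag
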