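import Mathlib
import Pool.Agent.W_MP_b723a0_ag.Defs

open scoped TensorProduct

namespace Pool.Agent.W_MP_b723a0_ag

/-- The maximal ideal of `k' ⊗ O` attached to an embedding of `k'` into a residue field. -/
theorem prime_of_algHom (k k' : Type) [Field k] [Field k'] [Algebra k k'] (O : Type) [CommRing O]
    [Algebra k O] (Q : Ideal O) (hQ : Q.IsMaximal) (i : k' →ₐ[k] (O ⧸ Q)) :
    let ψ : (k' ⊗[k] O) →ₐ[k] (O ⧸ Q) :=
      Algebra.TensorProduct.lift i (Ideal.Quotient.mkₐ k Q) (fun _ _ => Commute.all _ _)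
    (RingHom.ker ψ).IsMaximal ∧
      (RingHom.ker ψ).comap
        (Algebra.TensorProduct.includeRight (R := k) (A := k') (B := O)) = Q ∧
      Module.finrank k k' * Module.finrank k' ((k' ⊗[k] O) ⧸ (RingHom.ker ψ)) =
        Module.finrank k (O ⧸ Q) := by
  intro ψ
  have hψ : ∀ (a : k') (x : O), ψ (a ⊗ₜ x) = i a * Ideal.Quotient.mk Q x := by
    intro a x
    exact Algebra.TensorProduct.lift_tmul _ _ _ _ _
  have hsurj : Function.Surjective ψ := by
    intro y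
    obtain ⟨x, rfl⟩ := Ideal.Quotient.mk_surjective y
    refine ⟨1 ⊗ₜ x, ?_⟩
    rw [hψ, map_one, one_mul]
  have hmax : (RingHom.ker ψ).IsMaximal := by
    letI : Field (O ⧸ Q) := Ideal.Quotient.field Q
    exact RingHom.ker_isMaximal_of_surjective ψ.toRingHom hsurj
  refine ⟨hmax, ?_, ?_⟩
  · ext x
    rw [Ideal.mem_comap, RingHom.mem_ker, Algebra.TensorProduct.includeRight_apply, hψ, map_one,
      one_mul, Ideal.Quotient.eq_zero_iff_mem]
  · have e1 : Module.finrank k ((k' ⊗[k] O) ⧸ (RingHom.ker ψ)) = Module.finrank k (O ⧸ Q) :=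
      LinearEquiv.finrank_eq (Ideal.quotientKerAlgEquivOfSurjective hsurj).toLinearEquiv
    rw [← e1]
    exact Module.finrank_mul_finrank k k' _

/-- If `k'/k` has degree `ℓ` and `Q` is a maximal ideal of `O` of residue degree divisible by
`ℓ`, then there are two distinct maximal ideals of `k' ⊗ O` over `Q`, of degree `deg Q / ℓ`. -/
theorem exists_two_primes (k k' : Type) [Field k] [Finite k] [Field k'] [Algebra k k'] (ℓ : ℕ)
    (hℓ : ℓ.Prime) (hdeg : Module.finrank k k' = ℓ) (O : Type) [CommRing O]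
    [Algebra k O] (Q : Ideal O) (hQ : Q.IsMaximal) (hfin : Module.Finite k (O ⧸ Q))
    (hdvd : ℓ ∣ Module.finrank k (O ⧸ Q)) :
    ∃ Q₁ Q₂ : Ideal (k' ⊗[k] O), Q₁.IsMaximal ∧ Q₂.IsMaximal ∧ Q₁ ≠ Q₂ ∧
      Q₁.comap (Algebra.TensorProduct.includeRight (R := k) (A := k') (B := O)) = Q ∧
      Q₂.comap (Algebra.TensorProduct.includeRight (R := k) (A := k') (B := O)) = Q ∧
      ℓ * Module.finrank k' ((k' ⊗[k] O) ⧸ Q₁) = Module.finrank k (O ⧸ Q) ∧
      ℓ * Module.finrank k' ((k' ⊗[k] O) ⧸ Q₂) = Module.finrank k (O ⧸ Q) := by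
  have hcard : Nat.card (k' →ₐ[k] (O ⧸ Q)) = ℓ := by
    letI : Field (O ⧸ Q) := Ideal.Quotient.field Q
    haveI : Finite (O ⧸ Q) := Module.finite_of_finite k
    rw [← hdeg]
    exact FiniteField.natCard_algHom_of_finrank_dvd (hdeg ▸ hdvd)
  have hnt : Nontrivial (k' →ₐ[k] (O ⧸ Q)) := by
    haveI : Finite (k' →ₐ[k] (O ⧸ Q)) :=
      Nat.finite_of_card_ne_zero (by rw [hcard]; exact hℓ.ne_zero)
    rw [← Finite.one_lt_card_iff_nontrivial, hcard]
    exact hℓ.one_lt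
  obtain ⟨i, j, hij⟩ := hnt
  obtain ⟨h1, h2, h3⟩ := prime_of_algHom k k' O Q hQ i
  obtain ⟨g1, g2, g3⟩ := prime_of_algHom k k' O Q hQ j
  rw [hdeg] at h3 g3
  refine ⟨_, _, h1, g1, ?_, h2, g2, h3, g3⟩
  intro heq
  apply hij
  ext a
  obtain ⟨x, hx⟩ := Ideal.Quotient.mk_surjective (i a)
  have hmem : (a ⊗ₜ (1 : O) - (1 : k') ⊗ₜ x : k' ⊗[k] O) ∈ RingHom.ker
      (Algebra.TensorProduct.lift i (Ideal.Quotient.mkₐ k Q) (fun _ _ => Commute.all _ _)) := by
    rw [RingHom.mem_ker, map_sub, Algebra.TensorProduct.lift_tmul, Algebra.TensorProduct.lift_tmul,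
      map_one, map_one, mul_one, one_mul, sub_eq_zero]
    exact hx.symm
  rw [heq, RingHom.mem_ker, map_sub, Algebra.TensorProduct.lift_tmul,
    Algebra.TensorProduct.lift_tmul, map_one, map_one, mul_one, one_mul, sub_eq_zero] at hmem
  rw [hmem]
  exact hx.symm

end Pool.Agent.W_MP_b723a0_ag
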