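import Mathlib
import Pool.Agent.W_MP_b723a0_ag.Defs
import Pool.Agent.W_MP_b723a0_ag.QuotFinite
import Pool.Agent.W_MP_b723a0_ag.QuotMul
import Pool.Agent.W_MP_b723a0_ag.SplitPrime

open scoped TensorProduct

namespace Pool.Agent.W_MP_b723a0_ag

/-- Dimension of the quotient by a product of nonzero ideals. -/
theorem finrank_quotient_multiset_prod (k : Type) [Field k] (O : Type) [CommRing O]
    [IsDedekindDomain O] [Algebra k O]
    (hfin : ∀ I : Ideal O, I ≠ ⊥ → Module.Finite k (O ⧸ I)) (s : Multiset (Ideal O))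
    (hs : ∀ I ∈ s, I ≠ ⊥) :
    s.prod ≠ ⊥ ∧
      Module.finrank k (O ⧸ s.prod) = (s.map (fun I => Module.finrank k (O ⧸ I))).sum := by
  induction s using Multiset.induction_on with
  | empty =>
    refine ⟨by simp [Ideal.one_eq_top], ?_⟩
    have : Subsingleton (O ⧸ (Multiset.prod (0 : Multiset (Ideal O)))) := by
      rw [Multiset.prod_zero, Ideal.one_eq_top]
      exact Ideal.Quotient.subsingleton_iff.mpr rfl
    rw [Multiset.map_zero, Multiset.sum_zero]
    exact Module.finrank_zero_of_subsingleton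
  | cons a t ih =>
    have hat : a ≠ ⊥ := hs a (Multiset.mem_cons_self a t)
    obtain ⟨h1, h2⟩ := ih (fun I hI => hs I (Multiset.mem_cons_of_mem hI))
    refine ⟨?_, ?_⟩
    · rw [Multiset.prod_cons]
      exact mul_ne_zero hat h1
    · rw [Multiset.prod_cons, Multiset.map_cons, Multiset.sum_cons,
        finrank_quotient_mul k O hfin a t.prod hat h1, h2]

theorem exists_pair_map (k k' : Type) [Field k] [Finite k] [Field k'] [Algebra k k'] (ℓ : ℕ)
    (hℓ : ℓ.Prime) (hdeg : Module.finrank k k' = ℓ) (O : Type) [CommRing O]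
    [IsDedekindDomain O] [Algebra k O] (e : ℕ) (pb : PolyBasis k O e)
    [IsDedekindDomain (k' ⊗[k] O)] (B : Ideal O)
    (hdiv : ∀ Q : Ideal O, Q.IsMaximal → ¬ B ≤ Q → ℓ ∣ Module.finrank k (O ⧸ Q)) :
    ∃ Ψ : {I : Ideal O // I ≠ ⊥ ∧ I ⊔ B = ⊤} × {I : Ideal O // I ≠ ⊥ ∧ I ⊔ B = ⊤} →
        Ideal (k' ⊗[k] O), Function.Injective Ψ ∧ ∀ x, Ψ x ≠ ⊥ ∧
      ℓ * Module.finrank k' ((k' ⊗[k] O) ⧸ Ψ x) =
        Module.finrank k (O ⧸ x.1.1) + Module.finrank k (O ⧸ x.2.1) := by
  classical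
  have hfin : ∀ I : Ideal O, I ≠ ⊥ → Module.Finite k (O ⧸ I) :=
    fun I hI => finite_quotient_of_polyBasis k O e pb I hI
  obtain ⟨pb'⟩ := polyBasis_tensor k k' O e pb
  have hfin' : ∀ I : Ideal (k' ⊗[k] O), I ≠ ⊥ → Module.Finite k' ((k' ⊗[k] O) ⧸ I) :=
    fun I hI => finite_quotient_of_polyBasis k' (k' ⊗[k] O) e pb' I hI
  -- the choice of two primes
  set ι := Algebra.TensorProduct.includeRight (R := k) (A := k') (B := O) with hι
  have hιinj : Function.Injective ι :=
    Algebra.TensorProduct.includeRight_injective (algebraMap k k').injective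
  let Good : Ideal O → Prop := fun Q => Q.IsMaximal ∧ Q ≠ ⊥ ∧ ¬ B ≤ Q
  have key : ∀ Q : Ideal O, ∃ P : Ideal (k' ⊗[k] O) × Ideal (k' ⊗[k] O), Good Q →
      P.1.IsMaximal ∧ P.2.IsMaximal ∧ P.1 ≠ P.2 ∧ P.1.comap ι = Q ∧ P.2.comap ι = Q ∧
      ℓ * Module.finrank k' ((k' ⊗[k] O) ⧸ P.1) = Module.finrank k (O ⧸ Q) ∧
      ℓ * Module.finrank k' ((k' ⊗[k] O) ⧸ P.2) = Module.finrank k (O ⧸ Q) := by
    intro Q
    by_cases hQ : Good Q
    · obtain ⟨Q₁, Q₂, h⟩ := exists_two_primes k k' ℓ hℓ hdeg O Q hQ.1 (hfin Q hQ.2.1)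
        (hdiv Q hQ.1 hQ.2.2)
      exact ⟨(Q₁, Q₂), fun _ => h⟩
    · exact ⟨(⊥, ⊥), fun h => absurd h hQ⟩
  choose P hP using key
  have hne : ∀ (Q : Ideal O) (X : Ideal (k' ⊗[k] O)), Q ≠ ⊥ → X.comap ι = Q → X ≠ ⊥ := by
    intro Q X hQ hX hbot
    apply hQ
    rw [← hX, hbot]
    rw [eq_bot_iff]
    intro x hx
    rw [Ideal.mem_comap, Ideal.mem_bot] at hx
    rw [Ideal.mem_bot]
    exact hιinj (by rw [hx, map_zero])
  have hgood : ∀ I : Ideal O, I ≠ ⊥ → I ⊔ B = ⊤ →
      ∀ Q ∈ UniqueFactorizationMonoid.normalizedFactors I, Good Q := by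
    intro I hI hIB Q hQ
    have hprime : Prime Q := UniqueFactorizationMonoid.prime_of_normalized_factor Q hQ
    have hbot : Q ≠ ⊥ := hprime.ne_zero
    have hmax : Q.IsMaximal := (Ideal.isPrime_of_prime hprime).isMaximal hbot
    refine ⟨hmax, hbot, fun hBQ => hmax.ne_top ?_⟩
    have hIQ : I ≤ Q := Ideal.le_of_dvd (UniqueFactorizationMonoid.dvd_of_mem_normalizedFactors hQ)
    rw [eq_top_iff, ← hIB]
    exact sup_le hIQ hBQ
  have hprime1 : ∀ Q, Good Q → Prime (P Q).1 := fun Q hQ =>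
    Ideal.prime_of_isPrime (hne Q _ hQ.2.1 (hP Q hQ).2.2.2.1) (hP Q hQ).1.isPrime
  have hprime2 : ∀ Q, Good Q → Prime (P Q).2 := fun Q hQ =>
    Ideal.prime_of_isPrime (hne Q _ hQ.2.1 (hP Q hQ).2.2.2.2.1) (hP Q hQ).2.1.isPrime
  let M : {I : Ideal O // I ≠ ⊥ ∧ I ⊔ B = ⊤} × {I : Ideal O // I ≠ ⊥ ∧ I ⊔ B = ⊤} →
      Multiset (Ideal (k' ⊗[k] O)) := fun x =>
    (UniqueFactorizationMonoid.normalizedFactors x.1.1).map (fun Q => (P Q).1) +
      (UniqueFactorizationMonoid.normalizedFactors x.2.1).map (fun Q => (P Q).2)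
  have hMprime : ∀ x, ∀ p ∈ M x, Prime p := by
    intro x p hp
    rcases Multiset.mem_add.mp hp with h | h
    · obtain ⟨Q, hQ, rfl⟩ := Multiset.mem_map.mp h
      exact hprime1 Q (hgood _ x.1.2.1 x.1.2.2 Q hQ)
    · obtain ⟨Q, hQ, rfl⟩ := Multiset.mem_map.mp h
      exact hprime2 Q (hgood _ x.2.2.1 x.2.2.2 Q hQ)
  -- recovering the two factorisations
  have hfilt : ∀ x, (((M x).filter (fun X => (P (X.comap ι)).1 = X)).map (fun X => X.comap ι)) =
      UniqueFactorizationMonoid.normalizedFactors x.1.1 := by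
    intro x
    have h1 : ((UniqueFactorizationMonoid.normalizedFactors x.1.1).map (fun Q => (P Q).1)).filter
        (fun X => (P (X.comap ι)).1 = X) =
        (UniqueFactorizationMonoid.normalizedFactors x.1.1).map (fun Q => (P Q).1) := by
      rw [Multiset.filter_eq_self]
      intro X hX
      obtain ⟨Q, hQ, rfl⟩ := Multiset.mem_map.mp hX
      have := (hP Q (hgood _ x.1.2.1 x.1.2.2 Q hQ)).2.2.2.1
      rw [this]
    have h2 : ((UniqueFactorizationMonoid.normalizedFactors x.2.1).map (fun Q => (P Q).2)).filter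
        (fun X => (P (X.comap ι)).1 = X) = 0 := by
      rw [Multiset.filter_eq_nil]
      intro X hX
      obtain ⟨Q, hQ, rfl⟩ := Multiset.mem_map.mp hX
      have hg := hP Q (hgood _ x.2.2.1 x.2.2.2 Q hQ)
      rw [hg.2.2.2.2.1]
      exact hg.2.2.1
    change Multiset.map _ (Multiset.filter _ (_ + _)) = _
    rw [Multiset.filter_add, h1, h2, add_zero, Multiset.map_map]
    conv_rhs => rw [← Multiset.map_id (UniqueFactorizationMonoid.normalizedFactors x.1.1)]
    refine Multiset.map_congr rfl (fun Q hQ => ?_)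
    exact (hP Q (hgood _ x.1.2.1 x.1.2.2 Q hQ)).2.2.2.1
  have hfilt2 : ∀ x, (((M x).filter (fun X => (P (X.comap ι)).2 = X)).map (fun X => X.comap ι)) =
      UniqueFactorizationMonoid.normalizedFactors x.2.1 := by
    intro x
    have h1 : ((UniqueFactorizationMonoid.normalizedFactors x.2.1).map (fun Q => (P Q).2)).filter
        (fun X => (P (X.comap ι)).2 = X) =
        (UniqueFactorizationMonoid.normalizedFactors x.2.1).map (fun Q => (P Q).2) := by
      rw [Multiset.filter_eq_self]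
      intro X hX
      obtain ⟨Q, hQ, rfl⟩ := Multiset.mem_map.mp hX
      have := (hP Q (hgood _ x.2.2.1 x.2.2.2 Q hQ)).2.2.2.2.1
      rw [this]
    have h2 : ((UniqueFactorizationMonoid.normalizedFactors x.1.1).map (fun Q => (P Q).1)).filter
        (fun X => (P (X.comap ι)).2 = X) = 0 := by
      rw [Multiset.filter_eq_nil]
      intro X hX
      obtain ⟨Q, hQ, rfl⟩ := Multiset.mem_map.mp hX
      have hg := hP Q (hgood _ x.1.2.1 x.1.2.2 Q hQ)
      rw [hg.2.2.2.1]
      exact hg.2.2.1.symm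
    change Multiset.map _ (Multiset.filter _ (_ + _)) = _
    rw [Multiset.filter_add, h1, h2, zero_add, Multiset.map_map]
    conv_rhs => rw [← Multiset.map_id (UniqueFactorizationMonoid.normalizedFactors x.2.1)]
    refine Multiset.map_congr rfl (fun Q hQ => ?_)
    exact (hP Q (hgood _ x.2.2.1 x.2.2.2 Q hQ)).2.2.2.2.1
  refine ⟨fun x => (M x).prod, ?_, ?_⟩
  · intro x y hxy
    have hM : M x = M y := by
      have h1 := UniqueFactorizationMonoid.normalizedFactors_prod_of_prime (hMprime x)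
      have h2 := UniqueFactorizationMonoid.normalizedFactors_prod_of_prime (hMprime y)
      have hxy' : (M x).prod = (M y).prod := hxy
      rw [← h1, ← h2, hxy']
    have e1 : UniqueFactorizationMonoid.normalizedFactors x.1.1 =
        UniqueFactorizationMonoid.normalizedFactors y.1.1 := by
      rw [← hfilt x, ← hfilt y, hM]
    have e2 : UniqueFactorizationMonoid.normalizedFactors x.2.1 =
        UniqueFactorizationMonoid.normalizedFactors y.2.1 := by
      rw [← hfilt2 x, ← hfilt2 y, hM]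
    have hx1 := Ideal.prod_normalizedFactors_eq_self x.1.2.1
    have hx2 := Ideal.prod_normalizedFactors_eq_self x.2.2.1
    have hy1 := Ideal.prod_normalizedFactors_eq_self y.1.2.1
    have hy2 := Ideal.prod_normalizedFactors_eq_self y.2.2.1
    refine Prod.ext (Subtype.ext ?_) (Subtype.ext ?_)
    · rw [← hx1, ← hy1, e1]
    · rw [← hx2, ← hy2, e2]
  · intro x
    obtain ⟨hb, hd⟩ := finrank_quotient_multiset_prod k' (k' ⊗[k] O) hfin' (M x)
      (fun p hp => (hMprime x p hp).ne_zero)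
    refine ⟨hb, ?_⟩
    change ℓ * Module.finrank k' ((k' ⊗[k] O) ⧸ (M x).prod) = _
    rw [hd]
    have hx1 := Ideal.prod_normalizedFactors_eq_self x.1.2.1
    have hx2 := Ideal.prod_normalizedFactors_eq_self x.2.2.1
    obtain ⟨-, hd1⟩ := finrank_quotient_multiset_prod k O hfin
      (UniqueFactorizationMonoid.normalizedFactors x.1.1)
      (fun p hp => (hgood _ x.1.2.1 x.1.2.2 p hp).2.1)
    obtain ⟨-, hd2⟩ := finrank_quotient_multiset_prod k O hfin
      (UniqueFactorizationMonoid.normalizedFactors x.2.1)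
      (fun p hp => (hgood _ x.2.2.1 x.2.2.2 p hp).2.1)
    rw [hx1] at hd1
    rw [hx2] at hd2
    rw [hd1, hd2]
    change ℓ * (Multiset.map _ (_ + _)).sum = _
    rw [Multiset.map_add, Multiset.sum_add, mul_add, Multiset.map_map, Multiset.map_map,
      ← Multiset.sum_map_mul_left, ← Multiset.sum_map_mul_left]
    congr 1
    · refine congrArg Multiset.sum (Multiset.map_congr rfl (fun Q hQ => ?_))
      exact (hP Q (hgood _ x.1.2.1 x.1.2.2 Q hQ)).2.2.2.2.2.1
    · refine congrArg Multiset.sum (Multiset.map_congr rfl (fun Q hQ => ?_))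
      exact (hP Q (hgood _ x.2.2.1 x.2.2.2 Q hQ)).2.2.2.2.2.2

end Pool.Agent.W_MP_b723a0_ag
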