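import Mathlib
import Pool.Agent.W_MP_b723a0_ag.Defs

open scoped TensorProduct

namespace Pool.Agent.W_MP_b723a0_ag

theorem isDedekindDomain_tensor (k k' : Type) [Field k] [Field k'] [Algebra k k']
    [FiniteDimensional k k'] [Algebra.IsSeparable k k'] (O : Type) [CommRing O]
    [IsDedekindDomain O] [Algebra k O] (hdom : IsDomain (k' ⊗[k] O)) :
    IsDedekindDomain (k' ⊗[k] O) := by
  let _ : Algebra O (k' ⊗[k] O) := Algebra.TensorProduct.rightAlgebra
  have : Algebra.FormallyUnramified k k' := Algebra.FormallyUnramified.of_isSeparable k k'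
  have : Algebra.FormallyUnramified O (O ⊗[k] k') := inferInstance
  have : Module.Finite O (O ⊗[k] k') := inferInstance
  have e : O ⊗[k] k' ≃ₐ[O] k' ⊗[k] O := Algebra.TensorProduct.commRight k O k'
  have : Algebra.FormallyUnramified O (k' ⊗[k] O) := Algebra.FormallyUnramified.of_equiv e
  have : Module.Finite O (k' ⊗[k] O) := Module.Finite.equiv e.toLinearEquiv
  exact isDedekindDomain.of_formallyUnramified O (k' ⊗[k] O)

end Pool.Agent.W_MP_b723a0_ag
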