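import Mathlib
import Pool.Agent.W_MP_b723a0_ag.Defs
import Pool.Agent.W_MP_b723a0_ag.Upper
import Pool.Agent.W_MP_b723a0_ag.Lower
import Pool.Agent.W_MP_b723a0_ag.QuotFinite
import Pool.Agent.W_MP_b723a0_ag.PairMap
import Pool.Agent.W_MP_b723a0_ag.TensorDedekind

open scoped TensorProduct

namespace Pool.Agent.W_MP_b723a0_ag

/-- The abstract contradiction: some maximal ideal prime to `B` has degree prime to `ℓ`. -/
theorem exists_maximal_degree (k k' : Type) [Field k] [Finite k] [Field k'] [Algebra k k']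
    (ℓ : ℕ) (hℓ : ℓ.Prime) (hdeg : Module.finrank k k' = ℓ) (O : Type) [CommRing O]
    [IsDedekindDomain O] [Algebra k O] (e : ℕ) (he : 0 < e) (pb : PolyBasis k O e)
    (hdom : IsDomain (k' ⊗[k] O)) (B : Ideal O) (hB : B ≠ ⊥) :
    ∃ Q : Ideal O, Q.IsMaximal ∧ ¬ B ≤ Q ∧ ¬ ℓ ∣ Module.finrank k (O ⧸ Q) := by
  classical
  by_contra hcon
  push Not at hcon
  have hfd : FiniteDimensional k k' :=
    Module.finite_of_finrank_pos (by rw [hdeg]; exact hℓ.pos)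
  have hfk' : Finite k' := Module.finite_of_finite k
  have hsep : Algebra.IsSeparable k k' := inferInstance
  have hded : IsDedekindDomain (k' ⊗[k] O) := isDedekindDomain_tensor k k' O hdom
  obtain ⟨pb'⟩ := polyBasis_tensor k k' O e pb
  obtain ⟨C₀, hC₀⟩ := ideal_count_upper k O e pb
  obtain ⟨C', hC'⟩ := ideal_count_upper k' (k' ⊗[k] O) e pb'
  obtain ⟨C, M₀, hC⟩ := ideal_count_lower k O e pb B hB
  obtain ⟨Ψ, hΨinj, hΨ⟩ := exists_pair_map k k' ℓ hℓ hdeg O e pb B hcon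
  have hcard' : Nat.card k' = Nat.card k ^ ℓ := by
    rw [Module.natCard_eq_pow_finrank (K := k) (V := k'), hdeg]
  set q := Nat.card k with hq
  have hqpos : 0 < q := Nat.card_pos
  -- the finite sets of ideals
  have hAfin : ∀ N : ℕ,
      {I : Ideal O | I ≠ ⊥ ∧ I ⊔ B = ⊤ ∧ Module.finrank k (O ⧸ I) = N}.Finite := by
    intro N
    refine (hC₀ N).1.subset ?_
    rintro I ⟨h1, -, h3⟩
    exact ⟨h1, h3⟩
  let A : ℕ → Finset (Ideal O) := fun N => (hAfin N).toFinset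
  have hA : ∀ N I, I ∈ A N ↔ (I ≠ ⊥ ∧ I ⊔ B = ⊤ ∧ Module.finrank k (O ⧸ I) = N) := by
    intro N I
    exact (hAfin N).mem_toFinset
  have hAcard : ∀ N, (A N).card =
      {I : Ideal O | I ≠ ⊥ ∧ I ⊔ B = ⊤ ∧ Module.finrank k (O ⧸ I) = N}.ncard := by
    intro N
    exact (Set.ncard_eq_toFinset_card _ (hAfin N)).symm
  -- the map on pairs
  let f : Ideal O × Ideal O → Ideal (k' ⊗[k] O) := fun x =>
    if h : (x.1 ≠ ⊥ ∧ x.1 ⊔ B = ⊤) ∧ (x.2 ≠ ⊥ ∧ x.2 ⊔ B = ⊤) then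
      Ψ (⟨x.1, h.1⟩, ⟨x.2, h.2⟩) else ⊥
  set n := 2 * M₀ + C * C * C' with hn
  have hℓn : n ≤ ℓ * n := Nat.le_mul_of_pos_left n hℓ.pos
  let T : Finset (Ideal O × Ideal O) :=
    (Finset.Icc M₀ (ℓ * n - M₀)).biUnion fun m => A (e * m) ×ˢ A (e * (ℓ * n - m))
  have hTmem : ∀ x ∈ T, ∃ m, M₀ ≤ m ∧ m ≤ ℓ * n - M₀ ∧ x.1 ∈ A (e * m) ∧
      x.2 ∈ A (e * (ℓ * n - m)) := by
    intro x hx
    obtain ⟨m, hm, hx⟩ := Finset.mem_biUnion.1 hx
    rw [Finset.mem_Icc] at hm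
    rw [Finset.mem_product] at hx
    exact ⟨m, hm.1, hm.2, hx.1, hx.2⟩
  have hfval : ∀ x ∈ T, ∃ h : (x.1 ≠ ⊥ ∧ x.1 ⊔ B = ⊤) ∧ (x.2 ≠ ⊥ ∧ x.2 ⊔ B = ⊤),
      f x = Ψ (⟨x.1, h.1⟩, ⟨x.2, h.2⟩) := by
    intro x hx
    obtain ⟨m, -, -, h1, h2⟩ := hTmem x hx
    rw [hA] at h1 h2
    have h : (x.1 ≠ ⊥ ∧ x.1 ⊔ B = ⊤) ∧ (x.2 ≠ ⊥ ∧ x.2 ⊔ B = ⊤) :=
      ⟨⟨h1.1, h1.2.1⟩, ⟨h2.1, h2.2.1⟩⟩
    exact ⟨h, dif_pos h⟩
  -- upper bound for the cardinality of `T`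
  have hTupper : T.card ≤ C' * (q ^ ℓ) ^ (e * n) := by
    have hU := hC' (e * n)
    rw [hcard', Set.ncard_eq_toFinset_card _ hU.1] at hU
    refine le_trans (Finset.card_le_card_of_injOn f ?_ ?_) hU.2
    · intro x hx
      rw [Finset.mem_coe] at hx
      rw [Finset.mem_coe, Set.Finite.mem_toFinset]
      obtain ⟨h, hfx⟩ := hfval x hx
      obtain ⟨m, hm1, hm2, h1, h2⟩ := hTmem x hx
      rw [hA] at h1 h2
      obtain ⟨hbot, hrank⟩ := hΨ (⟨x.1, h.1⟩, ⟨x.2, h.2⟩)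
      rw [hfx]
      refine ⟨hbot, ?_⟩
      have hle : m ≤ ℓ * n := le_trans hm2 (Nat.sub_le _ _)
      have : ℓ * Module.finrank k' ((k' ⊗[k] O) ⧸ Ψ (⟨x.1, h.1⟩, ⟨x.2, h.2⟩)) =
          ℓ * (e * n) := by
        rw [hrank]
        change Module.finrank k (O ⧸ x.1) + Module.finrank k (O ⧸ x.2) = _
        rw [h1.2.2, h2.2.2, ← mul_add, Nat.add_sub_cancel' hle]
        ring
      exact Nat.eq_of_mul_eq_mul_left hℓ.pos this
    · intro x hx y hy hxy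
      rw [Finset.mem_coe] at hx hy
      obtain ⟨h, hfx⟩ := hfval x hx
      obtain ⟨h', hfy⟩ := hfval y hy
      rw [hfx, hfy] at hxy
      have := hΨinj hxy
      rw [Prod.mk.injEq, Subtype.mk.injEq, Subtype.mk.injEq] at this
      exact Prod.ext this.1 this.2
  -- the cardinality of `T`
  have hTcard : T.card = ∑ m ∈ Finset.Icc M₀ (ℓ * n - M₀),
      (A (e * m)).card * (A (e * (ℓ * n - m))).card := by
    rw [Finset.card_biUnion]
    · refine Finset.sum_congr rfl fun m _ => ?_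
      rw [Finset.card_product]
    · intro m _ m' _ hmm'
      rw [Function.onFun, Finset.disjoint_left]
      intro x hx hx'
      rw [Finset.mem_product, hA] at hx hx'
      apply hmm'
      have : e * m = e * m' := hx.1.2.2.symm.trans hx'.1.2.2
      exact Nat.eq_of_mul_eq_mul_left he this
  have hlow : ∀ m, M₀ ≤ m → q ^ (e * m) ≤ C * (A (e * m)).card := by
    intro m hm
    rw [hAcard]
    exact hC m hm
  have hmain : (ℓ * n - 2 * M₀ + 1) * q ^ (e * (ℓ * n)) ≤ C * C * T.card := by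
    rw [hTcard, Finset.mul_sum]
    have hcardIcc : (Finset.Icc M₀ (ℓ * n - M₀)).card = ℓ * n - 2 * M₀ + 1 := by
      rw [Nat.card_Icc]
      omega
    rw [← hcardIcc, ← smul_eq_mul, ← Finset.sum_const]
    refine Finset.sum_le_sum fun m hm => ?_
    rw [Finset.mem_Icc] at hm
    have h1 := hlow m hm.1
    have h2 := hlow (ℓ * n - m) (by omega)
    have hle : m ≤ ℓ * n := le_trans hm.2 (Nat.sub_le _ _)
    calc q ^ (e * (ℓ * n)) = q ^ (e * m) * q ^ (e * (ℓ * n - m)) := by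
          rw [← pow_add, ← mul_add, Nat.add_sub_cancel' hle]
      _ ≤ (C * (A (e * m)).card) * (C * (A (e * (ℓ * n - m))).card) := Nat.mul_le_mul h1 h2
      _ = C * C * ((A (e * m)).card * (A (e * (ℓ * n - m))).card) := by ring
  have hfinal : (ℓ * n - 2 * M₀ + 1) * q ^ (e * (ℓ * n)) ≤
      (C * C * C') * q ^ (e * (ℓ * n)) := by
    refine le_trans hmain ?_
    calc C * C * T.card ≤ C * C * (C' * (q ^ ℓ) ^ (e * n)) := Nat.mul_le_mul_left _ hTupper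
      _ = (C * C * C') * q ^ (e * (ℓ * n)) := by
          rw [← pow_mul, show ℓ * (e * n) = e * (ℓ * n) by ring]
          ring
  have hlast := Nat.le_of_mul_le_mul_right hfinal (Nat.pow_pos hqpos)
  omega

end Pool.Agent.W_MP_b723a0_ag
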