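import Mathlib
import Pool.Agent.W_MP_b723a0_ag.Defs
import Pool.Agent.W_MP_b723a0_ag.MaxDegree
import Pool.Agent.W_MP_b723a0_ag.DedekindModel

open scoped TensorProduct

namespace Pool.Agent.W_MP_b723a0_ag

theorem curve_finite (k k' : Type) [Field k] [Finite k] [Field k'] [Algebra k k'] (ℓ : ℕ)
    (hℓ : ℓ.Prime) (hdeg : Module.finrank k k' = ℓ) (P : Polynomial (Polynomial k)) (hP : P.Monic)
    (hsep : (P.map (Polynomial.evalRingHom 0)).Separable)
    (hirr : Irreducible (P.map (Polynomial.mapRingHom (algebraMap k k'))))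
    (b : Polynomial k) (hb : b ≠ 0) :
    ∃ (E : Type) (_ : Field E) (_ : Algebra k E), FiniteDimensional k E ∧
      ¬ ℓ ∣ Module.finrank k E ∧ ∃ t x : E, Polynomial.aeval t b ≠ 0 ∧
        (P.map (Polynomial.aeval (R := k) t).toRingHom).eval x = 0 := by
  have : FiniteDimensional k k' :=
    Module.finite_of_finrank_pos (by rw [hdeg]; exact hℓ.pos)
  obtain ⟨O, iO1, iO2, iO3, e, pb, x, he, hdom, hx⟩ :=
    exists_dedekind_model k k' P hP hsep hirr
  have hTb : Polynomial.aeval pb.T b ≠ 0 := by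
    intro h0
    have hinj := pb.bij.1
    have h1 := @hinj (fun i => if i = (⟨0, he⟩ : Fin e) then b else 0) (fun _ => 0) (by
      simp only
      rw [Finset.sum_eq_single (⟨0, he⟩ : Fin e)]
      · simp [h0]
      · intro i _ hi
        simp [hi]
      · simp)
    have h2 := congrFun h1 ⟨0, he⟩
    simp only [if_true] at h2
    exact hb h2
  have hB : Ideal.span {Polynomial.aeval pb.T b} ≠ (⊥ : Ideal O) := by
    rw [Ne, Ideal.span_singleton_eq_bot]
    exact hTb
  obtain ⟨Q, hQ, hBQ, hQdeg⟩ :=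
    exists_maximal_degree k k' ℓ hℓ hdeg O e he pb hdom _ hB
  refine ⟨O ⧸ Q, Ideal.Quotient.field Q, inferInstance, ?_, hQdeg, Ideal.Quotient.mk Q pb.T,
    Ideal.Quotient.mk Q x, ?_, ?_⟩
  · exact Module.finite_of_finrank_pos (Nat.pos_of_ne_zero fun h => hQdeg (h ▸ dvd_zero ℓ))
  · intro h
    apply hBQ
    rw [Ideal.span_singleton_le_iff_mem, ← Ideal.Quotient.eq_zero_iff_mem]
    rw [← h]
    exact (Polynomial.aeval_algHom_apply (Ideal.Quotient.mkₐ k Q) pb.T b).symm
  · have h := congrArg (Ideal.Quotient.mk Q) hx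
    rw [map_zero] at h
    rw [← h, Polynomial.eval_map, Polynomial.eval_map, Polynomial.hom_eval₂]
    congr 1
    ext a
    · simp
    · simp

end Pool.Agent.W_MP_b723a0_ag
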