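import Mathlib
import Pool.Agent.W_MP_b723a0_ag.Defs
import Pool.Agent.W_MP_b723a0_ag.Kap
import Pool.Agent.W_MP_b723a0_ag.CurveFinite

open scoped TensorProduct

namespace Pool.Agent.W_MP_b723a0_ag

theorem curve_kap {p ℓ : ℕ} [Fact p.Prime] (hℓ : ℓ.Prime) {κ : Type} [Field κ] [CharP κ p]
    (hκ : IsKap p ℓ κ) (P : Polynomial (Polynomial κ)) (hP : P.Monic)
    (hsep : (P.map (Polynomial.evalRingHom 0)).Separable)
    (hirr : Irreducible (P.map (Polynomial.mapRingHom (algebraMap κ (AlgebraicClosure κ)))))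
    (b : Polynomial κ) (hb : b ≠ 0) :
    ∃ t x : κ, b.eval t ≠ 0 ∧ (P.map (Polynomial.evalRingHom t)).eval x = 0 := by
  classical
  -- the finite set of coefficients
  let S : Set κ := (⋃ i ∈ P.support, ((P.coeff i).coeffs : Set κ)) ∪ (b.coeffs : Set κ)
  have hSfin : S.Finite := by
    refine Set.Finite.union ?_ (Finset.finite_toSet _)
    exact Set.Finite.biUnion (Finset.finite_toSet _) (fun i _ => Finset.finite_toSet _)
  obtain ⟨s, E, hs, hSE, hcard⟩ := IsKap.exists_subfield hℓ hκ S hSfin
  have hs0 : s ≠ 0 := by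
    rintro rfl
    exact hs (dvd_zero _)
  have hp : p.Prime := Fact.out
  have hfin : Finite E := by
    apply Nat.finite_of_card_ne_zero
    rw [hcard]
    exact pow_ne_zero _ hp.ne_zero
  have hchar : CharP E p := RingHom.charP E.subtype E.subtype.injective p
  have hne : NeZero ℓ := ⟨hℓ.ne_zero⟩
  -- coefficients lie in E
  have hcoeffP : ∀ i j, (P.coeff i).coeff j ∈ Set.range E.subtype := by
    intro i j
    by_cases h : (P.coeff i).coeff j = 0
    · rw [h]
      exact ⟨0, map_zero _⟩
    · have hi : i ∈ P.support := by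
        rw [Polynomial.mem_support_iff]
        intro h'
        apply h
        rw [h', Polynomial.coeff_zero]
      have hmem : (P.coeff i).coeff j ∈ S :=
        Or.inl (Set.mem_biUnion hi (Polynomial.coeff_mem_coeffs h))
      exact ⟨⟨_, hSE hmem⟩, rfl⟩
  have hcoeffb : ∀ j, b.coeff j ∈ Set.range E.subtype := by
    intro j
    by_cases h : b.coeff j = 0
    · rw [h]
      exact ⟨0, map_zero _⟩
    · have hmem : b.coeff j ∈ S := Or.inr (Polynomial.coeff_mem_coeffs h)
      exact ⟨⟨_, hSE hmem⟩, rfl⟩
  obtain ⟨b₀, hb₀⟩ : ∃ b₀ : Polynomial E, b₀.map E.subtype = b :=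
    (Polynomial.mem_lifts b).mp ((Polynomial.lifts_iff_coeff_lifts b).mpr hcoeffb)
  have hPl : P ∈ Polynomial.lifts (Polynomial.mapRingHom E.subtype) := by
    rw [Polynomial.lifts_iff_coeff_lifts]
    intro n
    obtain ⟨q, hq⟩ := (Polynomial.mem_lifts (P.coeff n)).mp
      ((Polynomial.lifts_iff_coeff_lifts (P.coeff n)).mpr (hcoeffP n))
    exact ⟨q, hq⟩
  obtain ⟨P₀, hP₀, -, hP₀m⟩ := Polynomial.lifts_and_natDegree_eq_and_monic hPl hP
  have hb₀0 : b₀ ≠ 0 := by
    rintro rfl
    exact hb (by rw [← hb₀, Polynomial.map_zero])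
  -- separability
  have hsep₀ : (P₀.map (Polynomial.evalRingHom 0)).Separable := by
    rw [← Polynomial.separable_map E.subtype, Polynomial.map_map]
    have : E.subtype.comp (Polynomial.evalRingHom (0 : E)) =
        (Polynomial.evalRingHom (0 : κ)).comp (Polynomial.mapRingHom E.subtype) := by
      apply Polynomial.ringHom_ext
      · intro a
        simp
      · simp
    rw [this, ← Polynomial.map_map, hP₀]
    exact hsep
  -- the extension of degree ℓ
  let φ : FiniteField.Extension E p ℓ →ₐ[E] AlgebraicClosure κ := IsAlgClosed.lift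
  have hirr₀ : Irreducible (P₀.map (Polynomial.mapRingHom
      (algebraMap E (FiniteField.Extension E p ℓ)))) := by
    refine Polynomial.Monic.irreducible_of_irreducible_map
      (Polynomial.mapRingHom (φ : FiniteField.Extension E p ℓ →+* AlgebraicClosure κ)) _
      (hP₀m.map _) ?_
    rw [Polynomial.map_map]
    have : (Polynomial.mapRingHom (φ : FiniteField.Extension E p ℓ →+* AlgebraicClosure κ)).comp
        (Polynomial.mapRingHom (algebraMap E (FiniteField.Extension E p ℓ))) =
        (Polynomial.mapRingHom (algebraMap κ (AlgebraicClosure κ))).comp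
          (Polynomial.mapRingHom E.subtype) := by
      rw [Polynomial.mapRingHom_comp, Polynomial.mapRingHom_comp]
      congr 1
      rw [AlgHom.comp_algebraMap]
      rfl
    rw [this, ← Polynomial.map_map, hP₀]
    exact hirr
  obtain ⟨E', _, _, hE'fin, hE'deg, t, x, ht, hx⟩ := curve_finite E
    (FiniteField.Extension E p ℓ) ℓ hℓ (FiniteField.finrank_extension E p ℓ) P₀ hP₀m hsep₀ hirr₀
    b₀ hb₀0
  have hcardE' : Nat.card E' = p ^ (s * Module.finrank E E') := by
    rw [Module.natCard_eq_pow_finrank (K := E), hcard, pow_mul]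
  obtain ⟨ψ⟩ := IsKap.exists_embedding hℓ hκ E E' (s * Module.finrank E E')
    (by
      intro h
      rcases (Nat.Prime.dvd_mul hℓ).mp h with h | h
      · exact hs h
      · exact hE'deg h) hcardE'
  refine ⟨ψ t, ψ x, ?_, ?_⟩
  · rw [← hb₀, Polynomial.eval_map]
    have : Polynomial.eval₂ E.subtype (ψ t) b₀ = ψ (Polynomial.aeval t b₀) := by
      rw [← Polynomial.aeval_algHom_apply]
      rfl
    rw [this]
    exact fun h => ht ((map_eq_zero ψ).mp h)
  · rw [← hP₀, Polynomial.map_map]
    have : (Polynomial.evalRingHom (ψ t)).comp (Polynomial.mapRingHom E.subtype) =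
        (ψ : E' →+* κ).comp (Polynomial.aeval (R := E) t).toRingHom := by
      apply Polynomial.ringHom_ext
      · intro a
        simp
        rfl
      · simp
    rw [this, ← Polynomial.map_map, ← RingHom.coe_coe ψ, Polynomial.eval_map,
      Polynomial.eval₂_at_apply, hx, map_zero]

end Pool.Agent.W_MP_b723a0_ag
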