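import Mathlib
import Pool.Agent.W_MP_b723a0_ag.Defs

open scoped TensorProduct

namespace Pool.Agent.W_MP_b723a0_ag

/-- Extension of a point of a monic hypersurface to a finitely generated subalgebra of the
function field: the abstract gluing step. -/
theorem model1_extend (κ R M F A : Type) [Field κ] [CommRing R] [CommRing M] [Field F]
    [CommRing A] [Algebra κ R] [Algebra R M] [Algebra κ M] [IsScalarTower κ R M] [Algebra κ F]
    [Algebra κ A]
    (ι : M →ₐ[κ] F) (hι : Function.Injective ι) (ev : M →ₐ[κ] κ) (hM : M) (hev : ev hM ≠ 0)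
    (j : A →ₐ[κ] F) (s : Finset A) (hs : Algebra.adjoin κ (s : Set A) = ⊤)
    (hgen : ∀ a ∈ s, ∃ m : M, ι hM * j a = ι m) : Nonempty (A →ₐ[κ] κ) := by
  have hM0 : hM ≠ 0 := by
    rintro rfl
    simp at hev
  have hιM : ι hM ≠ 0 := by
    intro h
    exact hM0 (hι (by simpa using h))
  let L := Localization.Away hM
  have hu : IsUnit (ι.toRingHom hM) := isUnit_iff_ne_zero.mpr hιM
  have hu' : IsUnit (ev.toRingHom hM) := isUnit_iff_ne_zero.mpr hev
  let J : L →+* F := IsLocalization.Away.lift (S := L) hM hu
  let E : L →+* κ := IsLocalization.Away.lift (S := L) hM hu'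
  have hJ : ∀ m : M, J (algebraMap M L m) = ι m := fun m =>
    IsLocalization.Away.lift_eq (S := L) hM hu m
  have hE : ∀ m : M, E (algebraMap M L m) = ev m := fun m =>
    IsLocalization.Away.lift_eq (S := L) hM hu' m
  have hJinj : Function.Injective J := by
    rw [injective_iff_map_eq_zero]
    intro z hz
    obtain ⟨⟨m, n⟩, hmn⟩ := IsLocalization.surj (M := Submonoid.powers hM) (S := L) z
    have h1 : J (algebraMap M L m) = 0 := by
      rw [← hmn, map_mul, hz, zero_mul]
    rw [hJ] at h1
    have h2 : m = 0 := hι (by simpa using h1)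
    have h3 : z * algebraMap M L (n : M) = 0 := by rw [hmn]; simp [h2]
    exact (IsUnit.mul_left_eq_zero (IsLocalization.map_units L n)).mp h3
  -- all of `A` lands in the range of `J`
  have hrange : ∀ a : A, j a ∈ J.range := by
    let B : Subalgebra κ A :=
      { carrier := {a | j a ∈ J.range}
        mul_mem' := by
          intro a b ha hb
          simp only [Set.mem_ofPred_eq, map_mul] at ha hb ⊢
          exact J.range.mul_mem ha hb
        add_mem' := by
          intro a b ha hb
          simp only [Set.mem_ofPred_eq, map_add] at ha hb ⊢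
          exact J.range.add_mem ha hb
        algebraMap_mem' := by
          intro r
          refine ⟨algebraMap M L (algebraMap κ M r), ?_⟩
          rw [hJ, AlgHom.commutes, AlgHom.commutes] }
    have hB : B = ⊤ := by
      rw [eq_top_iff, ← hs, Algebra.adjoin_le_iff]
      intro a ha
      obtain ⟨m, hm⟩ := hgen a ha
      refine ⟨IsLocalization.mk' L m (⟨hM, Submonoid.mem_powers hM⟩ : Submonoid.powers hM), ?_⟩
      have h4 : J (IsLocalization.mk' L m (⟨hM, Submonoid.mem_powers hM⟩ : Submonoid.powers hM))
          * ι hM = ι m := by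
        have h6 := IsLocalization.mk'_spec L m (⟨hM, Submonoid.mem_powers hM⟩ :
          Submonoid.powers hM)
        rw [← hJ hM, ← map_mul, ← hJ m, ← h6]
      have h5 : ι hM * j a = ι hM * J (IsLocalization.mk' L m
          (⟨hM, Submonoid.mem_powers hM⟩ : Submonoid.powers hM)) := by
        rw [hm, ← h4, mul_comm]
      exact (mul_left_cancel₀ hιM h5).symm
    intro a
    have : a ∈ B := by rw [hB]; trivial
    exact this
  choose f hf using hrange
  refine ⟨{ toFun := fun a => E (f a), map_one' := ?_, map_mul' := ?_, map_zero' := ?_,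
            map_add' := ?_, commutes' := ?_ }⟩
  · have : f 1 = 1 := hJinj (by rw [hf, map_one, map_one])
    rw [this, map_one]
  · intro a b
    have : f (a * b) = f a * f b := hJinj (by rw [hf, map_mul, map_mul, hf, hf])
    rw [this, map_mul]
  · have : f 0 = 0 := hJinj (by rw [hf, map_zero, map_zero])
    rw [this, map_zero]
  · intro a b
    have : f (a + b) = f a + f b := hJinj (by rw [hf, map_add, map_add, hf, hf])
    rw [this, map_add]
  · intro r
    have : f (algebraMap κ A r) = algebraMap M L (algebraMap κ M r) :=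
      hJinj (by rw [hf, hJ, AlgHom.commutes, AlgHom.commutes])
    rw [this, hE, AlgHom.commutes]

theorem model1_core (κ R K F A : Type) [Field κ] [CommRing R] [IsDomain R]
    [IsIntegrallyClosed R] [Field K] [Algebra R K] [IsFractionRing R K] [Field F]
    [CommRing A] [Algebra κ R] [Algebra κ K] [IsScalarTower κ R K] [Algebra R F] [Algebra K F]
    [IsScalarTower R K F] [Algebra κ F] [IsScalarTower κ R F] [IsScalarTower κ K F]
    [FiniteDimensional K F] [Algebra.IsSeparable K F] [Algebra κ A] [Algebra.FiniteType κ A]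
    (j : A →ₐ[κ] F) :
    ∃ (G : Polynomial R) (h : R), G.Monic ∧ h ≠ 0 ∧
      Irreducible (G.map (algebraMap R K)) ∧ (G.map (algebraMap R K)).Separable ∧
      Nonempty (AdjoinRoot (G.map (algebraMap R K)) ≃ₐ[κ] F) ∧
      ∀ (e : R →ₐ[κ] κ) (c : κ), e h ≠ 0 →
        (G.map (e : R →+* κ)).eval c = 0 → Nonempty (A →ₐ[κ] κ) := by
  classical
  obtain ⟨α, hα⟩ := Field.exists_primitive_element K F
  have hinj : Function.Injective (algebraMap R F) := by
    rw [IsScalarTower.algebraMap_eq R K F]
    exact (algebraMap K F).injective.comp (IsFractionRing.injective R K)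
  have htf : Module.IsTorsionFree R F := by
    rw [Module.isTorsionFree_iff_faithfulSMul, faithfulSMul_iff_algebraMap_injective]
    exact hinj
  have halg : Algebra.IsAlgebraic R F :=
    (IsFractionRing.comap_isAlgebraic_iff (A := R) (K := K) (C := F)).mpr inferInstance
  obtain ⟨r, hr0, hr⟩ := (Algebra.IsAlgebraic.isAlgebraic (R := R) α).exists_integral_multiple
  set x : F := r • α with hx
  have hrK : algebraMap R K r ≠ 0 := by
    intro h
    exact hr0 (IsFractionRing.injective R K (by rw [h, map_zero]))
  have hxtop : IntermediateField.adjoin K {x} = ⊤ := by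
    rw [eq_top_iff, ← hα, IntermediateField.adjoin_simple_le_iff]
    have h1 : α = (algebraMap R K r)⁻¹ • x := by
      rw [hx, ← algebraMap_smul K r α, inv_smul_smul₀ hrK]
    rw [h1]
    exact IntermediateField.smul_mem _ (IntermediateField.mem_adjoin_simple_self K x)
  have hmin : minpoly K x = (minpoly R x).map (algebraMap R K) :=
    minpoly.isIntegrallyClosed_eq_field_fractions' K hr
  have hKint : IsIntegral K x := Algebra.IsIntegral.isIntegral x
  have equ : AdjoinRoot (minpoly K x) ≃ₐ[K] F :=
    (IntermediateField.adjoinRootEquivAdjoin K hKint).trans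
      ((IntermediateField.equivOfEq hxtop).trans IntermediateField.topEquiv)
  have hfrac : ∀ f : F, ∃ h : R, h ≠ 0 ∧ ∃ P : Polynomial R,
      algebraMap R F h * f = Polynomial.aeval x P := by
    intro f
    have h1 : f ∈ Algebra.adjoin K {x} := by
      rw [← IntermediateField.adjoin_simple_toSubalgebra_of_isAlgebraic hKint.isAlgebraic, hxtop]
      trivial
    rw [Algebra.adjoin_singleton_eq_range_aeval] at h1
    obtain ⟨Q, hQ⟩ := h1
    obtain ⟨b, hb0, hb⟩ := IsLocalization.integerNormalization_spec (nonZeroDivisors R) Q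
    refine ⟨b, nonZeroDivisors.ne_zero hb0,
      IsLocalization.integerNormalization (nonZeroDivisors R) Q, ?_⟩
    rw [← Polynomial.aeval_map_algebraMap K, hb, ← hQ, ← algebraMap_smul K b Q, map_smul,
      Algebra.smul_def, ← IsScalarTower.algebraMap_apply]
    rfl
  obtain ⟨s, hs⟩ := (Algebra.FiniteType.out : (⊤ : Subalgebra κ A).FG)
  choose hh hh0 PP hPP using fun a : A => hfrac (j a)
  refine ⟨minpoly R x, ∏ a ∈ s, hh a, minpoly.monic hr, Finset.prod_ne_zero_iff.mpr
    fun a _ => hh0 a, ?_, ?_, ?_, ?_⟩
  · rw [← hmin]; exact minpoly.irreducible hKint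
  · rw [← hmin]; exact Algebra.IsSeparable.isSeparable K x
  · rw [← hmin]; exact ⟨equ.restrictScalars κ⟩
  · intro e c he hc
    let M := AdjoinRoot (minpoly R x)
    have hroot : Polynomial.eval₂ (Algebra.ofId R F).toRingHom x (minpoly R x) = 0 :=
      minpoly.aeval R x
    let ι0 : M →ₐ[R] F := AdjoinRoot.liftAlgHom (minpoly R x) (Algebra.ofId R F) x hroot
    have hι0mk : ∀ P : Polynomial R, ι0 (AdjoinRoot.mk _ P) = Polynomial.aeval x P := by
      intro P
      exact AdjoinRoot.lift_mk hroot P
    have hι0 : Function.Injective ι0 := by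
      rw [injective_iff_map_eq_zero]
      intro z hz
      obtain ⟨P, rfl⟩ := AdjoinRoot.mk_surjective z
      rw [AdjoinRoot.mk_eq_zero, ← minpoly.isIntegrallyClosed_dvd_iff hr]
      rw [← hι0mk]
      exact hz
    let ev : M →ₐ[κ] κ := AdjoinRoot.liftAlgHom (minpoly R x) e c
      (by simpa [Polynomial.eval_map] using hc)
    have hι0h : ∀ z : R, ι0 (algebraMap R M z) = algebraMap R F z := fun z => ι0.commutes z
    have hevh : ∀ z : R, ev (algebraMap R M z) = e z := fun z => by
      simp [ev, M, AdjoinRoot.algebraMap_eq]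
    refine model1_extend κ R M F A (ι0.restrictScalars κ) hι0 ev
      (algebraMap R M (∏ a ∈ s, hh a)) (by rw [hevh]; exact he) j s hs ?_
    intro a ha
    refine ⟨algebraMap R M (∏ b ∈ s.erase a, hh b) * AdjoinRoot.mk _ (PP a), ?_⟩
    have h1 : ι0 (AdjoinRoot.mk _ (PP a)) = Polynomial.aeval x (PP a) := hι0mk _
    rw [map_mul]
    change ι0 _ * _ = ι0 _ * ι0 _
    rw [hι0h, hι0h, h1, ← hPP, ← Finset.mul_prod_erase s _ ha, map_mul]
    ring

theorem exists_model (κ : Type) [Field κ] [PerfectField κ]
    (A : Type) [CommRing A] [IsDomain A] [Algebra κ A] [Algebra.FiniteType κ A] :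
    ∃ (t : ℕ) (G : Polynomial (MvPolynomial (Fin t) κ)) (h : MvPolynomial (Fin t) κ),
      G.Monic ∧ h ≠ 0 ∧
      Irreducible (G.map (algebraMap _ (FractionRing (MvPolynomial (Fin t) κ)))) ∧
      (G.map (algebraMap _ (FractionRing (MvPolynomial (Fin t) κ)))).Separable ∧
      Nonempty (AdjoinRoot (G.map (algebraMap _ (FractionRing (MvPolynomial (Fin t) κ)))) ≃ₐ[κ]
        FractionRing A) ∧
      ∀ (a : Fin t → κ) (c : κ), MvPolynomial.eval a h ≠ 0 →
        (G.map (MvPolynomial.eval a)).eval c = 0 → Nonempty (A →ₐ[κ] κ) := by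
  classical
  have : Algebra.EssFiniteType κ (FractionRing A) := inferInstance
  obtain ⟨s, hs, hsep⟩ := exists_isTranscendenceBasis_and_isSeparable_of_perfectField κ
    (FractionRing A)
  let en : s ≃ Fin s.card := s.equivFin
  let y : Fin s.card → FractionRing A := fun i => (en.symm i : FractionRing A)
  have hy : IsTranscendenceBasis κ y := hs.comp_equiv en.symm
  let R := MvPolynomial (Fin s.card) κ
  let algRF : Algebra R (FractionRing A) := (MvPolynomial.aeval y : R →ₐ[κ] _).toAlgebra
  have towF : IsScalarTower κ R (FractionRing A) := IsScalarTower.of_algebraMap_eq fun c => by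
    simp [algRF, RingHom.algebraMap_toAlgebra]
  have hinjR : Function.Injective (algebraMap R (FractionRing A)) := hy.1
  have : FaithfulSMul R (FractionRing A) := by
    rwa [faithfulSMul_iff_algebraMap_injective]
  let algKF : Algebra (FractionRing R) (FractionRing A) := FractionRing.liftAlgebra R _
  have tow1 : IsScalarTower R (FractionRing R) (FractionRing A) := 
    FractionRing.isScalarTower_liftAlgebra R _
  have tow2 : IsScalarTower κ (FractionRing R) (FractionRing A) := 
    IsScalarTower.to₁₃₄ κ R (FractionRing R) (FractionRing A)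
  have hrange : Set.range y = (s : Set (FractionRing A)) := by
    ext z
    constructor
    · rintro ⟨i, rfl⟩
      exact (en.symm i).2
    · intro hz
      exact ⟨en ⟨z, hz⟩, by simp [y]⟩
  rw [← hrange] at hsep
  have hsep' : Algebra.IsSeparable (FractionRing R) (FractionRing A) := by
    refine Algebra.IsSeparable.of_equiv_equiv hy.1.aevalEquivField.symm.toRingEquiv
      (RingEquiv.refl (FractionRing A)) ?_
    ext z
    obtain ⟨w, rfl⟩ := hy.1.aevalEquivField.surjective z
    simp only [RingHom.coe_comp, RingHom.coe_coe,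
      Function.comp_apply, RingEquiv.refl_apply]
    have h7 : hy.1.aevalEquivField.symm.toRingEquiv (hy.1.aevalEquivField w) = w :=
      hy.1.aevalEquivField.symm_apply_apply w
    erw [h7]
    rfl
  have hfin : FiniteDimensional (FractionRing R) (FractionRing A) := by
    have : Algebra.EssFiniteType (FractionRing R) (FractionRing A) :=
      Algebra.EssFiniteType.of_comp κ _ _
    exact Algebra.finite_of_essFiniteType_of_isAlgebraic
  obtain ⟨G, h, h1, h2, h3, h4, h5, h6⟩ := model1_core κ R (FractionRing R) (FractionRing A) A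
    (IsScalarTower.toAlgHom κ A (FractionRing A))
  refine ⟨s.card, G, h, h1, h2, h3, h4, h5, ?_⟩
  intro a c ha hc
  refine h6 (MvPolynomial.aeval a) c ?_ ?_
  · rw [MvPolynomial.aeval_eq_eval]; exact ha
  · have : ((MvPolynomial.aeval a : R →ₐ[κ] κ) : R →+* κ) = MvPolynomial.eval a := by
      ext <;> simp
    rw [this]; exact hc

end Pool.Agent.W_MP_b723a0_ag
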