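import Mathlib
import Pool.Agent.W_MP_b723a0_ag.Defs

open scoped TensorProduct

namespace Pool.Agent.W_MP_b723a0_ag

namespace Model2

open Polynomial

/-- A monic irreducible polynomial over `κ` stays irreducible over `F` if `κ` is relatively
algebraically closed in `F`. -/
lemma irreducible_map_of_relClosed {κ F : Type*} [Field κ] [Field F] [Algebra κ F]
    (halg : ∀ x : F, IsAlgebraic κ x → ∃ c : κ, algebraMap κ F c = x) {m : κ[X]} (hm : m.Monic)
    (hirr : Irreducible m) : Irreducible (m.map (algebraMap κ F)) := by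
  have hlift : ∀ f : F[X], f.Monic → f ∣ m.map (algebraMap κ F) →
      ∃ q : κ[X], q.map (algebraMap κ F) = f ∧ q.natDegree = f.natDegree ∧ q.Monic := by
    intro f hf hdvd
    have h1 := integralClosure.mem_lifts_of_monic_of_dvd_map F hm hf hdvd
    have h2 : f ∈ lifts (algebraMap κ F) := by
      rw [lifts_iff_coeff_lifts] at h1 ⊢
      intro n
      obtain ⟨z, hz⟩ := h1 n
      obtain ⟨c, hc⟩ := halg (f.coeff n) (by rw [← hz]; exact z.2.isAlgebraic)
      exact ⟨c, hc⟩
    exact lifts_and_natDegree_eq_and_monic h2 hf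
  rw [(hm.map _).irreducible_iff_natDegree]
  refine ⟨?_, ?_⟩
  · intro h
    apply hirr.not_isUnit
    have : m = 1 := by
      apply map_injective (algebraMap κ F) (algebraMap κ F).injective
      rw [h, Polynomial.map_one]
    rw [this]; exact isUnit_one
  · intro f g hf hg hfg
    obtain ⟨q1, hq1, hd1, hm1⟩ := hlift f hf ⟨g, hfg.symm⟩
    obtain ⟨q2, hq2, hd2, hm2⟩ := hlift g hg ⟨f, by rw [mul_comm]; exact hfg.symm⟩
    have h3 : q1 * q2 = m := by
      apply map_injective (algebraMap κ F) (algebraMap κ F).injective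
      rw [Polynomial.map_mul, hq1, hq2, hfg]
    have := (hm.irreducible_iff_natDegree.mp hirr).2 q1 q2 hm1 hm2 h3
    rwa [hd1, hd2] at this

/-- There is an `F`-linear functional on `E` which maps `1` to `1` and finitely many given
elements algebraic over `κ` into `κ`. -/
lemma exists_functional {κ F E : Type*} [Field κ] [PerfectField κ] [Field F] [Field E] [Algebra κ F]
    [Algebra F E] [Algebra κ E] [IsScalarTower κ F E]
    (halg : ∀ x : F, IsAlgebraic κ x → ∃ c : κ, algebraMap κ F c = x) (S : Set E) (hfin : S.Finite)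
    (hS : ∀ s ∈ S, IsAlgebraic κ s) :
    ∃ lam : E →ₗ[F] F, lam 1 = 1 ∧ ∀ s ∈ S, ∃ c : κ, lam s = algebraMap κ F c := by
  classical
  let K' : IntermediateField κ E := IntermediateField.adjoin κ S
  have hf' : Finite S := hfin
  have : FiniteDimensional κ K' :=
    IntermediateField.finiteDimensional_adjoin fun s hs => (hS s hs).isIntegral
  let pb : PowerBasis κ K' := Field.powerBasisOfFiniteOfSeparable κ K'
  have hpos : 0 < pb.dim := pb.dim_pos
  let θ : E := (pb.gen : E)
  have hint : IsIntegral κ pb.gen := pb.isIntegral_gen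
  have hmin1 : minpoly κ θ = minpoly κ pb.gen :=
    minpoly.algebraMap_eq (B := K') (B' := E) (algebraMap K' E).injective pb.gen
  have hintθ : IsIntegral κ θ := hint.map (IsScalarTower.toAlgHom κ K' E)
  have hirr : Irreducible ((minpoly κ θ).map (algebraMap κ F)) :=
    irreducible_map_of_relClosed halg (minpoly.monic hintθ) (minpoly.irreducible hintθ)
  have hminF : (minpoly κ θ).map (algebraMap κ F) = minpoly F θ := by
    apply minpoly.eq_of_irreducible_of_monic hirr
    · rw [aeval_map_algebraMap]; exact minpoly.aeval κ θ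
    · exact (minpoly.monic hintθ).map _
  have hdeg : (minpoly F θ).natDegree = pb.dim := by
    rw [← hminF, natDegree_map, hmin1, pb.natDegree_minpoly]
  have hli : LinearIndependent F fun i : Fin pb.dim => θ ^ (i : ℕ) := by
    have := linearIndependent_pow (K := F) θ
    rw [hdeg] at this
    exact this
  let lam0 : Submodule.span F (Set.range fun i : Fin pb.dim => θ ^ (i : ℕ)) →ₗ[F] F :=
    (Module.Basis.span hli).constr F (fun i => if (i : ℕ) = 0 then 1 else 0)
  obtain ⟨lam, hlam⟩ := LinearMap.exists_extend lam0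
  have hval : ∀ i : Fin pb.dim, lam (θ ^ (i : ℕ)) = if (i : ℕ) = 0 then 1 else 0 := by
    intro i
    have h1 : ((Module.Basis.span hli i : Submodule.span F (Set.range fun i : Fin pb.dim => θ ^ (i : ℕ))) : E)
        = θ ^ (i : ℕ) := by rw [Module.Basis.span_apply hli i]
    rw [← h1]
    have h2 := congrArg (fun f => f (Module.Basis.span hli i)) hlam
    simp only [LinearMap.comp_apply, Submodule.subtype_apply] at h2
    rw [h2]
    exact Module.Basis.constr_basis _ _ _ _
  refine ⟨lam, ?_, ?_⟩
  · have := hval ⟨0, hpos⟩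
    simpa using this
  · intro s hs
    have hsK : s ∈ K' := IntermediateField.subset_adjoin _ _ hs
    obtain ⟨r, hr⟩ : ∃ r : Fin pb.dim → κ, ∑ i, r i • pb.basis i = (⟨s, hsK⟩ : K') :=
      ⟨fun i => pb.basis.repr ⟨s, hsK⟩ i, pb.basis.sum_repr ⟨s, hsK⟩⟩
    refine ⟨r ⟨0, hpos⟩, ?_⟩
    have h1 : s = ∑ i, algebraMap κ F (r i) • θ ^ (i : ℕ) := by
      have h2 := congrArg (fun z : K' => (z : E)) hr
      simp only at h2
      rw [← h2, AddSubmonoidClass.coe_finsetSum]
      apply Finset.sum_congr rfl
      intro i _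
      rw [pb.basis_eq_pow, algebraMap_smul]
      rfl
    rw [h1, map_sum, Finset.sum_eq_single (⟨0, hpos⟩ : Fin pb.dim)]
    · rw [map_smul, hval]; simp
    · intro i _ hi
      have : (i : ℕ) ≠ 0 := fun h => hi (Fin.ext h)
      rw [map_smul, hval]; simp [this]
    · intro h; exact absurd (Finset.mem_univ _) h

end Model2

/-- Geometric irreducibility when `κ` is algebraically closed in the function field. -/
theorem irreducible_map_algebraicClosure (κ : Type) [Field κ] [PerfectField κ] (t : ℕ)
    (G : Polynomial (MvPolynomial (Fin t) κ)) (hG : G.Monic)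
    (hirr : Irreducible (G.map (algebraMap _ (FractionRing (MvPolynomial (Fin t) κ)))))
    (halg : ∀ x : AdjoinRoot (G.map (algebraMap _ (FractionRing (MvPolynomial (Fin t) κ)))),
      IsAlgebraic κ x → ∃ c : κ, algebraMap κ _ c = x) :
    Irreducible (G.map (MvPolynomial.map (algebraMap κ (AlgebraicClosure κ)))) := by
  classical
  set P : Polynomial (FractionRing (MvPolynomial (Fin t) κ)) :=
    G.map (algebraMap _ (FractionRing (MvPolynomial (Fin t) κ))) with hP
  have hfact : Fact (Irreducible P) := ⟨hirr⟩
  let ψ : AlgebraicClosure κ →ₐ[κ] AlgebraicClosure (AdjoinRoot P) := IsAlgClosed.lift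
  let ι : MvPolynomial (Fin t) κ →+* AdjoinRoot P :=
    (AdjoinRoot.of P).comp
      (algebraMap (MvPolynomial (Fin t) κ) (FractionRing (MvPolynomial (Fin t) κ)))
  have hιC : ∀ c : κ, ι (MvPolynomial.C c) = algebraMap κ (AdjoinRoot P) c := by
    intro c
    rfl
  let Φ : MvPolynomial (Fin t) (AlgebraicClosure κ) →+* AlgebraicClosure (AdjoinRoot P) :=
    MvPolynomial.eval₂Hom ψ.toRingHom
      (fun i => algebraMap (AdjoinRoot P) (AlgebraicClosure (AdjoinRoot P)) (ι (MvPolynomial.X i)))
  let x : AlgebraicClosure (AdjoinRoot P) :=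
    algebraMap (AdjoinRoot P) (AlgebraicClosure (AdjoinRoot P)) (AdjoinRoot.root P)
  have hΦ : Φ.comp (MvPolynomial.map (algebraMap κ (AlgebraicClosure κ))) =
      (algebraMap (AdjoinRoot P) (AlgebraicClosure (AdjoinRoot P))).comp ι := by
    apply MvPolynomial.ringHom_ext
    · intro c
      rw [RingHom.comp_apply, RingHom.comp_apply, MvPolynomial.map_C, hιC,
        ← IsScalarTower.algebraMap_apply κ (AdjoinRoot P) (AlgebraicClosure (AdjoinRoot P))]
      have : Φ (MvPolynomial.C (algebraMap κ (AlgebraicClosure κ) c)) =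
          ψ (algebraMap κ (AlgebraicClosure κ) c) := MvPolynomial.eval₂Hom_C _ _ _
      rw [this, ψ.commutes]
    · intro i
      rw [RingHom.comp_apply, RingHom.comp_apply, MvPolynomial.map_X]
      exact MvPolynomial.eval₂Hom_X' _ _ _
  have hιinj : Function.Injective ι := by
    apply (AdjoinRoot.of P).injective.comp
    exact IsFractionRing.injective _ _
  have hmapι : (G.map ι).eval (AdjoinRoot.root P) = 0 := by
    have h1 : G.map ι = P.map (AdjoinRoot.of P) := (Polynomial.map_map _ _ _).symm
    rw [h1]
    exact AdjoinRoot.isRoot_root P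
  have hroot : ((G.map (MvPolynomial.map (algebraMap κ (AlgebraicClosure κ)))).map Φ).eval x = 0 := by
    rw [Polynomial.map_map, hΦ, ← Polynomial.map_map, Polynomial.eval_map, Polynomial.eval₂_at_apply,
      hmapι, map_zero]
  have key : ∀ H : Polynomial (MvPolynomial (Fin t) (AlgebraicClosure κ)), H.Monic →
      (H.map Φ).eval x = 0 → G.natDegree ≤ H.natDegree := by
    intro H hH hHx
    -- the finite set of all coefficients
    let S : Set (AlgebraicClosure (AdjoinRoot P)) :=
      (((Finset.range (H.natDegree + 1)).biUnion fun j =>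
        (H.coeff j).support.image fun μ => ψ ((H.coeff j).coeff μ) : Finset _) : Set _)
    obtain ⟨lam, hlam1, hlamS⟩ := Model2.exists_functional (κ := κ) (F := AdjoinRoot P)
      (E := AlgebraicClosure (AdjoinRoot P)) halg S (Finset.finite_toSet _) (by
        intro s hs
        simp only [S, Finset.coe_biUnion, Set.mem_iUnion, Finset.mem_coe, Finset.mem_image] at hs
        obtain ⟨j, -, μ, -, rfl⟩ := hs
        exact (Algebra.IsAlgebraic.isAlgebraic (R := κ) _).algHom ψ)
    have hc : ∀ j ∈ Finset.range (H.natDegree + 1), ∀ μ ∈ (H.coeff j).support,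
        ∃ c : κ, lam (ψ ((H.coeff j).coeff μ)) = algebraMap κ (AdjoinRoot P) c := by
      intro j hj μ hμ
      apply hlamS
      simp only [S, Finset.coe_biUnion, Set.mem_iUnion, Finset.mem_coe, Finset.mem_image]
      exact ⟨j, hj, μ, hμ, rfl⟩
    choose! τ hτ using hc
    -- the projected polynomial
    let h0 : ℕ → MvPolynomial (Fin t) κ := fun j =>
      ∑ μ ∈ (H.coeff j).support, MvPolynomial.monomial μ (τ j μ)
    have hproj : ∀ j ∈ Finset.range (H.natDegree + 1),
        lam (Φ (H.coeff j) * x ^ j) = ι (h0 j) * AdjoinRoot.root P ^ j := by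
      intro j hj
      have h1 : Φ (H.coeff j) * x ^ j = ∑ μ ∈ (H.coeff j).support,
          ((∏ i ∈ μ.support, ι (MvPolynomial.X i) ^ μ i) * AdjoinRoot.root P ^ j) •
            ψ ((H.coeff j).coeff μ) := by
        have h2 : Φ (H.coeff j) = ∑ μ ∈ (H.coeff j).support, ψ ((H.coeff j).coeff μ) *
            ∏ i ∈ μ.support, (algebraMap (AdjoinRoot P) (AlgebraicClosure (AdjoinRoot P))
              (ι (MvPolynomial.X i))) ^ μ i := MvPolynomial.eval₂_eq _ _ _
        rw [h2, Finset.sum_mul]
        apply Finset.sum_congr rfl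
        intro μ _
        rw [Algebra.smul_def, map_mul, map_prod, map_pow]
        simp only [map_pow]
        ring
      rw [h1, map_sum]
      simp only [h0]
      rw [map_sum, Finset.sum_mul]
      apply Finset.sum_congr rfl
      intro μ hμ
      rw [map_smul, hτ j hj μ hμ, MvPolynomial.monomial_eq, map_mul, hιC, Finsupp.prod, map_prod,
        smul_eq_mul]
      simp only [map_pow]
      ring
    have hsum : ∑ j ∈ Finset.range (H.natDegree + 1), ι (h0 j) * AdjoinRoot.root P ^ j = 0 := by
      have h1 : (H.map Φ).eval x = ∑ j ∈ Finset.range (H.natDegree + 1), Φ (H.coeff j) * x ^ j := by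
        rw [Polynomial.eval_eq_sum_range, hH.natDegree_map]
        simp only [Polynomial.coeff_map]
      rw [hHx] at h1
      have h2 := congrArg lam h1
      rw [map_zero, map_sum] at h2
      rw [h2]
      exact Finset.sum_congr rfl fun j hj => (hproj j hj).symm
    have hlead : h0 H.natDegree = 1 := by
      have h1 : H.coeff H.natDegree = 1 := hH
      have h2 : (1 : MvPolynomial (Fin t) (AlgebraicClosure κ)).support = {0} := by
        rw [← MvPolynomial.C_1, MvPolynomial.support_C]; simp
      have h3 : τ H.natDegree 0 = 1 := by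
        have h4 := hτ H.natDegree (Finset.mem_range.mpr (Nat.lt_succ_self _)) 0 (by rw [h1, h2]; simp)
        rw [h1, MvPolynomial.coeff_zero_one, map_one, hlam1] at h4
        exact ((algebraMap κ (AdjoinRoot P)).injective (by rw [map_one]; exact h4)).symm
      simp only [h0]
      rw [h1, h2, Finset.sum_singleton, h3]
      rfl
    let Q : Polynomial (FractionRing (MvPolynomial (Fin t) κ)) :=
      ∑ j ∈ Finset.range (H.natDegree + 1), Polynomial.C (algebraMap _ _ (h0 j)) * Polynomial.X ^ j
    have hQc : Q.coeff H.natDegree = 1 := by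
      simp only [Q]
      rw [Polynomial.finsetSum_coeff]
      simp only [Polynomial.coeff_C_mul, Polynomial.coeff_X_pow]
      rw [Finset.sum_eq_single H.natDegree]
      · simp [hlead]
      · intro j _ hj; simp [Ne.symm hj]
      · intro h; exact absurd (Finset.mem_range.mpr (Nat.lt_succ_self _)) h
    have hQ0 : Q ≠ 0 := by
      intro h; rw [h] at hQc; simp at hQc
    have hQdeg : Q.natDegree ≤ H.natDegree := by
      simp only [Q]
      apply Polynomial.natDegree_sum_le_of_forall_le
      intro j hj
      exact (Polynomial.natDegree_C_mul_X_pow_le _ _).trans (Nat.lt_succ_iff.mp (Finset.mem_range.mp hj))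
    have hdvd : P ∣ Q := by
      rw [← AdjoinRoot.mk_eq_zero, ← hsum]
      simp only [Q]
      rw [map_sum]
      apply Finset.sum_congr rfl
      intro j _
      rw [map_mul, map_pow, AdjoinRoot.mk_X, AdjoinRoot.mk_C]
      rfl
    have h5 := Polynomial.natDegree_le_of_dvd hdvd hQ0
    rw [hP, hG.natDegree_map] at h5
    exact h5.trans hQdeg
  have hGm := hG.map (MvPolynomial.map (algebraMap κ (AlgebraicClosure κ)))
  rw [hGm.irreducible_iff_natDegree]
  have hdeg : (G.map (MvPolynomial.map (algebraMap κ (AlgebraicClosure κ)))).natDegree = G.natDegree :=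
    hG.natDegree_map _
  refine ⟨?_, ?_⟩
  · intro h
    have h1 : G.natDegree = 0 := by rw [← hdeg, h, Polynomial.natDegree_one]
    have h2 : P.natDegree = 0 := by rw [hP, hG.natDegree_map]; exact h1
    have h3 := hirr.natDegree_pos
    omega
  · intro f g hf hg hfg
    have h1 : (f.map Φ).eval x * (g.map Φ).eval x = 0 := by
      rw [← Polynomial.eval_mul, ← Polynomial.map_mul, hfg, hroot]
    have h2 : f.natDegree + g.natDegree = G.natDegree := by
      rw [← hdeg, ← hfg, hf.natDegree_mul hg]
    rcases mul_eq_zero.mp h1 with h | h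
    · right; have := key f hf h; omega
    · left; have := key g hg h; omega

end Pool.Agent.W_MP_b723a0_ag
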