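import Mathlib
import Pool.Agent.W_MP_b723a0_ag.Defs
import Pool.Agent.W_MP_b723a0_ag.Kap
import Pool.Agent.W_MP_b723a0_ag.Model1
import Pool.Agent.W_MP_b723a0_ag.Model2
import Pool.Agent.W_MP_b723a0_ag.Bertini
import Pool.Agent.W_MP_b723a0_ag.CurveKap

open scoped TensorProduct

namespace Pool.Agent.W_MP_b723a0_ag

theorem pac_lite {p ℓ : ℕ} [Fact p.Prime] (hℓ : ℓ.Prime) {κ : Type} [Field κ] [CharP κ p]
    (hκ : IsKap p ℓ κ) (μ : Polynomial (ZMod p)) (hμ : Irreducible μ) (hdeg : μ.natDegree = ℓ)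
    (A : Type) [CommRing A] [IsDomain A] [Algebra κ A] [Algebra.FiniteType κ A]
    (hroot : ∀ α : FractionRing A,
      μ.eval₂ ((algebraMap κ (FractionRing A)).comp (ZMod.castHom (dvd_refl p) κ)) α ≠ 0) :
    Nonempty (A →ₐ[κ] κ) := by
  have : Infinite κ := hκ.infinite hℓ
  have : PerfectField κ := hκ.perfectField hℓ
  obtain ⟨t, G, h, hGm, hh, hirr, hsep, ⟨e⟩, hpt⟩ := exists_model κ A
  have halg : ∀ x : AdjoinRoot (G.map (algebraMap _ (FractionRing (MvPolynomial (Fin t) κ)))),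
      IsAlgebraic κ x → ∃ c : κ, algebraMap κ _ c = x := by
    intro x hx
    have hx' : IsAlgebraic κ (e x) := hx.algHom e.toAlgHom
    obtain ⟨c, hc⟩ := hκ.mem_of_algebraic hℓ μ hμ hdeg (FractionRing A) hroot (e x) hx'
    refine ⟨c, ?_⟩
    apply e.injective
    rw [AlgEquiv.commutes]
    exact hc
  have hirr' := irreducible_map_algebraicClosure κ t G hGm hirr halg
  obtain ⟨φ, hφh, hφsep, hφirr⟩ := bertini κ (AlgebraicClosure κ) t G hGm hirr' hsep h hh
  have hPm : (G.map φ.toRingHom).Monic := hGm.map _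
  obtain ⟨T0, x0, hb, hx⟩ := curve_kap hℓ hκ (G.map φ.toRingHom) hPm hφsep hφirr (φ h) hφh
  have hev : (Polynomial.evalRingHom T0).comp φ.toRingHom =
      MvPolynomial.eval (fun i => (φ (MvPolynomial.X i)).eval T0) := by
    apply MvPolynomial.ringHom_ext
    · intro r
      have h1 : φ (MvPolynomial.C r) = Polynomial.C r := φ.commutes r
      simp [h1]
    · intro i
      simp
  apply hpt (fun i => (φ (MvPolynomial.X i)).eval T0) x0
  · rw [← hev]
    exact hb
  · rw [← hev, ← Polynomial.map_map]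
    exact hx

end Pool.Agent.W_MP_b723a0_ag
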