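import Mathlib
import Pool.Agent.W_MP_b723a0_ag.Defs
import Pool.Agent.W_MP_b723a0_ag.Kap
import Pool.Agent.W_MP_b723a0_ag.PacLite

open scoped TensorProduct

namespace Pool.Agent.W_MP_b723a0_ag

/-- Evaluation of a form at a multiple of a point. -/
theorem keyK_aeval_mul {κ : Type*} [Field κ] {L : Type*} [CommRing L] [Algebra κ L] {σ : Type*}
    {g : MvPolynomial σ κ} {m : ℕ} (hg : g.IsHomogeneous m) (t : L) (v : σ → L) :
    MvPolynomial.aeval (fun i => t * v i) g = t ^ m * MvPolynomial.aeval v g := by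
  classical
  rw [MvPolynomial.aeval_def, MvPolynomial.aeval_def, MvPolynomial.eval₂_eq,
    MvPolynomial.eval₂_eq, Finset.mul_sum]
  refine Finset.sum_congr rfl fun d hd => ?_
  have h1 : d.degree = m := by
    have h2 := hg (MvPolynomial.mem_support_iff.1 hd)
    rw [Finsupp.degree_eq_weight_one]
    exact h2
  simp_rw [mul_pow]
  rw [Finset.prod_mul_distrib, Finset.prod_pow_eq_pow_sum]
  rw [show (∑ i ∈ d.support, d i) = m from h1]
  ring

/-- Homogenisation of a polynomial with respect to the variable `i₀`. -/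
theorem keyK_homogenise {κ : Type*} [Field κ] {L : Type*} [CommRing L] [Algebra κ L] {σ : Type*}
    (i₀ : σ) (f : MvPolynomial σ κ) (e : ℕ) (he : f.totalDegree ≤ e) (t : L) (v : σ → L)
    (hv : v i₀ = 1) :
    ∃ g : MvPolynomial σ κ, g.IsHomogeneous e ∧
      MvPolynomial.aeval (fun i => t * v i) g = t ^ e * MvPolynomial.aeval v f := by
  refine ⟨∑ m ∈ Finset.range (e + 1), MvPolynomial.X i₀ ^ (e - m) *
    MvPolynomial.homogeneousComponent m f, ?_, ?_⟩
  · refine MvPolynomial.IsHomogeneous.sum _ _ _ fun m hm => ?_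
    have := (MvPolynomial.isHomogeneous_X_pow (R := κ) i₀ (e - m)).mul
      (MvPolynomial.homogeneousComponent_isHomogeneous m f)
    rwa [Nat.sub_add_cancel (Nat.lt_succ_iff.1 (Finset.mem_range.1 hm))] at this
  · rw [map_sum]
    have h1 : f = ∑ m ∈ Finset.range (e + 1), MvPolynomial.homogeneousComponent m f := by
      rw [← Finset.sum_subset (Finset.range_subset_range.2 (Nat.succ_le_succ he))]
      · exact (MvPolynomial.sum_homogeneousComponent f).symm
      · intro m _ hm
        apply MvPolynomial.homogeneousComponent_eq_zero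
        simpa using hm
    conv_rhs => rw [h1, map_sum, Finset.mul_sum]
    refine Finset.sum_congr rfl fun m hm => ?_
    rw [map_mul, keyK_aeval_mul (MvPolynomial.homogeneousComponent_isHomogeneous m f), map_pow,
      MvPolynomial.aeval_X, hv, mul_one, ← mul_assoc, ← pow_add,
      Nat.sub_add_cancel (Nat.lt_succ_iff.1 (Finset.mem_range.1 hm))]

/-- Key lemma K -/
theorem keyK {p ℓ : ℕ} [Fact p.Prime] (hℓ : ℓ.Prime) {κ : Type} [Field κ] [CharP κ p]
    (hκ : IsKap p ℓ κ) (σ : Type) [Fintype σ] (P : Ideal (MvPolynomial σ κ)) (hP : P.IsPrime)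
    (hPh : IsHomIdeal P) (i₀ : σ) (hi₀ : MvPolynomial.X i₀ ∉ P)
    (hz : ∀ x : σ → κ, (∀ g ∈ P, MvPolynomial.eval x g = 0) → x = 0)
    (μ : Polynomial (ZMod p)) (hμ : Irreducible μ) (hdeg : μ.natDegree = ℓ) :
    ∃ (e : ℕ) (g h : MvPolynomial σ κ), g.IsHomogeneous e ∧ h.IsHomogeneous e ∧ h ∉ P ∧
      ∑ j ∈ Finset.range (ℓ + 1),
        MvPolynomial.C (ZMod.castHom (dvd_refl p) κ (μ.coeff j)) * g ^ j * h ^ (ℓ - j) ∈ P := by
  obtain ⟨L, instL, instA, χ, hχ⟩ : ∃ (L : Type) (_ : Field L) (_ : Algebra κ L)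
      (χ : MvPolynomial σ κ →ₐ[κ] L), ∀ g, χ g = 0 ↔ g ∈ P := by
    have := hP
    refine ⟨FractionRing (MvPolynomial σ κ ⧸ P), inferInstance, inferInstance,
      (IsScalarTower.toAlgHom κ (MvPolynomial σ κ ⧸ P) (FractionRing (MvPolynomial σ κ ⧸ P))).comp
        (Ideal.Quotient.mkₐ κ P), fun g => ?_⟩
    rw [AlgHom.comp_apply, IsScalarTower.coe_toAlgHom', Ideal.Quotient.mkₐ_eq_mk]
    rw [map_eq_zero_iff _ (IsFractionRing.injective (MvPolynomial σ κ ⧸ P) _)]
    exact Ideal.Quotient.eq_zero_iff_mem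
  obtain ⟨t, ht⟩ : ∃ t, t = χ (MvPolynomial.X i₀) := ⟨_, rfl⟩
  have ht0 : t ≠ 0 := by
    rw [ht]
    exact fun h => hi₀ ((hχ _).1 h)
  obtain ⟨v, hv⟩ : ∃ v : σ → L, v = fun i => χ (MvPolynomial.X i) / t := ⟨_, rfl⟩
  have hv0 : v i₀ = 1 := by
    rw [hv]
    simp only
    rw [← ht, div_self ht0]
  have hχv : χ = MvPolynomial.aeval (fun i => t * v i) := by
    apply MvPolynomial.algHom_ext
    intro i
    rw [MvPolynomial.aeval_X, hv]
    field_simp
  obtain ⟨A, hA⟩ : ∃ A : Subalgebra κ L, A = Algebra.adjoin κ (Set.range v) := ⟨_, rfl⟩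
  have hvA : ∀ i, v i ∈ A := fun i => by
    rw [hA]
    exact Algebra.subset_adjoin ⟨i, rfl⟩
  have : Algebra.FiniteType κ A := by
    rw [hA]
    exact Algebra.FiniteType.adjoin_of_finite (Set.finite_range v)
  obtain ⟨w, hw⟩ : ∃ w : σ → A, ∀ i, (w i : L) = v i := ⟨fun i => ⟨v i, hvA i⟩, fun _ => rfl⟩
  have hval : ∀ f : MvPolynomial σ κ, ((MvPolynomial.aeval w f : A) : L) =
      MvPolynomial.aeval v f := by
    intro f
    have : (A.val.comp (MvPolynomial.aeval w)) = MvPolynomial.aeval v := by
      apply MvPolynomial.algHom_ext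
      intro i
      simp [hw]
    exact DFunLike.congr_fun this f
  by_cases hroot : ∀ α : FractionRing A,
      μ.eval₂ ((algebraMap κ (FractionRing A)).comp (ZMod.castHom (dvd_refl p) κ)) α ≠ 0
  · exfalso
    obtain ⟨φ⟩ := pac_lite hℓ hκ μ hμ hdeg A hroot
    have h1 := hz (fun i => φ (w i)) ?_
    · have h2 := congr_fun h1 i₀
      have h3 : w i₀ = 1 := by
        apply Subtype.ext
        rw [hw, hv0]
        rfl
      simp only [h3, map_one, Pi.zero_apply] at h2
      exact one_ne_zero h2
    · intro g hg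
      have h2 : ∀ m, MvPolynomial.eval (fun i => φ (w i))
          (MvPolynomial.homogeneousComponent m g) = 0 := by
        intro m
        have h3 := (hχ _).2 (hPh g hg m)
        rw [hχv, keyK_aeval_mul (MvPolynomial.homogeneousComponent_isHomogeneous m g)] at h3
        have h4 : MvPolynomial.aeval v (MvPolynomial.homogeneousComponent m g) = 0 :=
          (mul_eq_zero.1 h3).resolve_left (pow_ne_zero _ ht0)
        rw [← hval] at h4
        have h5 : (MvPolynomial.aeval w (MvPolynomial.homogeneousComponent m g) : A) = 0 :=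
          Subtype.ext h4
        have h6 := congr_arg φ h5
        rw [map_zero] at h6
        have h7 : φ.comp (MvPolynomial.aeval w) = MvPolynomial.aeval (fun i => φ (w i)) := by
          apply MvPolynomial.algHom_ext
          intro i
          simp
        have h8 := DFunLike.congr_fun h7 (MvPolynomial.homogeneousComponent m g)
        rw [AlgHom.comp_apply, h6] at h8
        rw [← MvPolynomial.coe_aeval_eq_eval]
        exact h8.symm
      rw [← MvPolynomial.sum_homogeneousComponent g, map_sum]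
      exact Finset.sum_eq_zero fun m _ => h2 m
  · push Not at hroot
    obtain ⟨α, hα⟩ := hroot
    obtain ⟨a, b, hb, rfl⟩ := IsFractionRing.div_surjective A α
    have hb0 : b ≠ 0 := nonZeroDivisors.ne_zero hb
    -- the relation in `A`
    have hrel : ∑ j ∈ Finset.range (ℓ + 1),
        algebraMap κ A (ZMod.castHom (dvd_refl p) κ (μ.coeff j)) * a ^ j * b ^ (ℓ - j) = 0 := by
      apply IsFractionRing.injective A (FractionRing A)
      rw [map_zero, map_sum]
      have hb1 : algebraMap A (FractionRing A) b ≠ 0 := by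
        rw [Ne, map_eq_zero_iff _ (IsFractionRing.injective A _)]
        exact hb0
      have h1 : ∑ j ∈ Finset.range (ℓ + 1),
          (algebraMap A (FractionRing A))
            (algebraMap κ A (ZMod.castHom (dvd_refl p) κ (μ.coeff j)) * a ^ j * b ^ (ℓ - j)) =
          (algebraMap A (FractionRing A) b) ^ ℓ *
          μ.eval₂ ((algebraMap κ (FractionRing A)).comp (ZMod.castHom (dvd_refl p) κ))
            (algebraMap A (FractionRing A) a / algebraMap A (FractionRing A) b) := by
        rw [Polynomial.eval₂_eq_sum_range, hdeg, Finset.mul_sum]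
        refine Finset.sum_congr rfl fun j hj => ?_
        have hj' : j ≤ ℓ := Nat.lt_succ_iff.1 (Finset.mem_range.1 hj)
        rw [map_mul, map_mul, map_pow, map_pow, div_pow, RingHom.comp_apply,
          ← IsScalarTower.algebraMap_apply κ A (FractionRing A)]
        have h2 : (algebraMap A (FractionRing A) b) ^ ℓ =
            (algebraMap A (FractionRing A) b) ^ (ℓ - j) *
              (algebraMap A (FractionRing A) b) ^ j := by
          rw [← pow_add, Nat.sub_add_cancel hj']
        rw [h2]
        field_simp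
      rw [h1, hα, mul_zero]
    have hsurj : ∀ x : A, ∃ f : MvPolynomial σ κ, MvPolynomial.aeval v f = (x : L) := by
      intro x
      have h1 : (x : L) ∈ (MvPolynomial.aeval (R := κ) v).range := by
        rw [← Algebra.adjoin_range_eq_range_aeval, ← hA]
        exact x.2
      exact h1
    obtain ⟨P1, hP1⟩ := hsurj a
    obtain ⟨Q1, hQ1⟩ := hsurj b
    obtain ⟨g, hg, hg'⟩ := keyK_homogenise i₀ P1 (max P1.totalDegree Q1.totalDegree)
      (le_max_left _ _) t v hv0
    obtain ⟨h, hh, hh'⟩ := keyK_homogenise i₀ Q1 (max P1.totalDegree Q1.totalDegree)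
      (le_max_right _ _) t v hv0
    rw [← hχv, hP1] at hg'
    rw [← hχv, hQ1] at hh'
    refine ⟨max P1.totalDegree Q1.totalDegree, g, h, hg, hh, ?_, ?_⟩
    · rw [← hχ, hh']
      refine mul_ne_zero (pow_ne_zero _ ht0) ?_
      intro h0
      exact hb0 (Subtype.ext h0)
    · rw [← hχ, map_sum]
      have h1 := congr_arg (fun x : A => (x : L)) hrel
      simp only [AddSubmonoidClass.coe_finsetSum, MulMemClass.coe_mul, SubmonoidClass.coe_pow,
        ZeroMemClass.coe_zero] at h1
      have h2 : ∀ j ∈ Finset.range (ℓ + 1),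
          χ (MvPolynomial.C (ZMod.castHom (dvd_refl p) κ (μ.coeff j)) * g ^ j * h ^ (ℓ - j)) =
          (t ^ max P1.totalDegree Q1.totalDegree) ^ ℓ *
            (((algebraMap κ A (ZMod.castHom (dvd_refl p) κ (μ.coeff j)) : A) : L) * (a : L) ^ j *
              (b : L) ^ (ℓ - j)) := by
        intro j hj
        have hj' : j ≤ ℓ := Nat.lt_succ_iff.1 (Finset.mem_range.1 hj)
        rw [map_mul, map_mul, map_pow, map_pow, hg', hh', ← MvPolynomial.algebraMap_eq,
          AlgHom.commutes, Subalgebra.coe_algebraMap]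
        have h2 : (t ^ max P1.totalDegree Q1.totalDegree) ^ ℓ =
            (t ^ max P1.totalDegree Q1.totalDegree) ^ j *
              (t ^ max P1.totalDegree Q1.totalDegree) ^ (ℓ - j) := by
          rw [← pow_add, Nat.add_sub_cancel' hj']
        rw [h2, mul_pow, mul_pow]
        ring
      rw [Finset.sum_congr rfl h2, ← Finset.mul_sum, h1, mul_zero]

end Pool.Agent.W_MP_b723a0_ag
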