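import Mathlib
import Pool.Agent.W_MP_b723a0_ag.Defs
import Pool.Agent.W_MP_b723a0_ag.Kap
import Pool.Agent.W_MP_b723a0_ag.KeyK
import Pool.Agent.W_MP_b723a0_ag.HStep
import Pool.Agent.W_MP_b723a0_ag.HStable

open scoped TensorProduct

namespace Pool.Agent.W_MP_b723a0_ag

section homIdeal

attribute [local instance] MvPolynomial.gradedAlgebra

theorem decompose_coe_eq {κ : Type*} [Field κ] {σ : Type*} (g : MvPolynomial σ κ) (m : ℕ) :
    (DirectSum.decompose (MvPolynomial.homogeneousSubmodule σ κ) g m : MvPolynomial σ κ) =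
      MvPolynomial.homogeneousComponent m g :=
  MvPolynomial.decomposition.decompose'_apply g m

theorem isHomIdeal_iff {κ : Type*} [Field κ] {σ : Type*} (I : Ideal (MvPolynomial σ κ)) :
    IsHomIdeal I ↔ I.IsHomogeneous (MvPolynomial.homogeneousSubmodule σ κ) := by
  constructor
  · intro h m g hg
    have := h g hg m
    rw [← decompose_coe_eq] at this
    exact this
  · intro h g hg m
    exact MvPolynomial.homogeneousComponent_mem_of_mem h hg m

theorem isHomIdeal_sup {κ : Type*} [Field κ] {σ : Type*} {I J : Ideal (MvPolynomial σ κ)}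
    (hI : IsHomIdeal I) (hJ : IsHomIdeal J) : IsHomIdeal (I ⊔ J) := by
  rw [isHomIdeal_iff] at *
  exact hI.sup hJ

theorem isHomIdeal_span {κ : Type*} [Field κ] {σ : Type*} (s : Set (MvPolynomial σ κ))
    (h : ∀ x ∈ s, ∃ m, x.IsHomogeneous m) : IsHomIdeal (Ideal.span s) := by
  rw [isHomIdeal_iff]
  apply Ideal.homogeneous_span
  intro x hx
  obtain ⟨m, hm⟩ := h x hx
  exact ⟨m, hm⟩

theorem isHomIdeal_colon {κ : Type*} [Field κ] {σ : Type*} {I : Ideal (MvPolynomial σ κ)}
    (hI : IsHomIdeal I) {a : MvPolynomial σ κ} {e : ℕ} (ha : a.IsHomogeneous e)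
    {J : Ideal (MvPolynomial σ κ)} (hJ : ∀ x, x ∈ J ↔ a * x ∈ I) : IsHomIdeal J := by
  intro g hg m
  rw [hJ] at hg ⊢
  have h1 := hI _ hg (e + m)
  rw [← decompose_coe_eq, DirectSum.coe_decompose_mul_add_of_left_mem _ ha,
    decompose_coe_eq] at h1
  exact h1

theorem exists_homogeneous_of_not_prime {κ : Type*} [Field κ] {σ : Type*}
    {I : Ideal (MvPolynomial σ κ)} (hI : IsHomIdeal I) (htop : I ≠ ⊤) (hP : ¬ I.IsPrime) :
    ∃ (a b : MvPolynomial σ κ) (e : ℕ), a.IsHomogeneous e ∧ a ∉ I ∧ b ∉ I ∧ a * b ∈ I := by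
  by_contra hcon
  push Not at hcon
  apply hP
  rw [isHomIdeal_iff] at hI
  apply hI.isPrime_of_homogeneous_mem_or_mem htop
  intro x y hx hy hxy
  by_contra hno
  push Not at hno
  obtain ⟨e, he⟩ := hx
  exact hcon x y e he hno.1 hno.2 hxy

end homIdeal

theorem idealDeg_top {κ : Type*} [Field κ] {σ : Type*} (m : ℕ) :
    idealDeg (⊤ : Ideal (MvPolynomial σ κ)) m = MvPolynomial.homogeneousSubmodule σ κ m := by
  unfold idealDeg
  rw [inf_eq_left]
  intro x _
  trivial

theorem idealDeg_of_X_mem {κ : Type*} [Field κ] {σ : Type*} (I : Ideal (MvPolynomial σ κ))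
    (h : ∀ i, (MvPolynomial.X i : MvPolynomial σ κ) ∈ I) (m : ℕ) (hm : 1 ≤ m) :
    idealDeg I m = MvPolynomial.homogeneousSubmodule σ κ m := by
  unfold idealDeg
  rw [inf_eq_left]
  intro x hx
  rw [MvPolynomial.mem_homogeneousSubmodule] at hx
  rw [Submodule.restrictScalars_mem]
  rw [x.as_sum]
  apply Ideal.sum_mem
  intro d hd
  have hdeg : d.degree = m := by
    by_contra hne
    exact (MvPolynomial.mem_support_iff.1 hd) (hx.coeff_eq_zero hne)
  have : ∃ i, d i ≠ 0 := by
    by_contra hcon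
    push Not at hcon
    have : d = 0 := by
      ext i
      simpa using hcon i
    rw [this] at hdeg
    simp at hdeg
    omega
  obtain ⟨i, hi⟩ := this
  have hdvd : (MvPolynomial.X i : MvPolynomial σ κ) ∣
      MvPolynomial.monomial d (MvPolynomial.coeff d x) := by
    rw [MvPolynomial.X_dvd_monomial]
    exact Or.inr hi
  obtain ⟨c, hc⟩ := hdvd
  rw [hc]
  exact Ideal.mul_mem_right _ _ (h i)

theorem lemmaH {p ℓ : ℕ} [Fact p.Prime] (hℓ : ℓ.Prime) {κ : Type} [Field κ] [CharP κ p]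
    (hκ : IsKap p ℓ κ) (σ : Type) [Fintype σ] (I : Ideal (MvPolynomial σ κ))
    (hI : IsHomIdeal I)
    (hz : ∀ x : σ → κ, (∀ g ∈ I, MvPolynomial.eval x g = 0) → x = 0) :
    ∃ m₀ : ℕ, ∀ m ≥ m₀,
      Module.finrank κ (MvPolynomial.homogeneousSubmodule σ κ m) ≡
        Module.finrank κ (idealDeg I m) [MOD ℓ] := by
  revert hI hz
  refine WellFounded.induction (C := fun I : Ideal (MvPolynomial σ κ) =>
    IsHomIdeal I → (∀ x : σ → κ, (∀ g ∈ I, MvPolynomial.eval x g = 0) → x = 0) →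
    ∃ m₀ : ℕ, ∀ m ≥ m₀,
      Module.finrank κ (MvPolynomial.homogeneousSubmodule σ κ m) ≡
        Module.finrank κ (idealDeg I m) [MOD ℓ])
    (wellFounded_gt : WellFounded fun (a b : Ideal (MvPolynomial σ κ)) => a > b) I ?_
  intro I ih hI hz
  by_cases htop : I = ⊤
  · refine ⟨0, fun m _ => ?_⟩
    rw [htop, idealDeg_top]
  have up : ∀ J : Ideal (MvPolynomial σ κ), I < J → IsHomIdeal J →
      ∃ m₀ : ℕ, ∀ m ≥ m₀,
      Module.finrank κ (MvPolynomial.homogeneousSubmodule σ κ m) ≡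
        Module.finrank κ (idealDeg J m) [MOD ℓ] := by
    intro J hJ hJh
    exact ih J hJ hJh (fun x hx => hz x (fun g hg => hx g (hJ.le hg)))
  by_cases hP : I.IsPrime
  · by_cases hX : ∀ i, (MvPolynomial.X i : MvPolynomial σ κ) ∈ I
    · refine ⟨1, fun m hm => ?_⟩
      rw [idealDeg_of_X_mem I hX m hm]
    push Not at hX
    obtain ⟨i₀, hi₀⟩ := hX
    obtain ⟨μ, hμ, hmon, hdeg⟩ := exists_irreducible_natDegree p ℓ hℓ.ne_zero
    obtain ⟨e, g, h, hg, hh, hhP, hroot⟩ := keyK hℓ hκ σ I hP hI i₀ hi₀ hz μ hμ hdeg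
    have hirr := hκ.irreducible_map hℓ 1 μ hμ (by rw [hdeg, pow_one])
    have hdeg' : (μ.map (ZMod.castHom (dvd_refl p) κ)).natDegree = ℓ := by
      rw [Polynomial.natDegree_map, hdeg]
    have hst := stable_congr ℓ hℓ κ σ I hP hI (μ.map (ZMod.castHom (dvd_refl p) κ)) hirr hdeg' e
      g h hg hh hhP (by simpa only [Polynomial.coeff_map] using hroot)
    have hJh : IsHomIdeal (I ⊔ Ideal.span
        (Set.range fun i : Fin ℓ => h ^ (ℓ - 1 - (i : ℕ)) * g ^ (i : ℕ))) := by
      apply isHomIdeal_sup hI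
      apply isHomIdeal_span
      rintro _ ⟨i, rfl⟩
      exact ⟨_, (hh.pow _).mul (hg.pow _)⟩
    have hlt : I < I ⊔ Ideal.span
        (Set.range fun i : Fin ℓ => h ^ (ℓ - 1 - (i : ℕ)) * g ^ (i : ℕ)) := by
      refine lt_of_le_of_ne le_sup_left ?_
      intro he
      have h1 : h ^ (ℓ - 1) ∈ I := by
        rw [he]
        apply Ideal.mem_sup_right
        apply Ideal.subset_span
        refine ⟨⟨0, hℓ.pos⟩, ?_⟩
        simp
      exact hhP (hP.mem_of_pow_mem _ h1)
    obtain ⟨m₀, hm₀⟩ := up _ hlt hJh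
    exact ⟨m₀, fun m hm => (hm₀ m hm).trans (hst m)⟩
  · obtain ⟨a, b, e, hae, ha, hb, hab⟩ := exists_homogeneous_of_not_prime hI htop hP
    -- the colon ideal
    let J : Ideal (MvPolynomial σ κ) :=
      Submodule.comap (LinearMap.mulLeft (MvPolynomial σ κ) a) I
    have hJ : ∀ x, x ∈ J ↔ a * x ∈ I := fun x => Iff.rfl
    have hJh : IsHomIdeal J := isHomIdeal_colon hI hae hJ
    have hJlt : I < J := by
      refine lt_of_le_of_ne ?_ ?_
      · intro x hx
        rw [hJ]
        exact Ideal.mul_mem_left _ _ hx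
      · intro he
        apply hb
        rw [he, hJ]
        exact hab
    have hKh : IsHomIdeal (I ⊔ Ideal.span {a}) := by
      apply isHomIdeal_sup hI
      apply isHomIdeal_span
      intro x hx
      rw [Set.mem_singleton_iff] at hx
      exact ⟨e, hx ▸ hae⟩
    have hKlt : I < I ⊔ Ideal.span {a} := by
      refine lt_of_le_of_ne le_sup_left ?_
      intro he
      apply ha
      rw [he]
      exact Ideal.mem_sup_right (Ideal.mem_span_singleton_self a)
    obtain ⟨m1, hm1⟩ := up _ hJlt hJh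
    obtain ⟨m2, hm2⟩ := up _ hKlt hKh
    refine ⟨max m1 m2 + e, fun m hm => ?_⟩
    obtain ⟨n, rfl⟩ : ∃ n, m = n + e := ⟨m - e, by omega⟩
    have hn1 : m1 ≤ n := by
      have := le_max_left m1 m2
      omega
    have hn2 : m2 ≤ n + e := by
      have := le_max_right m1 m2
      omega
    have hstep := finrank_idealDeg_step κ σ I J hI e a hae hJ n
    have h1 := hm1 n hn1
    have h2 := hm2 (n + e) hn2
    -- finish by arithmetic
    have h3 : Module.finrank κ (MvPolynomial.homogeneousSubmodule σ κ (n + e)) +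
        Module.finrank κ (MvPolynomial.homogeneousSubmodule σ κ n) ≡
        Module.finrank κ (idealDeg I (n + e)) +
        Module.finrank κ (MvPolynomial.homogeneousSubmodule σ κ n) [MOD ℓ] := by
      rw [← hstep]
      exact Nat.ModEq.add h2 h1
    exact Nat.ModEq.add_right_cancel' _ h3

end Pool.Agent.W_MP_b723a0_ag
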