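import Mathlib
import Pool.Agent.W_MP_b723a0_ag.Defs
import Pool.Agent.W_MP_b723a0_ag.LemmaH
import Pool.Agent.W_MP_b723a0_ag.Hilb
import Pool.Agent.W_MP_b723a0_ag.ChoosePeriod

open scoped TensorProduct

namespace Pool.Agent.W_MP_b723a0_ag

/-- A principal ideal generated by a form is homogeneous. -/
theorem isHomIdeal_span_singleton {κ : Type*} [Field κ] {σ : Type*} {E : ℕ}
    (Φ : MvPolynomial σ κ) (hΦ : Φ.IsHomogeneous E) : IsHomIdeal (Ideal.span {Φ}) := by
  intro g hg m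
  obtain ⟨a, rfl⟩ := Ideal.mem_span_singleton.mp hg
  have h1 : Φ * a = ∑ i ∈ Finset.range (a.totalDegree + 1),
      Φ * MvPolynomial.homogeneousComponent i a := by
    rw [← Finset.mul_sum, MvPolynomial.sum_homogeneousComponent]
  rw [h1, map_sum]
  refine Ideal.sum_mem _ fun i _ => ?_
  have h2 : (Φ * MvPolynomial.homogeneousComponent i a) ∈
      MvPolynomial.homogeneousSubmodule σ κ (E + i) :=
    (MvPolynomial.mem_homogeneousSubmodule _ _).mpr
      (hΦ.mul (MvPolynomial.homogeneousComponent_isHomogeneous i a))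
  rw [MvPolynomial.homogeneousComponent_of_mem h2]
  split_ifs
  · exact Ideal.mul_mem_right _ _ (Ideal.mem_span_singleton_self Φ)
  · exact Ideal.zero_mem _

theorem form_zero {p ℓ : ℕ} [Fact p.Prime] (hℓ : ℓ.Prime) {κ : Type} [Field κ] [CharP κ p]
    (hκ : IsKap p ℓ κ) (n E : ℕ) (hE : 0 < E) (hn : ℓ ^ padicValNat ℓ E ≤ n)
    (Φ : MvPolynomial (Fin (n + 1)) κ) (hΦ : Φ.IsHomogeneous E) :
    ∃ x : Fin (n + 1) → κ, x ≠ 0 ∧ MvPolynomial.eval x Φ = 0 := by
  by_contra hcon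
  push Not at hcon
  have hΦ0 : Φ ≠ 0 := by
    rintro rfl
    exact hcon (fun _ => 1) (fun h => one_ne_zero (congrFun h 0)) (map_zero _)
  obtain ⟨m₀, hm₀⟩ := lemmaH hℓ hκ (Fin (n + 1)) (Ideal.span {Φ})
    (isHomIdeal_span_singleton Φ hΦ) (by
      intro x hx
      by_contra hx0
      exact hcon x hx0 (hx Φ (Ideal.mem_span_singleton_self Φ)))
  refine choose_period ℓ n E hℓ hE hn m₀ fun m hm => ?_
  have h1 := hm₀ (m + E) (hm.trans (Nat.le_add_right m E))
  rw [finrank_homogeneousSubmodule, finrank_idealDeg_span κ n E Φ hΦ0 hΦ m] at h1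
  exact h1

end Pool.Agent.W_MP_b723a0_ag
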