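import Mathlib
import Pool.Agent.W_MP_b723a0_ag.Defs
import Pool.Agent.W_MP_b723a0_ag.Kap

open scoped TensorProduct

namespace Pool.Agent.W_MP_b723a0_ag

/-- The generic element matrix of a finite extension. -/
noncomputable def normMat {κ L : Type*} [Field κ] [Field L] [Algebra κ L] {d : ℕ}
    (B : Module.Basis (Fin d) κ L) : Matrix (Fin d) (Fin d) (MvPolynomial (Fin d) κ) :=
  fun i j => ∑ k, MvPolynomial.X k * MvPolynomial.C (Algebra.leftMulMatrix B (B k) i j)

theorem normMat_isHomogeneous {κ L : Type*} [Field κ] [Field L] [Algebra κ L] {d : ℕ}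
    (B : Module.Basis (Fin d) κ L) : (normMat B).det.IsHomogeneous d := by
  classical
  rw [Matrix.det_apply]
  refine MvPolynomial.IsHomogeneous.sum _ _ _ fun σ _ => ?_
  have h : (∏ i, normMat B (σ i) i).IsHomogeneous d := by
    have := MvPolynomial.IsHomogeneous.prod (Finset.univ : Finset (Fin d))
      (fun i => normMat B (σ i) i) (fun _ => 1) (fun i _ => by
        refine MvPolynomial.IsHomogeneous.sum _ _ _ fun k _ => ?_
        simpa using (MvPolynomial.isHomogeneous_X κ k).mul (MvPolynomial.isHomogeneous_C (Fin d)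
          (Algebra.leftMulMatrix B (B k) (σ i) i)))
    simpa using this
  rcases Int.units_eq_one_or (Equiv.Perm.sign σ) with h1 | h1
  · rw [h1, one_smul]; exact h
  · rw [h1, Units.neg_smul, one_smul]; exact h.neg

theorem eval_normMat {κ L : Type*} [Field κ] [Field L] [Algebra κ L] {d : ℕ}
    (B : Module.Basis (Fin d) κ L) (z : Fin d → κ) :
    MvPolynomial.eval z (normMat B).det = Algebra.norm κ (∑ k, z k • B k) := by
  classical
  rw [Algebra.norm_eq_matrix_det B, RingHom.map_det]
  congr 1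
  ext i j
  simp [normMat, map_sum, Matrix.sum_apply]

theorem exists_norm_form (p ℓ : ℕ) [Fact p.Prime] (hℓ : ℓ.Prime) (κ : Type) [Field κ]
    [CharP κ p] (hκ : IsKap p ℓ κ) (b : ℕ) :
    ∃ N : MvPolynomial (Fin (ℓ ^ b)) κ, N.IsHomogeneous (ℓ ^ b) ∧
      ∀ z : Fin (ℓ ^ b) → κ, MvPolynomial.eval z N = 0 → z = 0 := by
  classical
  obtain ⟨μ, hμ, hμ1, hdeg⟩ := exists_irreducible_natDegree p (ℓ ^ b) (pow_ne_zero _ hℓ.ne_zero)
  have hirr := hκ.irreducible_map hℓ b μ hμ hdeg
  set ν := μ.map (ZMod.castHom (dvd_refl p) κ) with hν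
  have hνd : ν.natDegree = ℓ ^ b := by rw [hν, Polynomial.natDegree_map, hdeg]
  have : Fact (Irreducible ν) := ⟨hirr⟩
  let pb := AdjoinRoot.powerBasis hirr.ne_zero
  have hdim : pb.dim = ℓ ^ b := by
    rw [AdjoinRoot.powerBasis_dim]; exact hνd
  let B : Module.Basis (Fin (ℓ ^ b)) κ (AdjoinRoot ν) := pb.basis.reindex (finCongr hdim)
  refine ⟨(normMat B).det, normMat_isHomogeneous B, fun z hz => ?_⟩
  rw [eval_normMat] at hz
  have : FiniteDimensional κ (AdjoinRoot ν) := B.finiteDimensional_of_finite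
  have h0 := Algebra.norm_eq_zero_iff.mp hz
  have := B.linearIndependent
  rw [Fintype.linearIndependent_iff] at this
  funext i
  exact this z h0 i

end Pool.Agent.W_MP_b723a0_ag
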