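import Mathlib
import Pool.Agent.W_MP_b723a0_ag.Defs
import Pool.Agent.W_MP_b723a0_ag.FormZero
import Pool.Agent.W_MP_b723a0_ag.NormForm

open scoped TensorProduct

namespace Pool.Agent.W_MP_b723a0_ag

theorem system_zero {p ℓ : ℕ} [Fact p.Prime] (hℓ : ℓ.Prime) (hne : ℓ ≠ p) {κ : Type} [Field κ]
    [CharP κ p] (hκ : IsKap p ℓ κ) (τ : Type) [Fintype τ] (R b d : ℕ) (hd : 0 < d)
    (g : Fin R → MvPolynomial τ κ) (e : Fin R → ℕ)
    (hg : ∀ j, (g j).IsHomogeneous (d * p ^ e j)) (hR : R ≤ ℓ ^ b)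
    (hcard : ℓ ^ (padicValNat ℓ d + b) < Fintype.card τ) :
    ∃ y : τ → κ, y ≠ 0 ∧ ∀ j, MvPolynomial.eval y (g j) = 0 := by
  classical
  have hp : p.Prime := Fact.out
  obtain ⟨N, hN, hN0⟩ := exists_norm_form p ℓ hℓ κ hκ b
  set M : ℕ := Finset.univ.sup e with hM
  have heM : ∀ j, e j ≤ M := fun j => Finset.le_sup (Finset.mem_univ j)
  let G : Fin (ℓ ^ b) → MvPolynomial τ κ := fun i =>
    if h : (i : ℕ) < R then (g ⟨i, h⟩) ^ p ^ (M - e ⟨i, h⟩) else 0
  have hG : ∀ i, (G i).IsHomogeneous (d * p ^ M) := by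
    intro i
    simp only [G]
    split_ifs with h
    · have h1 := (hg ⟨i, h⟩).pow (p ^ (M - e ⟨i, h⟩))
      have h2 : d * p ^ e ⟨i, h⟩ * p ^ (M - e ⟨i, h⟩) = d * p ^ M := by
        rw [mul_assoc, ← pow_add, Nat.add_sub_cancel' (heM _)]
      rwa [h2] at h1
    · exact MvPolynomial.isHomogeneous_zero _ _ _
  have hΦ : (MvPolynomial.aeval G N).IsHomogeneous (d * p ^ M * ℓ ^ b) := hN.aeval G hG
  obtain ⟨n, hn⟩ : ∃ n, Fintype.card τ = n + 1 :=
    ⟨Fintype.card τ - 1, by omega⟩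
  let eq : τ ≃ Fin (n + 1) := Fintype.equivFinOfCardEq hn
  have hpow : 0 < p ^ M := pow_pos hp.pos _
  have hlb : 0 < ℓ ^ b := pow_pos hℓ.pos _
  have hE : 0 < d * p ^ M * ℓ ^ b := by positivity
  have hval : padicValNat ℓ (d * p ^ M * ℓ ^ b) = padicValNat ℓ d + b := by
    have : Fact ℓ.Prime := ⟨hℓ⟩
    rw [padicValNat.mul (by positivity) hlb.ne', padicValNat.mul hd.ne' hpow.ne',
      padicValNat.prime_pow, padicValNat.pow, padicValNat_primes hne]
    simp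
  obtain ⟨x, hx, hx0⟩ := form_zero hℓ hκ n (d * p ^ M * ℓ ^ b) hE
    (by rw [hval]; omega) (MvPolynomial.rename eq (MvPolynomial.aeval G N))
    hΦ.rename_isHomogeneous
  rw [MvPolynomial.eval_rename] at hx0
  refine ⟨x ∘ eq, ?_, fun j => ?_⟩
  · intro h0
    apply hx
    funext i
    have := congrFun h0 (eq.symm i)
    simpa using this
  · have h1 : MvPolynomial.eval (fun i => MvPolynomial.eval (x ∘ eq) (G i)) N = 0 := by
      rw [← hx0]
      have hcomp : (MvPolynomial.eval (x ∘ eq)).comp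
          (MvPolynomial.aeval G : MvPolynomial (Fin (ℓ ^ b)) κ →ₐ[κ] MvPolynomial τ κ).toRingHom =
          MvPolynomial.eval (fun i => MvPolynomial.eval (x ∘ eq) (G i)) := by
        apply MvPolynomial.ringHom_ext
        · intro r; simp
        · intro i; simp
      rw [← hcomp]
      rfl
    have h2 := hN0 _ h1
    have hj : (j : ℕ) < ℓ ^ b := lt_of_lt_of_le j.2 hR
    have h3 := congrFun h2 ⟨j, hj⟩
    simp only [G, Fin.is_lt, dif_pos, Pi.zero_apply, Fin.eta, map_pow] at h3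
    exact pow_eq_zero_iff (pow_pos hp.pos _).ne' |>.mp h3

end Pool.Agent.W_MP_b723a0_ag
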