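import Mathlib
import Pool.Agent.W_MP_b723a0_ag.Defs
import Pool.Agent.W_MP_b723a0_ag.Kap
import Pool.Agent.W_MP_b723a0_ag.SystemZero
import Pool.Agent.W_MP_b723a0_ag.Digits

open scoped TensorProduct

namespace Pool.Agent.W_MP_b723a0_ag

/-- The choice of the number of digits. -/
theorem ApproxZeros.arith (ℓ r d a B N : ℕ) (hℓ : 1 < ℓ) (hd : 0 < d)
    (hN : r * d * ℓ ^ a < N) :
    ∃ b m : ℕ, r * (d * m + B) ≤ ℓ ^ b ∧ ℓ ^ (a + b) < N * (m + 1) := by
  have hN1 : 1 ≤ N := by omega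
  rcases Nat.eq_zero_or_pos r with hr | hr
  · subst hr
    refine ⟨0, ℓ ^ a, by simp, ?_⟩
    calc ℓ ^ (a + 0) < ℓ ^ a + 1 := by simp
      _ = 1 * (ℓ ^ a + 1) := (one_mul _).symm
      _ ≤ N * (ℓ ^ a + 1) := Nat.mul_le_mul_right _ hN1
  · set q := r * d with hq
    have hqpos : 0 < q := Nat.mul_pos hr hd
    set b := r * B + q * (ℓ ^ a * (r * B)) with hb
    have hbl : b < ℓ ^ b := Nat.lt_pow_self hℓ
    set A := ℓ ^ b - r * B with hA
    have hrB : r * B ≤ ℓ ^ b := by
      have : r * B ≤ b := Nat.le_add_right _ _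
      omega
    have hAeq : A + r * B = ℓ ^ b := Nat.sub_add_cancel hrB
    have hAbig : q * (ℓ ^ a * (r * B)) < A := by omega
    refine ⟨b, A / q, ?_, ?_⟩
    · have h1 : q * (A / q) ≤ A := Nat.mul_div_le A q
      calc r * (d * (A / q) + B) = q * (A / q) + r * B := by rw [hq]; ring
        _ ≤ A + r * B := Nat.add_le_add_right h1 _
        _ = ℓ ^ b := hAeq
    · have h2 : A < q * (A / q + 1) := Nat.lt_mul_div_succ A hqpos
      have h3 : ℓ ^ a * (r * B) ≤ A / q := by
        rw [Nat.le_div_iff_mul_le hqpos]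
        rw [mul_comm]
        exact hAbig.le
      have h4 : (q * ℓ ^ a + 1) * (A / q + 1) ≤ N * (A / q + 1) :=
        Nat.mul_le_mul_right _ hN
      refine lt_of_lt_of_le ?_ h4
      have h5 : ℓ ^ a * A ≤ ℓ ^ a * (q * (A / q + 1)) := Nat.mul_le_mul_left _ h2.le
      calc ℓ ^ (a + b) = ℓ ^ a * A + ℓ ^ a * (r * B) := by rw [pow_add, ← hAeq]; ring
        _ ≤ ℓ ^ a * (q * (A / q + 1)) + A / q := Nat.add_le_add h5 h3
        _ < ℓ ^ a * (q * (A / q + 1)) + (A / q + 1) := by omega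
        _ = (q * ℓ ^ a + 1) * (A / q + 1) := by ring

theorem approx_zeros {p ℓ : ℕ} [Fact p.Prime] (hℓ : ℓ.Prime) (hne : ℓ ≠ p) {κ : Type} [Field κ]
    [CharP κ p] (hκ : IsKap p ℓ κ) (σ : Type) [Fintype σ] (r d : ℕ) (hd : 0 < d)
    (f : Fin r → MvPolynomial σ ℤ_[p]) (hf : ∀ j, (f j).IsHomogeneous d)
    (hcard : r * d * ℓ ^ padicValNat ℓ d < Fintype.card σ) (B : ℕ) :
    ∃ (s : ℕ) (E : Subfield κ), ¬ ℓ ∣ s ∧ Nat.card E = p ^ s ∧
      ∃ x : σ → WittVector p E, (∃ i, ¬ (p : WittVector p E) ∣ x i) ∧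
        ∀ j, (p : WittVector p E) ^ B ∣ MvPolynomial.eval₂ (zpToWitt p E) x (f j) := by
  classical
  obtain ⟨b, m, hb1, hb2⟩ := ApproxZeros.arith ℓ r d (padicValNat ℓ d) B (Fintype.card σ)
    hℓ.one_lt hd hcard
  set L := d * m + B with hL
  have hforms := fun (j : Fin r) (i : ℕ) =>
    exists_digit_forms p κ σ (f j) d (hf j) (m + 1) i
  choose F hF1 hF2 using hforms
  set e' : Fin (r * L) → Fin r × Fin L := fun q => finProdFinEquiv.symm q with he'
  obtain ⟨y, hy0, hy⟩ := system_zero hℓ hne hκ (Fin (m + 1) × σ) (r * L) b d hd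
    (fun q => F (e' q).1 (e' q).2) (fun q => (e' q).2)
    (fun q => hF1 _ _) hb1 (by
      rw [Fintype.card_prod, Fintype.card_fin, mul_comm (m + 1)]
      exact hb2)
  obtain ⟨s, E, hs, hSE, hE⟩ := IsKap.exists_subfield hℓ hκ (Set.range y) (Set.finite_range y)
  have hp : p.Prime := Fact.out
  have hfinE : Finite E := Nat.finite_of_card_ne_zero (by rw [hE]; exact pow_ne_zero _ hp.ne_zero)
  set y' : Fin (m + 1) × σ → E := fun q => ⟨y q, hSE ⟨q, rfl⟩⟩ with hy'
  have hyy' : (fun q => E.subtype (y' q)) = y := rfl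
  -- first `L` coefficients vanish
  have hcoeff : ∀ (j : Fin r) (i : ℕ), i < L →
      (MvPolynomial.eval₂ (zpToWitt p E) (digitPoint p (m + 1) y') (f j)).coeff i = 0 := by
    intro j i hi
    have h1 : MvPolynomial.eval y (F j i) = 0 := by
      have h0 := hy (finProdFinEquiv (j, ⟨i, hi⟩))
      simp only [he', Equiv.symm_apply_apply] at h0
      exact h0
    rw [← hF2 j i y, ← hyy', ← map_eval_digitPoint p E.subtype (m + 1) y' (f j),
      WittVector.map_coeff] at h1
    exact (map_eq_zero_iff E.subtype E.subtype.injective).mp h1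
  have hdvd : ∀ j : Fin r, (p : WittVector p E) ^ L ∣
      MvPolynomial.eval₂ (zpToWitt p E) (digitPoint p (m + 1) y') (f j) := by
    intro j
    rw [← Ideal.mem_span_singleton, WittVector.mem_span_p_pow_iff_le_coeff_eq_zero]
    exact fun i hi => hcoeff j i hi
  -- the first nonzero digit
  have hex : ∃ n : ℕ, ∃ (h : n < m + 1) (i : σ), y' (⟨n, h⟩, i) ≠ 0 := by
    by_contra hcon
    push Not at hcon
    apply hy0
    funext q
    have h1 := hcon q.1.1 q.1.2 q.2
    have h2 := congrArg E.subtype h1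
    simpa [hy'] using h2
  set j₀ := Nat.find hex with hj₀
  obtain ⟨hj₀m, i₀, hi₀⟩ := Nat.find_spec hex
  have hmin : ∀ (j : Fin (m + 1)), (j : ℕ) < j₀ → ∀ i, y' (j, i) = 0 := by
    intro j hj i
    by_contra hcon
    exact Nat.find_min hex hj ⟨j.2, i, hcon⟩
  set x : σ → WittVector p E := fun i => ∑ j : Fin (m + 1),
    (if j₀ ≤ (j : ℕ) then (p : WittVector p E) ^ ((j : ℕ) - j₀) *
      WittVector.teichmuller p (y' (j, i)) else 0) with hx
  have hXx : digitPoint p (m + 1) y' = fun i => (p : WittVector p E) ^ j₀ * x i := by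
    funext i
    rw [digitPoint, hx, Finset.mul_sum]
    refine Finset.sum_congr rfl (fun j _ => ?_)
    split_ifs with h
    · rw [← mul_assoc, ← pow_add, Nat.add_sub_cancel' h]
    · rw [hmin j (by omega) i, WittVector.teichmuller_zero, mul_zero, mul_zero]
  have hp0 : (p : WittVector p E) ≠ 0 := by
    intro h0
    have := WittVector.eq_zero_of_p_mul_eq_zero (p := p) (k := E) 1 (by rw [h0, mul_zero])
    exact one_ne_zero this
  refine ⟨s, E, hs, hE, x, ⟨i₀, ?_⟩, ?_⟩
  · rintro ⟨u, hu⟩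
    have h1 := congrArg (WittVector.constantCoeff (p := p) (R := E)) hu
    rw [map_mul, map_natCast, CharP.cast_eq_zero, zero_mul, hx, map_sum] at h1
    rw [Finset.sum_eq_single (⟨j₀, hj₀m⟩ : Fin (m + 1))] at h1
    · have h2 : y' (⟨j₀, hj₀m⟩, i₀) = 0 := by
        simpa [WittVector.teichmuller_coeff_zero] using h1
      exact hi₀ h2
    · intro j _ hj
      split_ifs with h
      · have hlt : (j : ℕ) - j₀ ≠ 0 := by
          intro h0
          apply hj
          apply Fin.ext
          simp only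
          omega
        rw [map_mul, map_pow, map_natCast, CharP.cast_eq_zero, zero_pow hlt, zero_mul]
      · exact map_zero _
    · intro h
      exact absurd (Finset.mem_univ _) h
  · intro j
    have h1 := hdvd j
    rw [hXx, eval₂_smul_of_isHomogeneous _ _ _ (f j) d (hf j)] at h1
    have h2 : (p : WittVector p E) ^ (j₀ * d) * (p : WittVector p E) ^ B ∣
        (p : WittVector p E) ^ (j₀ * d) * MvPolynomial.eval₂ (zpToWitt p E) x (f j) := by
      rw [← pow_add, pow_mul]
      refine dvd_trans (pow_dvd_pow _ ?_) h1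
      rw [hL]
      have : j₀ * d ≤ d * m := by
        rw [mul_comm]
        exact Nat.mul_le_mul_left _ (by omega)
      omega
    exact (mul_dvd_mul_iff_left (pow_ne_zero _ hp0)).mp h2

end Pool.Agent.W_MP_b723a0_ag
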