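import Mathlib
import Pool.Agent.W_MP_b723a0_ag.Defs

open scoped TensorProduct

namespace Pool.Agent.W_MP_b723a0_ag

/-- In a ring with uniformizer `p`, an element not divisible by `p ^ (C + 1)` divides `p ^ C`. -/
theorem PVal.dvd_pow {p : ℕ} {R : Type*} [CommRing R] (h : PVal p R) (C : ℕ) (a : R)
    (ha : ¬ (p : R) ^ (C + 1) ∣ a) : a ∣ (p : R) ^ C := by
  induction C generalizing a with
  | zero =>
    have : IsUnit a := h.unit a (by simpa using ha)
    exact this.dvd
  | succ C ih =>
    by_cases hd : (p : R) ∣ a
    · obtain ⟨b, rfl⟩ := hd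
      have hb : ¬ (p : R) ^ (C + 1) ∣ b := by
        intro hb
        apply ha
        rw [pow_succ' (p : R) (C + 1)]
        exact mul_dvd_mul_left _ hb
      rw [pow_succ']
      exact mul_dvd_mul_left _ (ih b hb)
    · exact (h.unit a hd).dvd

/-- The lifting property of a prime ideal, in terms of ring homomorphisms. -/
def LiftProp (p : ℕ) {Z S : Type} [CommRing Z] [CommRing S] (ι : Z →+* S) (P : Ideal S) : Prop :=
  ∃ D : S, D ∉ P ∧ ∀ C : ℕ, ∃ B : ℕ, ∀ (R : Type) [CommRing R] [IsDomain R], PVal p R →
    ∀ ψ : S →+* R, (∀ g ∈ P, (p : R) ^ B ∣ ψ g) → ¬ (p : R) ^ (C + 1) ∣ ψ D →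
      ∃ ψ' : S →+* R, ψ'.comp ι = ψ.comp ι ∧ (∀ g ∈ P, ψ' g = 0) ∧
        ∀ s, (p : R) ^ (C + 1) ∣ ψ' s - ψ s

theorem eval₂_congr_dvd {S R : Type} [CommRing S] [CommRing R] (ψ ψ' : S →+* R) (c x : R)
    (h : ∀ s, c ∣ ψ' s - ψ s) (g : Polynomial S) :
    c ∣ Polynomial.eval₂ ψ' x g - Polynomial.eval₂ ψ x g := by
  induction g using Polynomial.induction_on' with
  | add f g hf hg =>
    rw [Polynomial.eval₂_add, Polynomial.eval₂_add]
    have : Polynomial.eval₂ ψ' x f + Polynomial.eval₂ ψ' x g -
        (Polynomial.eval₂ ψ x f + Polynomial.eval₂ ψ x g) =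
        (Polynomial.eval₂ ψ' x f - Polynomial.eval₂ ψ x f) +
        (Polynomial.eval₂ ψ' x g - Polynomial.eval₂ ψ x g) := by ring
    rw [this]
    exact dvd_add hf hg
  | monomial n a =>
    rw [Polynomial.eval₂_monomial, Polynomial.eval₂_monomial, ← sub_mul]
    exact (h a).mul_right _

theorem eval₂_point_dvd {S R : Type} [CommRing S] [CommRing R] (ψ : S →+* R) (x y : R)
    (g : Polynomial S) : y - x ∣ Polynomial.eval₂ ψ y g - Polynomial.eval₂ ψ x g := by
  have := Polynomial.sub_dvd_eval_sub y x (g.map ψ)
  rwa [Polynomial.eval_map, Polynomial.eval_map] at this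

theorem hom_eq_eval₂ {S R : Type} [CommRing S] [CommRing R] (Ψ : Polynomial S →+* R)
    (g : Polynomial S) :
    Polynomial.eval₂ (Ψ.comp Polynomial.C) (Ψ Polynomial.X) g = Ψ g := by
  have : Polynomial.eval₂RingHom (Ψ.comp Polynomial.C) (Ψ Polynomial.X) = Ψ := by
    ext a
    · simp
    · simp
  rw [← Polynomial.coe_eval₂RingHom, this]

theorem eval₂_eq_zero_of_coeff {S R : Type} [CommRing S] [CommRing R] (ψ : S →+* R) (x : R)
    (P : Ideal S) (hψ : ∀ s ∈ P, ψ s = 0) (g : Polynomial S) (hg : ∀ i, g.coeff i ∈ P) :
    Polynomial.eval₂ ψ x g = 0 := by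
  rw [Polynomial.eval₂_eq_sum]
  apply Finset.sum_eq_zero
  intro i _
  change ψ (g.coeff i) * x ^ i = 0
  rw [hψ _ (hg i), zero_mul]

theorem mem_of_coeff_mem {S : Type} [CommRing S] (Q : Ideal (Polynomial S)) (g : Polynomial S)
    (hg : ∀ i, g.coeff i ∈ Q.comap Polynomial.C) : g ∈ Q := by
  have h1 : g ∈ (Q.comap Polynomial.C).map Polynomial.C := by
    rw [Ideal.mem_map_C_iff]
    exact hg
  exact Ideal.map_comap_le h1

theorem liftProp_step (p : ℕ) {Z S : Type} [CommRing Z] [CommRing S] (ι : Z →+* S)
    (Q : Ideal (Polynomial S)) (hQ : Q.IsPrime)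
    (hnat : ∀ n : ℕ, n ≠ 0 → (n : Polynomial S) ∉ Q)
    (IH : LiftProp p ι (Q.comap Polynomial.C)) : LiftProp p (Polynomial.C.comp ι) Q := by
  classical
  obtain ⟨D', hD', IH⟩ := IH
  set P' : Ideal S := Q.comap Polynomial.C with hP'
  have hP'prime : P'.IsPrime := Ideal.comap_isPrime _ _
  by_cases hcase : ∀ g ∈ Q, ∀ i, g.coeff i ∈ P'
  · refine ⟨Polynomial.C D', fun h => hD' h, fun C => ?_⟩
    obtain ⟨B, hB⟩ := IH C
    refine ⟨B, ?_⟩
    intro R _ _ hR Ψ hΨ hΨD
    obtain ⟨ψ', h1, h2, h3⟩ := hB R hR (Ψ.comp Polynomial.C) (fun g hg => hΨ _ hg) hΨD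
    refine ⟨Polynomial.eval₂RingHom ψ' (Ψ Polynomial.X), ?_, ?_, ?_⟩
    · ext z
      have := congrArg (fun f : Z →+* R => f z) h1
      simpa using this
    · intro g hg
      exact eval₂_eq_zero_of_coeff ψ' _ P' h2 g (hcase g hg)
    · intro s
      have := eval₂_congr_dvd (Ψ.comp Polynomial.C) ψ' _ (Ψ Polynomial.X) h3 s
      rw [hom_eq_eval₂] at this
      exact this
  · push Not at hcase
    -- minimal degree
    have hex : ∃ n : ℕ, ∃ f ∈ Q, f.natDegree = n ∧ f.coeff n ∉ P' := by
      obtain ⟨g, hg, i, hi⟩ := hcase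
      -- the largest index with coefficient outside `P'`
      have hne : (g.support.filter fun j => g.coeff j ∉ P').Nonempty := by
        refine ⟨i, ?_⟩
        rw [Finset.mem_filter, Polynomial.mem_support_iff]
        refine ⟨fun h0 => hi ?_, hi⟩
        rw [h0]
        exact P'.zero_mem
      set n := (g.support.filter fun j => g.coeff j ∉ P').max' hne with hn
      have hnmem := Finset.max'_mem _ hne
      rw [← hn, Finset.mem_filter] at hnmem
      refine ⟨n, ∑ j ∈ Finset.range (n + 1), Polynomial.monomial j (g.coeff j), ?_, ?_, ?_⟩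
      · have hsub : g - ∑ j ∈ Finset.range (n + 1), Polynomial.monomial j (g.coeff j) ∈ Q := by
          apply mem_of_coeff_mem
          intro k
          rw [Polynomial.coeff_sub, Polynomial.finsetSum_coeff]
          by_cases hk : k < n + 1
          · rw [Finset.sum_eq_single k]
            · rw [Polynomial.coeff_monomial, if_pos rfl, sub_self]
              exact Ideal.zero_mem _
            · intro b _ hb
              rw [Polynomial.coeff_monomial, if_neg hb]
            · intro h
              exact absurd (Finset.mem_range.2 hk) h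
          · rw [Finset.sum_eq_zero, sub_zero]
            · by_contra hcon
              have hkm : k ∈ g.support.filter fun j => g.coeff j ∉ P' := by
                rw [Finset.mem_filter, Polynomial.mem_support_iff]
                refine ⟨fun h0 => hcon ?_, hcon⟩
                rw [h0]
                exact Ideal.zero_mem _
              have := Finset.le_max' _ k hkm
              rw [← hn] at this
              omega
            · intro b hb
              rw [Finset.mem_range] at hb
              rw [Polynomial.coeff_monomial, if_neg (by omega)]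
        have := Q.sub_mem hg hsub
        rwa [sub_sub_cancel] at this
      · apply le_antisymm
        · apply Polynomial.natDegree_sum_le_of_forall_le
          intro j hj
          rw [Finset.mem_range] at hj
          exact (Polynomial.natDegree_monomial_le _).trans (by omega)
        · apply Polynomial.le_natDegree_of_ne_zero
          rw [Polynomial.finsetSum_coeff, Finset.sum_eq_single n]
          · rw [Polynomial.coeff_monomial, if_pos rfl]
            exact Polynomial.mem_support_iff.1 hnmem.1
          · intro b _ hb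
            rw [Polynomial.coeff_monomial, if_neg hb]
          · intro h
            exact absurd (Finset.mem_range.2 (Nat.lt_succ_self n)) h
      · rw [Polynomial.finsetSum_coeff, Finset.sum_eq_single n]
        · rw [Polynomial.coeff_monomial, if_pos rfl]
          exact hnmem.2
        · intro b _ hb
          rw [Polynomial.coeff_monomial, if_neg hb]
        · intro h
          exact absurd (Finset.mem_range.2 (Nat.lt_succ_self n)) h
    set n := Nat.find hex with hn
    obtain ⟨f, hfQ, hfn, hfh⟩ := Nat.find_spec hex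
    rw [← hn] at hfn hfh
    set h : S := f.coeff n with hh
    -- elements of small degree have all coefficients in `P'`
    have hsmall : ∀ g ∈ Q, (∀ i, n ≤ i → g.coeff i = 0) → ∀ i, g.coeff i ∈ P' := by
      -- by induction on the bound
      have key : ∀ m : ℕ, m ≤ n → ∀ g ∈ Q, (∀ i, m ≤ i → g.coeff i = 0) →
          ∀ i, g.coeff i ∈ P' := by
        intro m
        induction m with
        | zero =>
          intro _ g _ hz i
          rw [hz i (Nat.zero_le i)]
          exact Ideal.zero_mem _
        | succ m ihm =>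
          intro hm g hg hz i
          have hcm : g.coeff m ∈ P' := by
            by_contra hcon
            have hdeg : g.natDegree = m := by
              apply le_antisymm
              · rw [Polynomial.natDegree_le_iff_coeff_eq_zero]
                intro N hN
                exact hz N hN
              · apply Polynomial.le_natDegree_of_ne_zero
                intro h0
                rw [h0] at hcon
                exact hcon (Ideal.zero_mem _)
            have := Nat.find_min' hex ⟨g, hg, hdeg, hcon⟩
            omega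
          have hg2 : g - Polynomial.monomial m (g.coeff m) ∈ Q := by
            refine Q.sub_mem hg (mem_of_coeff_mem Q _ ?_)
            intro k
            rw [Polynomial.coeff_monomial]
            split_ifs
            · exact hcm
            · exact Ideal.zero_mem _
          by_cases him : i = m
          · rw [him]
            exact hcm
          · have := ihm (by omega) _ hg2 (by
              intro k hk
              rw [Polynomial.coeff_sub, Polynomial.coeff_monomial]
              by_cases hkm : m = k
              · rw [if_pos hkm, hkm, sub_self]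
              · rw [if_neg hkm, sub_zero]
                exact hz k (by omega)) i
            rw [Polynomial.coeff_sub, Polynomial.coeff_monomial, if_neg (Ne.symm him),
              sub_zero] at this
            exact this
      exact fun g hg hz => key n le_rfl g hg hz
    have hnpos : 0 < n := by
      rcases Nat.eq_zero_or_pos n with h0 | h0
      · exfalso
        apply hfh
        have : f = Polynomial.C h := by
          rw [hh, h0]
          exact Polynomial.eq_C_of_natDegree_eq_zero (hfn.trans h0)
        change Polynomial.C h ∈ Q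
        rw [← this]
        exact hfQ
      · exact h0
    have hΔ : Polynomial.derivative f ∉ Q := by
      intro hmem
      have h1 := hsmall _ hmem (by
        intro i hi
        rw [Polynomial.coeff_derivative]
        rw [Polynomial.coeff_eq_zero_of_natDegree_lt (by omega), zero_mul]) (n - 1)
      rw [Polynomial.coeff_derivative, Nat.sub_add_cancel hnpos] at h1
      rcases hP'prime.mem_or_mem h1 with h2 | h2
      · exact hfh h2
      · have h3 : ((n : ℕ) : S) ∈ P' := by
          have : ((n - 1 : ℕ) : S) + 1 = ((n : ℕ) : S) := by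
            have h4 := congrArg (fun t : ℕ => (t : S)) (Nat.sub_add_cancel hnpos)
            simpa using h4
          rw [this] at h2
          exact h2
        apply hnat n (by omega)
        have h4 : Polynomial.C ((n : ℕ) : S) ∈ Q := h3
        simpa using h4
    refine ⟨Polynomial.C D' * Polynomial.derivative f * Polynomial.C h, ?_, ?_⟩
    · intro hmem
      rcases hQ.mem_or_mem hmem with h1 | h1
      · rcases hQ.mem_or_mem h1 with h2 | h2
        · exact hD' h2
        · exact hΔ h2
      · exact hfh h1
    intro C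
    obtain ⟨B', hB'⟩ := IH (2 * C)
    refine ⟨max B' (2 * C + 1), ?_⟩
    intro R _ _ hR Ψ hΨ hΨD
    have hD1 : ¬ (p : R) ^ (C + 1) ∣ Ψ (Polynomial.C D') := by
      intro hd
      apply hΨD
      rw [map_mul, map_mul]
      exact (hd.mul_right _).mul_right _
    have hD2 : ¬ (p : R) ^ (C + 1) ∣ Ψ (Polynomial.derivative f) := by
      intro hd
      apply hΨD
      rw [map_mul, map_mul]
      exact (hd.mul_left _).mul_right _
    have hD3 : ¬ (p : R) ^ (C + 1) ∣ Ψ (Polynomial.C h) := by
      intro hd
      apply hΨD
      rw [map_mul, map_mul]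
      exact hd.mul_left _
    obtain ⟨ψ', h1, h2, h3⟩ := hB' R hR (Ψ.comp Polynomial.C)
      (fun g hg => (pow_dvd_pow _ (le_max_left _ _)).trans (hΨ _ hg))
      (fun hd => hD1 ((pow_dvd_pow _ (by omega)).trans hd))
    set x0 : R := Ψ Polynomial.X with hx0
    -- evaluation of a polynomial at `(ψ', x0)` is close to `Ψ`
    have hclose : ∀ g : Polynomial S,
        (p : R) ^ (2 * C + 1) ∣ Polynomial.eval₂ ψ' x0 g - Ψ g := by
      intro g
      have := eval₂_congr_dvd (Ψ.comp Polynomial.C) ψ' _ x0 h3 g
      rw [hx0, hom_eq_eval₂] at this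
      exact this
    have hlow : (p : R) ^ (C + 1) ∣ (p : R) ^ (2 * C + 1) := pow_dvd_pow _ (by omega)
    have hFd : (p : R) ^ (2 * C + 1 + 0) ∣ (f.map ψ').eval x0 := by
      rw [Polynomial.eval_map, add_zero]
      have h4 := hclose f
      have h5 : (p : R) ^ (2 * C + 1) ∣ Ψ f :=
        (pow_dvd_pow _ (le_max_right _ _)).trans (hΨ f hfQ)
      have := dvd_add h4 h5
      rwa [sub_add_cancel] at this
    have hFder : (f.map ψ').derivative.eval x0 ∣ (p : R) ^ C := by
      apply hR.dvd_pow
      intro hd
      apply hD2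
      rw [Polynomial.derivative_map, Polynomial.eval_map] at hd
      have h4 := hlow.trans (hclose (Polynomial.derivative f))
      have := dvd_sub hd h4
      rwa [sub_sub_cancel] at this
    obtain ⟨y0, hy0, hyx⟩ := hR.hensel (f.map ψ') x0 C 0 hFder hFd
    rw [add_zero] at hyx
    rw [Polynomial.eval_map] at hy0
    have hh0 : ψ' h ≠ 0 := by
      intro h0
      apply hD3
      have h4 : (p : R) ^ (C + 1) ∣ ψ' h - Ψ (Polynomial.C h) := hlow.trans (h3 h)
      rw [h0, zero_sub] at h4
      exact (dvd_neg.1 h4)
    refine ⟨Polynomial.eval₂RingHom ψ' y0, ?_, ?_, ?_⟩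
    · ext z
      have := congrArg (fun f : Z →+* R => f z) h1
      simpa using this
    · -- vanishing on `Q`
      have key : ∀ m : ℕ, ∀ g ∈ Q, (∀ i, m ≤ i → g.coeff i = 0) →
          Polynomial.eval₂ ψ' y0 g = 0 := by
        intro m
        induction m with
        | zero =>
          intro g _ hz
          have : g = 0 := by
            ext i
            rw [hz i (Nat.zero_le i), Polynomial.coeff_zero]
          rw [this, Polynomial.eval₂_zero]
        | succ m ihm =>
          intro g hg hz
          by_cases hmn : m < n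
          · exact eval₂_eq_zero_of_coeff ψ' y0 P' h2 g
              (hsmall g hg (fun i hi => hz i (by omega)))
          · have hmem : Polynomial.C h * g -
                Polynomial.X ^ (m - n) * (Polynomial.C (g.coeff m) * f) ∈ Q :=
              Q.sub_mem (Q.mul_mem_left _ hg) (Q.mul_mem_left _ (Q.mul_mem_left _ hfQ))
            have h4 := ihm _ hmem (by
              intro i hi
              rw [Polynomial.coeff_sub, Polynomial.coeff_C_mul, Polynomial.coeff_X_pow_mul',
                if_pos (by omega), Polynomial.coeff_C_mul]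
              rcases Nat.eq_or_lt_of_le hi with h5 | h5
              · subst h5
                have : m - (m - n) = n := by omega
                rw [this, ← hh]
                ring
              · rw [hz i (by omega), Polynomial.coeff_eq_zero_of_natDegree_lt (p := f) (by omega)]
                ring)
            rw [Polynomial.eval₂_sub, Polynomial.eval₂_mul, Polynomial.eval₂_mul,
              Polynomial.eval₂_mul, hy0, mul_zero, mul_zero, sub_zero, Polynomial.eval₂_C] at h4
            exact (mul_eq_zero.1 h4).resolve_left hh0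
      intro g hg
      exact key (g.natDegree + 1) g hg
        (fun i hi => Polynomial.coeff_eq_zero_of_natDegree_lt (by omega))
    · intro s
      have h4 := hlow.trans (hclose s)
      have h5 := hyx.trans (eval₂_point_dvd ψ' x0 y0 s)
      have := dvd_add h5 h4
      rw [sub_add_sub_cancel] at this
      exact this

theorem liftProp_equiv (p : ℕ) {Z S T : Type} [CommRing Z] [CommRing S] [CommRing T]
    (e : S ≃+* T) (ι : Z →+* S) (P : Ideal S)
    (h : LiftProp p (e.toRingHom.comp ι) (P.comap e.symm.toRingHom)) : LiftProp p ι P := by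
  obtain ⟨D, hD, h⟩ := h
  refine ⟨e.symm D, fun h' => hD h', fun C => ?_⟩
  obtain ⟨B, hB⟩ := h C
  refine ⟨B, ?_⟩
  intro R _ _ hR ψ hψ hψD
  obtain ⟨ψ', h1, h2, h3⟩ := hB R hR (ψ.comp e.symm.toRingHom) (fun g hg => hψ _ hg) hψD
  refine ⟨ψ'.comp e.toRingHom, ?_, ?_, ?_⟩
  · ext z
    have := congrArg (fun f : Z →+* R => f z) h1
    simpa using this
  · intro g hg
    apply h2
    change e.symm (e g) ∈ P
    rw [RingEquiv.symm_apply_apply]
    exact hg
  · intro s
    have := h3 (e s)
    simpa using this

theorem natCast_notMem (p : ℕ) [Fact p.Prime] (N : ℕ) (P : Ideal (MvPolynomial (Fin N) ℤ_[p]))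
    (hP : P.IsPrime) (hp : (p : MvPolynomial (Fin N) ℤ_[p]) ∉ P) (a : ℤ_[p]) (ha : a ≠ 0) :
    MvPolynomial.C a ∉ P := by
  intro hmem
  rw [PadicInt.unitCoeff_spec ha, map_mul, map_pow] at hmem
  rcases hP.mem_or_mem hmem with h1 | h1
  · apply hP.ne_top
    apply Ideal.eq_top_of_isUnit_mem _ h1
    exact (PadicInt.unitCoeff ha).isUnit.map MvPolynomial.C
  · have h2 := hP.mem_of_pow_mem _ h1
    apply hp
    simpa using h2

theorem liftProp_all (p : ℕ) [Fact p.Prime] (N : ℕ) (P : Ideal (MvPolynomial (Fin N) ℤ_[p]))
    (hP : P.IsPrime) (hp : (p : MvPolynomial (Fin N) ℤ_[p]) ∉ P) :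
    LiftProp p (MvPolynomial.C : ℤ_[p] →+* MvPolynomial (Fin N) ℤ_[p]) P := by
  induction N with
  | zero =>
    refine ⟨1, fun h => hP.ne_top ((Ideal.eq_top_iff_one P).2 h), fun C => ⟨0, ?_⟩⟩
    intro R _ _ hR ψ _ _
    refine ⟨ψ, rfl, ?_, fun s => by simp⟩
    intro g hg
    have hgC := MvPolynomial.eq_C_of_isEmpty g
    have h0 : MvPolynomial.coeff 0 g = 0 := by
      by_contra hne
      apply natCast_notMem p 0 P hP hp _ hne
      rw [← hgC]
      exact hg
    rw [hgC, h0, map_zero, map_zero]
  | succ N ih =>
    set e := (MvPolynomial.finSuccEquiv ℤ_[p] N).toRingEquiv with he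
    apply liftProp_equiv p e
    have hcomp : e.toRingHom.comp (MvPolynomial.C : ℤ_[p] →+* MvPolynomial (Fin (N + 1)) ℤ_[p]) =
        Polynomial.C.comp (MvPolynomial.C : ℤ_[p] →+* MvPolynomial (Fin N) ℤ_[p]) := by
      refine RingHom.ext fun z => ?_
      exact (MvPolynomial.finSuccEquiv ℤ_[p] N).commutes z
    rw [hcomp]
    have hQ : (P.comap e.symm.toRingHom).IsPrime := Ideal.comap_isPrime _ _
    have hnat : ∀ n : ℕ, n ≠ 0 →
        (n : Polynomial (MvPolynomial (Fin N) ℤ_[p])) ∉ P.comap e.symm.toRingHom := by
      intro n hn hmem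
      rw [Ideal.mem_comap, map_natCast] at hmem
      apply natCast_notMem p (N + 1) P hP hp (n : ℤ_[p]) (by exact_mod_cast hn)
      simpa using hmem
    apply liftProp_step p _ _ hQ hnat
    apply ih
    · exact Ideal.comap_isPrime _ _
    · intro hmem
      apply hnat p (Fact.out : p.Prime).ne_zero
      rw [Ideal.mem_comap, map_natCast] at hmem
      exact hmem

theorem prime_lift (p : ℕ) [Fact p.Prime] (N : ℕ) (P : Ideal (MvPolynomial (Fin N) ℤ_[p]))
    (hP : P.IsPrime) (hp : (p : MvPolynomial (Fin N) ℤ_[p]) ∉ P) :
    ∃ D : MvPolynomial (Fin N) ℤ_[p], D ∉ P ∧ ∀ C : ℕ, ∃ B : ℕ,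
      ∀ (R : Type) [CommRing R] [IsDomain R] (φ : ℤ_[p] →+* R), PVal p R →
      ∀ x : Fin N → R, (∀ g ∈ P, (p : R) ^ B ∣ MvPolynomial.eval₂ φ x g) →
        ¬ (p : R) ^ (C + 1) ∣ MvPolynomial.eval₂ φ x D →
        ∃ y : Fin N → R, (∀ g ∈ P, MvPolynomial.eval₂ φ y g = 0) ∧
          ∀ i, (p : R) ^ (C + 1) ∣ y i - x i := by
  obtain ⟨D, hD, h⟩ := liftProp_all p N P hP hp
  refine ⟨D, hD, fun C => ?_⟩
  obtain ⟨B, hB⟩ := h C
  refine ⟨B, ?_⟩
  intro R _ _ φ hR x hx hxD
  obtain ⟨ψ', h1, h2, h3⟩ := hB R hR (MvPolynomial.eval₂Hom φ x) hx hxD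
  have hψ' : ψ' = MvPolynomial.eval₂Hom φ (fun i => ψ' (MvPolynomial.X i)) := by
    apply MvPolynomial.ringHom_ext
    · intro r
      have := congrArg (fun f : ℤ_[p] →+* R => f r) h1
      simpa using this
    · intro i
      simp
  refine ⟨fun i => ψ' (MvPolynomial.X i), ?_, ?_⟩
  · intro g hg
    have := h2 g hg
    rw [hψ'] at this
    exact this
  · intro i
    have := h3 (MvPolynomial.X i)
    simpa using this

end Pool.Agent.W_MP_b723a0_ag
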