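import Mathlib
import Pool.Agent.W_MP_b723a0_ag.Defs
import Pool.Agent.W_MP_b723a0_ag.PrimeLift

open scoped TensorProduct

namespace Pool.Agent.W_MP_b723a0_ag

theorem dvd_eval₂_sup_span {p : ℕ} [Fact p.Prime] {N : ℕ} {R : Type} [CommRing R]
    (φ : ℤ_[p] →+* R) (x : Fin N → R) (I : Ideal (MvPolynomial (Fin N) ℤ_[p]))
    (a : MvPolynomial (Fin N) ℤ_[p]) (c : R)
    (hI : ∀ g ∈ I, c ∣ MvPolynomial.eval₂ φ x g) (ha : c ∣ MvPolynomial.eval₂ φ x a) :
    ∀ g ∈ I ⊔ Ideal.span {a}, c ∣ MvPolynomial.eval₂ φ x g := by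
  intro g hg
  rw [Submodule.mem_sup] at hg
  obtain ⟨u, hu, v, hv, rfl⟩ := hg
  rw [Ideal.mem_span_singleton] at hv
  obtain ⟨w, rfl⟩ := hv
  rw [MvPolynomial.eval₂_add, MvPolynomial.eval₂_mul]
  exact dvd_add (hI u hu) (Dvd.dvd.mul_right ha _)

theorem greenberg (p : ℕ) [Fact p.Prime] (N : ℕ) {ι : Type} (R : ι → Type)
    [∀ i, CommRing (R i)] [∀ i, IsDomain (R i)] (φ : ∀ i, ℤ_[p] →+* R i)
    (hR : ∀ i, PVal p (R i)) (I : Ideal (MvPolynomial (Fin N) ℤ_[p]))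
    (h : ∀ B : ℕ, ∃ i, ∃ x : Fin N → R i,
      ∀ g ∈ I, (p : R i) ^ B ∣ MvPolynomial.eval₂ (φ i) x g) :
    ∃ i, ∃ x : Fin N → R i, ∀ g ∈ I, MvPolynomial.eval₂ (φ i) x g = 0 := by
  revert h
  refine WellFounded.induction (C := fun I : Ideal (MvPolynomial (Fin N) ℤ_[p]) =>
    (∀ B : ℕ, ∃ i, ∃ x : Fin N → R i, ∀ g ∈ I, (p : R i) ^ B ∣ MvPolynomial.eval₂ (φ i) x g) →
    ∃ i, ∃ x : Fin N → R i, ∀ g ∈ I, MvPolynomial.eval₂ (φ i) x g = 0)
    (wellFounded_gt : WellFounded fun (a b : Ideal (MvPolynomial (Fin N) ℤ_[p])) => a > b) I ?_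
  intro I ih h
  -- enlarge the ideal by one element
  have step : ∀ a : MvPolynomial (Fin N) ℤ_[p], a ∉ I →
      (∀ B : ℕ, ∃ i, ∃ x : Fin N → R i, ∀ g ∈ I ⊔ Ideal.span {a},
        (p : R i) ^ B ∣ MvPolynomial.eval₂ (φ i) x g) →
      ∃ i, ∃ x : Fin N → R i, ∀ g ∈ I, MvPolynomial.eval₂ (φ i) x g = 0 := by
    intro a ha hB
    have hlt : I ⊔ Ideal.span {a} > I := by
      refine lt_of_le_of_ne le_sup_left ?_
      intro he
      apply ha
      rw [he]
      exact Ideal.mem_sup_right (Ideal.mem_span_singleton_self a)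
    obtain ⟨i, x, hx⟩ := ih _ hlt hB
    exact ⟨i, x, fun g hg => hx g (Ideal.mem_sup_left hg)⟩
  by_cases htop : I = ⊤
  · exfalso
    obtain ⟨i, x, hx⟩ := h 1
    have := hx 1 (by rw [htop]; trivial)
    rw [MvPolynomial.eval₂_one, pow_one] at this
    exact (hR i).prime.not_isUnit (isUnit_of_dvd_one this)
  by_cases hP : I.IsPrime
  · have hp : (p : MvPolynomial (Fin N) ℤ_[p]) ∉ I := by
      intro hp
      obtain ⟨i, x, hx⟩ := h 2
      have h1 := hx _ hp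
      rw [show ((p : MvPolynomial (Fin N) ℤ_[p])) = MvPolynomial.C (p : ℤ_[p]) by simp,
        MvPolynomial.eval₂_C, map_natCast] at h1
      obtain ⟨c, hc⟩ := h1
      have hp0 : (p : R i) ≠ 0 := (hR i).prime.ne_zero
      have : (1 : R i) = p * c := by
        apply mul_left_cancel₀ hp0
        rw [mul_one]
        conv_lhs => rw [hc]
        ring
      exact (hR i).prime.not_isUnit (isUnit_of_dvd_one ⟨c, this⟩)
    obtain ⟨D, hD, hlift⟩ := prime_lift p N I hP hp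
    by_cases hA : ∀ B : ℕ, ∃ i, ∃ x : Fin N → R i, ∀ g ∈ I ⊔ Ideal.span {D},
        (p : R i) ^ B ∣ MvPolynomial.eval₂ (φ i) x g
    · exact step D hD hA
    · push Not at hA
      obtain ⟨C, hC⟩ := hA
      obtain ⟨B, hB⟩ := hlift C
      obtain ⟨i, x, hx⟩ := h (max B (C + 1))
      by_cases hd : (p : R i) ^ (C + 1) ∣ MvPolynomial.eval₂ (φ i) x D
      · exfalso
        obtain ⟨g, hg, hg'⟩ := hC i x
        apply hg'
        refine (pow_dvd_pow _ (Nat.le_succ C)).trans ?_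
        exact dvd_eval₂_sup_span (φ i) x I D _
          (fun g hg => (pow_dvd_pow _ (le_max_right _ _)).trans (hx g hg)) hd g hg
      · obtain ⟨y, hy, -⟩ := hB (R i) (φ i) (hR i) x
          (fun g hg => (pow_dvd_pow _ (le_max_left _ _)).trans (hx g hg)) hd
        exact ⟨i, y, hy⟩
  · -- not prime
    rw [Ideal.isPrime_iff] at hP
    push Not at hP
    obtain ⟨a, b, hab, ha, hb⟩ := hP htop
    by_cases hA : ∀ B : ℕ, ∃ i, ∃ x : Fin N → R i, ∀ g ∈ I ⊔ Ideal.span {a},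
        (p : R i) ^ B ∣ MvPolynomial.eval₂ (φ i) x g
    · exact step a ha hA
    by_cases hA' : ∀ B : ℕ, ∃ i, ∃ x : Fin N → R i, ∀ g ∈ I ⊔ Ideal.span {b},
        (p : R i) ^ B ∣ MvPolynomial.eval₂ (φ i) x g
    · exact step b hb hA'
    exfalso
    push Not at hA hA'
    obtain ⟨B1, hB1⟩ := hA
    obtain ⟨B2, hB2⟩ := hA'
    obtain ⟨i, x, hx⟩ := h (B1 + B2)
    have h1 := hx _ hab
    rw [MvPolynomial.eval₂_mul] at h1
    have key : (p : R i) ^ B1 ∣ MvPolynomial.eval₂ (φ i) x a ∨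
        (p : R i) ^ B2 ∣ MvPolynomial.eval₂ (φ i) x b := by
      by_contra hcon
      push Not at hcon
      obtain ⟨hc1, hc2⟩ := hcon
      have hfa : FiniteMultiplicity (p : R i) (MvPolynomial.eval₂ (φ i) x a) := by
        refine ⟨B1, fun hh => hc1 ((pow_dvd_pow _ (Nat.le_succ _)).trans hh)⟩
      have hfb : FiniteMultiplicity (p : R i) (MvPolynomial.eval₂ (φ i) x b) := by
        refine ⟨B2, fun hh => hc2 ((pow_dvd_pow _ (Nat.le_succ _)).trans hh)⟩
      have hm := multiplicity_mul (hR i).prime ((hR i).prime.finiteMultiplicity_mul hfa hfb)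
      have hab' := ((hR i).prime.finiteMultiplicity_mul hfa hfb).le_multiplicity_of_pow_dvd h1
      have h2 := hfa.multiplicity_lt_iff_not_dvd.2 hc1
      have h3 := hfb.multiplicity_lt_iff_not_dvd.2 hc2
      omega
    rcases key with hk | hk
    · obtain ⟨g, hg, hg'⟩ := hB1 i x
      exact hg' (dvd_eval₂_sup_span (φ i) x I a _
        (fun g hg => (pow_dvd_pow _ (Nat.le_add_right _ _)).trans (hx g hg)) hk g hg)
    · obtain ⟨g, hg, hg'⟩ := hB2 i x
      exact hg' (dvd_eval₂_sup_span (φ i) x I b _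
        (fun g hg => (pow_dvd_pow _ (Nat.le_add_left _ _)).trans (hx g hg)) hk g hg)

end Pool.Agent.W_MP_b723a0_ag
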