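import Mathlib
import Pool.Agent.W_MP_b723a0_ag.Defs

open scoped TensorProduct

namespace Pool.Agent.W_MP_b723a0_ag

theorem pow_fixed_mul {R : Type*} [CommRing R] (p s t : ℕ) (x : R) (h : x ^ p ^ s = x) :
    x ^ p ^ (s * t) = x := by
  induction t with
  | zero => simp
  | succ t ih => rw [mul_add, mul_one, pow_add, pow_mul, ih, h]

/-- The elements of a ring fixed by the `s`-th power of Frobenius for some `s` prime to `ℓ`. -/
def kapSubfield (p ℓ : ℕ) [Fact p.Prime] (hℓ : ℓ.Prime) (Ω : Type) [Field Ω] [CharP Ω p] :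
    Subfield Ω where
  carrier := {x | ∃ s : ℕ, ¬ ℓ ∣ s ∧ x ^ p ^ s = x}
  mul_mem' := by
    rintro a b ⟨s, hs, ha⟩ ⟨t, ht, hb⟩
    refine ⟨s * t, fun h => ((Nat.Prime.dvd_mul hℓ).mp h).elim hs ht, ?_⟩
    rw [mul_pow, pow_fixed_mul p s t a ha, mul_comm s t, pow_fixed_mul p t s b hb]
  one_mem' := ⟨1, fun h => hℓ.one_lt.ne' (Nat.dvd_one.mp h), one_pow _⟩
  add_mem' := by
    rintro a b ⟨s, hs, ha⟩ ⟨t, ht, hb⟩
    refine ⟨s * t, fun h => ((Nat.Prime.dvd_mul hℓ).mp h).elim hs ht, ?_⟩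
    rw [add_pow_char_pow, pow_fixed_mul p s t a ha, mul_comm s t, pow_fixed_mul p t s b hb]
  zero_mem' := ⟨1, fun h => hℓ.one_lt.ne' (Nat.dvd_one.mp h),
    zero_pow (pow_pos (Fact.out : p.Prime).pos 1).ne'⟩
  neg_mem' := by
    rintro a ⟨s, hs, ha⟩
    refine ⟨s, hs, ?_⟩
    have h := map_neg (iterateFrobenius Ω p s) a
    rw [iterateFrobenius_def, iterateFrobenius_def, ha] at h
    exact h
  inv_mem' := by
    rintro a ⟨s, hs, ha⟩
    exact ⟨s, hs, by rw [inv_pow, ha]⟩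

theorem exists_isKap (p ℓ : ℕ) [Fact p.Prime] (hℓ : ℓ.Prime) :
    ∃ (κ : Type) (_ : Field κ) (_ : CharP κ p), IsKap p ℓ κ := by
  let Ω := AlgebraicClosure (ZMod p)
  haveI : CharP Ω p := charP_of_injective_algebraMap (algebraMap (ZMod p) Ω).injective p
  refine ⟨kapSubfield p ℓ hℓ Ω, inferInstance, inferInstance, ?_, ?_⟩
  · rintro ⟨x, s, hs, hx⟩
    exact ⟨s, hs, Subtype.ext hx⟩
  · intro s hs
    refine Polynomial.Splits.of_splits_map (kapSubfield p ℓ hℓ Ω).subtype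
      (IsAlgClosed.splits _) ?_
    intro a ha
    have hroot := Polynomial.isRoot_of_mem_roots ha
    rw [Polynomial.IsRoot.def, Polynomial.map_sub, Polynomial.map_pow, Polynomial.map_X,
      Polynomial.eval_sub, Polynomial.eval_pow, Polynomial.eval_X, sub_eq_zero] at hroot
    exact ⟨⟨a, s, hs, hroot⟩, rfl⟩

end Pool.Agent.W_MP_b723a0_ag
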