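import Mathlib
import Pool.Agent.W_MP_b723a0_ag.Defs

open scoped TensorProduct

namespace Pool.Agent.W_MP_b723a0_ag

/-- Solving `y = -e - p * (c' * q(y)) * y ^ 2` by iteration in a `p`-adically complete ring. -/
theorem exists_fixed_of_complete {R : Type*} [CommRing R] (π : R)
    [IsAdicComplete (Ideal.span {π}) R] (F : Polynomial R) (e : R) :
    ∃ y : R, y = e + π * F.eval y := by
  have key : ∀ (x y : R) (n : ℕ), π ^ n ∣ x - y →
      π ^ (n + 1) ∣ (e + π * F.eval x) - (e + π * F.eval y) := by
    intro x y n h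
    have h1 : π ^ n ∣ F.eval x - F.eval y := h.trans (Polynomial.sub_dvd_eval_sub x y F)
    have h2 : (e + π * F.eval x) - (e + π * F.eval y) = π * (F.eval x - F.eval y) := by ring
    rw [h2, pow_succ']
    exact mul_dvd_mul_left π h1
  let s : ℕ → R := fun n => (fun y => e + π * F.eval y)^[n] 0
  have hs : ∀ n, s (n + 1) = e + π * F.eval (s n) := fun n =>
    Function.iterate_succ_apply' _ _ _
  have hstep : ∀ n, π ^ n ∣ s (n + 1) - s n := by
    intro n
    induction n with
    | zero => simp
    | succ n ih =>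
      rw [hs (n + 1), hs n]
      have := key (s (n + 1)) (s n) n ih
      rwa [hs n] at this
  have hstep' : ∀ m n, m ≤ n → π ^ m ∣ s m - s n := by
    intro m n hmn
    induction n, hmn using Nat.le_induction with
    | base => simp
    | succ n hmn ih =>
      have h1 : s m - s (n + 1) = (s m - s n) - (s (n + 1) - s n) := by ring
      rw [h1]
      exact dvd_sub ih ((pow_dvd_pow π hmn).trans (hstep n))
  have conv : ∀ (n : ℕ) (x y : R), x ≡ y [SMOD (Ideal.span {π}) ^ n • (⊤ : Submodule R R)] ↔
      π ^ n ∣ x - y := by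
    intro n x y
    rw [SModEq.sub_mem, smul_eq_mul, Ideal.mul_top, Ideal.span_singleton_pow,
      Ideal.mem_span_singleton]
  obtain ⟨L, hL⟩ := IsPrecomplete.prec (I := Ideal.span {π}) (M := R) inferInstance
    (f := s) (fun {m n} hmn => (conv m _ _).2 (hstep' m n hmn))
  refine ⟨L, ?_⟩
  have h3 : ∀ n, π ^ n ∣ L - (e + π * F.eval L) := by
    intro n
    have h4 : π ^ n ∣ s n - L := (conv n _ _).1 (hL n)
    have h5 : π ^ (n + 1) ∣ s (n + 1) - L := (conv (n + 1) _ _).1 (hL (n + 1))
    have h6 := key (s n) L n h4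
    rw [← hs n] at h6
    have h7 : L - (e + π * F.eval L) = (s (n + 1) - (e + π * F.eval L)) - (s (n + 1) - L) := by
      ring
    rw [h7]
    exact dvd_sub ((pow_dvd_pow π (Nat.le_succ n)).trans h6)
      ((pow_dvd_pow π (Nat.le_succ n)).trans h5)
  have h8 : L - (e + π * F.eval L) = 0 := by
    refine IsHausdorff.haus (I := Ideal.span {π}) (M := R) inferInstance _ fun n => ?_
    rw [conv]
    simpa using h3 n
  exact sub_eq_zero.1 h8

/-- Second order Taylor expansion along a line, with polynomial remainder. -/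
theorem exists_taylor_two {R : Type*} [CommRing R] (g : Polynomial R) (a h : R) :
    ∃ q : Polynomial R, ∀ y : R,
      g.eval (a + h * y) = g.eval a + g.derivative.eval a * (h * y) + q.eval y * (h * y) ^ 2 := by
  obtain ⟨q, hq⟩ := Polynomial.binomExpansion (g.map Polynomial.C) (Polynomial.C a)
    (Polynomial.C h * Polynomial.X)
  refine ⟨q, fun y => ?_⟩
  have := congrArg (Polynomial.eval y) hq
  have e1 : ∀ (f : Polynomial R) (z : Polynomial R), Polynomial.eval y
      (Polynomial.eval z (f.map Polynomial.C)) = f.eval (z.eval y) := by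
    intro f z
    rw [Polynomial.eval_map]
    change Polynomial.evalRingHom y (Polynomial.eval₂ Polynomial.C z f) = _
    rw [Polynomial.hom_eval₂]
    have : (Polynomial.evalRingHom y).comp Polynomial.C = RingHom.id R := by
      ext x
      simp
    rw [this, Polynomial.eval₂_id]
    rfl
  rw [Polynomial.derivative_map] at this
  simp only [Polynomial.eval_add, Polynomial.eval_mul, Polynomial.eval_pow, e1,
    Polynomial.eval_C, Polynomial.eval_X] at this
  exact this

/-- Newton–Hensel lifting in `p`-adically complete rings. -/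
theorem newtonHensel_of_complete (p : ℕ) (R : Type*) [CommRing R]
    [IsAdicComplete (Ideal.span {(p : R)}) R] : NewtonHensel p R := by
  intro g a k m hd he
  obtain ⟨c, hc⟩ := hd
  obtain ⟨e, he⟩ := he
  obtain ⟨q, hq⟩ := exists_taylor_two g a (c * (p : R) ^ (k + 1 + m))
  obtain ⟨y, hy⟩ := exists_fixed_of_complete (p : R)
    (-(Polynomial.C ((p : R) ^ m * c ^ 2)) * q * Polynomial.X ^ 2) (-e)
  simp only [Polynomial.eval_mul, Polynomial.eval_neg, Polynomial.eval_C, Polynomial.eval_pow,
    Polynomial.eval_X] at hy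
  refine ⟨a + c * (p : R) ^ (k + 1 + m) * y, ?_, ?_⟩
  · rw [hq, he]
    have h1 : g.derivative.eval a * (c * (p : R) ^ (k + 1 + m) * y)
        = (p : R) ^ (2 * k + 1 + m) * y := by
      have : g.derivative.eval a * (c * (p : R) ^ (k + 1 + m) * y)
          = (g.derivative.eval a * c) * ((p : R) ^ (k + 1 + m) * y) := by ring
      rw [this, ← hc]
      ring
    rw [h1]
    have h2 : q.eval y * (c * (p : R) ^ (k + 1 + m) * y) ^ 2
        = (p : R) ^ (2 * k + 1 + m) * ((p : R) * ((p : R) ^ m * c ^ 2 * q.eval y * y ^ 2)) := by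
      ring
    rw [h2]
    have h3 : e + y + (p : R) * ((p : R) ^ m * c ^ 2 * q.eval y * y ^ 2) = 0 := by
      linear_combination hy
    linear_combination (p : R) ^ (2 * k + 1 + m) * h3
  · have : a + c * (p : R) ^ (k + 1 + m) * y - a = (p : R) ^ (k + 1 + m) * (c * y) := by ring
    rw [this]
    exact dvd_mul_right _ _

theorem newtonHensel_witt (p : ℕ) [Fact p.Prime] (k : Type) [Field k] [CharP k p]
    [PerfectRing k p] : NewtonHensel p (WittVector p k) :=
  newtonHensel_of_complete p (WittVector p k)

theorem pVal_witt (p : ℕ) [Fact p.Prime] (k : Type) [Field k] [CharP k p]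
    [PerfectRing k p] : PVal p (WittVector p k) where
  prime := (WittVector.irreducible p).prime
  unit u hu := by
    apply WittVector.isUnit_of_coeff_zero_ne_zero
    intro h
    exact hu (Ideal.mem_span_singleton.1 ((WittVector.mem_span_p_iff_coeff_zero_eq_zero u).2 h))
  hensel := newtonHensel_witt p k

end Pool.Agent.W_MP_b723a0_ag
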