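import Mathlib
import Pool.Agent.W_MP_b723a0_ag.Defs
import Pool.Agent.W_MP_b723a0_ag.Kap
import Pool.Agent.W_MP_b723a0_ag.KapEx
import Pool.Agent.W_MP_b723a0_ag.Newton
import Pool.Agent.W_MP_b723a0_ag.Greenberg
import Pool.Agent.W_MP_b723a0_ag.ApproxZeros

open scoped TensorProduct

namespace Pool.Agent.W_MP_b723a0_ag

theorem eval₂_mul_of_isHomogeneous {A B σ : Type*} [CommRing A] [CommRing B] [Fintype σ]
    (φ : A →+* B) (d : ℕ) (f : MvPolynomial σ A) (hf : f.IsHomogeneous d) (c : B) (x : σ → B) :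
    MvPolynomial.eval₂ φ (fun i => c * x i) f = c ^ d * MvPolynomial.eval₂ φ x f := by
  rw [MvPolynomial.eval₂_eq, MvPolynomial.eval₂_eq, Finset.mul_sum]
  refine Finset.sum_congr rfl fun m hm => ?_
  have hm' : m.degree = d := by
    by_contra hne
    exact (MvPolynomial.mem_support_iff.1 hm) (hf.coeff_eq_zero hne)
  have h1 : ∏ i ∈ m.support, (c * x i) ^ m i = c ^ d * ∏ i ∈ m.support, x i ^ m i := by
    rw [← hm', Finsupp.degree_apply]
    simp_rw [mul_pow]
    rw [Finset.prod_mul_distrib, Finset.prod_pow_eq_pow_sum]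
  rw [h1]
  ring

/-- Normalising an approximate zero with a unit coordinate. -/
theorem exists_normalised {A R σ : Type*} [CommRing A] [CommRing R] [Fintype σ] {n r : ℕ}
    (φ : A →+* R) (d : ℕ) (f : Fin r → MvPolynomial σ A) (hf : ∀ j, (f j).IsHomogeneous d)
    (e : σ ≃ Fin n) (c : R) (x : σ → R) (i : σ) (hu : IsUnit (x i))
    (hx : ∀ j, c ∣ MvPolynomial.eval₂ φ x (f j)) :
    ∃ y : Fin n → R, ∀ q ∈ (Ideal.span (insert (MvPolynomial.X (e i) - 1)
      (Set.range fun j => MvPolynomial.rename e (f j))) : Ideal (MvPolynomial (Fin n) A)),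
      c ∣ MvPolynomial.eval₂ φ y q := by
  obtain ⟨v, hv⟩ := hu.exists_left_inv
  refine ⟨fun k => v * x (e.symm k), ?_⟩
  intro q hq
  refine Submodule.span_induction (p := fun q _ => c ∣
      MvPolynomial.eval₂ φ (fun k => v * x (e.symm k)) q) ?_ ?_ ?_ ?_ hq
  · intro q hq
    rcases hq with rfl | ⟨j, rfl⟩
    · simp only [MvPolynomial.eval₂_sub, MvPolynomial.eval₂_X, MvPolynomial.eval₂_one,
        Equiv.symm_apply_apply, hv, sub_self]
      exact dvd_zero _
    · show c ∣ MvPolynomial.eval₂ φ (fun k => v * x (e.symm k)) (MvPolynomial.rename e (f j))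
      rw [MvPolynomial.eval₂_rename]
      have h1 : ((fun k => v * x (e.symm k)) ∘ e : σ → R) = fun k => v * x k := by
        funext k
        simp
      rw [h1, eval₂_mul_of_isHomogeneous _ d _ (hf j)]
      exact Dvd.dvd.mul_left (hx j) _
  · simp
  · intro a b _ _ ha hb
    rw [MvPolynomial.eval₂_add]
    exact dvd_add ha hb
  · intro a b _ hb
    rw [smul_eq_mul, MvPolynomial.eval₂_mul]
    exact Dvd.dvd.mul_left hb _

theorem ne_zero_of_eval {A R : Type*} [CommRing A] [CommRing R] [Nontrivial R] {n : ℕ}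
    (φ : A →+* R) (i : Fin n) (x : Fin n → R)
    (h : MvPolynomial.eval₂ φ x (MvPolynomial.X i - 1 : MvPolynomial (Fin n) A) = 0) :
    x i ≠ 0 := by
  simp only [MvPolynomial.eval₂_sub, MvPolynomial.eval₂_X, MvPolynomial.eval₂_one] at h
  intro h0
  rw [h0, zero_sub, neg_eq_zero] at h
  exact one_ne_zero h

theorem system_zero_zp {p ℓ : ℕ} [Fact p.Prime] (hℓ : ℓ.Prime) (hne : ℓ ≠ p)
    (σ : Type) [Fintype σ] (r d : ℕ) (hd : 0 < d)
    (f : Fin r → MvPolynomial σ ℤ_[p]) (hf : ∀ j, (f j).IsHomogeneous d)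
    (hcard : r * d * ℓ ^ padicValNat ℓ d < Fintype.card σ) :
    ∃ (s : ℕ) (E : Type) (_ : Field E) (_ : CharP E p), ¬ ℓ ∣ s ∧ Nat.card E = p ^ s ∧
      ∃ x : σ → WittVector p E, x ≠ 0 ∧
        ∀ j, MvPolynomial.eval₂ (zpToWitt p E) x (f j) = 0 := by
  classical
  obtain ⟨κ, iκ, cκ, hκ⟩ := exists_isKap p ℓ hℓ
  let ι := {E : Subfield κ // ∃ s : ℕ, ¬ ℓ ∣ s ∧ Nat.card E = p ^ s}
  have hfin : ∀ E : ι, Finite E.1 := by
    rintro ⟨E, s, -, hE⟩
    apply Nat.finite_of_card_ne_zero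
    rw [hE]
    exact pow_ne_zero _ (Fact.out : p.Prime).ne_zero
  have hPV : ∀ E : ι, PVal p (WittVector p E.1) := by
    intro E
    have := hfin E
    have : PerfectRing E.1 p := inferInstance
    exact pVal_witt p E.1
  let e := Fintype.equivFin σ
  let J : Fin (Fintype.card σ) → Ideal (MvPolynomial (Fin (Fintype.card σ)) ℤ_[p]) := fun i =>
    Ideal.span (insert (MvPolynomial.X i - 1) (Set.range fun j => MvPolynomial.rename e (f j)))
  have main : ∀ B : ℕ, ∃ i, ∃ E : ι, ∃ x : Fin (Fintype.card σ) → WittVector p E.1,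
      ∀ q ∈ J i, (p : WittVector p E.1) ^ B ∣ MvPolynomial.eval₂ (zpToWitt p E.1) x q := by
    intro B
    obtain ⟨s, E, hs, hE, x, ⟨i, hi⟩, hx⟩ := approx_zeros hℓ hne hκ σ r d hd f hf hcard B
    have hu : IsUnit (x i) := (hPV ⟨E, s, hs, hE⟩).unit _ hi
    exact ⟨e i, ⟨E, s, hs, hE⟩, exists_normalised (zpToWitt p E) d f hf e _ x i hu hx⟩
  have hi : ∃ i, ∀ B : ℕ, ∃ E : ι, ∃ x : Fin (Fintype.card σ) → WittVector p E.1,
      ∀ q ∈ J i, (p : WittVector p E.1) ^ B ∣ MvPolynomial.eval₂ (zpToWitt p E.1) x q := by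
    by_contra hcon
    push Not at hcon
    choose Bf hBf using hcon
    obtain ⟨i, E, x, hx⟩ := main (Finset.univ.sup Bf)
    obtain ⟨q, hq, hq'⟩ := hBf i E x
    apply hq'
    exact (pow_dvd_pow _ (Finset.le_sup (Finset.mem_univ i))).trans (hx q hq)
  obtain ⟨i, hi⟩ := hi
  obtain ⟨E, x, hx⟩ := greenberg p (Fintype.card σ) (fun E : ι => WittVector p E.1)
    (fun E => zpToWitt p E.1) hPV (J i) hi
  obtain ⟨E, s, hs, hE⟩ := E
  refine ⟨s, E, inferInstance, inferInstance, hs, hE, fun k => x (e k), ?_, ?_⟩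
  · intro h0
    have h1 := hx (MvPolynomial.X i - 1) (Ideal.subset_span (Set.mem_insert _ _))
    apply ne_zero_of_eval _ _ _ h1
    have h2 := congrFun h0 (e.symm i)
    simpa only [Equiv.apply_symm_apply, Pi.zero_apply] using h2
  · intro j
    have h1 := hx (MvPolynomial.rename e (f j))
      (Ideal.subset_span (Set.mem_insert_of_mem _ ⟨j, rfl⟩))
    rw [MvPolynomial.eval₂_rename] at h1
    exact h1

end Pool.Agent.W_MP_b723a0_ag
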