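import Mathlib
import Pool.Agent.W_MP_b723a0_ag.Defs

open scoped TensorProduct

namespace Pool.Agent.W_MP_b723a0_ag

/-- Abstract topological Nakayama lemma used for `witt_basis`. -/
theorem wb_abstract {A B k E : Type*} [CommRing A] [CommRing B] [CommRing k] [CommRing E]
    [Algebra k E] (p : ℕ) (φ : A →+* B) (πA : A →+* k) (πB : B →+* E)
    (hcomp : ∀ a, πB (φ a) = algebraMap k E (πA a))
    (hπA : Function.Surjective πA)
    (hkerA : ∀ a, πA a = 0 → ∃ a', a = p * a')
    (hkerB : ∀ b, πB b = 0 → ∃ b', b = p * b')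
    (htors : ∀ b : B, (p : B) * b = 0 → b = 0)
    (hausA : ∀ a : A, (∀ n : ℕ, (p : A) ^ n ∣ a) → a = 0)
    (hausB : ∀ b : B, (∀ n : ℕ, (p : B) ^ n ∣ b) → b = 0)
    (compA : ∀ f : ℕ → A, (∀ n, (p : A) ^ n ∣ f (n + 1) - f n) →
      ∃ L, ∀ n, (p : A) ^ n ∣ L - f n)
    {ι : Type*} [Fintype ι] (e : Module.Basis ι k E) (b : ι → B) (hb : ∀ i, πB (b i) = e i) :
    Function.Bijective (fun c : ι → A => ∑ i, φ (c i) * b i) := by
  classical
  have hpi : ∀ c : ι → A, πB (∑ i, φ (c i) * b i) = ∑ i, πA (c i) • e i := by
    intro c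
    rw [map_sum]
    refine Finset.sum_congr rfl fun i _ => ?_
    rw [map_mul, hcomp, hb, Algebra.smul_def]
  have hsub : ∀ c d : ι → A, ∑ i, φ (c i - d i) * b i
      = ∑ i, φ (c i) * b i - ∑ i, φ (d i) * b i := by
    intro c d
    rw [← Finset.sum_sub_distrib]
    refine Finset.sum_congr rfl fun i _ => ?_
    rw [map_sub, sub_mul]
  have hmul : ∀ (n : ℕ) (c : ι → A), ∑ i, φ ((p : A) ^ n * c i) * b i
      = (p : B) ^ n * ∑ i, φ (c i) * b i := by
    intro n c
    rw [Finset.mul_sum]
    refine Finset.sum_congr rfl fun i _ => ?_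
    rw [map_mul, map_pow, map_natCast, mul_assoc]
  constructor
  · have key : ∀ (n : ℕ) (c : ι → A), ∑ i, φ (c i) * b i = 0 → ∀ i, (p : A) ^ n ∣ c i := by
      intro n
      induction n with
      | zero => intro c _ i; simp
      | succ n ih =>
        intro c hc i
        have h1 : ∑ i, πA (c i) • e i = 0 := by rw [← hpi, hc, map_zero]
        have h2 : ∀ i, πA (c i) = 0 := Fintype.linearIndependent_iff.mp e.linearIndependent _ h1
        choose c' hc' using fun i => hkerA (c i) (h2 i)
        have h3 : ∑ i, φ (c' i) * b i = 0 := by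
          apply htors
          rw [← hc]
          have := hmul 1 c'
          rw [pow_one, pow_one] at this
          rw [← this]
          refine Finset.sum_congr rfl fun i _ => ?_
          rw [← hc' i]
        obtain ⟨d, hd⟩ := ih c' h3 i
        exact ⟨d, by rw [hc' i, hd]; ring⟩
    intro c d hcd
    have h0 : ∑ i, φ (c i - d i) * b i = 0 := by
      rw [hsub]
      exact sub_eq_zero.mpr hcd
    funext i
    exact sub_eq_zero.mp (hausA _ fun n => key n (fun i => c i - d i) h0 i)
  · intro x
    have step : ∀ y : B, ∃ (c : ι → A) (z : B), y = ∑ i, φ (c i) * b i + p * z := by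
      intro y
      choose c hc using fun i => hπA (e.repr (πB y) i)
      have h1 : πB (y - ∑ i, φ (c i) * b i) = 0 := by
        rw [map_sub, hpi]
        simp only [hc]
        rw [e.sum_repr, sub_self]
      obtain ⟨z, hz⟩ := hkerB _ h1
      exact ⟨c, z, by rw [← hz]; ring⟩
    choose C Z hCZ using step
    let X : ℕ → B := fun n => Nat.rec x (fun _ y => Z y) n
    have hX : ∀ n, X n = ∑ i, φ (C (X n) i) * b i + p * X (n + 1) := fun n => hCZ (X n)
    let S : ℕ → ι → A := fun n i => ∑ j ∈ Finset.range n, (p : A) ^ j * C (X j) i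
    have hS : ∀ n, x - ∑ i, φ (S n i) * b i = (p : B) ^ n * X n := by
      intro n
      induction n with
      | zero => simp [S, X]
      | succ n ih =>
        have h1 : ∑ i, φ (S (n + 1) i) * b i
            = ∑ i, φ (S n i) * b i + (p : B) ^ n * ∑ i, φ (C (X n) i) * b i := by
          rw [← hmul, ← Finset.sum_add_distrib]
          refine Finset.sum_congr rfl fun i _ => ?_
          simp only [S]
          rw [Finset.sum_range_succ, map_add, add_mul]
        rw [h1, ← sub_sub, ih]
        have h2 := hX n
        calc (p : B) ^ n * X n - (p : B) ^ n * ∑ i, φ (C (X n) i) * b i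
            = (p : B) ^ n * (X n - ∑ i, φ (C (X n) i) * b i) := by ring
          _ = (p : B) ^ n * (p * X (n + 1)) := by
              congr 1
              rw [sub_eq_iff_eq_add']
              exact h2
          _ = (p : B) ^ (n + 1) * X (n + 1) := by ring
    have hL : ∀ i, ∃ L, ∀ n, (p : A) ^ n ∣ L - S n i := by
      intro i
      apply compA
      intro n
      refine ⟨C (X n) i, ?_⟩
      simp only [S]
      rw [Finset.sum_range_succ]
      ring
    choose L hL using hL
    refine ⟨L, ?_⟩
    have : x - ∑ i, φ (L i) * b i = 0 := by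
      apply hausB
      intro n
      choose D hD using fun i => hL i n
      refine ⟨X n - ∑ i, φ (D i) * b i, ?_⟩
      have h1 : ∑ i, φ (L i - S n i) * b i = (p : B) ^ n * ∑ i, φ (D i) * b i := by
        rw [← hmul]
        refine Finset.sum_congr rfl fun i _ => ?_
        rw [hD i]
      rw [hsub] at h1
      rw [mul_sub, ← hS n, ← h1]
      ring
    exact (sub_eq_zero.mp this).symm

theorem wb_haus (p : ℕ) [Fact p.Prime] (k : Type) [CommRing k] [CharP k p] [PerfectRing k p]
    (b : WittVector p k) (h : ∀ n : ℕ, (p : WittVector p k) ^ n ∣ b) : b = 0 := by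
  apply IsHausdorff.haus (I := Ideal.span {(p : WittVector p k)}) (M := WittVector p k)
    inferInstance
  intro n
  rw [SModEq.zero, smul_eq_mul, Ideal.mul_top, Ideal.span_singleton_pow,
    Ideal.mem_span_singleton]
  exact h n

theorem wb_comp (p : ℕ) [Fact p.Prime] (k : Type) [CommRing k] [CharP k p] [PerfectRing k p]
    (f : ℕ → WittVector p k) (h : ∀ n : ℕ, (p : WittVector p k) ^ n ∣ f (n + 1) - f n) :
    ∃ L, ∀ n, (p : WittVector p k) ^ n ∣ L - f n := by
  have hf : ∀ m d : ℕ, (p : WittVector p k) ^ m ∣ f (m + d) - f m := by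
    intro m d
    induction d with
    | zero => simp
    | succ d ih =>
      have h1 : (p : WittVector p k) ^ m ∣ f (m + d + 1) - f (m + d) :=
        (pow_dvd_pow _ (Nat.le_add_right m d)).trans (h (m + d))
      have h2 := dvd_add h1 ih
      rwa [sub_add_sub_cancel] at h2
  obtain ⟨L, hL⟩ := IsPrecomplete.prec'
    (self := (inferInstance : IsPrecomplete (Ideal.span {(p : WittVector p k)})
      (WittVector p k))) f (by
    intro m n hmn
    obtain ⟨d, rfl⟩ := Nat.exists_eq_add_of_le hmn
    rw [SModEq.sub_mem, smul_eq_mul, Ideal.mul_top, Ideal.span_singleton_pow,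
      Ideal.mem_span_singleton, ← neg_sub, dvd_neg]
    exact hf m d)
  refine ⟨L, fun n => ?_⟩
  have h1 := hL n
  rw [SModEq.sub_mem, smul_eq_mul, Ideal.mul_top, Ideal.span_singleton_pow,
      Ideal.mem_span_singleton, ← neg_sub, dvd_neg] at h1
  exact h1

theorem wb_ker (p : ℕ) [Fact p.Prime] (k : Type) [CommRing k] [CharP k p] [PerfectRing k p]
    (b : WittVector p k) (h : WittVector.constantCoeff b = 0) :
    ∃ b', b = (p : WittVector p k) * b' := by
  have h1 : b ∈ Ideal.span {(p : WittVector p k)} :=
    (WittVector.mem_span_p_iff_coeff_zero_eq_zero b).mpr h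
  exact Ideal.mem_span_singleton.mp h1

/-- `W(F_{p^s})` is free of rank `s` over `ℤ_p`. -/
theorem witt_basis (p : ℕ) [Fact p.Prime] (E : Type) [Field E] [CharP E p]
    (s : ℕ) (hE : Nat.card E = p ^ s) :
    ∃ b : Fin s → WittVector p E, Function.Bijective
      (fun c : Fin s → ℤ_[p] => ∑ i, zpToWitt p E (c i) * b i) := by
  classical
  have hp : p.Prime := Fact.out
  haveI : Finite E := Nat.finite_of_card_ne_zero (by rw [hE]; exact pow_ne_zero _ hp.ne_zero)
  letI : Algebra (ZMod p) E := ZMod.algebra E p
  haveI : Fintype E := Fintype.ofFinite E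
  have hrank : Module.finrank (ZMod p) E = s := by
    have h1 : Nat.card E = Nat.card (ZMod p) ^ Module.finrank (ZMod p) E :=
      Module.natCard_eq_pow_finrank
    rw [hE, Nat.card_zmod] at h1
    exact (Nat.pow_right_injective hp.two_le h1).symm
  let e : Module.Basis (Fin s) (ZMod p) E := Module.finBasisOfFinrankEq (ZMod p) E hrank
  let b : Fin s → WittVector p E := fun i => WittVector.teichmuller p (e i)
  refine ⟨b, ?_⟩
  haveI : PerfectRing E p := inferInstance
  haveI : PerfectRing (ZMod p) p := inferInstance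
  have key := wb_abstract (A := WittVector p (ZMod p)) (B := WittVector p E) (k := ZMod p)
    (E := E) p (WittVector.map (ZMod.castHom (dvd_refl p) E)) WittVector.constantCoeff
    WittVector.constantCoeff
    (by
      intro a
      rw [WittVector.constantCoeff_apply, WittVector.constantCoeff_apply,
        WittVector.map_coeff]
      exact congrFun (congrArg DFunLike.coe (Subsingleton.elim
        (ZMod.castHom (dvd_refl p) E) (algebraMap (ZMod p) E))) _)
    (WittVector.constantCoeff_surjective p) (wb_ker p (ZMod p)) (wb_ker p E)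
    (fun b hb => WittVector.eq_zero_of_p_mul_eq_zero b (by rw [mul_comm]; exact hb))
    (wb_haus p (ZMod p)) (wb_haus p E) (wb_comp p (ZMod p)) e b
    (by
      intro i
      rw [WittVector.constantCoeff_apply, WittVector.teichmuller_coeff_zero])
  let ψ : (Fin s → ℤ_[p]) ≃ (Fin s → WittVector p (ZMod p)) :=
    Equiv.piCongrRight fun _ => (WittVector.equiv p).symm.toEquiv
  exact key.comp ψ.bijective

end Pool.Agent.W_MP_b723a0_ag
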