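import Mathlib
import Pool.Agent.W_MP_b723a0_ag.Defs
import Pool.Agent.W_MP_b723a0_ag.WittBasis

open scoped TensorProduct

namespace Pool.Agent.W_MP_b723a0_ag

section unram

variable (p : ℕ) [Fact p.Prime] (E : Type) [Field E] [CharP E p]

theorem unram_zpToWitt_injective (s : ℕ) (hs : s ≠ 0) (hE : Nat.card E = p ^ s) :
    Function.Injective (zpToWitt p E) := by
  obtain ⟨b, hb⟩ := witt_basis p E s hE
  intro x y hxy
  have h := hb.1 (a₁ := fun _ => x) (a₂ := fun _ => y) (by simp only [hxy])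
  exact congrFun h ⟨0, Nat.pos_of_ne_zero hs⟩

theorem unram_map_zpToWitt (f : E →+* E) (a : ℤ_[p]) :
    WittVector.map f (zpToWitt p E a) = zpToWitt p E a := by
  ext n
  simp only [zpToWitt, RingHom.comp_apply, WittVector.map_coeff]
  rw [← RingHom.comp_apply f]
  congr 1
  exact RingHom.ext_zmod _ _

/-- The automorphism of `W(E)` induced by an automorphism of `E`. -/
noncomputable def unramMap (e : E ≃+* E) : WittVector p E ≃+* WittVector p E :=
  RingEquiv.ofRingHom (WittVector.map (e : E →+* E)) (WittVector.map (e.symm : E →+* E))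
    (by ext x n; simp) (by ext x n; simp)

omit [CharP E p] in
theorem unramMap_apply (e : E ≃+* E) (x : WittVector p E) :
    unramMap p E e x = WittVector.map (e : E →+* E) x := rfl

end unram

theorem exists_unramified (p : ℕ) [Fact p.Prime] (E : Type) [Field E] [CharP E p]
    (s : ℕ) (hs : s ≠ 0) (hE : Nat.card E = p ^ s) :
    ∃ (M : Type) (_ : Field M) (_ : Algebra ℚ_[p] M) (_ : FiniteDimensional ℚ_[p] M)
      (_ : IsGalois ℚ_[p] M) (ι : WittVector p E →+* M), Function.Injective ι ∧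
      Module.finrank ℚ_[p] M = s ∧
      ∀ a : ℤ_[p], ι (zpToWitt p E a) = algebraMap ℚ_[p] M (a : ℚ_[p]) := by
  classical
  have hp : p.Prime := Fact.out
  have hfin : Finite E := Nat.finite_of_card_ne_zero (by rw [hE]; exact pow_ne_zero _ hp.ne_zero)
  let W := WittVector p E
  let M := FractionRing W
  let ι : W →+* M := algebraMap W M
  have hι : Function.Injective ι := IsFractionRing.injective W M
  have hz := unram_zpToWitt_injective p E s hs hE
  have hg : Function.Injective (ι.comp (zpToWitt p E)) := hι.comp hz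
  let φ : ℚ_[p] →+* M := IsFractionRing.lift (A := ℤ_[p]) (K := ℚ_[p]) hg
  have hφ : ∀ a : ℤ_[p], φ (a : ℚ_[p]) = ι (zpToWitt p E a) := fun a =>
    IsFractionRing.lift_algebraMap hg a
  let _ : Algebra ℚ_[p] M := φ.toAlgebra
  have halg : algebraMap ℚ_[p] M = φ := rfl
  obtain ⟨b, hb⟩ := witt_basis p E s hE
  have hp0 : (p : ℚ_[p]) ≠ 0 := by
    have := hp.ne_zero
    exact_mod_cast this
  have hpM : (p : M) ≠ 0 := by
    have h1 : φ (p : ℚ_[p]) ≠ 0 := by
      rw [map_ne_zero]; exact hp0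
    simpa using h1
  -- denominators in `ℚ_p`
  have hden : ∀ c : ℚ_[p], ∃ (n : ℕ), ∀ m, n ≤ m → ∃ a : ℤ_[p], (p : ℚ_[p]) ^ m * c = (a : ℚ_[p]) := by
    intro c
    obtain ⟨x, y, hy, rfl⟩ := IsFractionRing.div_surjective (A := ℤ_[p]) c
    have hy0 : y ≠ 0 := nonZeroDivisors.ne_zero hy
    obtain ⟨n, hn⟩ : ∃ n : ℕ, ∃ u : ℤ_[p]ˣ, y = u * (p : ℤ_[p]) ^ n :=
      ⟨y.valuation, PadicInt.unitCoeff hy0, PadicInt.unitCoeff_spec hy0⟩
    obtain ⟨u, hu⟩ := hn
    refine ⟨n, fun m hm => ⟨(p : ℤ_[p]) ^ (m - n) * x * (u⁻¹ : ℤ_[p]ˣ), ?_⟩⟩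
    have hu' : ((u : ℤ_[p]) : ℚ_[p]) * (((u⁻¹ : ℤ_[p]ˣ) : ℤ_[p]) : ℚ_[p]) = 1 := by
      rw [← PadicInt.coe_mul, Units.mul_inv, PadicInt.coe_one]
    have hu0 : ((u : ℤ_[p]) : ℚ_[p]) ≠ 0 := left_ne_zero_of_mul (by rw [hu']; exact one_ne_zero)
    change (p : ℚ_[p]) ^ m * ((x : ℚ_[p]) / (y : ℚ_[p])) = _
    rw [hu]
    push_cast
    have : (p : ℚ_[p]) ^ m = (p : ℚ_[p]) ^ (m - n) * (p : ℚ_[p]) ^ n := by
      rw [← pow_add]; congr 1; omega
    rw [this]
    field_simp
    rw [mul_assoc, hu', mul_one]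
  have hden' : ∀ c : Fin s → ℚ_[p], ∃ (N : ℕ) (a : Fin s → ℤ_[p]),
      ∀ i, (p : ℚ_[p]) ^ N * c i = (a i : ℚ_[p]) := by
    intro c
    choose n hn using fun i => hden (c i)
    choose a ha using fun i => hn i (Finset.univ.sup n) (Finset.le_sup (Finset.mem_univ i))
    exact ⟨Finset.univ.sup n, a, ha⟩
  -- the basis
  let L : (Fin s → ℚ_[p]) →ₗ[ℚ_[p]] M := Fintype.linearCombination ℚ_[p] (fun i => ι (b i))
  have hL : ∀ c, L c = ∑ i, φ (c i) * ι (b i) := by
    intro c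
    simp only [L, Fintype.linearCombination_apply, Algebra.smul_def, halg]
  have hLint : ∀ a : Fin s → ℤ_[p], L (fun i => (a i : ℚ_[p])) =
      ι (∑ i, zpToWitt p E (a i) * b i) := by
    intro a
    rw [hL, map_sum]
    refine Finset.sum_congr rfl fun i _ => ?_
    rw [hφ, map_mul]
  have hLinj : Function.Injective L := by
    rw [injective_iff_map_eq_zero]
    intro c hc
    obtain ⟨N, a, ha⟩ := hden' c
    have h1 : L (fun i => (a i : ℚ_[p])) = 0 := by
      have : (fun i => (a i : ℚ_[p])) = (p : ℚ_[p]) ^ N • c := by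
        funext i; rw [Pi.smul_apply, smul_eq_mul, ha i]
      rw [this, map_smul, hc, smul_zero]
    rw [hLint, map_eq_zero_iff ι hι] at h1
    have h2 : a = 0 := by
      refine hb.1 ?_
      change _ = ∑ i, zpToWitt p E ((0 : Fin s → ℤ_[p]) i) * b i
      rw [show (∑ i, zpToWitt p E ((0 : Fin s → ℤ_[p]) i) * b i) = 0 by simp]
      exact h1
    funext i
    have h3 := ha i
    rw [h2] at h3
    simpa [hp0] using h3
  have hLsurj : Function.Surjective L := by
    intro m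
    obtain ⟨w, v, hv, rfl⟩ := IsFractionRing.div_surjective (A := W) m
    have hv0 : v ≠ 0 := nonZeroDivisors.ne_zero hv
    obtain ⟨n, u, hu⟩ := WittVector.exists_eq_pow_p_mul' (p := p) (k := E) v hv0
    obtain ⟨c, hc⟩ := hb.2 (w * ((u⁻¹ : Wˣ) : W))
    have hc' : ∑ i, zpToWitt p E (c i) * b i = w * ((u⁻¹ : Wˣ) : W) := hc
    refine ⟨((p : ℚ_[p]) ^ n)⁻¹ • fun i => (c i : ℚ_[p]), ?_⟩
    rw [map_smul, hLint, hc', Algebra.smul_def, halg, map_inv₀, map_pow, map_natCast]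
    change _ = ι w / ι v
    have hu1 : ι ((u : Wˣ) : W) * ι ((u⁻¹ : Wˣ) : W) = 1 := by
      rw [← map_mul, Units.mul_inv, map_one]
    have hu0 : ι ((u : Wˣ) : W) ≠ 0 := left_ne_zero_of_mul (by rw [hu1]; exact one_ne_zero)
    rw [hu, map_mul, map_mul, map_pow, map_natCast]
    rw [eq_div_iff (mul_ne_zero (pow_ne_zero _ hpM) hu0)]
    have hpn : ((p : M) ^ n) ≠ 0 := pow_ne_zero _ hpM
    calc ((p : M) ^ n)⁻¹ * (ι w * ι ((u⁻¹ : Wˣ) : W)) * ((p : M) ^ n * ι (u : W))
        = (((p : M) ^ n)⁻¹ * (p : M) ^ n) * ι w * (ι (u : W) * ι ((u⁻¹ : Wˣ) : W)) := by ring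
      _ = ι w := by rw [hu1, inv_mul_cancel₀ hpn]; ring
  let Le : (Fin s → ℚ_[p]) ≃ₗ[ℚ_[p]] M := LinearEquiv.ofBijective L ⟨hLinj, hLsurj⟩
  have hfd : FiniteDimensional ℚ_[p] M := Le.finiteDimensional
  have hrank : Module.finrank ℚ_[p] M = s := by
    rw [← Le.finrank_eq, Module.finrank_fin_fun]
  -- Galois
  let _ : Algebra (ZMod p) E := ZMod.algebra E p
  have hrankE : Module.finrank (ZMod p) E = s := by
    have h1 := Module.natCard_eq_pow_finrank (K := ZMod p) (V := E)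
    rw [hE, Nat.card_zmod] at h1
    exact (Nat.pow_right_injective hp.two_le h1).symm
  have hgalE : IsGalois (ZMod p) E := inferInstance
  have hcardE : Nat.card (E ≃ₐ[ZMod p] E) = s := by
    rw [IsGalois.card_aut_eq_finrank, hrankE]
  let τ : (E ≃+* E) → (M ≃+* M) := fun e =>
    IsFractionRing.ringEquivOfRingEquiv (K := M) (L := M) (unramMap p E e)
  have hτ : ∀ e w, τ e (ι w) = ι (unramMap p E e w) := fun e w =>
    IsFractionRing.ringEquivOfRingEquiv_algebraMap (K := M) (L := M) (unramMap p E e) w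
  have hτφ : ∀ e, (τ e : M →+* M).comp φ = φ := by
    intro e
    refine IsLocalization.ringHom_ext (nonZeroDivisors ℤ_[p]) ?_
    ext a
    change τ e (φ (a : ℚ_[p])) = φ (a : ℚ_[p])
    rw [hφ, hτ, unramMap_apply, unram_map_zpToWitt]
  let σ : (E ≃ₐ[ZMod p] E) → (M ≃ₐ[ℚ_[p]] M) := fun e =>
    AlgEquiv.ofRingEquiv (f := τ (e : E ≃+* E)) (fun x => RingHom.congr_fun (hτφ _) x)
  have hσ : ∀ e w, σ e (ι w) = ι (unramMap p E (e : E ≃+* E) w) := fun e w => hτ _ w
  have hσinj : Function.Injective σ := by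
    intro e e' h
    ext x
    have h1 := hσ e (WittVector.teichmuller p x)
    have h2 := hσ e' (WittVector.teichmuller p x)
    rw [h, h2] at h1
    have h3 := hι h1
    have h4 := congrArg (fun w => WittVector.coeff w 0) h3
    simpa [unramMap_apply] using h4.symm
  have hcard : Nat.card (M ≃ₐ[ℚ_[p]] M) = Module.finrank ℚ_[p] M := by
    apply le_antisymm
    · rw [Nat.card_eq_fintype_card]
      exact AlgEquiv.card_le
    · rw [hrank, ← hcardE]
      exact Nat.card_le_card_of_injective σ hσinj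
  have hgal : IsGalois ℚ_[p] M := IsGalois.of_card_aut_eq_finrank _ _ hcard
  exact ⟨M, inferInstance, inferInstance, hfd, hgal, ι, hι, hrank, fun a => (hφ a).symm⟩

end Pool.Agent.W_MP_b723a0_ag
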