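import Mathlib
import Pool.Agent.W_MP_b723a0_ag.Defs
import Pool.Agent.W_MP_b723a0_ag.SystemZp
import Pool.Agent.W_MP_b723a0_ag.Unramified
import Pool.Agent.W_MP_b723a0_ag.Compositum

open scoped TensorProduct

namespace Pool.Agent.W_MP_b723a0_ag

/-- Coefficient of top degree in a product. -/
theorem Main.coeff_prod_top {ι K : Type*} [CommSemiring K] (s : Finset ι)
    (g : ι → Polynomial K) (n : ι → ℕ) (h : ∀ i ∈ s, (g i).natDegree ≤ n i) :
    (∏ i ∈ s, g i).natDegree ≤ ∑ i ∈ s, n i ∧
      (∏ i ∈ s, g i).coeff (∑ i ∈ s, n i) = ∏ i ∈ s, (g i).coeff (n i) := by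
  classical
  induction s using Finset.induction_on with
  | empty => simp
  | insert a s ha ih =>
    have ih' := ih (fun i hi => h i (Finset.mem_insert_of_mem hi))
    have hga := h a (Finset.mem_insert_self a s)
    rw [Finset.prod_insert ha, Finset.sum_insert ha, Finset.prod_insert ha]
    refine ⟨Polynomial.natDegree_mul_le_of_le hga ih'.1, ?_⟩
    rw [Polynomial.coeff_mul_add_eq_of_natDegree_le hga ih'.1, ih'.2]

/-- A form of degree `d` restricted to an affine line. -/
theorem Main.natDegree_line {σ K : Type*} [Fintype σ] [Field K] (f : MvPolynomial σ K) (d : ℕ)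
    (hf : f.IsHomogeneous d) (a b : σ → K) (ha : MvPolynomial.eval a f ≠ 0) :
    (MvPolynomial.aeval
      (fun i => Polynomial.C (a i) * Polynomial.X + Polynomial.C (b i)) f).natDegree = d := by
  classical
  have hlin : ∀ (i : σ) (k : ℕ),
      ((Polynomial.C (a i) * Polynomial.X + Polynomial.C (b i)) ^ k).natDegree ≤ k ∧
      ((Polynomial.C (a i) * Polynomial.X + Polynomial.C (b i)) ^ k).coeff k = a i ^ k := by
    intro i k
    have h1 : (Polynomial.C (a i) * Polynomial.X + Polynomial.C (b i)).natDegree ≤ 1 :=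
      Polynomial.natDegree_linear_le
    constructor
    · simpa using Polynomial.natDegree_pow_le_of_le k h1
    · have := Polynomial.coeff_pow_of_natDegree_le (m := k) h1
      simpa using this
  have hsum : ∀ I ∈ f.support, ∑ i, I i = d := by
    intro I hI
    have := hf (MvPolynomial.mem_support_iff.mp hI)
    rw [Finsupp.weight_apply, Finsupp.sum_fintype] at this
    · simpa using this
    · intro i; simp
  rw [MvPolynomial.aeval_def, MvPolynomial.eval₂_eq']
  have hterm : ∀ I ∈ f.support,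
      (algebraMap K (Polynomial K) (f.coeff I) *
        ∏ i, (Polynomial.C (a i) * Polynomial.X + Polynomial.C (b i)) ^ I i).natDegree ≤ d ∧
      (algebraMap K (Polynomial K) (f.coeff I) *
        ∏ i, (Polynomial.C (a i) * Polynomial.X + Polynomial.C (b i)) ^ I i).coeff d =
        f.coeff I * ∏ i, a i ^ I i := by
    intro I hI
    have h := Main.coeff_prod_top (Finset.univ : Finset σ)
      (fun i => (Polynomial.C (a i) * Polynomial.X + Polynomial.C (b i)) ^ I i) (fun i => I i)
      (fun i _ => (hlin i (I i)).1)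
    rw [hsum I hI] at h
    rw [Polynomial.algebraMap_eq]
    refine ⟨(Polynomial.natDegree_C_mul_le _ _).trans h.1, ?_⟩
    rw [Polynomial.coeff_C_mul, h.2]
    congr 1
    exact Finset.prod_congr rfl (fun i _ => (hlin i (I i)).2)
  apply le_antisymm
  · exact Polynomial.natDegree_sum_le_of_forall_le _ _ (fun I hI => (hterm I hI).1)
  · apply Polynomial.le_natDegree_of_ne_zero
    rw [Polynomial.finsetSum_coeff, Finset.sum_congr rfl (fun I hI => (hterm I hI).2)]
    rwa [MvPolynomial.eval_eq'] at ha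

/-- A polynomial of degree prime to `ℓ` has a root in an extension of degree prime to `ℓ`. -/
theorem Main.exists_root_coprime {K : Type} [Field K] (ℓ : ℕ) (g : Polynomial K)
    (hg : ¬ ℓ ∣ g.natDegree) :
    ∃ (L : Type) (_ : Field L) (_ : Algebra K L), FiniteDimensional K L ∧
      ¬ ℓ ∣ Module.finrank K L ∧ ∃ t : L, Polynomial.aeval t g = 0 := by
  classical
  have hg0 : g ≠ 0 := by
    rintro rfl; simp at hg
  have hassoc := UniqueFactorizationMonoid.factors_prod hg0
  have hdeg : g.natDegree =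
      ((UniqueFactorizationMonoid.factors g).map Polynomial.natDegree).sum := by
    have h1 := Polynomial.natDegree_multiset_prod
      (t := UniqueFactorizationMonoid.factors g)
      (fun h0 => (UniqueFactorizationMonoid.irreducible_of_factor _ h0).ne_zero rfl)
    rw [← h1]
    exact (Polynomial.natDegree_eq_of_degree_eq
      (Polynomial.degree_eq_degree_of_associated hassoc)).symm
  have hex : ∃ q ∈ UniqueFactorizationMonoid.factors g, ¬ ℓ ∣ q.natDegree := by
    by_contra hcon
    push Not at hcon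
    apply hg
    rw [hdeg]
    apply Multiset.dvd_sum
    intro x hx
    rw [Multiset.mem_map] at hx
    obtain ⟨q, hq, rfl⟩ := hx
    exact hcon q hq
  obtain ⟨q, hq, hqd⟩ := hex
  have hirr : Irreducible q := UniqueFactorizationMonoid.irreducible_of_factor q hq
  have : Fact (Irreducible q) := ⟨hirr⟩
  refine ⟨AdjoinRoot q, inferInstance, inferInstance, ?_, ?_, AdjoinRoot.root q, ?_⟩
  · exact (AdjoinRoot.powerBasis hirr.ne_zero).finite
  · rw [(AdjoinRoot.powerBasis hirr.ne_zero).finrank, AdjoinRoot.powerBasis_dim]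
    exact hqd
  · have hdvd : q ∣ g := UniqueFactorizationMonoid.dvd_of_mem_factors hq
    obtain ⟨c, hc⟩ := hdvd
    rw [hc, map_mul, AdjoinRoot.aeval_eq, AdjoinRoot.mk_self, zero_mul]

/-- The elementary case `ℓ ∤ d`. -/
theorem Main.case_coprime (K : Type) [Field K] (n d : ℕ)
    (f : MvPolynomial (Fin (n + 1)) K) (hom : f.IsHomogeneous d) (ℓ : ℕ) (hℓ : ℓ.Prime)
    (h : ¬ ℓ ∣ d) (hn : 1 ≤ n) :
    ∃ (L : Type) (_ : Field L) (_ : Algebra K L),
        FiniteDimensional K L ∧ ¬ ℓ ∣ Module.finrank K L ∧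
        ∃ x : Fin (n + 1) → L, x ≠ 0 ∧ MvPolynomial.aeval x f = 0 := by
  classical
  set a : Fin (n + 1) → K := Pi.single 0 1 with ha
  set b : Fin (n + 1) → K := Pi.single (Fin.last n) 1 with hb
  have h0n : (Fin.last n : Fin (n + 1)) ≠ 0 := by
    intro hh
    have := congrArg Fin.val hh
    simp at this
    omega
  by_cases hfa : MvPolynomial.eval a f = 0
  · refine ⟨K, inferInstance, inferInstance, inferInstance, ?_, a, ?_, ?_⟩
    · rw [Module.finrank_self]
      exact hℓ.one_lt.ne' ∘ Nat.dvd_one.mp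
    · intro hz
      have := congrFun hz 0
      simp [ha] at this
    · rw [MvPolynomial.aeval_def]
      simpa [MvPolynomial.eval₂_id] using hfa
  · set g := MvPolynomial.aeval
      (fun i => Polynomial.C (a i) * Polynomial.X + Polynomial.C (b i)) f with hg
    have hdeg : g.natDegree = d := Main.natDegree_line f d hom a b hfa
    obtain ⟨L, hL1, hL2, hL3, hL4, t, ht⟩ := Main.exists_root_coprime ℓ g (by rw [hdeg]; exact h)
    refine ⟨L, hL1, hL2, hL3, hL4, fun i => algebraMap K L (a i) * t + algebraMap K L (b i), ?_, ?_⟩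
    · intro hz
      have h1 := congrFun hz (Fin.last n)
      simp [ha, hb, h0n] at h1
    · have h2 : Polynomial.aeval t g = MvPolynomial.aeval
          (fun i => algebraMap K L (a i) * t + algebraMap K L (b i)) f := by
        rw [hg, ← AlgHom.comp_apply, MvPolynomial.comp_aeval]
        congr 2
        funext i
        simp
      rw [← h2, ht]

theorem main (p : ℕ) [Fact p.Prime] (K : Type) [Field K] [Algebra ℚ_[p] K]
    [FiniteDimensional ℚ_[p] K] (n d : ℕ) (f : MvPolynomial (Fin (n + 1)) K)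
    (hd : 1 ≤ d) (hom : f.IsHomogeneous d) (ℓ : ℕ) (hℓ : ℓ.Prime)
    (h : (ℓ ≠ p ∧ d * ℓ ^ padicValNat ℓ d ≤ n) ∨ (¬ ℓ ∣ d ∧ 1 ≤ n)) :
    ∃ (L : Type) (_ : Field L) (_ : Algebra K L),
        FiniteDimensional K L ∧ ¬ ℓ ∣ Module.finrank K L ∧
        ∃ x : Fin (n + 1) → L, x ≠ 0 ∧ MvPolynomial.aeval x f = 0 := by
  classical
  rcases h with ⟨hne, hn⟩ | ⟨hnd, hn⟩
  swap
  · exact Main.case_coprime K n d f hom ℓ hℓ hnd hn
  set r := Module.finrank ℚ_[p] K with hr
  have hrpos : 0 < r := Module.finrank_pos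
  set ω : Module.Basis (Fin r) ℚ_[p] K := Module.finBasis ℚ_[p] K with hω
  set σ := Fin r × Fin (n + 1) with hσ
  -- the expanded form over K
  set F : MvPolynomial σ K := MvPolynomial.aeval
    (fun i => ∑ j, MvPolynomial.C (ω j) * MvPolynomial.X (R := K) (j, i)) f with hF
  have hFhom : F.IsHomogeneous d := by
    have := hom.aeval (S := K) (τ := σ) (n := 1)
      (fun i => ∑ j, MvPolynomial.C (ω j) * MvPolynomial.X (R := K) (j, i)) (by
        intro i
        apply MvPolynomial.IsHomogeneous.sum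
        intro j _
        exact MvPolynomial.IsHomogeneous.C_mul (MvPolynomial.isHomogeneous_X _ _) _)
    rwa [one_mul] at this
  have hsum : ∀ I ∈ F.support, I.degree = d := by
    intro I hI
    by_contra hne'
    exact MvPolynomial.mem_support_iff.mp hI (hFhom.coeff_eq_zero hne')
  -- clear denominators
  obtain ⟨β, hβ⟩ := IsLocalization.exist_integer_multiples_of_finset (nonZeroDivisors ℤ_[p])
    ((Finset.univ ×ˢ F.support).image
      (fun q : Fin r × (σ →₀ ℕ) => ω.repr (F.coeff q.2) q.1 : _ → ℚ_[p]))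
  have hβ' : ∀ (k : Fin r) (I : σ →₀ ℕ), I ∈ F.support → ∃ c : ℤ_[p],
      algebraMap ℤ_[p] ℚ_[p] c = (β : ℤ_[p]) • (ω.repr (F.coeff I) k) := by
    intro k I hI
    exact hβ _ (Finset.mem_image.mpr ⟨(k, I), by simp [Finset.mem_product] at hI ⊢; exact hI, rfl⟩)
  choose! c hc using hβ'
  set G : Fin r → MvPolynomial σ ℤ_[p] := fun k =>
    ∑ I ∈ F.support, MvPolynomial.monomial I (c k I) with hG
  have hGhom : ∀ k, (G k).IsHomogeneous d := by
    intro k
    apply MvPolynomial.IsHomogeneous.sum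
    intro I hI
    exact MvPolynomial.isHomogeneous_monomial _ (hsum I hI)
  have hcard : r * d * ℓ ^ padicValNat ℓ d < Fintype.card σ := by
    have hcard' : Fintype.card σ = r * (n + 1) := by
      simp only [σ, Fintype.card_prod, Fintype.card_fin]
    rw [hcard', mul_assoc]
    exact Nat.mul_lt_mul_of_pos_left (Nat.lt_succ_of_le hn) hrpos
  obtain ⟨s, E, _, _, hs, hE, x, hx0, hx⟩ := system_zero_zp hℓ hne σ r d hd G hGhom hcard
  have hs0 : s ≠ 0 := by rintro rfl; simp at hs
  obtain ⟨M, _, _, _, _, ι, hι, hMs, hιa⟩ := exists_unramified p E s hs0 hE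
  set z : σ → M := fun q => ι (x q) with hz
  have hz0 : ∃ q, z q ≠ 0 := by
    by_contra hcon
    push Not at hcon
    apply hx0
    funext q
    apply hι
    rw [Pi.zero_apply, map_zero]
    exact hcon q
  have hGz : ∀ k, ∑ I ∈ F.support, algebraMap ℚ_[p] M (c k I : ℚ_[p]) * ∏ q, z q ^ I q = 0 := by
    intro k
    have h1 := congrArg ι (hx k)
    rw [map_zero, hG, MvPolynomial.eval₂_sum, map_sum] at h1
    rw [← h1]
    refine Finset.sum_congr rfl (fun I _ => ?_)
    rw [MvPolynomial.eval₂_monomial, map_mul, hιa, Finsupp.prod_fintype, map_prod]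
    · simp only [map_pow, hz]
    · intro q; simp
  -- the point in K ⊗ M
  set Y : Fin (n + 1) → K ⊗[ℚ_[p]] M := fun i => ∑ j, ω j ⊗ₜ[ℚ_[p]] z (j, i) with hY
  have hY0 : ∃ i, Y i ≠ 0 := by
    obtain ⟨⟨j₀, i₀⟩, hq⟩ := hz0
    refine ⟨i₀, fun hcon => hq ?_⟩
    have h1 := TensorProduct.sum_tmul_basis_left_eq_zero (R := ℚ_[p]) (N := M) ω
      (Finsupp.equivFunOnFinite.symm (fun j => z (j, i₀))) (by
        rw [Finsupp.sum_fintype]
        · simpa [hY] using hcon
        · intro j; simp)
    have := DFunLike.congr_fun h1 j₀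
    simpa using this
  have hYf : MvPolynomial.aeval Y f = 0 := by
    have h1 : MvPolynomial.aeval Y f = MvPolynomial.aeval
        (fun q => (1 : K) ⊗ₜ[ℚ_[p]] z q) F := by
      rw [hF, ← AlgHom.comp_apply, MvPolynomial.comp_aeval]
      congr 2
      funext i
      rw [hY, map_sum]
      refine Finset.sum_congr rfl (fun j _ => ?_)
      rw [map_mul, MvPolynomial.aeval_X, MvPolynomial.aeval_C,
        Algebra.TensorProduct.algebraMap_apply, Algebra.TensorProduct.tmul_mul_tmul]
      simp
    rw [h1]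
    have h2 : MvPolynomial.aeval (fun q => (1 : K) ⊗ₜ[ℚ_[p]] z q) F =
        ∑ I ∈ F.support, (F.coeff I) ⊗ₜ[ℚ_[p]] (∏ q, z q ^ I q) := by
      rw [MvPolynomial.aeval_def, MvPolynomial.eval₂_eq']
      refine Finset.sum_congr rfl (fun I _ => ?_)
      have h3 : (∏ q, ((1 : K) ⊗ₜ[ℚ_[p]] z q) ^ I q) = (1 : K) ⊗ₜ[ℚ_[p]] (∏ q, z q ^ I q) := by
        have := map_prod (Algebra.TensorProduct.includeRight (R := ℚ_[p]) (A := K) (B := M))
          (fun q => z q ^ I q) Finset.univ
        simp only [map_pow, Algebra.TensorProduct.includeRight_apply] at this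
        exact this.symm
      rw [h3, Algebra.TensorProduct.algebraMap_apply, Algebra.TensorProduct.tmul_mul_tmul]
      simp
    rw [h2]
    have hβ0 : algebraMap ℤ_[p] ℚ_[p] (β : ℤ_[p]) ≠ 0 := by
      have := nonZeroDivisors.ne_zero β.2
      intro hcon
      exact this ((IsFractionRing.injective ℤ_[p] ℚ_[p]) (by rw [hcon, map_zero]))
    have h4 : (algebraMap ℤ_[p] ℚ_[p] (β : ℤ_[p])) •
        (∑ I ∈ F.support, (F.coeff I) ⊗ₜ[ℚ_[p]] (∏ q, z q ^ I q)) = 0 := by
      rw [Finset.smul_sum]
      have h5 : ∀ I ∈ F.support, (algebraMap ℤ_[p] ℚ_[p] (β : ℤ_[p])) •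
          ((F.coeff I) ⊗ₜ[ℚ_[p]] (∏ q, z q ^ I q)) =
          ∑ k, ω k ⊗ₜ[ℚ_[p]] (algebraMap ℚ_[p] M (c k I : ℚ_[p]) * ∏ q, z q ^ I q) := by
        intro I hI
        conv_lhs => rw [← ω.sum_repr (F.coeff I)]
        rw [TensorProduct.sum_tmul, Finset.smul_sum]
        refine Finset.sum_congr rfl (fun k _ => ?_)
        rw [← Algebra.smul_def, TensorProduct.smul_tmul, ← TensorProduct.tmul_smul, smul_smul]
        congr 2
        have := hc k I hI
        rw [Algebra.smul_def] at this
        exact this.symm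
      rw [Finset.sum_congr rfl h5, Finset.sum_comm]
      apply Finset.sum_eq_zero
      intro k _
      rw [← TensorProduct.tmul_sum, hGz k, TensorProduct.tmul_zero]
    exact (smul_eq_zero.mp h4).resolve_left hβ0
  obtain ⟨i₀, hi₀⟩ := hY0
  obtain ⟨L, _, _, φ, hL1, hL2, hL3⟩ := exists_compositum ℚ_[p] K M (Y i₀) hi₀
  refine ⟨L, inferInstance, inferInstance, hL1, ?_, fun i => φ (Y i), ?_, ?_⟩
  · intro hdvd
    exact hs (hMs ▸ hdvd.trans hL2)
  · intro hcon
    exact hL3 (congrFun hcon i₀)
  · have : MvPolynomial.aeval (fun i => φ (Y i)) f = φ (MvPolynomial.aeval Y f) := by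
      rw [← AlgHom.comp_apply, MvPolynomial.comp_aeval]
    rw [this, hYf, map_zero]

end Pool.Agent.W_MP_b723a0_ag
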