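import Mathlib
import Pool.Agent.W_MP_b723a0_ag.Main

namespace Pool.Agent.Results.MP_b723a0_ag.PrimeToP

/-- Let `K` be a finite extension of `ℚ_p`, `f` a form of degree `d ≥ 1` in `n + 1` variables
over `K` and `ℓ` a prime number such that `ℓ ≠ p` or `p ∤ d`. If `n ≥ d ℓ ^ v`, where `v` is the
exponent of `ℓ` in `d` (in particular if `n ≥ d ^ 2`), then `f` has a nontrivial zero in a finite
extension of `K` of degree prime to `ℓ`. -/
theorem result : ∀ (p : ℕ) [Fact p.Prime] (K : Type) [Field K] [Algebra ℚ_[p] K]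
    [FiniteDimensional ℚ_[p] K] (n d : ℕ) (f : MvPolynomial (Fin (n + 1)) K),
    1 ≤ d → f.IsHomogeneous d →
    ∀ ℓ : ℕ, ℓ.Prime → (ℓ ≠ p ∨ ¬ p ∣ d) → d * ℓ ^ padicValNat ℓ d ≤ n →
      ∃ (L : Type) (_ : Field L) (_ : Algebra K L),
        FiniteDimensional K L ∧ ¬ ℓ ∣ Module.finrank K L ∧
        ∃ x : Fin (n + 1) → L, x ≠ 0 ∧ MvPolynomial.aeval x f = 0 := by
  intro p _ K _ _ _ n d f hd hom ℓ hℓ hp hn
  apply Pool.Agent.W_MP_b723a0_ag.main p K n d f hd hom ℓ hℓ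
  by_cases hne : ℓ = p
  · right
    have hpd : ¬ p ∣ d := hp.resolve_left (fun h => h hne)
    rw [hne]
    refine ⟨hpd, ?_⟩
    have h1 : 1 ≤ ℓ ^ padicValNat ℓ d := Nat.one_le_pow _ _ hℓ.pos
    calc 1 = 1 * 1 := rfl
      _ ≤ d * ℓ ^ padicValNat ℓ d := Nat.mul_le_mul hd h1
      _ ≤ n := hn
  · left
    exact ⟨hne, hn⟩

end Pool.Agent.Results.MP_b723a0_ag.PrimeToP
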